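import Pool.Agent.H88.TU.Def

/-! # [H88 TU STA] The statements of the modules of TSU with the exponent as a parameter (for the explicit version) -/

namespace Pool.Agent.H88.TU

open Finset Polynomial Pool.Agent.H8.AA Pool.Agent.H88.A2 in
def LioS (n m κ : ℕ) : Prop :=
    ∀ B : ℕ, 2 ≤ B → ∀ f : ℤ[X], f.natDegree = n →
    (∀ i, |f.coeff i| ≤ (B : ℤ)) → Irreducible (f.map (Int.castRingHom ℚ)) → ∀ θ : ℝ, aeval θ f = 0 →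
    ∀ h : ℝ, 1 ≤ h → ∀ p : ℤ[X], p.natDegree ≤ m → (∀ i, |(p.coeff i : ℝ)| ≤ h) → aeval θ p ≠ 0 →
    1 ≤ (B : ℝ) ^ κ * h ^ (n - 1) * |aeval θ p|

open Finset Polynomial Pool.Agent.H8.AA Pool.Agent.H88.A2 in
def GdxS (n κ : ℕ) : Prop :=
    ∀ B : ℕ, 2 ≤ B → ∀ G : MvPolynomial (Fin 2) ℤ, G.totalDegree ≤ n →
    Irreducible (MvPolynomial.map (Int.castRingHom ℚ) (MvPolynomial.homogeneousComponent n G)) →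
    (∀ m, |G.coeff m| + 1 ≤ (B : ℤ)) → ∀ B' : ℕ, B ^ κ ≤ B' → Bas n B' (ar G) ∧ Bas n B' (sw (ar G))

open Finset Polynomial Pool.Agent.H8.AA Pool.Agent.H88.A2 in
def NexS (n κ : ℕ) : Prop :=
    ∀ B : ℕ, 2 ≤ B → ∀ (e : ℕ → ℕ → ℤ) (H : ℝ), 1 ≤ H → Bs n B H e →
    Gd n (1 / (B : ℝ)) e → ∀ x y : ℤ, |y| ≤ |x| → (B : ℝ) ^ κ * H ≤ |(x : ℝ)| → ev n e x y = 0 →
      ∃ t : ℝ, Ct n ((B : ℝ) ^ κ) H e t ∧ |(y : ℝ) - t * x - be n e t| ≤ (B : ℝ) ^ κ * H ^ 2 / |(x : ℝ)|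

open Finset Polynomial Pool.Agent.H8.AA Pool.Agent.H88.A2 in
def CubS (n k κ : ℕ) : Prop :=
    ∀ B : ℕ, 2 ≤ B → ∀ f : ℤ[X], f.natDegree = n →
    (∀ i, |f.coeff i| ≤ (B : ℤ)) → Irreducible (f.map (Int.castRingHom ℚ)) → ∀ θ : ℝ, aeval θ f = 0 → |θ| ≤ 2 →
    ∀ H h η A : ℝ, 1 ≤ h → h ≤ H → η * ((B : ℝ) ^ κ * h ^ (n - 1)) ≤ 1 → ∀ U : Finset (Fin (k + 1) → ℤ),
      (∀ u ∈ U, (∀ i, |(u i : ℝ)| ≤ H) ∧ |∑ i, (u i : ℝ) * θ ^ (i : ℕ) - A| ≤ η) →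
      (U.card : ℝ) ≤ (B : ℝ) ^ κ * (H / h) ^ k

open Finset Polynomial Pool.Agent.H8.AA Pool.Agent.H88.A2 in
def DghS (n k κ : ℕ) : Prop :=
    ∀ B : ℕ, 2 ≤ B → ∀ f : ℤ[X], f.natDegree = n →
    (∀ i, |f.coeff i| ≤ (B : ℤ)) → Irreducible (f.map (Int.castRingHom ℚ)) → ∀ θ : ℝ, aeval θ f = 0 → |θ| ≤ 2 →
    ∀ (H : ℕ) (h : ℝ), 1 ≤ H → 1 ≤ h → h ≤ H → ∀ x y N : ℤ, |(y : ℝ) - θ * x| ≤ B * H →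
    (B : ℝ) ^ κ * h ^ (n - 1) * (H : ℝ) ^ 2 ≤ |(x : ℝ)| → ∀ T : Finset (Ix k → ℤ),
    (∀ c ∈ T, (∀ p, |c p| ≤ (H : ℤ)) ∧ ev k (co c) x y = N) →
    (T.card : ℝ) ≤ (B : ℝ) ^ κ * (2 * (H : ℝ) + 1) ^ (Fintype.card (Ix k) - (k + 1)) / h ^ k

open Finset Polynomial Pool.Agent.H8.AA Pool.Agent.H88.A2 in
def ExpS (n κ : ℕ) : Prop :=
    ∀ K H : ℝ, 2 ≤ K → 1 ≤ H → ∀ (e : ℕ → ℕ → ℤ) (t : ℝ), Bs n K H e → |t| ≤ 2 →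
    ∃ q : ℕ → ℕ → ℝ, (∀ i m, m ≤ i → i ≤ n → |q i m| ≤ K ^ κ * H ^ (i - m)) ∧ q 0 0 = aeval t (fm e n) ∧
      q 1 0 = aeval t (fm e (n - 1)) ∧ q 1 1 = aeval t (derivative (fm e n)) ∧
      q 2 0 = aeval t (fm e (n - 2)) ∧ q 2 1 = aeval t (derivative (fm e (n - 1))) ∧
      q 2 2 = aeval t (derivative (derivative (fm e n))) / 2 ∧
      ∀ x s : ℝ, evR n e x (t * x + s) = ∑ i ∈ range (n + 1), ∑ m ∈ range (i + 1), q i m * s ^ m * x ^ (n - i)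

open Finset Polynomial Pool.Agent.H8.AA Pool.Agent.H88.A2 in
def Cu1S (n k κ : ℕ) : Prop :=
    ∀ K H : ℝ, 2 ≤ K → 1 ≤ H → ∀ (e : ℕ → ℕ → ℤ) (t : ℝ), Ct n K H e t →
    ∀ X : ℝ, K ^ κ * H ^ 3 ≤ |gm n e t| * X → K ^ κ * H ^ 2 ≤ X → ∀ x₀ x₁ x₂ y₀ y₁ y₂ : ℝ,
      Np n k K H X e t x₀ y₀ → Np n k K H X e t x₁ y₁ → Np n k K H X e t x₂ y₂ → 1 ≤ x₁ - x₀ → 1 ≤ x₂ - x₁ →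
      (x₁ - x₀) * (y₂ - y₀) = (x₂ - x₀) * (y₁ - y₀) →
      |gm n e t| * ((x₁ - x₀) * (x₂ - x₁)) ≤ K ^ κ * H

open Finset Polynomial Pool.Agent.H8.AA Pool.Agent.H88.A2 in
def Cu2S (n k κ : ℕ) : Prop :=
    ∀ K H : ℝ, 2 ≤ K → 1 ≤ H → ∀ (e : ℕ → ℕ → ℤ) (t : ℝ), Ct n K H e t →
    ∀ X : ℝ, K ^ κ * H ^ 2 ≤ X → ∀ x₀ x₁ x₂ y₀ y₁ y₂ : ℤ,
      Np n k K H X e t x₀ y₀ → Np n k K H X e t x₁ y₁ → Np n k K H X e t x₂ y₂ →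
      |(x₁ : ℝ) - x₀| ≤ X / (K ^ κ * H) → |(x₂ : ℝ) - x₀| ≤ X / (K ^ κ * H) → |(x₂ : ℝ) - x₁| ≤ X / (K ^ κ * H) →
      (x₁ - x₀) * (y₂ - y₀) = (x₂ - x₀) * (y₁ - y₀)

open Finset Polynomial Pool.Agent.H8.AA Pool.Agent.H88.A2 in
def Cu3S (n k κ : ℕ) : Prop :=
    ∀ K H : ℝ, 2 ≤ K → 1 ≤ H → ∀ (e : ℕ → ℕ → ℤ) (t : ℝ), Ct n K H e t →
    ∀ X : ℝ, K ^ κ * H ^ 3 ≤ |gm n e t| * X → K ^ κ * H ^ 2 ≤ X → ∀ T : Finset (ℤ × ℤ),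
      (∀ P ∈ T, X ≤ |(P.1 : ℝ)| ∧ |(P.1 : ℝ)| ≤ 2 * X ∧ |(P.2 : ℝ) - t * P.1 - be n e t| ≤ K * H ^ 2 / X ∧
        |(ev n e P.1 P.2 : ℝ)| ≤ K * H * X ^ k) →
      (T.card : ℝ) ≤ K ^ κ * H * (1 + Real.sqrt (H / |gm n e t|))

open Finset Polynomial Pool.Agent.H8.AA Pool.Agent.H88.A2 in
def GamS (n j κ : ℕ) : Prop :=
    ∀ B : ℕ, 2 ≤ B → ∀ e : ℕ → ℕ → ℤ, Bas n B e →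
    ∀ (H : ℕ) (h : ℝ), 1 ≤ H → 1 ≤ h → h ≤ H → ∀ T : Finset (Ix j → ℤ),
    (∀ c ∈ T, (∀ p, |c p| ≤ (H : ℤ)) ∧ ∃ t : ℝ, |t| ≤ 2 ∧ aeval t (fm e n) = 0 ∧
      |gm n (ad e c) t| * ((B : ℝ) ^ κ * h ^ (n - 1)) ≤ 1) →
    (T.card : ℝ) ≤ (B : ℝ) ^ κ * (2 * (H : ℝ) + 1) ^ (Fintype.card (Ix j) - 1) / h ^ (n - 2)

open Finset Polynomial Pool.Agent.H8.AA Pool.Agent.H88.A2 in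
def FgmS (n κ : ℕ) : Prop :=
    ∀ B : ℕ, 2 ≤ B → ∀ G : MvPolynomial (Fin 2) ℤ, G.totalDegree ≤ n →
    Irreducible (MvPolynomial.map (Int.castRingHom ℚ) (MvPolynomial.homogeneousComponent n G)) →
    (∀ m, |G.coeff m| + 1 ≤ (B : ℤ)) → Pool.Agent.H88.TS.Flx n G →
    (∀ t : ℝ, aeval t (fm (ar G) n) = 0 → 1 ≤ (B : ℝ) ^ κ * |gm n (ar G) t|) ∧
    (∀ t : ℝ, aeval t (fm (sw (ar G)) n) = 0 → 1 ≤ (B : ℝ) ^ κ * |gm n (sw (ar G)) t|)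

open Finset Polynomial Pool.Agent.H8.AA Pool.Agent.H88.A2 in
def Fi3S (n κ : ℕ) : Prop :=
    ∀ B H : ℕ, 2 ≤ B → 1 ≤ H → ∀ e : ℕ → ℕ → ℤ, Fb n B H e →
    ∀ X₁ : ℝ, (H : ℝ) ^ 2 ≤ X₁ → X₁ ≤ (H : ℝ) ^ (n + 1) → ∀ T : Finset (Ix 3 → ℤ),
    (∀ c ∈ T, (∀ p, |c p| ≤ (H : ℤ)) ∧ ∃ x y : ℤ, |y| ≤ |x| ∧ (B : ℝ) ^ κ * H ≤ |(x : ℝ)| ∧ |(x : ℝ)| ≤ X₁ ∧
      ev n e x y + ev 3 (co c) x y = 0) →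
    (T.card : ℝ) ≤ (B : ℝ) ^ κ * (1 + Real.log X₁) * (2 * (H : ℝ) + 1) ^ 6 * (X₁ * ((H : ℝ) ^ 2 / X₁) ^ (3 / ((n : ℝ) - 1)))

open Finset Polynomial Pool.Agent.H8.AA Pool.Agent.H88.A2 in
def FikS (n k κ : ℕ) : Prop :=
    ∀ B H : ℕ, 2 ≤ B → 1 ≤ H → ∀ e : ℕ → ℕ → ℤ, Fb n B H e →
    ∀ g h X₁ X₂ : ℝ, 0 < g → g ≤ H → 1 ≤ h → h ≤ H → (∀ t : ℝ, |t| ≤ 2 → aeval t (fm e n) = 0 → g ≤ |gm n e t|) →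
    (B : ℝ) ^ κ * (H : ℝ) ^ 3 ≤ g * X₁ → (B : ℝ) ^ κ * h ^ (n - 1) * (H : ℝ) ^ 2 ≤ X₁ → X₁ ≤ X₂ → ∀ T : Finset (Ix k → ℤ),
    (∀ c ∈ T, (∀ p, |c p| ≤ (H : ℤ)) ∧ ∃ x y : ℤ, |y| ≤ |x| ∧ X₁ ≤ |(x : ℝ)| ∧ |(x : ℝ)| ≤ X₂ ∧ ev n e x y + ev k (co c) x y = 0) →
    (T.card : ℝ) ≤ (B : ℝ) ^ κ * (1 + Real.log X₂) * (H * Real.sqrt (H / g)) *
      (2 * (H : ℝ) + 1) ^ (Fintype.card (Ix k) - (k + 1)) / h ^ k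

open Finset Polynomial Pool.Agent.H8.AA Pool.Agent.H88.A2 in
def RgaS (n j κ : ℕ) : Prop :=
    ∀ B : ℕ, 2 ≤ B → ∀ e : ℕ → ℕ → ℤ, Bas n B e →
    ∀ H : ℕ, 1 ≤ H → ∀ T : Finset (Ix j → ℤ),
    (∀ c ∈ T, (∀ p, |c p| ≤ (H : ℤ)) ∧ ∃ x y : ℤ, |y| ≤ |x| ∧ (B : ℝ) ^ κ * H ≤ |(x : ℝ)| ∧ |(x : ℝ)| ≤ (H : ℝ) ^ al n ∧
      ev n e x y + ev j (co c) x y = 0) →
    (T.card : ℝ) ≤ (B : ℝ) ^ κ * (2 * (H : ℝ) + 1) ^ (Fintype.card (Ix j) - 1) * (H : ℝ) ^ (-dl n)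

open Finset Polynomial Pool.Agent.H8.AA Pool.Agent.H88.A2 in
def RgbS (n j E κ₁ κ : ℕ) : Prop :=
    ∀ B : ℕ, 2 ≤ B → ∀ e : ℕ → ℕ → ℤ, Bas n B e →
    ∀ H : ℕ, 1 ≤ H → ∀ T : Finset (Ix j → ℤ),
    (∀ c ∈ T, (∀ p, |c p| ≤ (H : ℤ)) ∧
      (∀ t : ℝ, |t| ≤ 2 → aeval t (fm e n) = 0 →
        (H : ℝ) ^ (-(1 / ((n : ℝ) - 1))) ≤ (B : ℝ) ^ κ₁ * |gm n (ad e c) t|) ∧
      ∃ x y : ℤ, |y| ≤ |x| ∧ (H : ℝ) ^ al n ≤ |(x : ℝ)| ∧ |(x : ℝ)| ≤ ((B * H : ℕ) : ℝ) ^ E ∧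
      ev n e x y + ev j (co c) x y = 0) →
    (T.card : ℝ) ≤ (B : ℝ) ^ κ * (2 * (H : ℝ) + 1) ^ (Fintype.card (Ix j) - 1) * (H : ℝ) ^ (-dl n)

open Finset Polynomial Pool.Agent.H8.AA Pool.Agent.H88.A2 in
def ChrS (n j E κ : ℕ) : Prop :=
    ∀ B : ℕ, 2 ≤ B → ∀ e : ℕ → ℕ → ℤ, Bas n B e →
    (j + 3 ≤ n → ∀ t : ℝ, aeval t (fm e n) = 0 → 1 ≤ (B : ℝ) * |gm n e t|) →
    ∀ H : ℕ, 1 ≤ H → ∀ T : Finset (Ix j → ℤ),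
    (∀ c ∈ T, (∀ p, |c p| ≤ (H : ℤ)) ∧ ∃ x y : ℤ, |y| ≤ |x| ∧ (B : ℝ) ^ κ * H ≤ |(x : ℝ)| ∧ |(x : ℝ)| ≤ ((B * H : ℕ) : ℝ) ^ E ∧
      ev n e x y + ev j (co c) x y = 0) →
    (T.card : ℝ) ≤ (B : ℝ) ^ κ * (2 * (H : ℝ) + 1) ^ (Fintype.card (Ix j) - 1) * (H : ℝ) ^ (-dl n)

open Finset MvPolynomial Pool.Agent.H8.AA Pool.Agent.H88.A2 in
def MixS (n j E κ : ℕ) : Prop :=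
    ∀ B : ℕ, 2 ≤ B → ∀ G : MvPolynomial (Fin 2) ℤ,
    Pool.Agent.H88.TS.Hy n j G → (∀ m, |G.coeff m| + 1 ≤ (B : ℤ)) → ∀ H : ℕ, 1 ≤ H → ∀ T : Finset (Ix j → ℤ),
      (∀ c ∈ T, (∀ p, |c p| ≤ (H : ℤ)) ∧ ∃ P : Fin 2 → ℤ, eval P (G + pol c) = 0 ∧
        (B : ℝ) ^ κ * H ≤ max |(P 0 : ℝ)| |(P 1 : ℝ)| ∧ max |(P 0 : ℝ)| |(P 1 : ℝ)| ≤ ((B * H : ℕ) : ℝ) ^ E) →
      (T.card : ℝ) ≤ (B : ℝ) ^ κ * (2 * (H : ℝ) + 1) ^ (Fintype.card (Ix j) - 1) * (H : ℝ) ^ (-dl n)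

end Pool.Agent.H88.TU
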