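import Pool.Agent.H88.TU.Def
import Pool.Agent.H88.TU.Sta
import Pool.Agent.H12.TU.Liv

/-! # [H88 TU LIO] Liouville, polynomial in the coefficients

PROOF. `f` irreducible of degree `n`, `p(θ) ≠ 0`: the resultant `R` of `f` and `p` (degrees `n` and `d = p.natDegree ≤ m`) is a nonzero integer. `R = lc^d ∏ p(θ_i)` over the complex roots of `f`
(`resultant_eq_prod_eval`), `|p(θ_i)| ≤ (m+1) h max(1,|θ_i|)^d`, and `|lc| ∏ max(1,|θ_i|)` (Mahler measure) `≤ (n+1) B`. Or: Cauchy's bound `|θ_i| ≤ B + 1`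
(any power of `B` is allowed: only the exponent `n - 1` of `h` matters; `B ≥ 2` absorbs the constants). Or: `exists_mul_add_mul_eq_C_resultant` / adjugate of the Sylvester matrix: `R = u f + v p`,
the coefficients of `v` are minors with at most `n - 1` columns of `p`. -/

namespace Pool.Agent.H88.TU

open Finset Polynomial

/-- `H12/TU/Liv.lean`, `liv`, without the restriction on the degree of `q` -/
private theorem liv_gen (n m : ℕ) (p q : ℤ[X]) (B D : ℝ) (hB : 1 ≤ B) (hD : 0 ≤ D) (hp : p.natDegree = n)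
    (hi : Irreducible (p.map (Int.castRingHom ℚ))) (hpB : ∀ i, |(p.coeff i : ℝ)| ≤ B) (hq : q.natDegree < m + 1)
    (hqD : ∀ i, |(q.coeff i : ℝ)| ≤ D) (t : ℂ) (ht : aeval t p = 0) (htq : aeval t q ≠ 0) :
    1 ≤ B ^ m * (((m + 1 : ℕ) : ℝ) * (2 * B) ^ (m + 1) * D) ^ (n - 1) * ‖aeval t q‖ := by
  classical
  have hp0 : p ≠ 0 := by
    rintro rfl
    simp at hi
  have hinjQ : Function.Injective (Int.castRingHom ℚ) := Int.cast_injective
  have hinj : Function.Injective (Int.castRingHom ℂ) := Int.cast_injective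
  obtain ⟨P, hP⟩ : ∃ P : ℂ[X], P = p.map (Int.castRingHom ℂ) := ⟨_, rfl⟩
  obtain ⟨Q, hQ⟩ : ∃ Q : ℂ[X], Q = q.map (Int.castRingHom ℂ) := ⟨_, rfl⟩
  have hP0 : P ≠ 0 := by rw [hP]; exact (Polynomial.map_ne_zero_iff hinj).2 hp0
  have hPd : P.natDegree = n := by rw [hP, natDegree_map_eq_of_injective hinj, hp]
  -- the resultant
  have hr : resultant p q p.natDegree q.natDegree ≠ 0 := by
    intro h0
    have h1 : resultant (p.map (Int.castRingHom ℚ)) (q.map (Int.castRingHom ℚ)) p.natDegree q.natDegree = 0 := by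
      rw [resultant_map_map, h0, map_zero]
    have h2 : resultant (p.map (Int.castRingHom ℚ)) (q.map (Int.castRingHom ℚ)) = 0 := by
      rw [natDegree_map_eq_of_injective hinjQ, natDegree_map_eq_of_injective hinjQ]
      exact h1
    rw [resultant_eq_zero_iff] at h2
    apply h2.2
    rw [hi.coprime_iff_not_dvd]
    rintro ⟨c, hc⟩
    apply htq
    have h3 : aeval t (q.map (Int.castRingHom ℚ)) = aeval t q := aeval_map_algebraMap ℚ t q
    have h4 : aeval t (p.map (Int.castRingHom ℚ)) = aeval t p := aeval_map_algebraMap ℚ t p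
    rw [← h3, hc, map_mul, h4, ht, zero_mul]
  have h1 : (1 : ℝ) ≤ ‖((resultant p q p.natDegree q.natDegree : ℤ) : ℂ)‖ := by
    rw [Complex.norm_intCast]
    exact_mod_cast Int.one_le_abs hr
  have h2 : ((resultant p q p.natDegree q.natDegree : ℤ) : ℂ) = P.leadingCoeff ^ q.natDegree * (P.roots.map Q.eval).prod := by
    have h3 := resultant_eq_prod_eval P Q q.natDegree (by rw [hQ]; exact natDegree_map_le) (IsAlgClosed.splits P)
    rw [← h3, hPd, ← hp, hP, hQ, resultant_map_map]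
    rfl
  have htr : t ∈ P.roots := by
    rw [mem_roots hP0, IsRoot.def, hP, eval_map]
    exact ht
  have h3 : (P.roots.map Q.eval).prod = Q.eval t * ((P.roots.erase t).map Q.eval).prod := by
    conv_lhs => rw [← Multiset.cons_erase htr]
    rw [Multiset.map_cons, Multiset.prod_cons]
  have hQt : Q.eval t = aeval t q := by
    rw [hQ, eval_map]
    rfl
  have hroot : ∀ z ∈ P.roots, ‖Q.eval z‖ ≤ ((m + 1 : ℕ) : ℝ) * (2 * B) ^ (m + 1) * D := by
    intro z hz
    rw [mem_roots hP0, IsRoot.def, hP, eval_map] at hz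
    have h4 : aeval z p = 0 := hz
    have h5 := Pool.Agent.H12.TU.eval_le q (m + 1) hq B D hB hD hqD z
      (Pool.Agent.H12.TU.root_le p hp0 B hB hpB z h4)
    have h6 : Q.eval z = aeval z q := by
      rw [hQ, eval_map]
      rfl
    rw [h6]
    exact h5
  have hM : ∀ s : Multiset ℂ, (∀ z ∈ s, ‖Q.eval z‖ ≤ ((m + 1 : ℕ) : ℝ) * (2 * B) ^ (m + 1) * D) →
      ‖(s.map Q.eval).prod‖ ≤ (((m + 1 : ℕ) : ℝ) * (2 * B) ^ (m + 1) * D) ^ (Multiset.card s) := by
    intro s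
    induction s using Multiset.induction_on with
    | empty => simp
    | cons a s ih =>
      intro hs
      rw [Multiset.map_cons, Multiset.prod_cons, norm_mul, Multiset.card_cons, pow_succ']
      exact mul_le_mul (hs a (Multiset.mem_cons_self _ _)) (ih fun z hz => hs z (Multiset.mem_cons_of_mem hz))
        (norm_nonneg _) (by positivity)
  have hcard : Multiset.card (P.roots.erase t) = n - 1 := by
    rw [Multiset.card_erase_of_mem htr, ← hPd, (IsAlgClosed.splits P).natDegree_eq_card_roots]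
    rfl
  have h4 := hM (P.roots.erase t) fun z hz => hroot z (Multiset.mem_of_mem_erase hz)
  rw [hcard] at h4
  have hl : ‖P.leadingCoeff‖ ^ q.natDegree ≤ B ^ m := by
    have h5 : ‖P.leadingCoeff‖ ≤ B := by
      rw [hP, leadingCoeff_map_of_injective hinj, eq_intCast, Complex.norm_intCast]
      exact hpB _
    exact (pow_le_pow_left₀ (norm_nonneg _) h5 _).trans (pow_le_pow_right₀ hB (by omega))
  rw [h2, h3, hQt, norm_mul, norm_mul, norm_pow] at h1
  calc (1 : ℝ) ≤ ‖P.leadingCoeff‖ ^ q.natDegree * (‖aeval t q‖ * ‖((P.roots.erase t).map Q.eval).prod‖) := h1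
    _ ≤ B ^ m * (‖aeval t q‖ * (((m + 1 : ℕ) : ℝ) * (2 * B) ^ (m + 1) * D) ^ (n - 1)) :=
        mul_le_mul hl (mul_le_mul_of_nonneg_left h4 (norm_nonneg _)) (by positivity) (by positivity)
    _ = _ := by ring

/-- the explicit exponent -/
theorem lio_ex (n m : ℕ) (hn : 1 ≤ n) : LioS n m (m + 3 * (m + 1) * (n - 1)) := by
  intro B hB f hf hfB hi θ hθ h hh p hp hph hpθ
  have hB2 : (2 : ℝ) ≤ (B : ℝ) := by exact_mod_cast hB
  have hB1 : (1 : ℝ) ≤ (B : ℝ) := by linarith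
  have hcast : ∀ q : ℤ[X], aeval ((θ : ℝ) : ℂ) q = ((aeval θ q : ℝ) : ℂ) := by
    intro q
    have := aeval_algebraMap_apply ℂ θ q
    exact this
  have hfB' : ∀ i, |(f.coeff i : ℝ)| ≤ (B : ℝ) := by
    intro i
    exact_mod_cast hfB i
  have key := liv_gen n m f p (B : ℝ) h hB1 (by linarith) hf hi hfB' (by omega) hph ((θ : ℝ) : ℂ)
    (by rw [hcast, hθ]; simp) (by rw [hcast]; exact_mod_cast hpθ)
  rw [hcast, Complex.norm_real, Real.norm_eq_abs] at key
  refine key.trans ?_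
  refine mul_le_mul_of_nonneg_right ?_ (abs_nonneg _)
  have h1 : ((m + 1 : ℕ) : ℝ) ≤ (B : ℝ) ^ (m + 1) := by
    have h2 : ((m + 1 : ℕ) : ℝ) ≤ (2 : ℝ) ^ (m + 1) := by
      exact_mod_cast (Nat.lt_two_pow_self (n := m + 1)).le
    exact h2.trans (pow_le_pow_left₀ (by norm_num) hB2 _)
  have h3 : (2 * (B : ℝ)) ^ (m + 1) ≤ ((B : ℝ) ^ 2) ^ (m + 1) :=
    pow_le_pow_left₀ (by positivity) (by nlinarith) _
  have h4 : ((m + 1 : ℕ) : ℝ) * (2 * (B : ℝ)) ^ (m + 1) * h ≤ (B : ℝ) ^ (3 * (m + 1)) * h := by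
    refine mul_le_mul_of_nonneg_right ?_ (by linarith)
    calc ((m + 1 : ℕ) : ℝ) * (2 * (B : ℝ)) ^ (m + 1) ≤ (B : ℝ) ^ (m + 1) * ((B : ℝ) ^ 2) ^ (m + 1) :=
          mul_le_mul h1 h3 (by positivity) (by positivity)
      _ = (B : ℝ) ^ (3 * (m + 1)) := by
          rw [← pow_mul, ← pow_add]
          congr 1
          ring
  have h5 : (((m + 1 : ℕ) : ℝ) * (2 * (B : ℝ)) ^ (m + 1) * h) ^ (n - 1) ≤ ((B : ℝ) ^ (3 * (m + 1)) * h) ^ (n - 1) :=
    pow_le_pow_left₀ (by positivity) h4 _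
  calc (B : ℝ) ^ m * (((m + 1 : ℕ) : ℝ) * (2 * (B : ℝ)) ^ (m + 1) * h) ^ (n - 1)
      ≤ (B : ℝ) ^ m * ((B : ℝ) ^ (3 * (m + 1)) * h) ^ (n - 1) := mul_le_mul_of_nonneg_left h5 (by positivity)
    _ = (B : ℝ) ^ (m + 3 * (m + 1) * (n - 1)) * h ^ (n - 1) := by
        rw [mul_pow, ← pow_mul, pow_add]
        ring

theorem lio (n m : ℕ) (hn : 1 ≤ n) : ∃ κ : ℕ, ∀ B : ℕ, 2 ≤ B → ∀ f : ℤ[X], f.natDegree = n →
    (∀ i, |f.coeff i| ≤ (B : ℤ)) → Irreducible (f.map (Int.castRingHom ℚ)) → ∀ θ : ℝ, aeval θ f = 0 →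
    ∀ h : ℝ, 1 ≤ h → ∀ p : ℤ[X], p.natDegree ≤ m → (∀ i, |(p.coeff i : ℝ)| ≤ h) → aeval θ p ≠ 0 →
    1 ≤ (B : ℝ) ^ κ * h ^ (n - 1) * |aeval θ p| := by
  exact ⟨_, lio_ex n m hn⟩

end Pool.Agent.H88.TU
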