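import Pool.Agent.H88.TU.Sta

/-! # [H88 TU EXP] Expansion of `F(x, t x + s)`

PROOF. `q i m = ∑_j e_(k-j,j) C(j,m) t^(j-m)` with `k = n + m - i` (the value of `φ_k^(m)/m!` at `t`), `m ≤ i ≤ n`; `q i m = 0` otherwise. `x^(k-j) (t x + s)^j = ∑_m C(j,m) t^(j-m) s^m x^(k-m)`;
reindex `i = n - k + m`. Bounds: `|e_(k-j,j)| ≤ K H^(n-k) = K H^(i-m)`, `C(j,m) |t|^(j-m) ≤ 4^n`. -/

namespace Pool.Agent.H88.TU

open Finset Polynomial Pool.Agent.H8.AA Pool.Agent.H88.A2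

theorem exp_fm (e : ℕ → ℕ → ℤ) (k : ℕ) (t : ℝ) :
    aeval t (fm e k) = ∑ j ∈ range (k + 1), (e (k - j) j : ℝ) * t ^ j := by
  unfold fm
  rw [map_sum]
  refine sum_congr rfl fun j _ => ?_
  rw [aeval_monomial]
  simp

theorem exp_fm1 (e : ℕ → ℕ → ℤ) (k : ℕ) (t : ℝ) :
    aeval t (derivative (fm e k)) = ∑ j ∈ range (k + 1), (e (k - j) j : ℝ) * ((j : ℝ) * t ^ (j - 1)) := by
  unfold fm
  rw [derivative_sum, map_sum]
  refine sum_congr rfl fun j _ => ?_
  rw [derivative_monomial, aeval_monomial]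
  simp [mul_assoc]

theorem exp_fm2 (e : ℕ → ℕ → ℤ) (k : ℕ) (t : ℝ) :
    aeval t (derivative (derivative (fm e k))) / 2 =
      ∑ j ∈ range (k + 1), (e (k - j) j : ℝ) * ((j.choose 2 : ℝ) * t ^ (j - 2)) := by
  unfold fm
  rw [derivative_sum, derivative_sum, map_sum, sum_div]
  refine sum_congr rfl fun j _ => ?_
  rw [derivative_monomial, derivative_monomial, aeval_monomial]
  have h : ((j.choose 2 : ℕ) : ℝ) = (j : ℝ) * ((j - 1 : ℕ) : ℝ) / 2 := by
    rw [Nat.cast_choose_two]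
    rcases Nat.eq_zero_or_pos j with h0 | h0
    · subst h0
      simp
    · rw [Nat.cast_sub h0]
      push_cast
      ring
  rw [h, show j - 1 - 1 = j - 2 by omega]
  simp only [algebraMap_int_eq, eq_intCast, Int.cast_mul, Int.cast_natCast]
  ring

/-- the coefficient `φ_k^(m)(t)/m!` -/
noncomputable def expc (e : ℕ → ℕ → ℤ) (t : ℝ) (k m : ℕ) : ℝ :=
  ∑ j ∈ range (k + 1), (e (k - j) j : ℝ) * ((j.choose m : ℝ) * t ^ (j - m))

theorem expc_le {n : ℕ} {K H : ℝ} (hK : 2 ≤ K) (hH : 1 ≤ H) {e : ℕ → ℕ → ℤ} {t : ℝ} (hB : Bs n K H e) (ht : |t| ≤ 2)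
    {k : ℕ} (m : ℕ) (hk : k ≤ n) : |expc e t k m| ≤ K ^ (3 * n + 1) * H ^ (n - k) := by
  have hK0 : (0 : ℝ) ≤ K := by linarith
  have hH0 : (0 : ℝ) ≤ H := by linarith
  have h2 : ((2 : ℝ) ^ n) ≤ K ^ n := pow_le_pow_left₀ (by norm_num) hK n
  have h1 : ∀ j ∈ range (k + 1), |(e (k - j) j : ℝ) * ((j.choose m : ℝ) * t ^ (j - m))| ≤
      K * H ^ (n - k) * (K ^ n * K ^ n) := by
    intro j hj
    have hj' : j ≤ k := Nat.lt_succ_iff.mp (mem_range.mp hj)
    rw [abs_mul, abs_mul, abs_pow]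
    have ha : |(e (k - j) j : ℝ)| ≤ K * H ^ (n - k) := by
      have := hB (k - j) j (by omega)
      rwa [show n - (k - j) - j = n - k by omega] at this
    have hb : |((j.choose m : ℕ) : ℝ)| ≤ K ^ n := by
      rw [abs_of_nonneg (Nat.cast_nonneg _)]
      have h3 : j.choose m ≤ 2 ^ n := (Nat.choose_le_two_pow j m).trans (Nat.pow_le_pow_right (by norm_num) (by omega))
      calc ((j.choose m : ℕ) : ℝ) ≤ ((2 ^ n : ℕ) : ℝ) := Nat.cast_le.mpr h3
        _ = (2 : ℝ) ^ n := by push_cast; rfl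
        _ ≤ K ^ n := h2
    have hc : |t| ^ (j - m) ≤ K ^ n := by
      calc |t| ^ (j - m) ≤ (2 : ℝ) ^ (j - m) := pow_le_pow_left₀ (abs_nonneg t) ht _
        _ ≤ (2 : ℝ) ^ n := pow_le_pow_right₀ (by norm_num) (by omega)
        _ ≤ K ^ n := h2
    exact mul_le_mul ha (mul_le_mul hb hc (pow_nonneg (abs_nonneg t) _) (pow_nonneg hK0 _))
      (mul_nonneg (abs_nonneg _) (pow_nonneg (abs_nonneg t) _)) (mul_nonneg hK0 (pow_nonneg hH0 _))
  have h4 : ((k + 1 : ℕ) : ℝ) ≤ K ^ n := by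
    have h5 : k + 1 ≤ 2 ^ n := by
      have : n < 2 ^ n := Nat.lt_two_pow_self
      omega
    calc ((k + 1 : ℕ) : ℝ) ≤ ((2 ^ n : ℕ) : ℝ) := Nat.cast_le.mpr h5
      _ = (2 : ℝ) ^ n := by push_cast; rfl
      _ ≤ K ^ n := h2
  have hp : 0 ≤ K * H ^ (n - k) * (K ^ n * K ^ n) := by positivity
  calc |expc e t k m| ≤ ∑ j ∈ range (k + 1), |(e (k - j) j : ℝ) * ((j.choose m : ℝ) * t ^ (j - m))| :=
        abs_sum_le_sum_abs _ _
    _ ≤ ∑ _j ∈ range (k + 1), K * H ^ (n - k) * (K ^ n * K ^ n) := sum_le_sum h1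
    _ = ((k + 1 : ℕ) : ℝ) * (K * H ^ (n - k) * (K ^ n * K ^ n)) := by
        rw [sum_const, card_range, nsmul_eq_mul]
    _ ≤ K ^ n * (K * H ^ (n - k) * (K ^ n * K ^ n)) := mul_le_mul_of_nonneg_right h4 hp
    _ = K ^ (3 * n + 1) * H ^ (n - k) := by ring

theorem exp_layer (e : ℕ → ℕ → ℤ) (t x s : ℝ) (k : ℕ) :
    ∑ j ∈ range (k + 1), (e (k - j) j : ℝ) * (x ^ (k - j) * (t * x + s) ^ j) =
      ∑ m ∈ range (k + 1), expc e t k m * s ^ m * x ^ (k - m) := by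
  unfold expc
  have h : ∀ m ∈ range (k + 1), (∑ j ∈ range (k + 1), (e (k - j) j : ℝ) * ((j.choose m : ℝ) * t ^ (j - m))) * s ^ m *
      x ^ (k - m) = ∑ j ∈ range (k + 1), (e (k - j) j : ℝ) * ((j.choose m : ℝ) * t ^ (j - m)) * s ^ m * x ^ (k - m) := by
    intro m _
    rw [sum_mul, sum_mul]
  rw [sum_congr rfl h, sum_comm]
  refine sum_congr rfl fun j hj => ?_
  have hj' : j ≤ k := Nat.lt_succ_iff.mp (mem_range.mp hj)
  have h1 : (t * x + s) ^ j = ∑ m ∈ range (k + 1), (t * x) ^ (j - m) * s ^ m * (j.choose m : ℝ) := by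
    rw [add_comm (t * x) s, add_pow]
    have hsub : range (j + 1) ⊆ range (k + 1) := range_subset_range.mpr (by omega)
    rw [← sum_subset hsub]
    · refine sum_congr rfl fun m _ => ?_
      ring
    · intro m _ hm
      have : j < m := by
        rw [mem_range, not_lt] at hm
        omega
      rw [Nat.choose_eq_zero_of_lt this]
      simp
  rw [h1, mul_sum, mul_sum]
  refine sum_congr rfl fun m hm => ?_
  rcases Nat.lt_or_ge j m with hlt | hge
  · rw [Nat.choose_eq_zero_of_lt hlt]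
    simp
  · have h2 : x ^ (k - m) = x ^ (k - j) * x ^ (j - m) := by
      rw [← pow_add]
      congr 1
      omega
    rw [h2, mul_pow]
    ring

theorem exp_reindex (n : ℕ) (f : ℕ → ℕ → ℝ) (x s : ℝ) :
    ∑ k ∈ range (n + 1), ∑ m ∈ range (k + 1), f k m * s ^ m * x ^ (k - m) =
      ∑ i ∈ range (n + 1), ∑ m ∈ range (i + 1), f (n + m - i) m * s ^ m * x ^ (n - i) := by
  rw [sum_sigma', sum_sigma']
  refine sum_nbij' (fun p => ⟨n + p.2 - p.1, p.2⟩) (fun p => ⟨n + p.2 - p.1, p.2⟩) ?_ ?_ ?_ ?_ ?_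
  · rintro ⟨k, m⟩ h
    simp only [mem_sigma, mem_range] at h ⊢
    omega
  · rintro ⟨k, m⟩ h
    simp only [mem_sigma, mem_range] at h ⊢
    omega
  · rintro ⟨k, m⟩ h
    simp only [mem_sigma, mem_range] at h
    have : n + m - (n + m - k) = k := by omega
    simp only [this]
  · rintro ⟨k, m⟩ h
    simp only [mem_sigma, mem_range] at h
    have : n + m - (n + m - k) = k := by omega
    simp only [this]
  · rintro ⟨k, m⟩ h
    simp only [mem_sigma, mem_range] at h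
    have h1 : n + m - (n + m - k) = k := by omega
    have h2 : n - (n + m - k) = k - m := by omega
    simp only [h1, h2]

theorem exp_ex (n : ℕ) (hn : 2 ≤ n) : ExpS n (3 * n + 1) := by
  intro K H hK hH e t hB ht
  refine ⟨fun i m => expc e t (n + m - i) m, ?_, ?_, ?_, ?_, ?_, ?_, ?_, ?_⟩
  · intro i m hmi hin
    have := expc_le hK hH hB ht m (show n + m - i ≤ n by omega)
    rwa [show n - (n + m - i) = i - m by omega] at this
  · rw [exp_fm]
    unfold expc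
    refine sum_congr rfl fun j _ => ?_
    simp
  · rw [exp_fm]
    unfold expc
    refine sum_congr rfl fun j _ => ?_
    simp
  · rw [exp_fm1]
    unfold expc
    refine sum_congr rfl fun j _ => ?_
    simp
  · rw [exp_fm]
    unfold expc
    refine sum_congr rfl fun j _ => ?_
    simp
  · rw [exp_fm1]
    change expc e t (n + 1 - 2) 1 = _
    rw [show n + 1 - 2 = n - 1 by omega]
    unfold expc
    refine sum_congr rfl fun j _ => ?_
    simp
  · rw [exp_fm2]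
    change expc e t (n + 2 - 2) 2 = _
    rw [show n + 2 - 2 = n by omega]
    rfl
  · intro x s
    unfold evR
    rw [← exp_reindex n (fun k m => expc e t k m) x s]
    exact sum_congr rfl fun k _ => exp_layer e t x s k

theorem exp (n : ℕ) (hn : 2 ≤ n) : ∃ κ : ℕ, ∀ K H : ℝ, 2 ≤ K → 1 ≤ H → ∀ (e : ℕ → ℕ → ℤ) (t : ℝ), Bs n K H e → |t| ≤ 2 →
    ∃ q : ℕ → ℕ → ℝ, (∀ i m, m ≤ i → i ≤ n → |q i m| ≤ K ^ κ * H ^ (i - m)) ∧ q 0 0 = aeval t (fm e n) ∧
      q 1 0 = aeval t (fm e (n - 1)) ∧ q 1 1 = aeval t (derivative (fm e n)) ∧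
      q 2 0 = aeval t (fm e (n - 2)) ∧ q 2 1 = aeval t (derivative (fm e (n - 1))) ∧
      q 2 2 = aeval t (derivative (derivative (fm e n))) / 2 ∧
      ∀ x s : ℝ, evR n e x (t * x + s) = ∑ i ∈ range (n + 1), ∑ m ∈ range (i + 1), q i m * s ^ m * x ^ (n - i) :=
  ⟨3 * n + 1, exp_ex n hn⟩

end Pool.Agent.H88.TU
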