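import Pool.Agent.H88.TU.Lio
import Pool.Agent.H88.TU.Sta

/-! # [H88 TU CUB] Integer vectors near a hyperplane with algebraic coefficients

PROOF. `s = ⌊h⌋₊ ≥ h/2`. Class of `u`: the vector `(⌊u_i/s⌋)`, `1 ≤ i ≤ k`: at most `2H/s + 2 ≤ 6 H/h` values per coordinate, `(6H/h)^k` classes. Two elements of one class: `D = u - u'` has
`|D_i| < h` for `i ≥ 1`, `|D(θ)| ≤ 2η ≤ 2`, so `|D_0| ≤ 2 + k 2^k h ≤ (k 2^k + 2) h`; if `D ≠ 0` then `D(θ) ≠ 0` (degree `k < n`, `f` irreducible) and `lio n k` gives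
`1 ≤ B^κ₀ ((k 2^k + 2) h)^(n-1) 2η`, a contradiction for `κ` large. So `U` injects into the classes. -/

namespace Pool.Agent.H88.TU

open Finset Polynomial

private theorem cub_nz (f p : ℤ[X]) (hirr : Irreducible (f.map (Int.castRingHom ℚ))) (θ : ℝ)
    (hθ : aeval θ f = 0) (hp : p ≠ 0) (hd : p.natDegree < f.natDegree) : aeval θ p ≠ 0 := by
  intro h0
  have e1 : aeval θ (f.map (Int.castRingHom ℚ)) = 0 := by
    rw [← hθ]
    exact aeval_map_algebraMap ℚ θ f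
  have e2 : aeval θ (p.map (Int.castRingHom ℚ)) = 0 := by
    rw [← h0]
    exact aeval_map_algebraMap ℚ θ p
  have hinj : Function.Injective (Int.castRingHom ℚ) := Int.cast_injective
  have hf0 : f.map (Int.castRingHom ℚ) ≠ 0 := hirr.ne_zero
  have hp0 : p.map (Int.castRingHom ℚ) ≠ 0 := (Polynomial.map_ne_zero_iff hinj).2 hp
  have hint : IsIntegral ℚ θ := (show IsAlgebraic ℚ θ from ⟨_, hf0, e1⟩).isIntegral
  have d1 := minpoly.dvd ℚ θ e1
  have d2 := minpoly.dvd ℚ θ e2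
  have a1 : Associated (minpoly ℚ θ) (f.map (Int.castRingHom ℚ)) :=
    (minpoly.irreducible hint).associated_of_dvd hirr d1
  have d3 : f.map (Int.castRingHom ℚ) ∣ p.map (Int.castRingHom ℚ) := a1.symm.dvd.trans d2
  have h3 := natDegree_le_of_dvd d3 hp0
  rw [natDegree_map_eq_of_injective hinj, natDegree_map_eq_of_injective hinj] at h3
  omega

/-- the polynomial of a vector -/
private noncomputable def cubP {k : ℕ} (D : Fin (k + 1) → ℤ) : ℤ[X] := ∑ i, C (D i) * X ^ (i : ℕ)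

private theorem cubP_coeff {k : ℕ} (D : Fin (k + 1) → ℤ) (j : ℕ) :
    (cubP D).coeff j = if h : j < k + 1 then D ⟨j, h⟩ else 0 := by
  unfold cubP
  rw [finsetSum_coeff]
  simp only [coeff_C_mul, coeff_X_pow]
  split_ifs with h
  · rw [Finset.sum_eq_single (⟨j, h⟩ : Fin (k + 1))]
    · simp
    · intro b _ hb
      have : ¬ j = (b : ℕ) := fun e => hb (Fin.ext e.symm)
      simp [this]
    · intro h1
      exact absurd (Finset.mem_univ _) h1
  · apply Finset.sum_eq_zero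
    intro b _
    have : ¬ j = (b : ℕ) := by have := b.2; omega
    simp [this]

private theorem cubP_deg {k : ℕ} (D : Fin (k + 1) → ℤ) : (cubP D).natDegree ≤ k := by
  rw [natDegree_le_iff_coeff_eq_zero]
  intro N hN
  rw [cubP_coeff, dif_neg (by omega)]

private theorem cubP_eval {k : ℕ} (D : Fin (k + 1) → ℤ) (θ : ℝ) :
    aeval θ (cubP D) = ∑ i, (D i : ℝ) * θ ^ (i : ℕ) := by
  unfold cubP
  simp [map_sum]

private theorem cubP_ne {k : ℕ} (D : Fin (k + 1) → ℤ) (h : D ≠ 0) : cubP D ≠ 0 := by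
  intro h0
  apply h
  funext i
  have := cubP_coeff D i
  rw [h0, dif_pos i.2] at this
  simpa using this.symm

private theorem cub_card (k : ℕ) (H h : ℝ) (s : ℤ) (h1 : 1 ≤ h) (hH : h ≤ H) (hs1 : 1 ≤ s) (hs2 : h / 2 ≤ (s : ℝ))
    (U : Finset (Fin (k + 1) → ℤ)) (hU : ∀ u ∈ U, ∀ i, |(u i : ℝ)| ≤ H)
    (hinj : ∀ u ∈ U, ∀ u' ∈ U, (∀ i : Fin k, u i.succ / s = u' i.succ / s) → u = u') :
    (U.card : ℝ) ≤ 6 ^ k * (H / h) ^ k := by
  have hs0 : (0 : ℝ) < s := by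
    have : (1 : ℝ) ≤ s := by exact_mod_cast hs1
    linarith
  have hsz : (0 : ℤ) < s := by omega
  have h0 : 0 < h := by linarith
  have hH0 : 0 < H := by linarith
  set L : ℤ := ⌊H / s⌋ with hL
  have hL0 : 0 ≤ L := Int.floor_nonneg.2 (div_nonneg hH0.le hs0.le)
  have hL1 : H / s < L + 1 := Int.lt_floor_add_one _
  have hL2 : (L : ℝ) ≤ H / s := Int.floor_le _
  let cl : (Fin (k + 1) → ℤ) → (Fin k → ℤ) := fun u i => u i.succ / s
  have hcard : U.card ≤ (Fintype.piFinset fun _ : Fin k => Finset.Icc (-L - 1) L).card := by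
    apply Finset.card_le_card_of_injOn cl
    · intro u hu
      simp only [Finset.mem_coe, Fintype.mem_piFinset, Finset.mem_Icc]
      intro i
      have h2 := abs_le.1 (hU u hu i.succ)
      constructor
      · change -L - 1 ≤ u i.succ / s
        rw [Int.le_ediv_iff_mul_le hsz]
        have h3 : ((-L - 1 : ℤ) : ℝ) * s ≤ u i.succ := by
          rw [div_lt_iff₀ hs0] at hL1
          have h4 : ((-L - 1 : ℤ) : ℝ) * s = -((L + 1) * s) := by push_cast; ring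
          rw [h4]
          linarith [h2.1]
        exact_mod_cast h3
      · change u i.succ / s ≤ L
        rw [hL, Int.le_floor]
        have h3 : ((u i.succ / s : ℤ) : ℝ) * s ≤ u i.succ := by
          exact_mod_cast Int.ediv_mul_le (u i.succ) (by omega)
        rw [le_div_iff₀ hs0]
        linarith [h2.2]
    · intro u hu u' hu' e
      exact hinj u hu u' hu' fun i => congrFun e i
  have hT : (Fintype.piFinset fun _ : Fin k => Finset.Icc (-L - 1) L).card = (2 * L + 2).toNat ^ k := by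
    rw [Fintype.card_piFinset_const, Int.card_Icc]
    congr 2
    ring
  have hL3 : (((2 * L + 2).toNat : ℕ) : ℝ) ≤ 6 * (H / h) := by
    have e1 : (((2 * L + 2).toNat : ℕ) : ℤ) = 2 * L + 2 := Int.toNat_of_nonneg (by omega)
    have e2 : (((2 * L + 2).toNat : ℕ) : ℝ) = 2 * L + 2 := by exact_mod_cast e1
    rw [e2]
    have h3 : H / s ≤ 2 * (H / h) := by
      rw [div_le_iff₀ hs0]
      have : 2 * (H / h) * s = (H / h) * (2 * s) := by ring
      rw [this]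
      have h4 : h ≤ 2 * s := by linarith
      calc H = H / h * h := by field_simp
        _ ≤ H / h * (2 * s) := mul_le_mul_of_nonneg_left h4 (div_nonneg hH0.le h0.le)
    have h5 : 1 ≤ H / h := by rw [le_div_iff₀ h0]; linarith
    linarith
  calc (U.card : ℝ) ≤ (((2 * L + 2).toNat ^ k : ℕ) : ℝ) := by
        rw [← hT]; exact_mod_cast hcard
    _ = (((2 * L + 2).toNat : ℕ) : ℝ) ^ k := by push_cast; rfl
    _ ≤ (6 * (H / h)) ^ k := by gcongr
    _ = 6 ^ k * (H / h) ^ k := mul_pow _ _ _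

/-- the module with an explicit exponent: if `lio n k` holds with the exponent `κ₀`, then `cub n k` holds with the exponent
`κ₀ + (2 + (2 k + 1) (n - 1)) + 3 k` -/
theorem cub_explicit (n k κ₀ : ℕ) (hk1 : 1 ≤ k) (hk : k + 1 ≤ n)
    (hκ₀ : ∀ B : ℕ, 2 ≤ B → ∀ f : ℤ[X], f.natDegree = n →
      (∀ i, |f.coeff i| ≤ (B : ℤ)) → Irreducible (f.map (Int.castRingHom ℚ)) → ∀ θ : ℝ, aeval θ f = 0 →
      ∀ h : ℝ, 1 ≤ h → ∀ p : ℤ[X], p.natDegree ≤ k → (∀ i, |(p.coeff i : ℝ)| ≤ h) → aeval θ p ≠ 0 →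
      1 ≤ (B : ℝ) ^ κ₀ * h ^ (n - 1) * |aeval θ p|) : ∀ B : ℕ, 2 ≤ B → ∀ f : ℤ[X], f.natDegree = n →
    (∀ i, |f.coeff i| ≤ (B : ℤ)) → Irreducible (f.map (Int.castRingHom ℚ)) → ∀ θ : ℝ, aeval θ f = 0 → |θ| ≤ 2 →
    ∀ H h η A : ℝ, 1 ≤ h → h ≤ H → η * ((B : ℝ) ^ (κ₀ + (2 + (2 * k + 1) * (n - 1)) + 3 * k) * h ^ (n - 1)) ≤ 1 →
      ∀ U : Finset (Fin (k + 1) → ℤ),
      (∀ u ∈ U, (∀ i, |(u i : ℝ)| ≤ H) ∧ |∑ i, (u i : ℝ) * θ ^ (i : ℕ) - A| ≤ η) →
      (U.card : ℝ) ≤ (B : ℝ) ^ (κ₀ + (2 + (2 * k + 1) * (n - 1)) + 3 * k) * (H / h) ^ k := by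
  intro B hB f hf hfB hirr θ hθ hθ2 H h η A h1 hH hη U hU
  set c : ℕ := k * 2 ^ k + 2 with hc
  set M : ℕ := 2 + (2 * k + 1) * (n - 1) with hM
  have hB2 : (2 : ℝ) ≤ B := by exact_mod_cast hB
  have hB1 : (1 : ℝ) ≤ B := by linarith
  have hB0 : (0 : ℝ) < B := by linarith
  have h0 : 0 < h := by linarith
  have hH0 : 0 < H := by linarith
  have hs1 : 1 ≤ ⌊h⌋ := by
    rw [Int.le_floor]; exact_mod_cast h1
  have hs2 : h / 2 ≤ (⌊h⌋ : ℝ) := by
    have h3 : (1 : ℝ) ≤ (⌊h⌋ : ℝ) := by exact_mod_cast hs1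
    have := Int.lt_floor_add_one h
    linarith
  have hsh : (⌊h⌋ : ℝ) ≤ h := Int.floor_le h
  have hM1 : ((2 * c ^ (n - 1) : ℕ) : ℝ) < (B : ℝ) ^ M := by
    have hc1 : c ≤ 2 ^ (2 * k + 1) := by
      have e1 : k < 2 ^ k := Nat.lt_two_pow_self
      have e2 : 2 ^ 1 ≤ 2 ^ k := Nat.pow_le_pow_right (by norm_num) hk1
      have e3 : 2 ^ (2 * k + 1) = 2 * (2 ^ k * 2 ^ k) := by rw [pow_succ, two_mul, pow_add]; ring
      rw [hc, e3]
      nlinarith
    have h3 : 2 * c ^ (n - 1) < 2 ^ M := by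
      have e1 : c ^ (n - 1) ≤ 2 ^ ((2 * k + 1) * (n - 1)) := by
        rw [pow_mul]; exact Nat.pow_le_pow_left hc1 _
      have e2 : 2 ^ M = 4 * 2 ^ ((2 * k + 1) * (n - 1)) := by rw [hM, pow_add]; norm_num
      have e3 : 0 < 2 ^ ((2 * k + 1) * (n - 1)) := by positivity
      rw [e2]
      omega
    have h4 : ((2 * c ^ (n - 1) : ℕ) : ℝ) < (2 : ℝ) ^ M := by exact_mod_cast h3
    exact h4.trans_le (pow_le_pow_left₀ (by norm_num) hB2 M)
  have hinj : ∀ u ∈ U, ∀ u' ∈ U, (∀ i : Fin k, u i.succ / ⌊h⌋ = u' i.succ / ⌊h⌋) → u = u' := by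
    intro u hu u' hu' he
    by_contra hne
    set D : Fin (k + 1) → ℤ := fun i => u i - u' i with hD
    have hD0 : D ≠ 0 := by
      intro e
      apply hne
      funext i
      have := congrFun e i
      simp only [hD, Pi.zero_apply] at this
      omega
    have hη0 : 0 ≤ η := le_trans (abs_nonneg _) (hU u hu).2
    have hη1 : η ≤ 1 := by
      have h3 : (1 : ℝ) ≤ (B : ℝ) ^ (κ₀ + M + 3 * k) * h ^ (n - 1) :=
        one_le_mul_of_one_le_of_one_le (one_le_pow₀ hB1) (one_le_pow₀ h1)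
      exact (le_mul_of_one_le_right hη0 h3).trans hη
    have hDs : ∀ i : Fin k, |(D i.succ : ℝ)| ≤ h := by
      intro i
      have h3 := he i
      have hs0 : (0 : ℤ) < ⌊h⌋ := by omega
      have e1 := Int.mul_ediv_add_emod (u i.succ) ⌊h⌋
      have e2 := Int.mul_ediv_add_emod (u' i.succ) ⌊h⌋
      have m1 := Int.emod_nonneg (u i.succ) (by omega : ⌊h⌋ ≠ 0)
      have m2 := Int.emod_nonneg (u' i.succ) (by omega : ⌊h⌋ ≠ 0)
      have m3 := Int.emod_lt_of_pos (u i.succ) hs0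
      have m4 := Int.emod_lt_of_pos (u' i.succ) hs0
      have h4 : |D i.succ| ≤ ⌊h⌋ := by
        rw [abs_le]
        simp only [hD]
        rw [h3] at e1
        constructor <;> linarith
      have h5 : ((|D i.succ| : ℤ) : ℝ) ≤ (⌊h⌋ : ℝ) := by exact_mod_cast h4
      rw [Int.cast_abs] at h5
      linarith
    have hval : |∑ i, (D i : ℝ) * θ ^ (i : ℕ)| ≤ 2 * η := by
      have e1 : ∑ i, (D i : ℝ) * θ ^ (i : ℕ) =
          (∑ i, (u i : ℝ) * θ ^ (i : ℕ) - A) - (∑ i, (u' i : ℝ) * θ ^ (i : ℕ) - A) := by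
        simp only [hD]
        push_cast
        rw [sub_sub_sub_cancel_right, ← Finset.sum_sub_distrib]
        apply Finset.sum_congr rfl
        intro i _
        ring
      rw [e1]
      have a1 := (hU u hu).2
      have a2 := (hU u' hu').2
      have := abs_sub (∑ i, (u i : ℝ) * θ ^ (i : ℕ) - A) (∑ i, (u' i : ℝ) * θ ^ (i : ℕ) - A)
      linarith
    have hDr : |∑ i : Fin k, (D i.succ : ℝ) * θ ^ ((i.succ : Fin (k + 1)) : ℕ)| ≤ k * 2 ^ k * h := by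
      calc |∑ i : Fin k, (D i.succ : ℝ) * θ ^ ((i.succ : Fin (k + 1)) : ℕ)|
          ≤ ∑ i : Fin k, |(D i.succ : ℝ) * θ ^ ((i.succ : Fin (k + 1)) : ℕ)| := Finset.abs_sum_le_sum_abs _ _
        _ ≤ ∑ _i : Fin k, h * 2 ^ k := by
            apply Finset.sum_le_sum
            intro i _
            rw [abs_mul, abs_pow]
            have p1 : |θ| ^ ((i.succ : Fin (k + 1)) : ℕ) ≤ 2 ^ k := by
              calc |θ| ^ ((i.succ : Fin (k + 1)) : ℕ) ≤ 2 ^ ((i.succ : Fin (k + 1)) : ℕ) :=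
                    pow_le_pow_left₀ (abs_nonneg _) hθ2 _
                _ ≤ 2 ^ k := by
                    apply pow_le_pow_right₀ (by norm_num)
                    have := i.succ.2
                    omega
            exact mul_le_mul (hDs i) p1 (pow_nonneg (abs_nonneg _) _) h0.le
        _ = k * 2 ^ k * h := by
            rw [Finset.sum_const, Finset.card_univ, Fintype.card_fin, nsmul_eq_mul]
            ring
    have hsum : ∑ i, (D i : ℝ) * θ ^ (i : ℕ) =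
        (D 0 : ℝ) + ∑ i : Fin k, (D i.succ : ℝ) * θ ^ ((i.succ : Fin (k + 1)) : ℕ) := by
      rw [Fin.sum_univ_succ]
      simp
    have hDz : |(D 0 : ℝ)| ≤ (c : ℝ) * h := by
      have e1 : (D 0 : ℝ) = ∑ i, (D i : ℝ) * θ ^ (i : ℕ) -
          ∑ i : Fin k, (D i.succ : ℝ) * θ ^ ((i.succ : Fin (k + 1)) : ℕ) := by
        rw [hsum]; ring
      rw [e1]
      have := abs_sub (∑ i, (D i : ℝ) * θ ^ (i : ℕ))
        (∑ i : Fin k, (D i.succ : ℝ) * θ ^ ((i.succ : Fin (k + 1)) : ℕ))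
      have e2 : (c : ℝ) * h = k * 2 ^ k * h + 2 * h := by rw [hc]; push_cast; ring
      rw [e2]
      linarith
    have hc2 : (2 : ℝ) ≤ c := by
      have : 2 ≤ c := by rw [hc]; omega
      exact_mod_cast this
    have hhc : h ≤ (c : ℝ) * h := le_mul_of_one_le_left h0.le (by linarith)
    have hch : 1 ≤ (c : ℝ) * h := h1.trans hhc
    have hco : ∀ i, |((cubP D).coeff i : ℝ)| ≤ (c : ℝ) * h := by
      intro i
      rw [cubP_coeff]
      split_ifs with hi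
      · rcases Fin.eq_zero_or_eq_succ (⟨i, hi⟩ : Fin (k + 1)) with e | ⟨j, e⟩
        · rw [e]; exact hDz
        · rw [e]
          exact (hDs j).trans hhc
      · simp only [Int.cast_zero, abs_zero]
        linarith
    have hne0 : aeval θ (cubP D) ≠ 0 := by
      apply cub_nz f (cubP D) hirr θ hθ (cubP_ne D hD0)
      have := cubP_deg D
      omega
    have key := hκ₀ B hB f hf hfB hirr θ hθ ((c : ℝ) * h) hch (cubP D) (cubP_deg D) hco hne0
    rw [cubP_eval] at key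
    have k1 : (B : ℝ) ^ κ₀ * ((c : ℝ) * h) ^ (n - 1) * |∑ i, (D i : ℝ) * θ ^ (i : ℕ)| ≤
        (B : ℝ) ^ κ₀ * ((c : ℝ) * h) ^ (n - 1) * (2 * η) :=
      mul_le_mul_of_nonneg_left hval (by positivity)
    have k2 : (B : ℝ) ^ κ₀ * ((c : ℝ) * h) ^ (n - 1) * (2 * η) =
        (B : ℝ) ^ κ₀ * (((2 * c ^ (n - 1) : ℕ) : ℝ) * (h ^ (n - 1) * η)) := by
      rw [mul_pow]
      push_cast
      ring
    have k3 : (B : ℝ) ^ κ₀ * ((B : ℝ) ^ M * (h ^ (n - 1) * η)) ≤ 1 := by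
      have e1 : (B : ℝ) ^ κ₀ * ((B : ℝ) ^ M * (h ^ (n - 1) * η)) * (B : ℝ) ^ (3 * k) =
          η * ((B : ℝ) ^ (κ₀ + M + 3 * k) * h ^ (n - 1)) := by
        rw [pow_add, pow_add]; ring
      have e2 : (1 : ℝ) ≤ (B : ℝ) ^ (3 * k) := one_le_pow₀ hB1
      have e3 : 0 ≤ (B : ℝ) ^ κ₀ * ((B : ℝ) ^ M * (h ^ (n - 1) * η)) := by positivity
      exact (le_mul_of_one_le_right e3 e2).trans (e1.trans_le hη)
    rcases hη0.eq_or_lt with hz | hpos
    · rw [k2, ← hz] at k1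
      simp only [mul_zero] at k1
      linarith
    · have k4 : (B : ℝ) ^ κ₀ * (((2 * c ^ (n - 1) : ℕ) : ℝ) * (h ^ (n - 1) * η)) <
           (B : ℝ) ^ κ₀ * ((B : ℝ) ^ M * (h ^ (n - 1) * η)) := by
        apply mul_lt_mul_of_pos_left _ (by positivity)
        apply mul_lt_mul_of_pos_right hM1 (by positivity)
      linarith
  have hmain := cub_card k H h ⌊h⌋ h1 hH hs1 hs2 U (fun u hu => (hU u hu).1) hinj
  have hq : 0 ≤ (H / h) ^ k := by positivity
  have h6 : (6 : ℝ) ^ k ≤ (B : ℝ) ^ (κ₀ + M + 3 * k) := by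
    calc (6 : ℝ) ^ k ≤ 8 ^ k := pow_le_pow_left₀ (by norm_num) (by norm_num) k
      _ = (2 : ℝ) ^ (3 * k) := by rw [pow_mul]; norm_num
      _ ≤ (B : ℝ) ^ (3 * k) := pow_le_pow_left₀ (by norm_num) hB2 _
      _ ≤ (B : ℝ) ^ (κ₀ + M + 3 * k) := pow_le_pow_right₀ hB1 (by omega)
  exact hmain.trans (mul_le_mul_of_nonneg_right h6 hq)

/-- the version with the exponent as a parameter, for the statements of `TU.Sta` -/
theorem cub_ex (n k κ₀ : ℕ) (hk1 : 1 ≤ k) (hk : k + 1 ≤ n) (h : LioS n k κ₀) :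
    CubS n k (κ₀ + (2 + (2 * k + 1) * (n - 1)) + 3 * k) :=
  cub_explicit n k κ₀ hk1 hk h

theorem cub (n k : ℕ) (hk1 : 1 ≤ k) (hk : k + 1 ≤ n) : ∃ κ : ℕ, ∀ B : ℕ, 2 ≤ B → ∀ f : ℤ[X], f.natDegree = n →
    (∀ i, |f.coeff i| ≤ (B : ℤ)) → Irreducible (f.map (Int.castRingHom ℚ)) → ∀ θ : ℝ, aeval θ f = 0 → |θ| ≤ 2 →
    ∀ H h η A : ℝ, 1 ≤ h → h ≤ H → η * ((B : ℝ) ^ κ * h ^ (n - 1)) ≤ 1 → ∀ U : Finset (Fin (k + 1) → ℤ),
      (∀ u ∈ U, (∀ i, |(u i : ℝ)| ≤ H) ∧ |∑ i, (u i : ℝ) * θ ^ (i : ℕ) - A| ≤ η) →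
      (U.card : ℝ) ≤ (B : ℝ) ^ κ * (H / h) ^ k := by
  obtain ⟨κ₀, hκ₀⟩ := lio n k (by omega)
  exact ⟨_, cub_explicit n k κ₀ hk1 hk hκ₀⟩

end Pool.Agent.H88.TU
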