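import Pool.Agent.H88.TU.Lio
import Pool.Agent.H88.TU.Sta
import Pool.Agent.H88.A2.Gd

/-! # [H88 TU FGM] No flex at infinity: the curvature is bounded below

PROOF. `t` a real zero of `φ_n = fm (ar G) n`, `β = be n (ar G) t`: the coefficients of `X^n, X^(n-1), X^(n-2)` of `G(X, tX + β)` are `φ_n(t) = 0`, `φ_n'(t) β + φ_(n-1)(t) = 0`,
`φ_n''(t)/2 β² + φ_(n-1)'(t) β + φ_(n-2)(t) = gm/φ_n'(t)²`: by `Flx` (`natDegree ≥ n - 2`) `gm ≠ 0` (`φ_n'(t) ≠ 0`: `φ_n` is irreducible over `ℚ`, so separable; if `n - 2 > 0` a polynomial with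
zero coefficients at `n, n-1, n-2` has `natDegree < n - 2` or is `0`). `2 gm = aeval t p`, `p` an integer polynomial of degree `≤ 3n` with coefficients `≤ B^c`: `lio n (3n)` with `h = B^c`.
Second part: `G(θX + β, X)` for the array `sw (ar G)`; `θ ≠ 0` (else `φ` would have the zero `0`, degree `≥ 2` irreducible), `G(θX+β, X) = G(X', (X'-β)/θ)` with `X' = θX + β`, and `natDegree` of a
composition with a polynomial of degree `1` (`natDegree_comp`) is the same: `Flx` with `1/θ`, `-β/θ`. -/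

namespace Pool.Agent.H88.TU

open Finset Polynomial Pool.Agent.H8.AA Pool.Agent.H88.A2

private theorem pol_ae {n : ℕ} (c : Ix n → ℤ) (x y : ℝ[X]) :
    MvPolynomial.aeval ![x, y] (pol c) = ∑ k ∈ range (n + 1), ∑ j ∈ range (k + 1),
      ((co c (k - j) j : ℤ) : ℝ[X]) * (x ^ (k - j) * y ^ j) := by
  unfold pol
  rw [map_sum, Finset.sum_sigma']
  refine Finset.sum_bij' (i := fun (p : Ix n) _ => (⟨p.1.1.val + p.1.2.val, p.1.2.val⟩ : (_ : ℕ) × ℕ))
    (j := fun (s : (_ : ℕ) × ℕ) hs => ix (s.1 - s.2) s.2 (by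
      rw [Finset.mem_sigma] at hs
      have h1 := Finset.mem_range.1 hs.1
      have h2 := Finset.mem_range.1 hs.2
      omega)) ?_ ?_ ?_ ?_ ?_
  · intro p _
    rw [Finset.mem_sigma]
    constructor
    · rw [Finset.mem_range]
      have := p.2
      simp only
      omega
    · rw [Finset.mem_range]
      simp only
      omega
  · intro s _
    exact Finset.mem_univ _
  · intro p _
    apply Subtype.ext
    apply Prod.ext
    · apply Fin.ext
      simp only [ix]
      omega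
    · apply Fin.ext
      simp only [ix]
  · intro s hs
    rw [Finset.mem_sigma] at hs
    have h1 := Finset.mem_range.1 hs.1
    have h2 := Finset.mem_range.1 hs.2
    obtain ⟨k, j⟩ := s
    simp only [ix] at *
    have : k - j + j = k := by omega
    rw [this]
  · intro p _
    have h1 : p.1.1.val + p.1.2.val - p.1.2.val = p.1.1.val := by omega
    simp only [h1]
    rw [co_of_le c p.2, MvPolynomial.aeval_monomial, Finsupp.prod_add_index', Finsupp.prod_single_index,
      Finsupp.prod_single_index]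
    · rfl
    · simp
    · simp
    · simp
    · intro a b₁ b₂
      rw [pow_add]

private theorem ae_sum {n : ℕ} {G : MvPolynomial (Fin 2) ℤ} (hG : G.totalDegree ≤ n) (x y : ℝ[X]) :
    MvPolynomial.aeval ![x, y] G = ∑ k ∈ range (n + 1), ∑ j ∈ range (k + 1),
      ((ar G (k - j) j : ℤ) : ℝ[X]) * (x ^ (k - j) * y ^ j) := by
  have h := pol_ae (fun p : Ix n => G.coeff (Finsupp.single 0 p.1.1.val + Finsupp.single 1 p.1.2.val)) x y
  rw [← ar_pol, Pool.Agent.H85.AA.pol_surj G hG] at h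
  exact h

private theorem term_coeff (t β : ℝ) {k j m : ℕ} (hj : j ≤ k) :
    (X ^ (k - j) * (C t * X + C β) ^ j : ℝ[X]).coeff m =
      if m ≤ k then (j.choose (k - m) : ℝ) * t ^ (j - (k - m)) * β ^ (k - m) else 0 := by
  have hlin : ∀ i : ℕ, ((C t * X + C β) ^ j : ℝ[X]).coeff i =
      if i ≤ j then (j.choose i : ℝ) * t ^ i * β ^ (j - i) else 0 := by
    intro i
    rw [add_pow, finsetSum_coeff]
    have h1 : ∀ m ∈ range (j + 1), ((C t * X) ^ m * C β ^ (j - m) * (j.choose m : ℝ[X])).coeff i =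
        if m = i then (j.choose i : ℝ) * t ^ i * β ^ (j - i) else 0 := by
      intro m _
      have h2 : ((C t * X) ^ m * C β ^ (j - m) * (j.choose m : ℝ[X])) =
          C ((j.choose m : ℝ) * t ^ m * β ^ (j - m)) * X ^ m := by
        rw [mul_pow]
        simp only [C_mul, C_pow, map_natCast]
        ring
      rw [h2, coeff_C_mul_X_pow]
      by_cases h3 : m = i
      · rw [if_pos h3, if_pos h3.symm, h3]
      · rw [if_neg h3, if_neg (fun h => h3 h.symm)]
    rw [Finset.sum_congr rfl h1, Finset.sum_ite_eq']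
    by_cases h4 : i ≤ j
    · rw [if_pos h4, if_pos (Finset.mem_range.2 (by omega))]
    · rw [if_neg h4, if_neg (fun h => h4 (by have := Finset.mem_range.1 h; omega))]
  rw [coeff_X_pow_mul']
  by_cases h1 : m ≤ k
  · rw [if_pos h1]
    by_cases h2 : k - j ≤ m
    · rw [if_pos h2, hlin, if_pos (by omega)]
      have e1 : j - (m - (k - j)) = k - m := by omega
      have e2 : m - (k - j) = j - (k - m) := by omega
      have e3 : j.choose (m - (k - j)) = j.choose (k - m) := by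
        rw [e2]
        exact Nat.choose_symm (by omega)
      rw [e1, e3, e2]
    · rw [if_neg h2, Nat.choose_eq_zero_of_lt (by omega)]
      simp
  · rw [if_neg h1, if_pos (by omega), hlin, if_neg (by omega)]

/-- the coefficients of `G(X, tX + β)` -/
private theorem ae_coeff {n : ℕ} {G : MvPolynomial (Fin 2) ℤ} (hG : G.totalDegree ≤ n) (t β : ℝ) (m : ℕ) :
    (MvPolynomial.aeval ![X, C t * X + C β] G : ℝ[X]).coeff m =
      ∑ k ∈ range (n + 1), if m ≤ k then ∑ j ∈ range (k + 1), (ar G (k - j) j : ℝ) *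
        ((j.choose (k - m) : ℝ) * t ^ (j - (k - m)) * β ^ (k - m)) else 0 := by
  rw [ae_sum hG, finsetSum_coeff]
  refine Finset.sum_congr rfl fun k _ => ?_
  rw [finsetSum_coeff]
  have h1 : ∀ j ∈ range (k + 1), (((ar G (k - j) j : ℤ) : ℝ[X]) * (X ^ (k - j) * (C t * X + C β) ^ j)).coeff m =
      (ar G (k - j) j : ℝ) * (if m ≤ k then (j.choose (k - m) : ℝ) * t ^ (j - (k - m)) * β ^ (k - m) else 0) := by
    intro j hj
    have hj' := Finset.mem_range.1 hj
    have h2 : ((ar G (k - j) j : ℤ) : ℝ[X]) = C ((ar G (k - j) j : ℤ) : ℝ) := by simp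
    rw [h2, coeff_C_mul, term_coeff t β (by omega)]
  rw [Finset.sum_congr rfl h1]
  by_cases h3 : m ≤ k
  · simp only [if_pos h3]
  · simp only [if_neg h3, mul_zero, Finset.sum_const_zero]

private theorem fm_ddaeval (e : ℕ → ℕ → ℤ) (k : ℕ) (t : ℝ) :
    aeval t (derivative (derivative (fm e k))) / 2 =
      ∑ j ∈ range (k + 1), (e (k - j) j : ℝ) * ((j.choose 2 : ℝ) * t ^ (j - 2)) := by
  unfold fm
  rw [map_sum, map_sum, map_sum, Finset.sum_div]
  refine Finset.sum_congr rfl fun j _ => ?_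
  rw [derivative_monomial, derivative_monomial, aeval_monomial, Nat.cast_choose_two]
  have h1 : j - 1 - 1 = j - 2 := by omega
  rw [h1]
  rcases Nat.eq_zero_or_pos j with h | h
  · subst h
    simp
  · have h2 : ((j - 1 : ℕ) : ℝ) = (j : ℝ) - 1 := by
      rw [Nat.cast_sub h]
      simp
    simp only [algebraMap_int_eq, eq_intCast]
    push_cast
    rw [h2]
    ring

/-- no contact of order `≥ 3`: `gm ≠ 0` -/
private theorem gm_ne {n : ℕ} (hn : 5 ≤ n) {G : MvPolynomial (Fin 2) ℤ} (hG : G.totalDegree ≤ n) {t : ℝ}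
    (ht : aeval t (fm (ar G) n) = 0) (hd : aeval t (derivative (fm (ar G) n)) ≠ 0)
    (hf : n - 2 ≤ (MvPolynomial.aeval ![X, C t * X + C (be n (ar G) t)] G : ℝ[X]).natDegree) :
    gm n (ar G) t ≠ 0 := by
  intro h0
  obtain ⟨N, rfl⟩ : ∃ N, n = N + 2 := ⟨n - 2, by omega⟩
  set β := be (N + 2) (ar G) t with hβ
  set P : ℝ[X] := MvPolynomial.aeval ![X, C t * X + C β] G with hP
  have hz : ∀ m k : ℕ, k < m → (if m ≤ k then ∑ j ∈ range (k + 1), (ar G (k - j) j : ℝ) *
        ((j.choose (k - m) : ℝ) * t ^ (j - (k - m)) * β ^ (k - m)) else 0) = 0 := by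
    intro m k h
    rw [if_neg (by omega)]
  have hA : aeval t (fm (ar G) (N + 1)) = ∑ j ∈ range (N + 1 + 1), (ar G (N + 1 - j) j : ℝ) * t ^ j := fm_aeval _ _ _
  have hD : aeval t (derivative (fm (ar G) (N + 2))) =
      ∑ j ∈ range (N + 2 + 1), (ar G (N + 2 - j) j : ℝ) * (j * t ^ (j - 1)) := fm_daeval _ _ _
  have hA' : aeval t (derivative (fm (ar G) (N + 1))) =
      ∑ j ∈ range (N + 1 + 1), (ar G (N + 1 - j) j : ℝ) * (j * t ^ (j - 1)) := fm_daeval _ _ _
  have hE : aeval t (fm (ar G) N) = ∑ j ∈ range (N + 1), (ar G (N - j) j : ℝ) * t ^ j := fm_aeval _ _ _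
  have hT : aeval t (fm (ar G) (N + 2)) = ∑ j ∈ range (N + 2 + 1), (ar G (N + 2 - j) j : ℝ) * t ^ j := fm_aeval _ _ _
  have hDD := fm_ddaeval (ar G) (N + 2) t
  have hβD : aeval t (derivative (fm (ar G) (N + 2))) * β = -aeval t (fm (ar G) (N + 1)) := by
    rw [hβ]
    unfold be
    have : N + 2 - 1 = N + 1 := rfl
    rw [this]
    field_simp
  have c2 : P.coeff (N + 2) = 0 := by
    rw [hP, ae_coeff hG, Finset.sum_range_succ]
    rw [Finset.sum_eq_zero (fun k hk => hz _ _ (Finset.mem_range.1 hk)), zero_add, if_pos le_rfl, ← ht, hT]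
    refine Finset.sum_congr rfl fun j _ => ?_
    simp
  have c1 : P.coeff (N + 1) = 0 := by
    rw [hP, ae_coeff hG, Finset.sum_range_succ, Finset.sum_range_succ]
    rw [Finset.sum_eq_zero (fun k hk => hz _ _ (Finset.mem_range.1 hk)), zero_add, if_pos le_rfl, if_pos (by omega)]
    have h1 : (∑ j ∈ range (N + 1 + 1), (ar G (N + 1 - j) j : ℝ) *
        ((j.choose (N + 1 - (N + 1)) : ℝ) * t ^ (j - (N + 1 - (N + 1))) * β ^ (N + 1 - (N + 1)))) =
        aeval t (fm (ar G) (N + 1)) := by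
      rw [hA]
      refine Finset.sum_congr rfl fun j _ => ?_
      simp
    have h2 : (∑ j ∈ range (N + 2 + 1), (ar G (N + 2 - j) j : ℝ) *
        ((j.choose (N + 2 - (N + 1)) : ℝ) * t ^ (j - (N + 2 - (N + 1))) * β ^ (N + 2 - (N + 1)))) =
        aeval t (derivative (fm (ar G) (N + 2))) * β := by
      rw [hD, Finset.sum_mul]
      refine Finset.sum_congr rfl fun j _ => ?_
      have : N + 2 - (N + 1) = 1 := by omega
      rw [this]
      simp
      ring
    rw [h1, h2, hβD]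
    ring
  have c0 : P.coeff N = 0 := by
    rw [hP, ae_coeff hG, Finset.sum_range_succ, Finset.sum_range_succ, Finset.sum_range_succ]
    rw [Finset.sum_eq_zero (fun k hk => hz _ _ (Finset.mem_range.1 hk)), zero_add, if_pos le_rfl, if_pos (by omega),
      if_pos (by omega)]
    have h1 : (∑ j ∈ range (N + 1), (ar G (N - j) j : ℝ) *
        ((j.choose (N - N) : ℝ) * t ^ (j - (N - N)) * β ^ (N - N))) = aeval t (fm (ar G) N) := by
      rw [hE]
      refine Finset.sum_congr rfl fun j _ => ?_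
      simp
    have h2 : (∑ j ∈ range (N + 1 + 1), (ar G (N + 1 - j) j : ℝ) *
        ((j.choose (N + 1 - N) : ℝ) * t ^ (j - (N + 1 - N)) * β ^ (N + 1 - N))) =
        aeval t (derivative (fm (ar G) (N + 1))) * β := by
      rw [hA', Finset.sum_mul]
      refine Finset.sum_congr rfl fun j _ => ?_
      have : N + 1 - N = 1 := by omega
      rw [this]
      simp
      ring
    have h3 : (∑ j ∈ range (N + 2 + 1), (ar G (N + 2 - j) j : ℝ) *
        ((j.choose (N + 2 - N) : ℝ) * t ^ (j - (N + 2 - N)) * β ^ (N + 2 - N))) =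
        aeval t (derivative (derivative (fm (ar G) (N + 2)))) / 2 * β ^ 2 := by
      rw [hDD, Finset.sum_mul]
      refine Finset.sum_congr rfl fun j _ => ?_
      have : N + 2 - N = 2 := by omega
      rw [this]
      ring
    rw [h1, h2, h3]
    have h4 : gm (N + 2) (ar G) t = 0 := h0
    unfold gm at h4
    have e1 : N + 2 - 1 = N + 1 := rfl
    have e2 : N + 2 - 2 = N := rfl
    rw [e1, e2] at h4
    have h5 : aeval t (fm (ar G) (N + 1)) = -(aeval t (derivative (fm (ar G) (N + 2))) * β) := by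
      rw [hβD]
      ring
    rw [h5] at h4
    have h6 : aeval t (derivative (fm (ar G) (N + 2))) ^ 2 * (aeval t (fm (ar G) N) +
        aeval t (derivative (fm (ar G) (N + 1))) * β +
        aeval t (derivative (derivative (fm (ar G) (N + 2)))) / 2 * β ^ 2) = 0 := by
      rw [← h4]
      ring
    rcases mul_eq_zero.1 h6 with h7 | h7
    · exact absurd h7 (pow_ne_zero _ hd)
    · exact h7
  have chi : ∀ m, N + 2 < m → P.coeff m = 0 := by
    intro m hm
    rw [hP, ae_coeff hG]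
    exact Finset.sum_eq_zero (fun k hk => hz _ _ (by have := Finset.mem_range.1 hk; omega))
  have hall : ∀ m, N ≤ m → P.coeff m = 0 := by
    intro m hm
    rcases Nat.lt_or_ge (N + 2) m with h | h
    · exact chi m h
    · have : m = N ∨ m = N + 1 ∨ m = N + 2 := by omega
      rcases this with h | h | h
      · rw [h, c0]
      · rw [h, c1]
      · rw [h, c2]
  have hdeg : N ≤ P.natDegree := hf
  have h8 := hall _ hdeg
  have h9 : P = 0 := leadingCoeff_eq_zero.1 h8
  rw [h9, natDegree_zero] at hdeg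
  omega

private theorem mul_bd {p q : ℤ[X]} {d : ℕ} {P Q : ℤ} (hd : p.natDegree ≤ d) (hP : ∀ i, |p.coeff i| ≤ P)
    (hQ : ∀ i, |q.coeff i| ≤ Q) (i : ℕ) : |(p * q).coeff i| ≤ (d + 1) * P * Q := by
  have hP0 : 0 ≤ P := (abs_nonneg _).trans (hP 0)
  have hQ0 : 0 ≤ Q := (abs_nonneg _).trans (hQ 0)
  rw [p.as_sum_range' (d + 1) (by omega), Finset.sum_mul, finsetSum_coeff]
  refine (Finset.abs_sum_le_sum_abs _ _).trans ?_
  have h1 : ∀ a ∈ range (d + 1), |(monomial a (p.coeff a) * q).coeff i| ≤ P * Q := by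
    intro a _
    rw [← C_mul_X_pow_eq_monomial, mul_assoc, coeff_C_mul, coeff_X_pow_mul', abs_mul]
    refine mul_le_mul (hP a) ?_ (abs_nonneg _) hP0
    split_ifs
    · exact hQ _
    · simpa using hQ0
  refine (Finset.sum_le_sum h1).trans ?_
  rw [Finset.sum_const, Finset.card_range, nsmul_eq_mul]
  push_cast
  exact (mul_assoc _ _ _).symm.le

private theorem der_bd {p : ℤ[X]} {d : ℕ} {P : ℤ} (hd : p.natDegree ≤ d) (hP : ∀ i, |p.coeff i| ≤ P) (i : ℕ) :
    |(derivative p).coeff i| ≤ P * d := by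
  have hP0 : 0 ≤ P := (abs_nonneg _).trans (hP 0)
  rw [coeff_derivative]
  rcases Nat.lt_or_ge i d with h | h
  · rw [abs_mul]
    refine mul_le_mul (hP _) ?_ (abs_nonneg _) hP0
    rw [abs_of_nonneg (by positivity)]
    exact_mod_cast h
  · rw [coeff_eq_zero_of_natDegree_lt (by omega), zero_mul, abs_zero]
    positivity

private theorem fm_bd {B : ℤ} (hB : 0 ≤ B) {e : ℕ → ℕ → ℤ} (he : ∀ a b, |e a b| ≤ B) (k i : ℕ) :
    |(fm e k).coeff i| ≤ B := by
  rw [fm_coeff]
  split_ifs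
  · exact he _ _
  · simpa using hB

/-- Liouville for `gm` -/
private theorem gm_bd (n κ : ℕ) (hn : 5 ≤ n) (hκ : LioS n (3 * n) κ) : ∀ B : ℕ, 2 ≤ B → ∀ e : ℕ → ℕ → ℤ,
    (∀ a b, |e a b| ≤ (B : ℤ)) → (fm e n).natDegree = n → Irreducible ((fm e n).map (Int.castRingHom ℚ)) →
    ∀ t : ℝ, aeval t (fm e n) = 0 → gm n e t ≠ 0 →
      1 ≤ (B : ℝ) ^ (κ + (8 * n + 3 + 3) * (n - 1) + 1) * |gm n e t| := by
  obtain ⟨c, hc⟩ : ∃ c : ℕ, c = 8 * n + 3 := ⟨_, rfl⟩
  rw [← hc]
  intro B hB e he hdeg hirr t ht hgm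
  have hBR : (2 : ℝ) ≤ (B : ℝ) := by exact_mod_cast hB
  have hB1 : (1 : ℝ) ≤ (B : ℝ) := by linarith
  have hcB : 5 * ((n : ℤ) + 1) ^ 2 * (n : ℤ) ^ 6 ≤ (B : ℤ) ^ c := by
    have h1 : n + 1 ≤ 2 ^ n := Nat.lt_two_pow_self (n := n)
    have h2 : 5 * (n + 1) ^ 2 * n ^ 6 ≤ 2 ^ c := by
      calc 5 * (n + 1) ^ 2 * n ^ 6 ≤ 2 ^ 3 * (2 ^ n) ^ 2 * (2 ^ n) ^ 6 :=
            Nat.mul_le_mul (Nat.mul_le_mul (by norm_num) (Nat.pow_le_pow_left h1 2))
              (Nat.pow_le_pow_left (by omega) 6)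
        _ = 2 ^ c := by
            rw [hc, ← pow_mul, ← pow_mul, ← pow_add, ← pow_add]
            congr 1
            ring
    have h3 : 5 * (n + 1) ^ 2 * n ^ 6 ≤ B ^ c := h2.trans (Nat.pow_le_pow_left hB c)
    exact_mod_cast h3
  have hnpos : (1 : ℤ) ≤ (n : ℤ) := by
    have : 1 ≤ n := by omega
    exact_mod_cast this
  have hB0 : (0 : ℤ) ≤ (B : ℤ) := by positivity
  set f := fm e n with hf
  set a := fm e (n - 1) with ha
  set b := fm e (n - 2) with hb
  obtain ⟨U, hU⟩ : ∃ U : ℤ, U = (B : ℤ) * n * n := ⟨_, rfl⟩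
  have hU0 : 0 ≤ U := by rw [hU]; positivity
  have hBn : (B : ℤ) * n ≤ U := by
    rw [hU]
    nlinarith [mul_nonneg hB0 (by positivity : (0 : ℤ) ≤ n)]
  have hBU : (B : ℤ) ≤ U := by
    refine le_trans ?_ hBn
    nlinarith
  have fd : f.natDegree ≤ n := fm_deg _ _
  have ad' : a.natDegree ≤ n := (fm_deg _ _).trans (by omega)
  have bd : b.natDegree ≤ n := (fm_deg _ _).trans (by omega)
  have dfd : (derivative f).natDegree ≤ n := (natDegree_derivative_le f).trans (by omega)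
  have dad : (derivative a).natDegree ≤ n := (natDegree_derivative_le a).trans (by omega)
  have ddfd : (derivative (derivative f)).natDegree ≤ n := (natDegree_derivative_le _).trans (by omega)
  have fB : ∀ i, |f.coeff i| ≤ (B : ℤ) := fm_bd hB0 he n
  have aB : ∀ i, |a.coeff i| ≤ (B : ℤ) := fm_bd hB0 he _
  have bB : ∀ i, |b.coeff i| ≤ (B : ℤ) := fm_bd hB0 he _
  have df1 : ∀ i, |(derivative f).coeff i| ≤ (B : ℤ) * n := der_bd fd fB
  have aU : ∀ i, |a.coeff i| ≤ U := fun i => (aB i).trans hBU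
  have bU : ∀ i, |b.coeff i| ≤ U := fun i => (bB i).trans hBU
  have dfU : ∀ i, |(derivative f).coeff i| ≤ U := fun i => (df1 i).trans hBn
  have daU : ∀ i, |(derivative a).coeff i| ≤ U := fun i => (der_bd ad' aB i).trans hBn
  have ddfU : ∀ i, |(derivative (derivative f)).coeff i| ≤ U := by
    intro i
    rw [hU]
    exact der_bd dfd df1 i
  have three : ∀ p q r : ℤ[X], p.natDegree ≤ n → q.natDegree ≤ n → r.natDegree ≤ n →
      (∀ i, |p.coeff i| ≤ U) → (∀ i, |q.coeff i| ≤ U) → (∀ i, |r.coeff i| ≤ U) →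
      (p * (q * r)).natDegree ≤ 3 * n ∧ ∀ i, |(p * (q * r)).coeff i| ≤ ((n : ℤ) + 1) * U * (((n : ℤ) + 1) * U * U) := by
    intro p q r h1 h2 h3 h4 h5 h6
    refine ⟨?_, ?_⟩
    · refine natDegree_mul_le.trans ?_
      have := natDegree_mul_le (p := q) (q := r)
      omega
    · intro i
      exact mul_bd h1 h4 (fun i => mul_bd h2 h5 h6 i) i
  obtain ⟨p1, hp1⟩ : ∃ p1, p1 = derivative (derivative f) * (a * a) := ⟨_, rfl⟩
  obtain ⟨p2, hp2⟩ : ∃ p2, p2 = derivative a * (a * derivative f) := ⟨_, rfl⟩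
  obtain ⟨p3, hp3⟩ : ∃ p3, p3 = b * (derivative f * derivative f) := ⟨_, rfl⟩
  obtain ⟨d1, k1⟩ := three _ _ _ ddfd ad' ad' ddfU aU aU
  obtain ⟨d2, k2⟩ := three _ _ _ dad ad' dfd daU aU dfU
  obtain ⟨d3, k3⟩ := three _ _ _ bd dfd dfd bU dfU dfU
  rw [← hp1] at d1 k1
  rw [← hp2] at d2 k2
  rw [← hp3] at d3 k3
  obtain ⟨p, hp⟩ : ∃ p, p = p1 - (p2 + p2) + (p3 + p3) := ⟨_, rfl⟩
  have hpd : p.natDegree ≤ 3 * n := by
    rw [hp]
    refine natDegree_add_le_of_degree_le ?_ (natDegree_add_le_of_degree_le d3 d3)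
    refine (natDegree_sub_le_of_le d1 (natDegree_add_le_of_degree_le d2 d2)).trans ?_
    simp
  obtain ⟨W, hW⟩ : ∃ W : ℤ, W = ((n : ℤ) + 1) * U * (((n : ℤ) + 1) * U * U) := ⟨_, rfl⟩
  rw [← hW] at k1 k2 k3
  have hpc : ∀ i, |p.coeff i| ≤ 5 * W := by
    intro i
    rw [hp]
    simp only [coeff_add, coeff_sub]
    have h1 := abs_le.1 (k1 i)
    have h2 := abs_le.1 (k2 i)
    have h3 := abs_le.1 (k3 i)
    rw [abs_le]
    constructor <;> linarith
  have h5W : 5 * W ≤ (B : ℤ) ^ (c + 3) := by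
    have h1 : 5 * W = (5 * ((n : ℤ) + 1) ^ 2 * (n : ℤ) ^ 6) * (B : ℤ) ^ 3 := by
      rw [hW, hU]
      ring
    rw [h1, pow_add]
    exact mul_le_mul_of_nonneg_right hcB (by positivity)
  have hval : aeval t p = 2 * gm n e t := by
    rw [hp, hp1, hp2, hp3]
    unfold gm
    simp only [map_add, map_sub, map_mul]
    rw [← hf, ← ha, ← hb]
    ring
  have hne : aeval t p ≠ 0 := by
    rw [hval]
    exact mul_ne_zero two_ne_zero hgm
  have hB1c : (1 : ℝ) ≤ (B : ℝ) ^ (c + 3) := one_le_pow₀ hB1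
  have hmain := hκ B hB f hdeg fB hirr t ht ((B : ℝ) ^ (c + 3)) hB1c p hpd (fun i => by
    have h1 := (hpc i).trans h5W
    have h2 : |(p.coeff i : ℝ)| = ((|p.coeff i| : ℤ) : ℝ) := by simp
    rw [h2]
    exact_mod_cast h1) hne
  rw [hval, abs_mul, abs_two] at hmain
  refine hmain.trans ?_
  have h3 : ((B : ℝ) ^ (c + 3)) ^ (n - 1) = (B : ℝ) ^ ((c + 3) * (n - 1)) := by rw [pow_mul]
  rw [h3]
  have h4 : (B : ℝ) ^ κ * (B : ℝ) ^ ((c + 3) * (n - 1)) * (2 * |gm n e t|) =
      ((B : ℝ) ^ κ * (B : ℝ) ^ ((c + 3) * (n - 1)) * |gm n e t|) * 2 := by ring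
  have h5 : (B : ℝ) ^ (κ + (c + 3) * (n - 1) + 1) * |gm n e t| =
      ((B : ℝ) ^ κ * (B : ℝ) ^ ((c + 3) * (n - 1)) * |gm n e t|) * B := by
    rw [pow_succ, pow_add]
    ring
  rw [h4, h5]
  exact mul_le_mul_of_nonneg_left hBR (by positivity)

private theorem hc_eq (n : ℕ) (G : MvPolynomial (Fin 2) ℤ) :
    MvPolynomial.homogeneousComponent n G = ∑ i ∈ range (n + 1),
      MvPolynomial.monomial (Finsupp.single 0 i + Finsupp.single 1 (n - i)) (ar G i (n - i)) := by
  classical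
  ext m
  rw [MvPolynomial.coeff_homogeneousComponent, MvPolynomial.coeff_sum]
  simp only [MvPolynomial.coeff_monomial]
  have hm : Finsupp.single 0 (m 0) + Finsupp.single 1 (m 1) = m := by
    ext i
    fin_cases i <;> simp
  have hdeg : m.degree = m 0 + m 1 := by
    conv_lhs => rw [← hm]
    simp
  split_ifs with h
  · rw [Finset.sum_eq_single (m 0)]
    · have h1 : n - m 0 = m 1 := by omega
      rw [h1, if_pos hm]
      unfold ar
      rw [hm]
    · intro i _ hi
      rw [if_neg]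
      intro h2
      apply hi
      rw [← h2]
      simp
    · intro h2
      exfalso
      apply h2
      rw [Finset.mem_range]
      omega
  · rw [Finset.sum_eq_zero]
    intro i hi
    rw [if_neg]
    intro h2
    apply h
    have h3 := Finset.mem_range.1 hi
    have h4 : m 0 = i := by
      rw [← h2]
      simp
    have h5 : m 1 = n - i := by
      rw [← h2]
      simp
    rw [hdeg, h4, h5]
    omega

private theorem dh_mono (i j : ℕ) (c : ℤ) :
    Pool.Agent.H2.AA.dh (MvPolynomial.monomial (Finsupp.single 0 i + Finsupp.single 1 j) c) =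
      Polynomial.monomial i c := by
  unfold Pool.Agent.H2.AA.dh
  have h1 : (Finsupp.single (0 : Fin 2) i + Finsupp.single 1 j : Fin 2 →₀ ℕ) 0 = i := by simp
  have h2 : (Finsupp.single (0 : Fin 2) i + Finsupp.single 1 j : Fin 2 →₀ ℕ) 1 = j := by simp
  rw [MvPolynomial.aeval_monomial, Finsupp.prod_fintype _ _ (fun _ => pow_zero _), Fin.prod_univ_two,
    h1, h2]
  simp only [Matrix.cons_val_zero, Matrix.cons_val_one, one_pow, mul_one]
  exact Polynomial.C_mul_X_pow_eq_monomial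

private theorem fm_sw (n : ℕ) (G : MvPolynomial (Fin 2) ℤ) :
    fm (sw (ar G)) n = Pool.Agent.H2.AA.dh (MvPolynomial.homogeneousComponent n G) := by
  rw [hc_eq]
  have h1 : Pool.Agent.H2.AA.dh (∑ i ∈ range (n + 1),
      MvPolynomial.monomial (Finsupp.single 0 i + Finsupp.single 1 (n - i)) (ar G i (n - i))) =
      ∑ i ∈ range (n + 1), Pool.Agent.H2.AA.dh
        (MvPolynomial.monomial (Finsupp.single 0 i + Finsupp.single 1 (n - i)) (ar G i (n - i))) := by
    unfold Pool.Agent.H2.AA.dh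
    rw [map_sum]
  rw [h1]
  unfold fm sw
  refine Finset.sum_congr rfl fun j _ => ?_
  rw [dh_mono]

private theorem fm_id (n : ℕ) (G : MvPolynomial (Fin 2) ℤ) :
    fm (ar G) n = Pool.Agent.H2.AA.dh
      (MvPolynomial.rename (Equiv.swap (0 : Fin 2) 1) (MvPolynomial.homogeneousComponent n G)) := by
  rw [hc_eq]
  have h1 : Pool.Agent.H2.AA.dh (MvPolynomial.rename (Equiv.swap (0 : Fin 2) 1) (∑ i ∈ range (n + 1),
      MvPolynomial.monomial (Finsupp.single 0 i + Finsupp.single 1 (n - i)) (ar G i (n - i)))) =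
      ∑ i ∈ range (n + 1), Polynomial.monomial (n - i) (ar G i (n - i)) := by
    unfold Pool.Agent.H2.AA.dh
    rw [map_sum, map_sum]
    refine Finset.sum_congr rfl fun i _ => ?_
    rw [MvPolynomial.rename_monomial]
    have h2 : Finsupp.mapDomain (Equiv.swap (0 : Fin 2) 1)
        (Finsupp.single (0 : Fin 2) i + Finsupp.single 1 (n - i)) =
        Finsupp.single 0 (n - i) + Finsupp.single 1 i := by
      rw [Finsupp.mapDomain_add, Finsupp.mapDomain_single, Finsupp.mapDomain_single,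
        Equiv.swap_apply_left, Equiv.swap_apply_right, add_comm]
    rw [h2]
    exact dh_mono _ _ _
  rw [h1]
  unfold fm
  rw [← Finset.sum_range_reflect]
  refine Finset.sum_congr rfl fun j hj => ?_
  have h3 := Finset.mem_range.1 hj
  have h4 : n + 1 - 1 - j = n - j := by omega
  have h5 : n - (n - j) = j := by omega
  rw [h4, h5]

private theorem irr_sw {n : ℕ} (hn : 2 ≤ n) {G : MvPolynomial (Fin 2) ℤ}
    (h : Irreducible (MvPolynomial.map (Int.castRingHom ℚ) (MvPolynomial.homogeneousComponent n G))) :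
    ((fm (sw (ar G)) n).map (Int.castRingHom ℚ)).natDegree = n ∧
      Irreducible ((fm (sw (ar G)) n).map (Int.castRingHom ℚ)) := by
  rw [fm_sw, ← Pool.Agent.H2.AA.dh_map]
  exact Pool.Agent.H2.AA.dh_irr hn ((MvPolynomial.homogeneousComponent_isHomogeneous _ _).map _) h

private theorem irr_id {n : ℕ} (hn : 2 ≤ n) {G : MvPolynomial (Fin 2) ℤ}
    (h : Irreducible (MvPolynomial.map (Int.castRingHom ℚ) (MvPolynomial.homogeneousComponent n G))) :
    ((fm (ar G) n).map (Int.castRingHom ℚ)).natDegree = n ∧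
      Irreducible ((fm (ar G) n).map (Int.castRingHom ℚ)) := by
  rw [fm_id, ← Pool.Agent.H2.AA.dh_map, MvPolynomial.map_rename]
  refine Pool.Agent.H2.AA.dh_irr hn
    ((MvPolynomial.homogeneousComponent_isHomogeneous _ _).map _).rename_isHomogeneous ?_
  exact (MulEquiv.irreducible_iff (MvPolynomial.renameEquiv ℚ (Equiv.swap (0 : Fin 2) 1))).2 h

private theorem der_ne {φ : ℤ[X]} (hi : Irreducible (φ.map (Int.castRingHom ℚ))) {t : ℝ} (ht : aeval t φ = 0) :
    aeval t (derivative φ) ≠ 0 := by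
  intro hd
  have hsep : IsCoprime (φ.map (Int.castRingHom ℚ)) (derivative (φ.map (Int.castRingHom ℚ))) := hi.separable
  obtain ⟨u, v, huv⟩ := hsep
  have h1 : aeval t (φ.map (Int.castRingHom ℚ)) = 0 := by
    rw [← algebraMap_int_eq, aeval_map_algebraMap]
    exact ht
  have h2 : aeval t (derivative (φ.map (Int.castRingHom ℚ))) = 0 := by
    rw [derivative_map, ← algebraMap_int_eq, aeval_map_algebraMap]
    exact hd
  have h3 := congrArg (aeval t) huv
  rw [map_add, map_mul, map_mul, h1, h2, mul_zero, mul_zero, add_zero, map_one] at h3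
  exact zero_ne_one h3

private theorem deg_of {n : ℕ} {φ : ℤ[X]} (h : (φ.map (Int.castRingHom ℚ)).natDegree = n) : φ.natDegree = n := by
  rw [← h]
  exact (natDegree_map_eq_of_injective (Int.castRingHom ℚ).injective_int φ).symm

private theorem root_ne {n : ℕ} (hn : 2 ≤ n) {φ : ℤ[X]} (hd : (φ.map (Int.castRingHom ℚ)).natDegree = n)
    (hi : Irreducible (φ.map (Int.castRingHom ℚ))) {t : ℝ} (ht : aeval t φ = 0) : t ≠ 0 := by
  rintro rfl
  have h1 : φ.coeff 0 = 0 := by
    have h2 : aeval (0 : ℝ) φ = (φ.coeff 0 : ℝ) := by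
      rw [← coeff_zero_eq_aeval_zero' (A := ℝ)]
      simp
    rw [h2] at ht
    exact_mod_cast ht
  have h2 : (φ.map (Int.castRingHom ℚ)).IsRoot 0 := by
    rw [IsRoot.def, ← coeff_zero_eq_eval_zero, coeff_map, h1, map_zero]
  have h3 := degree_eq_one_of_irreducible_of_root hi h2
  have h4 : (φ.map (Int.castRingHom ℚ)).natDegree = 1 := natDegree_eq_of_degree_eq_some (by rw [h3]; rfl)
  omega

private theorem ar_rename (G : MvPolynomial (Fin 2) ℤ) :
    ar (MvPolynomial.rename (Equiv.swap (0 : Fin 2) 1) G) = sw (ar G) := by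
  funext a b
  unfold ar sw
  have h1 : (Finsupp.single (0 : Fin 2) a + Finsupp.single 1 b : Fin 2 →₀ ℕ) =
      Finsupp.mapDomain (Equiv.swap (0 : Fin 2) 1) (Finsupp.single 0 b + Finsupp.single 1 a) := by
    rw [Finsupp.mapDomain_add, Finsupp.mapDomain_single, Finsupp.mapDomain_single, Equiv.swap_apply_left,
      Equiv.swap_apply_right, add_comm]
  rw [h1, MvPolynomial.coeff_rename_mapDomain _ (Equiv.swap (0 : Fin 2) 1).injective]

private theorem flx_sw {n : ℕ} {G : MvPolynomial (Fin 2) ℤ} (hF : Pool.Agent.H88.TS.Flx n G) {t : ℝ} (ht : t ≠ 0)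
    (β : ℝ) : n - 2 ≤ (MvPolynomial.aeval ![X, C t * X + C β]
      (MvPolynomial.rename (Equiv.swap (0 : Fin 2) 1) G) : ℝ[X]).natDegree := by
  have h1 := hF t⁻¹ (-(β * t⁻¹))
  have h2 : (MvPolynomial.aeval ![X, C t * X + C β]
      (MvPolynomial.rename (Equiv.swap (0 : Fin 2) 1) G) : ℝ[X]) =
      (MvPolynomial.aeval ![X, C t⁻¹ * X + C (-(β * t⁻¹))] G : ℝ[X]).comp (C t * X + C β) := by
    rw [MvPolynomial.aeval_rename, ← coe_compRingHom_apply, MvPolynomial.aeval_def, MvPolynomial.aeval_def,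
      MvPolynomial.eval₂_comp_left]
    have e1 : (compRingHom (C t * X + C β)).comp (algebraMap ℤ ℝ[X]) = algebraMap ℤ ℝ[X] :=
      Subsingleton.elim _ _
    rw [e1]
    congr 1
    funext i
    fin_cases i
    · simp
    · simp only [Function.comp, coe_compRingHom_apply]
      show X = (C t⁻¹ * X + C (-(β * t⁻¹))).comp (C t * X + C β)
      simp only [add_comp, mul_comp, C_comp, X_comp]
      have h3 : C t⁻¹ * (C t * X + C β) + C (-(β * t⁻¹)) = C (t⁻¹ * t) * X + C (t⁻¹ * β + -(β * t⁻¹)) := by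
        simp only [C_mul, C_add, C_neg]
        ring
      rw [h3, inv_mul_cancel₀ ht]
      have h4 : t⁻¹ * β + -(β * t⁻¹) = 0 := by ring
      rw [h4]
      simp
  rw [h2, natDegree_comp, natDegree_linear ht, mul_one]
  exact h1

/-- the theorem with an explicit exponent -/
theorem fgm_ex (n κ : ℕ) (hn : 5 ≤ n) (h : LioS n (3 * n) κ) :
    FgmS n (κ + (8 * n + 3 + 3) * (n - 1) + 1) := by
  have hκ := gm_bd n κ hn h
  refine fun B hB G hG hirr hco hF => ⟨fun t ht => ?_, fun t ht => ?_⟩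
  · obtain ⟨hd, hi⟩ := irr_id (by omega : 2 ≤ n) hirr
    refine hκ B hB (ar G) (fun a b => ?_) (deg_of hd) hi t ht (gm_ne hn hG ht (der_ne hi ht) (hF _ _))
    have := hco (Finsupp.single 0 a + Finsupp.single 1 b)
    unfold ar
    linarith
  · obtain ⟨hd, hi⟩ := irr_sw (by omega : 2 ≤ n) hirr
    have hd' := der_ne hi ht
    have ht0 := root_ne (by omega) hd hi ht
    have hne : gm n (sw (ar G)) t ≠ 0 := by
      rw [← ar_rename] at ht hd' ⊢
      exact gm_ne hn ((MvPolynomial.totalDegree_rename_le _ _).trans hG) ht hd' (flx_sw hF ht0 _)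
    refine hκ B hB (sw (ar G)) (fun a b => ?_) (deg_of hd) hi t ht hne
    have := hco (Finsupp.single 0 b + Finsupp.single 1 a)
    unfold sw ar
    linarith

theorem fgm (n : ℕ) (hn : 5 ≤ n) : ∃ κ : ℕ, ∀ B : ℕ, 2 ≤ B → ∀ G : MvPolynomial (Fin 2) ℤ, G.totalDegree ≤ n →
    Irreducible (MvPolynomial.map (Int.castRingHom ℚ) (MvPolynomial.homogeneousComponent n G)) →
    (∀ m, |G.coeff m| + 1 ≤ (B : ℤ)) → Pool.Agent.H88.TS.Flx n G →
    (∀ t : ℝ, aeval t (fm (ar G) n) = 0 → 1 ≤ (B : ℝ) ^ κ * |gm n (ar G) t|) ∧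
    (∀ t : ℝ, aeval t (fm (sw (ar G)) n) = 0 → 1 ≤ (B : ℝ) ^ κ * |gm n (sw (ar G)) t|) := by
  obtain ⟨κ, hκ⟩ := lio n (3 * n) (by omega)
  exact ⟨_, fgm_ex n κ hn hκ⟩

end Pool.Agent.H88.TU
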