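import Pool.Agent.H88.TU.Sta
import Pool.Agent.H88.A2.Gd

/-! # [H88 TU GDX] The leading form has no double zero, polynomially in the coefficients

PROOF. `f = fm (ar G) n` (and `fm (sw (ar G)) n`): degree `n`, irreducible over `ℚ` (see `A2/Gd.lean`, `irr_id`, `irr_sw`), coefficients `< B`; the resultant `R ≠ 0` of `f` and `f'` is an integer and
`R = u f + v f'` with integer `u, v` of degree `< n`, coefficients `≤ (2n)! (n B)^(2n)` (adjugate of the Sylvester matrix, `exists_mul_add_mul_eq_C_resultant` or `adjSylvester`): for `|t| ≤ 1`,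
`1 ≤ n (2n)! (nB)^(2n) (|f(t)| + |f'(t)|)`. `Gd` with a smaller first number is weaker. -/

namespace Pool.Agent.H88.TU

open Finset Polynomial Pool.Agent.H8.AA Pool.Agent.H88.A2

private theorem hc_eq (n : ℕ) (G : MvPolynomial (Fin 2) ℤ) :
    MvPolynomial.homogeneousComponent n G = ∑ i ∈ range (n + 1),
      MvPolynomial.monomial (Finsupp.single 0 i + Finsupp.single 1 (n - i)) (ar G i (n - i)) := by
  classical
  ext m
  rw [MvPolynomial.coeff_homogeneousComponent, MvPolynomial.coeff_sum]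
  simp only [MvPolynomial.coeff_monomial]
  have hm : Finsupp.single 0 (m 0) + Finsupp.single 1 (m 1) = m := by
    ext i
    fin_cases i <;> simp
  have hdeg : m.degree = m 0 + m 1 := by
    conv_lhs => rw [← hm]
    simp
  split_ifs with h
  · rw [Finset.sum_eq_single (m 0)]
    · have h1 : n - m 0 = m 1 := by omega
      rw [h1, if_pos hm]
      unfold ar
      rw [hm]
    · intro i _ hi
      rw [if_neg]
      intro h2
      apply hi
      rw [← h2]
      simp
    · intro h2
      exfalso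
      apply h2
      rw [Finset.mem_range]
      omega
  · rw [Finset.sum_eq_zero]
    intro i hi
    rw [if_neg]
    intro h2
    apply h
    have h3 := Finset.mem_range.1 hi
    have h4 : m 0 = i := by
      rw [← h2]
      simp
    have h5 : m 1 = n - i := by
      rw [← h2]
      simp
    rw [hdeg, h4, h5]
    omega

private theorem dh_mono (i j : ℕ) (c : ℤ) :
    Pool.Agent.H2.AA.dh (MvPolynomial.monomial (Finsupp.single 0 i + Finsupp.single 1 j) c) =
      Polynomial.monomial i c := by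
  unfold Pool.Agent.H2.AA.dh
  have h1 : (Finsupp.single (0 : Fin 2) i + Finsupp.single 1 j : Fin 2 →₀ ℕ) 0 = i := by simp
  have h2 : (Finsupp.single (0 : Fin 2) i + Finsupp.single 1 j : Fin 2 →₀ ℕ) 1 = j := by simp
  rw [MvPolynomial.aeval_monomial, Finsupp.prod_fintype _ _ (fun _ => pow_zero _), Fin.prod_univ_two,
    h1, h2]
  simp only [Matrix.cons_val_zero, Matrix.cons_val_one, one_pow, mul_one]
  exact Polynomial.C_mul_X_pow_eq_monomial

private theorem fm_sw (n : ℕ) (G : MvPolynomial (Fin 2) ℤ) :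
    fm (sw (ar G)) n = Pool.Agent.H2.AA.dh (MvPolynomial.homogeneousComponent n G) := by
  rw [hc_eq]
  have h1 : Pool.Agent.H2.AA.dh (∑ i ∈ range (n + 1),
      MvPolynomial.monomial (Finsupp.single 0 i + Finsupp.single 1 (n - i)) (ar G i (n - i))) =
      ∑ i ∈ range (n + 1), Pool.Agent.H2.AA.dh
        (MvPolynomial.monomial (Finsupp.single 0 i + Finsupp.single 1 (n - i)) (ar G i (n - i))) := by
    unfold Pool.Agent.H2.AA.dh
    rw [map_sum]
  rw [h1]
  unfold fm sw
  refine Finset.sum_congr rfl fun j _ => ?_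
  rw [dh_mono]

private theorem fm_id (n : ℕ) (G : MvPolynomial (Fin 2) ℤ) :
    fm (ar G) n = Pool.Agent.H2.AA.dh
      (MvPolynomial.rename (Equiv.swap (0 : Fin 2) 1) (MvPolynomial.homogeneousComponent n G)) := by
  rw [hc_eq]
  have h1 : Pool.Agent.H2.AA.dh (MvPolynomial.rename (Equiv.swap (0 : Fin 2) 1) (∑ i ∈ range (n + 1),
      MvPolynomial.monomial (Finsupp.single 0 i + Finsupp.single 1 (n - i)) (ar G i (n - i)))) =
      ∑ i ∈ range (n + 1), Polynomial.monomial (n - i) (ar G i (n - i)) := by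
    unfold Pool.Agent.H2.AA.dh
    rw [map_sum, map_sum]
    refine Finset.sum_congr rfl fun i _ => ?_
    rw [MvPolynomial.rename_monomial]
    have h2 : Finsupp.mapDomain (Equiv.swap (0 : Fin 2) 1)
        (Finsupp.single (0 : Fin 2) i + Finsupp.single 1 (n - i)) =
        Finsupp.single 0 (n - i) + Finsupp.single 1 i := by
      rw [Finsupp.mapDomain_add, Finsupp.mapDomain_single, Finsupp.mapDomain_single,
        Equiv.swap_apply_left, Equiv.swap_apply_right, add_comm]
    rw [h2]
    exact dh_mono _ _ _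
  rw [h1]
  unfold fm
  rw [← Finset.sum_range_reflect]
  refine Finset.sum_congr rfl fun j hj => ?_
  have h3 := Finset.mem_range.1 hj
  have h4 : n + 1 - 1 - j = n - j := by omega
  have h5 : n - (n - j) = j := by omega
  rw [h4, h5]

private theorem irr_sw {n : ℕ} (hn : 2 ≤ n) {G : MvPolynomial (Fin 2) ℤ}
    (h : Irreducible (MvPolynomial.map (Int.castRingHom ℚ) (MvPolynomial.homogeneousComponent n G))) :
    ((fm (sw (ar G)) n).map (Int.castRingHom ℚ)).natDegree = n ∧
      Irreducible ((fm (sw (ar G)) n).map (Int.castRingHom ℚ)) := by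
  rw [fm_sw, ← Pool.Agent.H2.AA.dh_map]
  exact Pool.Agent.H2.AA.dh_irr hn ((MvPolynomial.homogeneousComponent_isHomogeneous _ _).map _) h

private theorem irr_id {n : ℕ} (hn : 2 ≤ n) {G : MvPolynomial (Fin 2) ℤ}
    (h : Irreducible (MvPolynomial.map (Int.castRingHom ℚ) (MvPolynomial.homogeneousComponent n G))) :
    ((fm (ar G) n).map (Int.castRingHom ℚ)).natDegree = n ∧
      Irreducible ((fm (ar G) n).map (Int.castRingHom ℚ)) := by
  rw [fm_id, ← Pool.Agent.H2.AA.dh_map, MvPolynomial.map_rename]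
  refine Pool.Agent.H2.AA.dh_irr hn
    ((MvPolynomial.homogeneousComponent_isHomogeneous _ _).map _).rename_isHomogeneous ?_
  exact (MulEquiv.irreducible_iff (MvPolynomial.renameEquiv ℚ (Equiv.swap (0 : Fin 2) 1))).2 h

/-- shifted sum of the coefficients -/
private theorem shift_sum (g : ℤ[X]) {d N j : ℕ} (hg : g.natDegree ≤ d) (hj : j + d < N) (t : ℝ) :
    ∑ i : Fin N, t ^ (i : ℕ) * (((if (i : ℕ) ∈ Set.Icc j (j + d) then g.coeff (i - j) else 0 : ℤ)) : ℝ) =
      t ^ j * aeval t g := by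
  rw [Fin.sum_univ_eq_sum_range
    (fun i => t ^ i * (((if i ∈ Set.Icc j (j + d) then g.coeff (i - j) else 0 : ℤ)) : ℝ)) N]
  have h1 : ∑ i ∈ range N, t ^ i * (((if i ∈ Set.Icc j (j + d) then g.coeff (i - j) else 0 : ℤ)) : ℝ) =
      ∑ i ∈ Finset.Ico j (j + (d + 1)), t ^ i * ((g.coeff (i - j) : ℤ) : ℝ) := by
    symm
    have hsub : Finset.Ico j (j + (d + 1)) ⊆ range N := by
      intro i hi
      rw [Finset.mem_Ico] at hi
      rw [Finset.mem_range]
      omega
    rw [← Finset.sum_subset hsub]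
    · refine Finset.sum_congr rfl fun i hi => ?_
      rw [Finset.mem_Ico] at hi
      rw [if_pos (Set.mem_Icc.2 ⟨by omega, by omega⟩)]
    · intro i _ hi
      rw [Finset.mem_Ico] at hi
      rw [if_neg]
      · simp
      · rw [Set.mem_Icc]
        omega
  rw [h1, Finset.sum_Ico_eq_sum_range, Polynomial.aeval_eq_sum_range' (n := d + 1) (by omega),
    Finset.mul_sum]
  have h2 : j + (d + 1) - j = d + 1 := by omega
  rw [h2]
  refine Finset.sum_congr rfl fun i _ => ?_
  have h3 : j + i - j = i := by omega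
  rw [h3, pow_add, zsmul_eq_mul]
  ring

/-- lower bound for two polynomials with a resultant different from zero -/
private theorem low {f g : ℤ[X]} {m d : ℕ} (hf : f.natDegree ≤ m) (hg : g.natDegree ≤ d) (hN : 0 < m + d)
    {C : ℕ} (hC : 1 ≤ C) (hfC : ∀ j, |f.coeff j| ≤ (C : ℤ)) (hgC : ∀ j, |g.coeff j| ≤ (C : ℤ))
    (hR : f.resultant g m d ≠ 0) {t : ℝ} (ht : |t| ≤ 1) :
    1 ≤ (((m + d) * ((m + d).factorial * C ^ (m + d)) : ℕ) : ℝ) * max |aeval t f| |aeval t g| := by
  classical
  obtain ⟨M, hM⟩ : ∃ M : ℝ, M = max |aeval t f| |aeval t g| := ⟨_, rfl⟩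
  rw [← hM]
  have hM0 : 0 ≤ M := by
    rw [hM]
    exact le_trans (abs_nonneg _) (le_max_left _ _)
  obtain ⟨S, hS⟩ : ∃ S, S = sylvester f g m d := ⟨_, rfl⟩
  have hSe : ∀ i j, |S i j| ≤ (C : ℤ) := by
    intro i j
    rw [hS]
    induction j using Fin.addCases with
    | left j =>
      simp only [sylvester, Matrix.of_apply, Fin.addCases_left]
      split_ifs
      · exact hgC _
      · simp
    | right j =>
      simp only [sylvester, Matrix.of_apply, Fin.addCases_right]
      split_ifs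
      · exact hfC _
      · simp
  have hadj : ∀ i j, |S.adjugate i j| ≤ ((m + d).factorial * C ^ (m + d) : ℕ) := by
    intro i j
    rw [Matrix.adjugate_apply]
    have h1 := Matrix.det_le (A := S.updateRow j (Pi.single i 1)) (abv := AbsoluteValue.abs) (x := (C : ℤ)) ?_
    · simpa using h1
    · intro a b
      rw [AbsoluteValue.abs_apply, Matrix.updateRow_apply]
      split_ifs with h
      · rw [Pi.single_apply]
        split_ifs
        · simpa using hC
        · simp
      · exact hSe a b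
  have hcol : ∀ j, |∑ i : Fin (m + d), t ^ (i : ℕ) * ((S i j : ℤ) : ℝ)| ≤ M := by
    intro j
    have hp : ∀ l : ℕ, |t ^ l| ≤ 1 := by
      intro l
      rw [abs_pow]
      exact pow_le_one₀ (abs_nonneg _) ht
    rw [hS]
    induction j using Fin.addCases with
    | left j =>
      simp only [sylvester, Matrix.of_apply, Fin.addCases_left]
      rw [shift_sum g hg (by omega) t, abs_mul]
      calc |t ^ (j : ℕ)| * |aeval t g| ≤ 1 * |aeval t g| :=
            mul_le_mul_of_nonneg_right (hp _) (abs_nonneg _)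
        _ ≤ M := by
            rw [one_mul, hM]
            exact le_max_right _ _
    | right j =>
      simp only [sylvester, Matrix.of_apply, Fin.addCases_right]
      rw [shift_sum f hf (by omega) t, abs_mul]
      calc |t ^ (j : ℕ)| * |aeval t f| ≤ 1 * |aeval t f| :=
            mul_le_mul_of_nonneg_right (hp _) (abs_nonneg _)
        _ ≤ M := by
            rw [one_mul, hM]
            exact le_max_left _ _
  have hdet : (S.det : ℝ) = ∑ j : Fin (m + d), (∑ i : Fin (m + d), t ^ (i : ℕ) * ((S i j : ℤ) : ℝ)) *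
      ((S.adjugate j ⟨0, hN⟩ : ℤ) : ℝ) := by
    have h1 : ∀ i : Fin (m + d), ∑ j, S i j * S.adjugate j ⟨0, hN⟩ = if i = ⟨0, hN⟩ then S.det else 0 := by
      intro i
      have h2 := congrFun (congrFun (Matrix.mul_adjugate S) i) ⟨0, hN⟩
      rw [Matrix.mul_apply] at h2
      rw [h2, Matrix.smul_apply, Matrix.one_apply]
      split_ifs <;> simp
    calc (S.det : ℝ) = ∑ i : Fin (m + d), t ^ (i : ℕ) * (((if i = ⟨0, hN⟩ then S.det else 0 : ℤ)) : ℝ) := by
          rw [Finset.sum_eq_single ⟨0, hN⟩]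
          · simp
          · intro i _ hi
            rw [if_neg hi]
            simp
          · intro h
            exact absurd (Finset.mem_univ _) h
      _ = ∑ i : Fin (m + d), t ^ (i : ℕ) * ∑ j, ((S i j : ℤ) : ℝ) * ((S.adjugate j ⟨0, hN⟩ : ℤ) : ℝ) := by
          refine Finset.sum_congr rfl fun i _ => ?_
          rw [← h1 i]
          push_cast
          rfl
      _ = ∑ j : Fin (m + d), (∑ i : Fin (m + d), t ^ (i : ℕ) * ((S i j : ℤ) : ℝ)) *
            ((S.adjugate j ⟨0, hN⟩ : ℤ) : ℝ) := by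
          simp only [Finset.mul_sum, Finset.sum_mul]
          rw [Finset.sum_comm]
          refine Finset.sum_congr rfl fun j _ => Finset.sum_congr rfl fun i _ => ?_
          ring
  have hd1 : (1 : ℝ) ≤ |(S.det : ℝ)| := by
    have h1 : S.det ≠ 0 := by
      rw [hS]
      exact hR
    have h2 : (1 : ℤ) ≤ |S.det| := Int.one_le_abs h1
    have h3 : ((1 : ℤ) : ℝ) ≤ ((|S.det| : ℤ) : ℝ) := by exact_mod_cast h2
    rw [Int.cast_abs] at h3
    simpa using h3
  calc (1 : ℝ) ≤ |(S.det : ℝ)| := hd1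
    _ ≤ ∑ j : Fin (m + d), |(∑ i : Fin (m + d), t ^ (i : ℕ) * ((S i j : ℤ) : ℝ)) *
          ((S.adjugate j ⟨0, hN⟩ : ℤ) : ℝ)| := by
        rw [hdet]
        exact Finset.abs_sum_le_sum_abs _ _
    _ ≤ ∑ j : Fin (m + d), M * (((m + d).factorial * C ^ (m + d) : ℕ) : ℝ) := by
        refine Finset.sum_le_sum fun j _ => ?_
        rw [abs_mul]
        refine mul_le_mul (hcol j) ?_ (abs_nonneg _) hM0
        have h1 := hadj j ⟨0, hN⟩
        have h2 : ((|S.adjugate j ⟨0, hN⟩| : ℤ) : ℝ) ≤ (((((m + d).factorial * C ^ (m + d) : ℕ)) : ℤ) : ℝ) := by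
          exact_mod_cast h1
        rw [Int.cast_abs] at h2
        simpa using h2
    _ = (((m + d) * ((m + d).factorial * C ^ (m + d)) : ℕ) : ℝ) * M := by
        rw [Finset.sum_const, Finset.card_univ, Fintype.card_fin, nsmul_eq_mul]
        push_cast
        ring

private theorem one {n : ℕ} (hn : 2 ≤ n) {e : ℕ → ℕ → ℤ} {B B' : ℕ} (hB : 2 ≤ B)
    (hbd : ∀ a b, a + b ≤ n → |e a b| + 1 ≤ (B : ℤ))
    (hd : ((fm e n).map (Int.castRingHom ℚ)).natDegree = n)
    (hi : Irreducible ((fm e n).map (Int.castRingHom ℚ)))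
    (hB' : B ^ (10 * n ^ 2) ≤ B') :
    Bas n B' e := by
  obtain ⟨N, hN⟩ : ∃ N, N = n + (n - 1) := ⟨_, rfl⟩
  obtain ⟨K, hK⟩ : ∃ K, K = N + (N * N + n * N) := ⟨_, rfl⟩
  have hKc : N * (N.factorial * n ^ N) < 2 ^ K := by
    have h1 : N < 2 ^ N := Nat.lt_two_pow_self
    have h2 : N.factorial ≤ 2 ^ (N * N) :=
      calc N.factorial ≤ N ^ N := Nat.factorial_le_pow N
        _ ≤ (2 ^ N) ^ N := Nat.pow_le_pow_left h1.le N
        _ = 2 ^ (N * N) := (pow_mul 2 N N).symm
    have h3 : n ^ N ≤ 2 ^ (n * N) :=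
      calc n ^ N ≤ (2 ^ n) ^ N := Nat.pow_le_pow_left Nat.lt_two_pow_self.le N
        _ = 2 ^ (n * N) := (pow_mul 2 n N).symm
    calc N * (N.factorial * n ^ N) ≤ N * (2 ^ (N * N) * 2 ^ (n * N)) :=
          Nat.mul_le_mul_left _ (Nat.mul_le_mul h2 h3)
      _ < 2 ^ N * (2 ^ (N * N) * 2 ^ (n * N)) := Nat.mul_lt_mul_of_pos_right h1 (by positivity)
      _ = 2 ^ K := by rw [hK, pow_add, pow_add]
  have hNK : N + K ≤ 10 * n ^ 2 := by
    have h1 : N ≤ 2 * n := by omega
    have h2 : N * N ≤ 2 * n * (2 * n) := Nat.mul_le_mul h1 h1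
    have h3 : n * N ≤ n * (2 * n) := Nat.mul_le_mul_left _ h1
    have h4 : 2 * n ≤ n * n := Nat.mul_le_mul_right _ hn
    rw [hK]
    nlinarith
  replace hB' : B ^ (N + K) ≤ B' := (Nat.pow_le_pow_right (by omega) hNK).trans hB'
  have hBB : B ≤ B' := by
    refine le_trans ?_ hB'
    calc B = B ^ 1 := (pow_one B).symm
      _ ≤ B ^ (N + K) := Nat.pow_le_pow_right (by omega) (by omega)
  have hdeg : (fm e n).natDegree = n := by
    apply le_antisymm (fm_deg e n)
    calc n = ((fm e n).map (Int.castRingHom ℚ)).natDegree := hd.symm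
      _ ≤ (fm e n).natDegree := natDegree_map_le
  refine ⟨?_, hi, hdeg, ?_⟩
  · intro a b hab
    have h1 := hbd a b hab
    have h2 : (B : ℤ) ≤ (B' : ℤ) := by exact_mod_cast hBB
    omega
  · intro t ht
    have hco : IsCoprime ((fm e n).map (Int.castRingHom ℚ)) (derivative ((fm e n).map (Int.castRingHom ℚ))) :=
      hi.separable
    have hdd : (derivative ((fm e n).map (Int.castRingHom ℚ))).natDegree = n - 1 := by
      rw [natDegree_derivative, hd]
    have hR : (fm e n).resultant (derivative (fm e n)) n (n - 1) ≠ 0 := by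
      have h1 := resultant_ne_zero _ _ hco
      rw [hd, hdd, derivative_map, resultant_map_map] at h1
      intro h2
      rw [h2, map_zero] at h1
      exact h1 rfl
    have hfC : ∀ j, |(fm e n).coeff j| ≤ ((n * B : ℕ) : ℤ) := by
      intro j
      rw [fm_coeff]
      split_ifs with h
      · have h1 := hbd (n - j) j (by omega)
        have h2 : (B : ℤ) ≤ ((n * B : ℕ) : ℤ) := by
          push_cast
          nlinarith
        omega
      · rw [abs_zero]
        positivity
    have hgC : ∀ j, |(derivative (fm e n)).coeff j| ≤ ((n * B : ℕ) : ℤ) := by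
      intro j
      rw [coeff_derivative, fm_coeff]
      split_ifs with h
      · have h1 := hbd (n - (j + 1)) (j + 1) (by omega)
        rw [abs_mul]
        have h2 : |((j : ℤ) + 1)| ≤ (n : ℤ) := by
          rw [abs_of_nonneg (by positivity)]
          omega
        push_cast
        calc |e (n - (j + 1)) (j + 1)| * |(j : ℤ) + 1| ≤ (B : ℤ) * (n : ℤ) :=
              mul_le_mul (by omega) h2 (abs_nonneg _) (by positivity)
          _ = (n : ℤ) * (B : ℤ) := mul_comm _ _
      · rw [zero_mul, abs_zero]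
        positivity
    have hle : (derivative (fm e n)).natDegree ≤ n - 1 := by
      refine (natDegree_derivative_le _).trans ?_
      rw [hdeg]
    have h3 := low (fm_deg e n) hle (by omega) (C := n * B) (Nat.mul_pos (by omega) (by omega)) hfC hgC hR ht
    rw [← hN] at h3
    have h4 : N * (N.factorial * (n * B) ^ N) < B' := by
      calc N * (N.factorial * (n * B) ^ N) = N * (N.factorial * n ^ N) * B ^ N := by
            rw [mul_pow]
            ring
        _ < 2 ^ K * B ^ N := Nat.mul_lt_mul_of_pos_right hKc (by positivity)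
        _ ≤ B ^ K * B ^ N := Nat.mul_le_mul_right _ (Nat.pow_le_pow_left hB _)
        _ = B ^ (N + K) := by rw [pow_add, mul_comm]
        _ ≤ B' := hB'
    have hB0 : (0 : ℝ) < (B' : ℝ) := by
      have : 0 < B' := by omega
      exact_mod_cast this
    have h5 : 1 / (B' : ℝ) < max |aeval t (fm e n)| |aeval t (derivative (fm e n))| := by
      rw [div_lt_iff₀ hB0]
      have hm0 : 0 < max |aeval t (fm e n)| |aeval t (derivative (fm e n))| := by
        by_contra hcon
        push Not at hcon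
        have h6 : (((N * (N.factorial * (n * B) ^ N) : ℕ)) : ℝ) *
            max |aeval t (fm e n)| |aeval t (derivative (fm e n))| ≤ 0 :=
          mul_nonpos_of_nonneg_of_nonpos (by positivity) hcon
        linarith
      have h7 : (((N * (N.factorial * (n * B) ^ N) : ℕ)) : ℝ) < (B' : ℝ) := by exact_mod_cast h4
      calc (1 : ℝ) ≤ (((N * (N.factorial * (n * B) ^ N) : ℕ)) : ℝ) *
            max |aeval t (fm e n)| |aeval t (derivative (fm e n))| := h3
        _ < (B' : ℝ) * max |aeval t (fm e n)| |aeval t (derivative (fm e n))| :=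
            mul_lt_mul_of_pos_right h7 hm0
        _ = max |aeval t (fm e n)| |aeval t (derivative (fm e n))| * (B' : ℝ) := mul_comm _ _
    exact lt_max_iff.1 h5

/-- `gdx` with the explicit exponent `10 n²`. -/
theorem gdx_ex (n : ℕ) (hn : 2 ≤ n) : GdxS n (10 * n ^ 2) := by
  intro B hB G _ hirr hc B' hB'
  obtain ⟨h1, h2⟩ := irr_id hn hirr
  obtain ⟨h3, h4⟩ := irr_sw hn hirr
  exact ⟨one hn hB (fun a b _ => hc _) h1 h2 hB', one hn hB (fun a b _ => hc _) h3 h4 hB'⟩

theorem gdx (n : ℕ) (hn : 2 ≤ n) : ∃ κ : ℕ, 1 ≤ κ ∧ ∀ B : ℕ, 2 ≤ B → ∀ G : MvPolynomial (Fin 2) ℤ, G.totalDegree ≤ n →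
    Irreducible (MvPolynomial.map (Int.castRingHom ℚ) (MvPolynomial.homogeneousComponent n G)) →
    (∀ m, |G.coeff m| + 1 ≤ (B : ℤ)) → ∀ B' : ℕ, B ^ κ ≤ B' → Bas n B' (ar G) ∧ Bas n B' (sw (ar G)) :=
  ⟨10 * n ^ 2, by nlinarith, gdx_ex n hn⟩

end Pool.Agent.H88.TU
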