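import Pool.Agent.H88.TU.Chr
import Pool.Agent.H88.TU.Gdx
import Pool.Agent.H88.TU.Fgm
import Pool.Agent.H88.TU.Sta

/-! # [H88 TU MIX] The middle range

PROOF. `B' = B^(κ₀)`, `κ₀ ≥` the constants of `gdx` and `fgm` (`j + 3 ≤ n`: `Flx n G` from `Hy`): `Bas n B' (ar G)`, `Bas n B' (sw (ar G))`, `1 ≤ B' |gm|`. `T = T₁ ∪ T₂`: `|P 1| ≤ |P 0|`: `chr` for
`ar G` (`ar_ev`, `pol_eval`: `eval P (G + pol c) = ev n (ar G) (P 0) (P 1) + ev j (co c) (P 0) (P 1)`); `|P 0| ≤ |P 1|`: `chr` for `sw (ar G)` and the image of `T₂` under `TS.sv`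
(`sv_ev`, `ev_sw`, `sv_sv`; see `TS/Dig.lean`, `dig`). `(B H)^E ≤ (B' H)^E`. -/

namespace Pool.Agent.H88.TU

open Finset MvPolynomial Pool.Agent.H8.AA Pool.Agent.H88.A2

private theorem half (n j E κc κ₀ : ℕ) (h0 : 1 ≤ κ₀)
    (hc : ∀ B : ℕ, 2 ≤ B → ∀ e : ℕ → ℕ → ℤ, Bas n B e →
      (j + 3 ≤ n → ∀ t : ℝ, Polynomial.aeval t (fm e n) = 0 → 1 ≤ (B : ℝ) * |gm n e t|) →
      ∀ H : ℕ, 1 ≤ H → ∀ T : Finset (Ix j → ℤ),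
      (∀ c ∈ T, (∀ p, |c p| ≤ (H : ℤ)) ∧ ∃ x y : ℤ, |y| ≤ |x| ∧ (B : ℝ) ^ κc * H ≤ |(x : ℝ)| ∧
        |(x : ℝ)| ≤ ((B * H : ℕ) : ℝ) ^ E ∧ ev n e x y + ev j (co c) x y = 0) →
      (T.card : ℝ) ≤ (B : ℝ) ^ κc * (2 * (H : ℝ) + 1) ^ (Fintype.card (Ix j) - 1) * (H : ℝ) ^ (-dl n))
    (B : ℕ) (hB : 2 ≤ B) (e : ℕ → ℕ → ℤ) (he : Bas n (B ^ κ₀) e)
    (hf : j + 3 ≤ n → ∀ t : ℝ, Polynomial.aeval t (fm e n) = 0 → 1 ≤ ((B ^ κ₀ : ℕ) : ℝ) * |gm n e t|)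
    (H : ℕ) (hH : 1 ≤ H) (T : Finset (Ix j → ℤ))
    (hT : ∀ c ∈ T, (∀ p, |c p| ≤ (H : ℤ)) ∧ ∃ x y : ℤ, |y| ≤ |x| ∧ (B : ℝ) ^ (κ₀ * κc + 1) * H ≤ |(x : ℝ)| ∧
        |(x : ℝ)| ≤ ((B * H : ℕ) : ℝ) ^ E ∧ ev n e x y + ev j (co c) x y = 0) :
    (T.card : ℝ) ≤ (B : ℝ) ^ (κ₀ * κc) * (2 * (H : ℝ) + 1) ^ (Fintype.card (Ix j) - 1) *
      (H : ℝ) ^ (-dl n) := by
  have hB1 : (1 : ℝ) ≤ B := by
    have : (2 : ℝ) ≤ B := by exact_mod_cast hB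
    linarith
  have hBB : B ≤ B ^ κ₀ := Nat.le_self_pow (by omega) B
  have h1 := hc (B ^ κ₀) (hB.trans hBB) e he hf H hH T (by
    intro c hcT
    obtain ⟨hc1, x, y, h2, h3, h4, h5⟩ := hT c hcT
    refine ⟨hc1, x, y, h2, ?_, ?_, h5⟩
    · refine le_trans ?_ h3
      refine mul_le_mul_of_nonneg_right ?_ (Nat.cast_nonneg H)
      rw [Nat.cast_pow, ← pow_mul]
      exact pow_le_pow_right₀ hB1 (by omega)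
    · refine h4.trans ?_
      refine pow_le_pow_left₀ (Nat.cast_nonneg _) ?_ E
      exact_mod_cast Nat.mul_le_mul_right H hBB)
  rw [Nat.cast_pow, ← pow_mul] at h1
  exact h1

theorem mix_ex (n j E κ₀' κ₁ κc : ℕ) (hn : 5 ≤ n) (_hj : 3 ≤ j) (_hjn : j < n)
    (h0 : GdxS n κ₀') (h1 : FgmS n κ₁) (h2 : ChrS n j E κc) : MixS n j E ((κ₀' + κ₁ + 1) * κc + 1) := by
  classical
  obtain ⟨κ₀, hκ₀⟩ : ∃ κ₀ : ℕ, κ₀ = κ₀' + κ₁ + 1 := ⟨_, rfl⟩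
  rw [← hκ₀]
  intro B hB G hG hco H hH T hT
  have hd := h0
  have hf := h1
  have hc := h2
  have hB2 : (2 : ℝ) ≤ B := by exact_mod_cast hB
  have hB1 : (1 : ℝ) ≤ B := by linarith
  have hpow : B ^ κ₀' ≤ B ^ κ₀ := Nat.pow_le_pow_right (by omega) (by omega)
  obtain ⟨b1, b2⟩ := hd B hB G hG.deg hG.irr hco (B ^ κ₀) hpow
  have hfb : ∀ z : ℝ, 1 ≤ (B : ℝ) ^ κ₁ * |z| → 1 ≤ ((B ^ κ₀ : ℕ) : ℝ) * |z| := by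
    intro z hz
    refine hz.trans (mul_le_mul_of_nonneg_right ?_ (abs_nonneg _))
    rw [Nat.cast_pow]
    exact pow_le_pow_right₀ hB1 (by omega)
  have f1 : j + 3 ≤ n → ∀ t : ℝ, Polynomial.aeval t (fm (ar G) n) = 0 →
      1 ≤ ((B ^ κ₀ : ℕ) : ℝ) * |gm n (ar G) t| := fun h t ht =>
    hfb _ ((hf B hB G hG.deg hG.irr hco (hG.flex h)).1 t ht)
  have f2 : j + 3 ≤ n → ∀ t : ℝ, Polynomial.aeval t (fm (sw (ar G)) n) = 0 →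
      1 ≤ ((B ^ κ₀ : ℕ) : ℝ) * |gm n (sw (ar G)) t| := fun h t ht =>
    hfb _ ((hf B hB G hG.deg hG.irr hco (hG.flex h)).2 t ht)
  obtain ⟨Q, hQ⟩ : ∃ Q : (Ix j → ℤ) → Prop, Q = fun c => ∃ x y : ℤ, |y| ≤ |x| ∧
      (B : ℝ) ^ (κ₀ * κc + 1) * H ≤ |(x : ℝ)| ∧ |(x : ℝ)| ≤ ((B * H : ℕ) : ℝ) ^ E ∧
      ev n (ar G) x y + ev j (co c) x y = 0 := ⟨_, rfl⟩
  have h1 := half n j E κc κ₀ (by omega) hc B hB (ar G) b1 f1 H hH (T.filter Q) (by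
    intro c hcT
    rw [Finset.mem_filter, hQ] at hcT
    exact ⟨(hT c hcT.1).1, hcT.2⟩)
  have h2 := half n j E κc κ₀ (by omega) hc B hB (sw (ar G)) b2 f2 H hH
    ((T.filter fun c => ¬ Q c).image Pool.Agent.H88.TS.sv) (by
    intro c hcT
    obtain ⟨d, hdT, rfl⟩ := Finset.mem_image.1 hcT
    rw [Finset.mem_filter] at hdT
    obtain ⟨hdT, hdQ⟩ := hdT
    obtain ⟨hd1, P, hP, hlo, hhi⟩ := hT d hdT
    have hev : ev n (ar G) (P 0) (P 1) + ev j (co d) (P 0) (P 1) = 0 := by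
      rw [ar_ev hG.deg, ← Pool.Agent.H8.AA.pol_eval, ← map_add]
      exact hP
    refine ⟨fun p => hd1 _, P 1, P 0, ?_⟩
    rcases le_total |P 1| |P 0| with h | h
    · exfalso
      apply hdQ
      rw [hQ]
      have hm : max |(P 0 : ℝ)| |(P 1 : ℝ)| = |(P 0 : ℝ)| := max_eq_left (by exact_mod_cast h)
      rw [hm] at hlo hhi
      exact ⟨P 0, P 1, h, hlo, hhi, hev⟩
    · have hm : max |(P 0 : ℝ)| |(P 1 : ℝ)| = |(P 1 : ℝ)| := max_eq_right (by exact_mod_cast h)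
      rw [hm] at hlo hhi
      refine ⟨h, hlo, hhi, ?_⟩
      rw [ev_sw, Pool.Agent.H88.TS.sv_ev]
      exact hev)
  have hinj : Function.Injective (Pool.Agent.H88.TS.sv (n := j)) := fun a b hab => by
    rw [← Pool.Agent.H88.TS.sv_sv a, hab, Pool.Agent.H88.TS.sv_sv]
  rw [Finset.card_image_of_injective _ hinj] at h2
  have hcard : (T.card : ℝ) = (T.filter Q).card + (T.filter fun c => ¬ Q c).card := by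
    have h4 := Finset.card_filter_add_card_filter_not (s := T) Q
    exact_mod_cast h4.symm
  have hH0 : (0 : ℝ) < H := by exact_mod_cast hH
  obtain ⟨W, hW⟩ : ∃ W : ℝ, W = (2 * (H : ℝ) + 1) ^ (Fintype.card (Ix j) - 1) *
      (H : ℝ) ^ (-dl n) := ⟨_, rfl⟩
  have hW0 : 0 ≤ W := by
    rw [hW]
    have := Real.rpow_pos_of_pos hH0 (-dl n)
    positivity
  rw [mul_assoc, ← hW] at h1 h2 ⊢
  have e5 : 0 ≤ (B : ℝ) ^ (κ₀ * κc) * W := by positivity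
  calc (T.card : ℝ) ≤ 2 * ((B : ℝ) ^ (κ₀ * κc) * W) := by linarith
    _ ≤ (B : ℝ) * ((B : ℝ) ^ (κ₀ * κc) * W) := mul_le_mul_of_nonneg_right hB2 e5
    _ = (B : ℝ) ^ (κ₀ * κc + 1) * W := by ring

theorem mix (n j E : ℕ) (hn : 5 ≤ n) (hj : 3 ≤ j) (hjn : j < n) : ∃ κ : ℕ, ∀ B : ℕ, 2 ≤ B → ∀ G : MvPolynomial (Fin 2) ℤ,
    Pool.Agent.H88.TS.Hy n j G → (∀ m, |G.coeff m| + 1 ≤ (B : ℤ)) → ∀ H : ℕ, 1 ≤ H → ∀ T : Finset (Ix j → ℤ),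
      (∀ c ∈ T, (∀ p, |c p| ≤ (H : ℤ)) ∧ ∃ P : Fin 2 → ℤ, eval P (G + pol c) = 0 ∧
        (B : ℝ) ^ κ * H ≤ max |(P 0 : ℝ)| |(P 1 : ℝ)| ∧ max |(P 0 : ℝ)| |(P 1 : ℝ)| ≤ ((B * H : ℕ) : ℝ) ^ E) →
      (T.card : ℝ) ≤ (B : ℝ) ^ κ * (2 * (H : ℝ) + 1) ^ (Fintype.card (Ix j) - 1) * (H : ℝ) ^ (-dl n) := by
  obtain ⟨κd, _, hd⟩ := gdx n (by omega)
  obtain ⟨κf, hf⟩ := fgm n hn
  obtain ⟨κc, hc⟩ := chr n j E hn hj hjn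
  exact ⟨_, mix_ex n j E κd κf κc hn hj hjn hd hf hc⟩

end Pool.Agent.H88.TU
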