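import Pool.Agent.H88.TU.Asy
import Pool.Agent.H88.TU.Mix

/-! # [H88 TU EXX] The explicit exponent: at most `n^16` -/

namespace Pool.Agent.H88.TU

/-- exponent of `Fik` -/
private def eFik (n k : ℕ) : ℕ :=
  n + 2 + (2 * (10 * n + 11) + 1 + 3 * k) *
      ((3 * ((n + 3) ^ 2 * n ^ 2 + (3 * n + 1) + ((3 * n + 1) + 2) * n) + 12 + 2 * (3 * n + 1)) +
        (2 * n + 3 * (3 * n + 1) + ((3 * n + 1) + 2) * n + 13) + 4) +
    (2 * (10 * n + 11) + 1 + 3 * k + 2 * n + 2) *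
      ((k + 3 * (k + 1) * (n - 1)) + (2 + (2 * k + 1) * (n - 1)) + 3 * k + (k ^ 2 + 7 * k)) +
    (2 * (10 * n + 11) + 1 + 3 * k)

private theorem hFik (n k : ℕ) (hn : 5 ≤ n) (hk1 : 1 ≤ k) (hk : k + 4 ≤ n) : FikS n k (eFik n k) := by
  have h1 := nex_ex n (by omega)
  have h2 := dgh_ex n k _ hk1 (by omega) (cub_ex n k _ hk1 (by omega) (lio_ex n k (by omega)))
  have h3 := cu3_ex n k _ _ hk (cu1_ex n k _ hk (exp_ex n (by omega))) (cu2_ex n k _ hk (exp_ex n (by omega)))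
  exact fik_ex n k _ _ _ hn hk1 hk h1 h2 h3

/-- exponent of `Rga` -/
private def eRga (n : ℕ) : ℕ :=
  n + 24 + 2 * (10 * n + 11) + 2 * ((2 * (10 * n + 11) + (2 * n + 1) + 1) *
    ((3 + 3 * (3 + 1) * (n - 1)) + (2 + (2 * 3 + 1) * (n - 1)) + 3 * 3 + (3 ^ 2 + 7 * 3))) + (2 * n + 2)

private theorem hRga (n j : ℕ) (hn : 5 ≤ n) (hj : 3 ≤ j) (hjn : j < n) : RgaS n j (eRga n) := by
  have h1 := nex_ex n (by omega)
  have h2 := dgh_ex n 3 _ (by omega) (by omega) (cub_ex n 3 _ (by omega) (by omega) (lio_ex n 3 (by omega)))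
  exact rga_ex n j _ hn hj hjn (fi3_ex n _ _ hn h1 h2)

/-- exponent of `Gam` -/
private def eGam (n : ℕ) : ℕ :=
  2 * ((n + 3 * (n + 1) * (n - 1)) + (n + 1) * (n - 1)) +
    (((n - 2) + 3 * ((n - 2) + 1) * (n - 1)) + (2 + (2 * (n - 2) + 1) * (n - 1)) + 3 * (n - 2)) + n

private theorem hGam (n j : ℕ) (hn : 5 ≤ n) (hj : j < n) (hj2 : n ≤ j + 2) : GamS n j (eGam n) :=
  gam_ex n j _ _ hn hj hj2 (lio_ex n n (by omega)) (cub_ex n (n - 2) _ (by omega) (by omega) (lio_ex n (n - 2) (by omega)))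

/-- exponent of `Rgb` -/
private def eRgb (n F κ : ℕ) : ℕ := 2 * n * (κ + F) + 2 * (600 * n ^ 5) + n + 7

/-- exponent of `Mix` -/
private def eMix (n F : ℕ) : ℕ :=
  (10 * n ^ 2 + ((3 * n + 3 * (3 * n + 1) * (n - 1)) + (8 * n + 3 + 3) * (n - 1) + 1) + 1) *
    (eRga n + eGam n + eRgb n F (eGam n) + eRgb n F 1 + 2) + 1

private theorem hMix (n j F : ℕ) (hn : 5 ≤ n) (hj : 3 ≤ j) (hjn : j < n) (h5 : n = 5 → FikS n 1 F) (h6 : 6 ≤ n → FikS n 2 F) :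
    MixS n j (600 * n ^ 5) (eMix n F) := by
  refine mix_ex n j (600 * n ^ 5) _ _ _ hn hj hjn (gdx_ex n (by omega)) (fgm_ex n _ hn (lio_ex n (3 * n) (by omega))) ?_
  exact chr_ex n j (600 * n ^ 5) _ _ _ _ hn (hRga n j hn hj hjn) (fun h => hGam n j hn hjn h)
    (fun _ => rgb_ex n j (600 * n ^ 5) (eGam n) F hn hj hjn h5 h6) (fun _ => rgb_ex n j (600 * n ^ 5) 1 F hn hj hjn h5 h6)

private theorem num (m : ℕ) : 3 * (m + 6) ^ 2 + 8 * (m + 6) + 29 +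
    2 * (eMix (m + 6) (eFik (m + 6) 2) * (m + 5) + eMix (m + 6) (eFik (m + 6) 2)) ≤ (m + 6) ^ 16 := by
  have e1 : m + 6 - 1 = m + 5 := rfl
  have e2 : m + 6 - 2 = m + 4 := rfl
  have h1 : eFik (m + 6) 2 = 1423436 + 944617 * m + 251787 * m ^ 2 + 33630 * m ^ 3 + 2247 * m ^ 4 + 60 * m ^ 5 := by
    unfold eFik
    rw [e1]
    ring
  have h2 : eMix (m + 6) (eFik (m + 6) 2) = 49437307811 + 57942771579 * m + 29472972426 * m ^ 2 + 8477480742 * m ^ 3 + 1503074621 * m ^ 4 + 167391030 * m ^ 5 + 11348628 * m ^ 6 + 422916 * m ^ 7 + 6480 * m ^ 8 := by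
    rw [h1]
    unfold eMix eRga eGam eRgb
    rw [e1, e2]
    ring
  rw [h2]
  have h3 : (m + 6) ^ 16 = 3 * (m + 6) ^ 2 + 8 * (m + 6) + 29 + 2 * ((49437307811 + 57942771579 * m + 29472972426 * m ^ 2 + 8477480742 * m ^ 3 + 1503074621 * m ^ 4 + 167391030 * m ^ 5 + 11348628 * m ^ 6 + 422916 * m ^ 7 + 6480 * m ^ 8) * (m + 5) + (49437307811 + 57942771579 * m + 29472972426 * m ^ 2 + 8477480742 * m ^ 3 + 1503074621 * m ^ 4 + 167391030 * m ^ 5 + 11348628 * m ^ 6 + 422916 * m ^ 7 + 6480 * m ^ 8)) + (2227862213539 + 6728771878602 * m + 8934138479247 * m ^ 2 + 7153312935204 * m ^ 3 + 3926751994584 * m ^ 4 + 1579682699006 * m ^ 5 + 483742171812 * m ^ 6 + 115261069992 * m ^ 7 + 21615734328 * m ^ 8 + 3202454880 * m ^ 9 + 373621248 * m ^ 10 + 33965568 * m ^ 11 + 2358720 * m ^ 12 + 120960 * m ^ 13 + 4320 * m ^ 14 + 96 * m ^ 15 + 1 * m ^ 16) := by ring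
  rw [h3]
  exact Nat.le_add_right _ _

theorem mixS_all (n j : ℕ) (hn : 5 ≤ n) (hj : 3 ≤ j) (hjn : j < n) : ∃ κ₀ : ℕ, MixS n j (600 * n ^ 5) κ₀ ∧
    3 * n ^ 2 + 8 * n + 29 + 2 * (κ₀ * j + κ₀) ≤ n ^ 16 := by
  by_cases h5 : n = 5
  · subst h5
    refine ⟨eMix 5 (eFik 5 1), hMix 5 j _ hn hj hjn (fun _ => hFik 5 1 hn (by norm_num) (by norm_num)) (fun h => absurd h (by norm_num)), ?_⟩
    have h1 : eMix 5 (eFik 5 1) * j ≤ eMix 5 (eFik 5 1) * 4 := Nat.mul_le_mul_left _ (by omega)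
    have h2 : 3 * 5 ^ 2 + 8 * 5 + 29 + 2 * (eMix 5 (eFik 5 1) * 4 + eMix 5 (eFik 5 1)) ≤ 5 ^ 16 := by
      unfold eMix eRga eGam eRgb eFik
      norm_num
    omega
  · obtain ⟨m, rfl⟩ : ∃ m, n = m + 6 := ⟨n - 6, by omega⟩
    refine ⟨eMix (m + 6) (eFik (m + 6) 2), hMix (m + 6) j _ hn hj hjn (fun h => absurd h h5)
      (fun _ => hFik (m + 6) 2 hn (by norm_num) (by omega)), ?_⟩
    have h1 : eMix (m + 6) (eFik (m + 6) 2) * j ≤ eMix (m + 6) (eFik (m + 6) 2) * (m + 5) :=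
      Nat.mul_le_mul_left _ (by omega)
    have h2 := num m
    omega

end Pool.Agent.H88.TU
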