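import Pool.Agent.H88.TU.Mix
import Pool.Agent.H88.TU.Bgx
import Pool.Agent.H88.TU.Lwx
import Pool.Agent.H88.TS.Sma

/-! # [H88 TU ASX] Assembly (helper88) -/

namespace Pool.Agent.H88.TU

open MvPolynomial Pool.Agent.H8.AA Pool.Agent.H88.A2
open Pool.Agent.H88.TS (Hy sma)
open Pool.Agent.H15.SC (Pts msz mem_Pts kaps)

theorem pw (C : ℝ) : ∃ κ : ℕ, ∀ B : ℕ, 2 ≤ B → C ≤ (B : ℝ) ^ κ := by
  obtain ⟨κ, hκ⟩ := pow_unbounded_of_one_lt C (by norm_num : (1 : ℝ) < 2)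
  refine ⟨κ, fun B hB => hκ.le.trans ?_⟩
  have h2 : (2 : ℝ) ≤ B := by exact_mod_cast hB
  gcongr

/-- the value of `G` at a point -/
theorem val_lex {n : ℕ} {G : MvPolynomial (Fin 2) ℤ} (hG : G.totalDegree ≤ n) {B : ℕ} (hB : ∀ m, |G.coeff m| + 1 ≤ (B : ℤ))
    (P : Fin 2 → ℤ) (R : ℝ) (hR : 1 ≤ R) (h0 : |(P 0 : ℝ)| ≤ R) (h1 : |(P 1 : ℝ)| ≤ R) :
    |((eval P G : ℤ) : ℝ)| ≤ ((n + 1) ^ 2 * B) * R ^ n := by
  have hRn : (0 : ℝ) ≤ R ^ n := by positivity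
  have hB0 : (0 : ℝ) ≤ B := Nat.cast_nonneg _
  rw [← ar_ev hG P]
  unfold ev
  push_cast
  calc |∑ k ∈ Finset.range (n + 1), ∑ j ∈ Finset.range (k + 1), (ar G (k - j) j : ℝ) * ((P 0 : ℝ) ^ (k - j) * (P 1 : ℝ) ^ j)|
      ≤ ∑ k ∈ Finset.range (n + 1), |∑ j ∈ Finset.range (k + 1), (ar G (k - j) j : ℝ) * ((P 0 : ℝ) ^ (k - j) * (P 1 : ℝ) ^ j)| :=
        Finset.abs_sum_le_sum_abs _ _
    _ ≤ ∑ k ∈ Finset.range (n + 1), ((n + 1) * (B * R ^ n)) := by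
        refine Finset.sum_le_sum fun k hk => ?_
        have hk' : k ≤ n := by
          have := Finset.mem_range.1 hk
          omega
        calc |∑ j ∈ Finset.range (k + 1), (ar G (k - j) j : ℝ) * ((P 0 : ℝ) ^ (k - j) * (P 1 : ℝ) ^ j)|
            ≤ ∑ j ∈ Finset.range (k + 1), |(ar G (k - j) j : ℝ) * ((P 0 : ℝ) ^ (k - j) * (P 1 : ℝ) ^ j)| :=
              Finset.abs_sum_le_sum_abs _ _
          _ ≤ ∑ j ∈ Finset.range (k + 1), (B * R ^ n) := by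
              refine Finset.sum_le_sum fun j hj => ?_
              have hj' : j ≤ k := by
                have := Finset.mem_range.1 hj
                omega
              rw [abs_mul, abs_mul, abs_pow, abs_pow]
              have h2 : |(ar G (k - j) j : ℝ)| ≤ B := by
                have h3 := hB (Finsupp.single 0 (k - j) + Finsupp.single 1 j)
                have h4 : |ar G (k - j) j| ≤ (B : ℤ) := by
                  unfold ar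
                  linarith
                exact_mod_cast h4
              have h5 : |(P 0 : ℝ)| ^ (k - j) * |(P 1 : ℝ)| ^ j ≤ R ^ n := by
                calc |(P 0 : ℝ)| ^ (k - j) * |(P 1 : ℝ)| ^ j ≤ R ^ (k - j) * R ^ j := by gcongr
                  _ = R ^ (k - j + j) := (pow_add _ _ _).symm
                  _ ≤ R ^ n := pow_le_pow_right₀ hR (by omega)
              exact mul_le_mul h2 h5 (by positivity) hB0
          _ = (k + 1) * (B * R ^ n) := by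
              rw [Finset.sum_const, Finset.card_range, nsmul_eq_mul]
              push_cast
              ring
          _ ≤ (n + 1) * (B * R ^ n) := by
              have : (k : ℝ) ≤ n := by exact_mod_cast hk'
              have h6 : (0 : ℝ) ≤ B * R ^ n := by positivity
              nlinarith
    _ = ((n + 1) ^ 2 * B) * R ^ n := by
        rw [Finset.sum_const, Finset.card_range, nsmul_eq_mul]
        push_cast
        ring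

theorem vec2 (P : Fin 2 → ℤ) : ![P 0, P 1] = P := by
  funext i
  fin_cases i <;> rfl

theorem dl_pos (n : ℕ) : 0 < dl n := by
  unfold dl
  positivity

theorem dl_half (n : ℕ) : dl n ≤ 1 / 2 := by
  unfold dl
  rw [div_le_div_iff₀ (by positivity) (by norm_num)]
  have : (0 : ℝ) ≤ n := Nat.cast_nonneg _
  linarith

theorem dl_exp (n : ℕ) (hn : 1 ≤ n) : 4 * dl n + n * dl n - 1 ≤ -dl n := by
  have h1 : (1 : ℝ) ≤ n := by exact_mod_cast hn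
  have h2 : (2 * (n : ℝ) + 4) * dl n = 1 := by
    unfold dl
    field_simp
  have h3 := dl_pos n
  nlinarith

theorem tailx (n j : ℕ) (hn : 5 ≤ n) (hj3 : 3 ≤ j) (hjn : j < n) : ∃ κ : ℕ, ∀ B : ℕ, 2 ≤ B → ∀ G : MvPolynomial (Fin 2) ℤ,
    Hy n j G → (∀ m, |G.coeff m| + 1 ≤ (B : ℤ)) → ∀ H : ℕ, 1 ≤ H → ∀ R : ℝ, 1 ≤ R → ∀ T : Finset (Ix j → ℤ), (∀ c ∈ T, (∀ p, |c p| ≤ (H : ℤ)) ∧ ∃ P : Fin 2 → ℤ, eval P (G + pol c) = 0 ∧
      R ≤ max |(P 0 : ℝ)| |(P 1 : ℝ)|) →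
    (T.card : ℝ) ≤ (B : ℝ) ^ κ * (2 * (H : ℝ) + 1) ^ (Fintype.card (Ix j) - 1) * (1 / R ^ (j - 2) + (H : ℝ) ^ (-dl n)) := by
  classical
  obtain ⟨κ₂, hmid⟩ := mix n j (600 * n ^ 5) hn hj3 hjn
  obtain ⟨C0, hC0, hlow0⟩ := lwx j hj3
  obtain ⟨κ₀, hκ₀⟩ := pw (C0 + 1 + ((n : ℝ) + 80 * (n : ℝ) ^ 3))
  refine ⟨κ₀ + κ₂ * j + κ₂, ?_⟩
  intro B hB G h hGB H hH R hR T hT
  have hB1 : (1 : ℝ) ≤ B := by
    have : (2 : ℝ) ≤ B := by exact_mod_cast hB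
    linarith
  obtain ⟨E, hE⟩ : ∃ E : ℕ, E = 600 * n ^ 5 := ⟨_, rfl⟩
  obtain ⟨A, hAd⟩ : ∃ A : ℝ, A = (B : ℝ) ^ κ₂ := ⟨_, rfl⟩
  have hA : 1 ≤ A := by rw [hAd]; exact one_le_pow₀ hB1
  obtain ⟨C1, hC1d⟩ : ∃ C1 : ℝ, C1 = C0 * A ^ j := ⟨_, rfl⟩
  obtain ⟨C2, hC2d⟩ : ∃ C2 : ℝ, C2 = (B : ℝ) ^ κ₂ := ⟨_, rfl⟩
  obtain ⟨C3, hC3d⟩ : ∃ C3 : ℝ, C3 = (n : ℝ) + 80 * (n : ℝ) ^ 3 := ⟨_, rfl⟩
  have hC1 : 0 ≤ C1 := by rw [hC1d]; positivity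
  have hC2 : 0 ≤ C2 := by rw [hC2d]; positivity
  have hC3 : 0 ≤ C3 := by rw [hC3d]; positivity
  have hCC : C1 + C2 + C3 ≤ (B : ℝ) ^ (κ₀ + κ₂ * j + κ₂) := by
    have e1 : (B : ℝ) ^ (κ₀ + κ₂ * j + κ₂) = (B : ℝ) ^ κ₀ * (A ^ j * A) := by
      rw [pow_add, pow_add, pow_mul, ← hAd]
      ring
    have e2 : 1 ≤ A ^ j := one_le_pow₀ hA
    have e3 := hκ₀ B hB
    rw [← hC3d] at e3
    have e4 : 1 ≤ A ^ j * A := by nlinarith
    have e5 : A ^ j ≤ A ^ j * A := by nlinarith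
    have e6 : A ≤ A ^ j * A := by nlinarith
    rw [e1, hC1d, hC2d, ← hAd]
    calc C0 * A ^ j + A + C3 ≤ C0 * (A ^ j * A) + 1 * (A ^ j * A) + C3 * (A ^ j * A) := by
          have f1 := mul_le_mul_of_nonneg_left e5 hC0
          have f2 := mul_le_mul_of_nonneg_left e4 hC3
          linarith
      _ = (C0 + 1 + C3) * (A ^ j * A) := by ring
      _ ≤ (B : ℝ) ^ κ₀ * (A ^ j * A) := mul_le_mul_of_nonneg_right e3 (by linarith)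
  have hlow : ∀ H : ℕ, 1 ≤ H → ∀ R : ℝ, 1 ≤ R → ∀ g : ℤ → ℤ → ℤ,
      ∀ T : Finset (Ix j → ℤ), (∀ c ∈ T, (∀ p, |c p| ≤ (H : ℤ)) ∧ ∃ x y : ℤ, R ≤ max |(x : ℝ)| |(y : ℝ)| ∧
      max |(x : ℝ)| |(y : ℝ)| ≤ A * H ∧ g x y + ev j (co c) x y = 0) →
      (T.card : ℝ) ≤ C1 * (2 * (H : ℝ) + 1) ^ (Fintype.card (Ix j) - 1) / R ^ (j - 2) := by
    intro H hH R hR g T hT
    rw [hC1d]
    exact hlow0 A hA H hH R hR g T hT
  have hH' : (1 : ℝ) ≤ (H : ℝ) := by exact_mod_cast hH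
  have hH0 : (0 : ℝ) < (H : ℝ) := by linarith
  obtain ⟨T1, hT1⟩ : ∃ T1 : Finset (Ix j → ℤ), T1 = T.filter (fun c => ∃ P : Fin 2 → ℤ, eval P (G + pol c) = 0 ∧
      R ≤ max |(P 0 : ℝ)| |(P 1 : ℝ)| ∧ max |(P 0 : ℝ)| |(P 1 : ℝ)| ≤ A * H) := ⟨_, rfl⟩
  obtain ⟨T2, hT2⟩ : ∃ T2 : Finset (Ix j → ℤ), T2 = T.filter (fun c => ∃ P : Fin 2 → ℤ, eval P (G + pol c) = 0 ∧
      A * H ≤ max |(P 0 : ℝ)| |(P 1 : ℝ)| ∧ max |(P 0 : ℝ)| |(P 1 : ℝ)| ≤ ((B * H : ℕ) : ℝ) ^ E) := ⟨_, rfl⟩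
  obtain ⟨T3, hT3⟩ : ∃ T3 : Finset (Ix j → ℤ), T3 = T.filter (fun c => ∃ P : Fin 2 → ℤ, eval P (G + pol c) = 0 ∧
      ((B * H : ℕ) : ℝ) ^ E < max |(P 0 : ℝ)| |(P 1 : ℝ)|) := ⟨_, rfl⟩
  have hsub : T ⊆ T1 ∪ T2 ∪ T3 := by
    intro c hc
    obtain ⟨P, hP, hPR⟩ := (hT c hc).2
    rw [Finset.mem_union, Finset.mem_union, hT1, hT2, hT3, Finset.mem_filter, Finset.mem_filter, Finset.mem_filter]
    rcases le_or_gt (max |(P 0 : ℝ)| |(P 1 : ℝ)|) (A * H) with h1 | h1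
    · exact Or.inl (Or.inl ⟨hc, P, hP, hPR, h1⟩)
    rcases le_or_gt (max |(P 0 : ℝ)| |(P 1 : ℝ)|) (((B * H : ℕ) : ℝ) ^ E) with h2 | h2
    · exact Or.inl (Or.inr ⟨hc, P, hP, h1.le, h2⟩)
    · exact Or.inr ⟨hc, P, hP, h2⟩
  have hcT : (T.card : ℝ) ≤ (T1.card : ℝ) + T2.card + T3.card := by
    have h1 := Finset.card_le_card hsub
    have h2 := Finset.card_union_le (T1 ∪ T2) T3
    have h3 := Finset.card_union_le T1 T2
    have h4 : T.card ≤ T1.card + T2.card + T3.card := by omega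
    exact_mod_cast h4
  obtain ⟨M, hM⟩ : ∃ M : ℕ, M = Fintype.card (Ix j) := ⟨_, rfl⟩
  have hM3 : 3 ≤ M := by
    rw [hM, card_ix]
    have hj := h.hj
    have : 2 * 3 ≤ (j + 1) * (j + 2) := Nat.mul_le_mul (by omega) (by omega)
    omega
  obtain ⟨V, hV⟩ : ∃ V : ℝ, V = (2 * (H : ℝ) + 1) ^ (M - 1) := ⟨_, rfl⟩
  have hV0 : 0 ≤ V := by rw [hV]; positivity
  obtain ⟨u, hu⟩ : ∃ u : ℝ, u = (H : ℝ) ^ (-dl n) := ⟨_, rfl⟩
  have hu0 : 0 ≤ u := by rw [hu]; positivity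
  have hR0 : 0 ≤ 1 / R ^ (j - 2) := by positivity
  have hc1 : (T1.card : ℝ) ≤ C1 * V * (1 / R ^ (j - 2)) := by
    have h1 := hlow H hH R hR (fun x y => eval ![x, y] G) T1 (by
      intro c hc
      rw [hT1, Finset.mem_filter] at hc
      obtain ⟨hc1, P, hP, hP1, hP2⟩ := hc
      refine ⟨(hT c hc1).1, P 0, P 1, hP1, hP2, ?_⟩
      show eval ![P 0, P 1] G + ev j (co c) (P 0) (P 1) = 0
      rw [vec2, ← pol_eval, ← map_add]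
      exact hP)
    rw [← hM, ← hV, div_eq_mul_one_div] at h1
    exact h1
  have hc2 : (T2.card : ℝ) ≤ C2 * V * u := by
    have h1 := hmid B hB G h hGB H hH T2 (by
      intro c hc
      rw [hT2, Finset.mem_filter, hAd, hE] at hc
      exact ⟨(hT c hc.1).1, hc.2⟩)
    rw [← hM, ← hV, ← hu, ← hC2d] at h1
    exact h1
  have hc3 : (T3.card : ℝ) ≤ C3 * V * u := by
    have h1 := bgx n j G h B H hB hGB hH T3 (by
      intro c hc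
      rw [hT3, Finset.mem_filter, hE] at hc
      exact ⟨(hT c hc.1).1, hc.2⟩)
    rw [← hM, ← hC3d] at h1
    refine h1.trans ?_
    rw [mul_assoc]
    refine mul_le_mul_of_nonneg_left ?_ hC3
    have h2 : (2 * (H : ℝ) + 1) ^ (M - 1) = (2 * (H : ℝ) + 1) ^ (M - 3) * (2 * (H : ℝ) + 1) ^ 2 := by
      rw [← pow_add]
      congr 1
      omega
    rw [hV, h2, mul_assoc]
    refine le_mul_of_one_le_right (by positivity) ?_
    have h3 : (H : ℝ) ^ (-dl n) * (H : ℝ) ^ dl n = 1 := by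
      rw [← Real.rpow_add hH0]
      simp
    have h4 : (H : ℝ) ^ dl n ≤ (2 * (H : ℝ) + 1) ^ 2 := by
      have h5 : (H : ℝ) ^ dl n ≤ (H : ℝ) ^ (1 : ℝ) := Real.rpow_le_rpow_of_exponent_le hH' (by linarith [dl_half n])
      rw [Real.rpow_one] at h5
      nlinarith
    calc (1 : ℝ) = (H : ℝ) ^ dl n * u := by rw [hu, mul_comm, h3]
      _ ≤ (2 * (H : ℝ) + 1) ^ 2 * u := mul_le_mul_of_nonneg_right h4 hu0
  rw [← hM, ← hV, ← hu]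
  calc (T.card : ℝ) ≤ C1 * V * (1 / R ^ (j - 2)) + C2 * V * u + C3 * V * u := by linarith
    _ ≤ (C1 + C2 + C3) * V * (1 / R ^ (j - 2) + u) := by
        have h1 : 0 ≤ C1 * V * u := by positivity
        have h2 : 0 ≤ (C2 + C3) * V * (1 / R ^ (j - 2)) := by positivity
        nlinarith
    _ ≤ (B : ℝ) ^ (κ₀ + κ₂ * j + κ₂) * V * (1 / R ^ (j - 2) + u) := by
        refine mul_le_mul_of_nonneg_right (mul_le_mul_of_nonneg_right hCC hV0) (by positivity)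

open Classical in
theorem vecx (n j : ℕ) (hn : 5 ≤ n) (hj3 : 3 ≤ j) (hjn : j < n) : ∃ κ : ℕ, ∀ B : ℕ, 2 ≤ B → ∀ G : MvPolynomial (Fin 2) ℤ,
    Hy n j G → (∀ m, |G.coeff m| + 1 ≤ (B : ℤ)) → ∀ H : ℕ, 1 ≤ H →
    (∀ Z : Finset (Ix j → ℤ), (∀ c, c ∈ Z ↔ c ∈ box j H ∧ ∃ P : Fin 2 → ℤ, eval P (G + pol c) = 0) →
      |(Z.card : ℝ) - kaps j * (2 * (H : ℝ) + 1) ^ (Fintype.card (Ix j) - 1)| ≤
      (B : ℝ) ^ κ * (H : ℝ) ^ (-dl n) * (2 * (H : ℝ) + 1) ^ (Fintype.card (Ix j) - 1)) ∧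
    (∀ Y : Finset (Ix j → ℤ), (∀ c, c ∈ Y ↔ c ∈ box j H ∧ ∃ P Q : Fin 2 → ℤ, P ≠ Q ∧ eval P (G + pol c) = 0 ∧
      eval Q (G + pol c) = 0) →
      (Y.card : ℝ) ≤ (B : ℝ) ^ κ * (H : ℝ) ^ (-dl n) * (2 * (H : ℝ) + 1) ^ (Fintype.card (Ix j) - 1)) := by
  obtain ⟨κt, htail0⟩ := tailx n j hn hj3 hjn
  obtain ⟨Cs, hCs, hsma⟩ := sma j hj3
  obtain ⟨κ₀, hκ₀⟩ := pw (Cs * ((n + 1) ^ 2 + 3) + 2)
  refine ⟨κ₀ + κt + 1, ?_⟩
  intro B hB G h hGB H hH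
  have hB1 : (1 : ℝ) ≤ B := by
    have : (2 : ℝ) ≤ B := by exact_mod_cast hB
    linarith
  obtain ⟨Ct, hCtd⟩ : ∃ Ct : ℝ, Ct = (B : ℝ) ^ κt := ⟨_, rfl⟩
  have hCt : 0 ≤ Ct := by rw [hCtd]; positivity
  have hCt1 : 1 ≤ Ct := by rw [hCtd]; exact one_le_pow₀ hB1
  obtain ⟨D, hDd⟩ : ∃ D : ℝ, D = (n + 1) ^ 2 * B := ⟨_, rfl⟩
  have hD : 1 ≤ D := by
    rw [hDd]
    have e1 : (1 : ℝ) ≤ ((n : ℝ) + 1) ^ 2 := one_le_pow₀ (by have : (0 : ℝ) ≤ n := Nat.cast_nonneg _; linarith)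
    nlinarith
  have hval : ∀ (P : Fin 2 → ℤ) (R : ℝ), 1 ≤ R → |(P 0 : ℝ)| ≤ R → |(P 1 : ℝ)| ≤ R → |((eval P G : ℤ) : ℝ)| ≤ D * R ^ n := by
    intro P R hR h0 h1
    rw [hDd]
    exact val_lex h.deg hGB P R hR h0 h1
  have hCC : Cs * (D + 3) + 2 * Ct ≤ (B : ℝ) ^ (κ₀ + κt + 1) := by
    have e1 : (B : ℝ) ^ (κ₀ + κt + 1) = (B : ℝ) ^ κ₀ * (Ct * B) := by
      rw [pow_add, pow_add, pow_one, ← hCtd]
      ring
    have e3 := hκ₀ B hB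
    have e4 : 1 ≤ Ct * B := by nlinarith
    have e5 : (B : ℝ) ≤ Ct * B := by nlinarith
    have e6 : Ct ≤ Ct * B := by nlinarith
    have e7 : D + 3 ≤ ((n + 1) ^ 2 + 3) * (Ct * B) := by
      have f1 : (0 : ℝ) ≤ ((n : ℝ) + 1) ^ 2 := by positivity
      have f2 := mul_le_mul_of_nonneg_left e5 f1
      rw [hDd]
      nlinarith
    rw [e1]
    calc Cs * (D + 3) + 2 * Ct ≤ Cs * (((n + 1) ^ 2 + 3) * (Ct * B)) + 2 * (Ct * B) := by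
          have f1 := mul_le_mul_of_nonneg_left e7 hCs
          linarith
      _ = (Cs * ((n + 1) ^ 2 + 3) + 2) * (Ct * B) := by ring
      _ ≤ (B : ℝ) ^ κ₀ * (Ct * B) := mul_le_mul_of_nonneg_right e3 (by linarith)
  have htail : ∀ H : ℕ, 1 ≤ H → ∀ R : ℝ, 1 ≤ R → ∀ T : Finset (Ix j → ℤ), (∀ c ∈ T, (∀ p, |c p| ≤ (H : ℤ)) ∧
      ∃ P : Fin 2 → ℤ, eval P (G + pol c) = 0 ∧ R ≤ max |(P 0 : ℝ)| |(P 1 : ℝ)|) →
      (T.card : ℝ) ≤ Ct * (2 * (H : ℝ) + 1) ^ (Fintype.card (Ix j) - 1) * (1 / R ^ (j - 2) + (H : ℝ) ^ (-dl n)) := by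
    intro H hH R hR T hT
    rw [hCtd]
    exact htail0 B hB G h hGB H hH R hR T hT
  have hH' : (1 : ℝ) ≤ (H : ℝ) := by exact_mod_cast hH
  have hH0 : (0 : ℝ) < (H : ℝ) := by linarith
  obtain ⟨u, hu⟩ : ∃ u : ℝ, u = (H : ℝ) ^ (-dl n) := ⟨_, rfl⟩
  have hu0 : 0 < u := by rw [hu]; positivity
  obtain ⟨q, hq⟩ : ∃ q : ℝ, q = (H : ℝ) ^ dl n := ⟨_, rfl⟩
  have hq1 : 1 ≤ q := by rw [hq]; exact Real.one_le_rpow hH' (dl_pos n).le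
  have huq : u * q = 1 := by
    rw [hu, hq, ← Real.rpow_add hH0]
    simp
  obtain ⟨R, hRdef⟩ : ∃ R : ℕ, R = ⌊q⌋₊ := ⟨_, rfl⟩
  have hR1 : 1 ≤ R := by
    rw [hRdef, Nat.one_le_floor_iff]
    exact hq1
  have hRq : (R : ℝ) ≤ q := by
    rw [hRdef]
    exact Nat.floor_le (by linarith)
  have hqR : q < (R : ℝ) + 1 := by
    rw [hRdef]
    exact Nat.lt_floor_add_one _
  have hR1' : (1 : ℝ) ≤ R := by exact_mod_cast hR1
  have hj := h.hj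
  have hjR : 1 / (R : ℝ) ^ (j - 2) ≤ 2 * u := by
    have h1 : (R : ℝ) ^ 1 ≤ (R : ℝ) ^ (j - 2) := pow_le_pow_right₀ hR1' (by omega)
    rw [pow_one] at h1
    have h2 : 1 / (R : ℝ) ^ (j - 2) ≤ 1 / (R : ℝ) := one_div_le_one_div_of_le (by linarith) h1
    refine h2.trans ?_
    rw [div_le_iff₀ (by linarith)]
    nlinarith
  have hjR2 : 1 / ((R : ℝ) + 1) ^ (j - 2) ≤ u := by
    have h1 : ((R : ℝ) + 1) ^ 1 ≤ ((R : ℝ) + 1) ^ (j - 2) := pow_le_pow_right₀ (by linarith) (by omega)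
    rw [pow_one] at h1
    have h2 : 1 / ((R : ℝ) + 1) ^ (j - 2) ≤ 1 / ((R : ℝ) + 1) := one_div_le_one_div_of_le (by linarith) h1
    refine h2.trans ?_
    rw [div_le_iff₀ (by linarith)]
    nlinarith
  have hhalf : (H : ℝ) ^ (-dl n) ≤ u := le_of_eq hu.symm
  obtain ⟨V, hV⟩ : ∃ V : ℝ, V = (2 * (H : ℝ) + 1) ^ (Fintype.card (Ix j) - 1) := ⟨_, rfl⟩
  have hV0 : 0 ≤ V := by rw [hV]; positivity
  obtain ⟨W, hW⟩ : ∃ W : ℝ, W = D * q ^ n := ⟨_, rfl⟩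
  have hqn : 1 ≤ q ^ n := one_le_pow₀ hq1
  have hW1 : 1 ≤ W := by rw [hW]; nlinarith
  have hWe : (R : ℝ) ^ 4 * W / (2 * (H : ℝ) + 1) ≤ D * u := by
    rw [div_le_iff₀ (by linarith), hW]
    have h1 : (R : ℝ) ^ 4 ≤ q ^ 4 := by gcongr
    have h2 : q ^ 4 * q ^ n ≤ u * H := by
      rw [hq, hu, ← Real.rpow_natCast, ← Real.rpow_natCast, ← Real.rpow_mul hH0.le, ← Real.rpow_mul hH0.le,
        ← Real.rpow_add hH0]
      have h3 : (H : ℝ) ^ (-dl n) * H = (H : ℝ) ^ (-dl n + 1) := by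
        rw [Real.rpow_add hH0, Real.rpow_one]
      rw [h3]
      refine Real.rpow_le_rpow_of_exponent_le hH' ?_
      have h4 := dl_exp n (by have := h.hn; omega)
      push_cast
      nlinarith
    calc (R : ℝ) ^ 4 * (D * q ^ n) ≤ q ^ 4 * (D * q ^ n) := by gcongr
      _ = D * (q ^ 4 * q ^ n) := by ring
      _ ≤ D * (u * H) := by gcongr
      _ ≤ D * u * (2 * H + 1) := by
          have : 0 ≤ D * u := by positivity
          nlinarith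
  have hWe2 : (R : ℝ) ^ 4 / (2 * (H : ℝ) + 1) ≤ D * u := by
    refine le_trans ?_ hWe
    refine div_le_div_of_nonneg_right ?_ (by linarith)
    exact le_mul_of_one_le_right (by positivity) hW1
  obtain ⟨g, hg⟩ : ∃ g : ℤ × ℤ → ℤ, g = fun P => eval ![P.1, P.2] G := ⟨_, rfl⟩
  have hgW : ∀ P ∈ Pts R, |(g P : ℝ)| ≤ W := by
    intro P hP
    rw [mem_Pts] at hP
    have h1 : |P.1| ≤ (R : ℤ) := (le_max_left _ _).trans hP
    have h2 : |P.2| ≤ (R : ℤ) := (le_max_right _ _).trans hP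
    have h1' : |(P.1 : ℝ)| ≤ q := by
      have : |(P.1 : ℝ)| ≤ (R : ℝ) := by exact_mod_cast h1
      linarith
    have h2' : |(P.2 : ℝ)| ≤ q := by
      have : |(P.2 : ℝ)| ≤ (R : ℝ) := by exact_mod_cast h2
      linarith
    rw [hg, hW]
    exact hval ![P.1, P.2] q hq1 h1' h2'
  obtain ⟨hs1, hs2⟩ := hsma H R hH hR1 W g hW1 hgW
  rw [← hV] at hs1 hs2
  have hge : ∀ (c : Ix j → ℤ) (P : ℤ × ℤ), g P + ev j (co c) P.1 P.2 = 0 ↔ eval ![P.1, P.2] (G + pol c) = 0 := by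
    intro c P
    have h1 := pol_eval c ![P.1, P.2]
    have h2 : ev j (co c) (![P.1, P.2] 0) (![P.1, P.2] 1) = ev j (co c) P.1 P.2 := rfl
    rw [h2] at h1
    rw [map_add, h1, hg]
  -- the set outside
  obtain ⟨O, hO⟩ : ∃ O : Finset (Ix j → ℤ), O = (box j H).filter fun c => ∃ P : Fin 2 → ℤ, eval P (G + pol c) = 0 ∧
    (R : ℝ) + 1 ≤ max |(P 0 : ℝ)| |(P 1 : ℝ)| := ⟨_, rfl⟩
  have hOc : (O.card : ℝ) ≤ 2 * Ct * u * V := by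
    have h1 := htail H hH ((R : ℝ) + 1) (by linarith) O (by
      intro c hc
      rw [hO, Finset.mem_filter, mem_box] at hc
      exact hc)
    rw [← hV] at h1
    refine h1.trans ?_
    have h2 : 1 / ((R : ℝ) + 1) ^ (j - 2) + (H : ℝ) ^ (-dl n) ≤ 2 * u := by linarith
    calc Ct * V * (1 / ((R : ℝ) + 1) ^ (j - 2) + (H : ℝ) ^ (-dl n)) ≤ Ct * V * (2 * u) :=
          mul_le_mul_of_nonneg_left h2 (by positivity)
      _ = _ := by ring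
  have hout : ∀ P : Fin 2 → ℤ, (P 0, P 1) ∉ Pts R → (R : ℝ) + 1 ≤ max |(P 0 : ℝ)| |(P 1 : ℝ)| := by
    intro P hP
    rw [mem_Pts] at hP
    have h0 : msz (P 0, P 1) = max |P 0| |P 1| := rfl
    rw [h0] at hP
    have h1 : (R : ℤ) + 1 ≤ max |P 0| |P 1| := by omega
    exact_mod_cast h1
  obtain ⟨Z1, hZ1⟩ : ∃ Z1 : Finset (Ix j → ℤ), Z1 = (box j H).filter fun c => ∃ P ∈ Pts R, g P + ev j (co c) P.1 P.2 = 0 := ⟨_, rfl⟩
  obtain ⟨Y1, hY1⟩ : ∃ Y1 : Finset (Ix j → ℤ), Y1 = (box j H).filter fun c => ∃ P ∈ Pts R, ∃ Q ∈ Pts R, P ≠ Q ∧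
    g P + ev j (co c) P.1 P.2 = 0 ∧ g Q + ev j (co c) Q.1 Q.2 = 0 := ⟨_, rfl⟩
  rw [← hZ1] at hs1
  rw [← hY1] at hs2
  rw [← hu, ← hV]
  have k4 : Cs * V * ((R : ℝ) ^ 4 * W / (2 * (H : ℝ) + 1) + 1 / (R : ℝ) ^ (j - 2)) ≤ Cs * (D + 2) * u * V := by
    calc Cs * V * ((R : ℝ) ^ 4 * W / (2 * (H : ℝ) + 1) + 1 / (R : ℝ) ^ (j - 2)) ≤ Cs * V * (D * u + 2 * u) := by
          refine mul_le_mul_of_nonneg_left ?_ (by positivity)
          linarith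
      _ = _ := by ring
  have k5 : Cs * V * ((R : ℝ) ^ 4 / (2 * (H : ℝ) + 1)) ≤ Cs * D * u * V := by
    calc Cs * V * ((R : ℝ) ^ 4 / (2 * (H : ℝ) + 1)) ≤ Cs * V * (D * u) :=
          mul_le_mul_of_nonneg_left hWe2 (by positivity)
      _ = _ := by ring
  have k6 : 0 ≤ Cs * u * V := by positivity
  have k7 : (Cs * (D + 3) + 2 * Ct) * u * V = Cs * (D + 2) * u * V + Cs * u * V + 2 * Ct * u * V := by ring
  have k8 : (Cs * (D + 3) + 2 * Ct) * u * V = Cs * D * u * V + 3 * (Cs * u * V) + 2 * Ct * u * V := by ring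
  constructor
  · intro Z hZ
    have hZ1Z : Z1 ⊆ Z := by
      intro c hc
      rw [hZ1, Finset.mem_filter] at hc
      rw [hZ]
      obtain ⟨P, _, hP⟩ := hc.2
      exact ⟨hc.1, ![P.1, P.2], (hge c P).1 hP⟩
    have hZZ : Z ⊆ Z1 ∪ O := by
      intro c hc
      rw [hZ] at hc
      rw [Finset.mem_union, hZ1, hO, Finset.mem_filter, Finset.mem_filter]
      obtain ⟨hb, P, hP⟩ := hc
      by_cases hPR : (P 0, P 1) ∈ Pts R
      · left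
        refine ⟨hb, (P 0, P 1), hPR, (hge c (P 0, P 1)).2 ?_⟩
        show eval ![P 0, P 1] (G + pol c) = 0
        rw [vec2]
        exact hP
      · exact Or.inr ⟨hb, P, hP, hout P hPR⟩
    have k1 : (Z1.card : ℝ) ≤ Z.card := by exact_mod_cast Finset.card_le_card hZ1Z
    have k2 : (Z.card : ℝ) ≤ Z1.card + O.card := by
      exact_mod_cast (Finset.card_le_card hZZ).trans (Finset.card_union_le _ _)
    rw [abs_le] at hs1 ⊢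
    obtain ⟨h1, h2⟩ := hs1
    have h3 : 0 ≤ 2 * Ct * u * V := by positivity
    have k9 : (Cs * (D + 3) + 2 * Ct) * u * V ≤ (B : ℝ) ^ (κ₀ + κt + 1) * u * V := by gcongr
    rw [k7] at k9
    constructor
    · linarith
    · linarith
  · intro Y hY
    have hYY : Y ⊆ Y1 ∪ O := by
      intro c hc
      rw [hY] at hc
      rw [Finset.mem_union, hY1, hO, Finset.mem_filter, Finset.mem_filter]
      obtain ⟨hb, P, Q, hPQ, hP, hQ⟩ := hc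
      by_cases hPR : (P 0, P 1) ∈ Pts R
      · by_cases hQR : (Q 0, Q 1) ∈ Pts R
        · left
          refine ⟨hb, (P 0, P 1), hPR, (Q 0, Q 1), hQR, ?_, (hge c (P 0, P 1)).2 ?_, (hge c (Q 0, Q 1)).2 ?_⟩
          · intro hE
            apply hPQ
            funext i
            have h1 := congrArg Prod.fst hE
            have h2 := congrArg Prod.snd hE
            fin_cases i
            · exact h1
            · exact h2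
          · show eval ![P 0, P 1] (G + pol c) = 0
            rw [vec2]
            exact hP
          · show eval ![Q 0, Q 1] (G + pol c) = 0
            rw [vec2]
            exact hQ
        · exact Or.inr ⟨hb, Q, hQ, hout Q hQR⟩
      · exact Or.inr ⟨hb, P, hP, hout P hPR⟩
    have k3 : (Y.card : ℝ) ≤ Y1.card + O.card := by
      exact_mod_cast (Finset.card_le_card hYY).trans (Finset.card_union_le _ _)
    have k9 : (Cs * (D + 3) + 2 * Ct) * u * V ≤ (B : ℝ) ^ (κ₀ + κt + 1) * u * V := by gcongr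
    rw [k8] at k9
    linarith

theorem ncard_filter (j H : ℕ) (Q : MvPolynomial (Fin 2) ℤ → Prop) (Z : Finset (Ix j → ℤ))
    (hZ : ∀ c, c ∈ Z ↔ c ∈ box j H ∧ Q (pol c)) :
    Set.ncard {L : MvPolynomial (Fin 2) ℤ | L.totalDegree ≤ j ∧ (∀ m, |L.coeff m| ≤ (H : ℤ)) ∧ Q L} = Z.card := by
  rw [pol_set j H Q, ← Set.ncard_coe_finset]
  congr 1
  ext c
  exact (hZ c).symm

theorem mainx (n j : ℕ) (hn : 5 ≤ n) (hj3 : 3 ≤ j) (hjn : j < n) : ∃ κ : ℕ, ∀ B : ℕ, 2 ≤ B → ∀ G : MvPolynomial (Fin 2) ℤ,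
    Hy n j G → (∀ m, |G.coeff m| + 1 ≤ (B : ℤ)) → ∀ H : ℕ, 1 ≤ H →
    |((Set.ncard {L : MvPolynomial (Fin 2) ℤ | L.totalDegree ≤ j ∧ (∀ m, |L.coeff m| ≤ (H : ℤ)) ∧
        ∃ P : Fin 2 → ℤ, eval P (G + L) = 0} : ℕ) : ℝ) -
      kaps j * (2 * (H : ℝ) + 1) ^ ((j + 1) * (j + 2) / 2 - 1)| ≤
      (B : ℝ) ^ κ * (H : ℝ) ^ (-(1 / (2 * (n : ℝ) + 4))) * (2 * (H : ℝ) + 1) ^ ((j + 1) * (j + 2) / 2 - 1) ∧
    ((Set.ncard {L : MvPolynomial (Fin 2) ℤ | L.totalDegree ≤ j ∧ (∀ m, |L.coeff m| ≤ (H : ℤ)) ∧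
        ∃ P Q : Fin 2 → ℤ, P ≠ Q ∧ eval P (G + L) = 0 ∧ eval Q (G + L) = 0} : ℕ) : ℝ) ≤
      (B : ℝ) ^ κ * (H : ℝ) ^ (-(1 / (2 * (n : ℝ) + 4))) * (2 * (H : ℝ) + 1) ^ ((j + 1) * (j + 2) / 2 - 1) ∧
    ∀ T : ℕ, 1 ≤ T →
      ((Set.ncard {L : MvPolynomial (Fin 2) ℤ | L.totalDegree ≤ j ∧ (∀ m, |L.coeff m| ≤ (H : ℤ)) ∧
          ∃ P : Fin 2 → ℤ, (T : ℤ) < max |P 0| |P 1| ∧ eval P (G + L) = 0} : ℕ) : ℝ) ≤
        (B : ℝ) ^ κ * (1 / (T : ℝ) ^ (j - 2) + (H : ℝ) ^ (-(1 / (2 * (n : ℝ) + 4)))) *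
          (2 * (H : ℝ) + 1) ^ ((j + 1) * (j + 2) / 2 - 1) := by
  classical
  obtain ⟨κ₁, h1'⟩ := vecx n j hn hj3 hjn
  obtain ⟨κ₂, h2'⟩ := tailx n j hn hj3 hjn
  refine ⟨κ₁ + κ₂ + 1, fun B hB G h hGB H hH => ?_⟩
  have h1 := h1' B hB G h hGB
  have h2 := h2' B hB G h hGB
  have hB2 : (2 : ℝ) ≤ B := by exact_mod_cast hB
  have hB1 : (1 : ℝ) ≤ B := by linarith
  obtain ⟨C1, hC1d⟩ : ∃ C1 : ℝ, C1 = (B : ℝ) ^ κ₁ := ⟨_, rfl⟩
  obtain ⟨C2, hC2d⟩ : ∃ C2 : ℝ, C2 = (B : ℝ) ^ κ₂ := ⟨_, rfl⟩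
  rw [← hC1d] at h1
  rw [← hC2d] at h2
  have hC1 : 1 ≤ C1 := by rw [hC1d]; exact one_le_pow₀ hB1
  have hC2 : 1 ≤ C2 := by rw [hC2d]; exact one_le_pow₀ hB1
  have hCC : C1 + C2 ≤ (B : ℝ) ^ (κ₁ + κ₂ + 1) := by
    rw [pow_add, pow_add, pow_one, ← hC1d, ← hC2d]
    nlinarith [mul_nonneg (by linarith : (0 : ℝ) ≤ C1 - 1) (by linarith : (0 : ℝ) ≤ C2 - 1)]
  have hH' : (1 : ℝ) ≤ (H : ℝ) := by exact_mod_cast hH
  have hH0 : (0 : ℝ) < (H : ℝ) := by linarith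
  obtain ⟨hv1, hv2⟩ := h1 H hH
  have hdl : (1 : ℝ) / (2 * (n : ℝ) + 4) = dl n := rfl
  rw [hdl]
  rw [card_ix] at hv1 hv2
  obtain ⟨u, hu⟩ : ∃ u : ℝ, u = (H : ℝ) ^ (-dl n) := ⟨_, rfl⟩
  have hu0 : 0 ≤ u := by rw [hu]; positivity
  obtain ⟨V, hV⟩ : ∃ V : ℝ, V = (2 * (H : ℝ) + 1) ^ ((j + 1) * (j + 2) / 2 - 1) := ⟨_, rfl⟩
  have hV0 : 0 ≤ V := by rw [hV]; positivity
  rw [← hu, ← hV] at hv1 hv2
  rw [← hu, ← hV]
  have hC2uV : 0 ≤ C2 * u * V := by positivity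
  refine ⟨?_, ?_, ?_⟩
  · obtain ⟨Z, hZ⟩ : ∃ Z : Finset (Ix j → ℤ), ∀ c, c ∈ Z ↔ c ∈ box j H ∧ ∃ P : Fin 2 → ℤ, eval P (G + pol c) = 0 :=
      ⟨(box j H).filter fun c => ∃ P : Fin 2 → ℤ, eval P (G + pol c) = 0, fun c => by rw [Finset.mem_filter]⟩
    rw [ncard_filter j H (fun L => ∃ P : Fin 2 → ℤ, eval P (G + L) = 0) Z hZ]
    have h3 := hv1 Z hZ
    have h4 : (C1 + C2) * u * V = C1 * u * V + C2 * u * V := by ring
    have h5 : (C1 + C2) * u * V ≤ (B : ℝ) ^ (κ₁ + κ₂ + 1) * u * V := by gcongr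
    rw [h4] at h5
    linarith
  · obtain ⟨Z, hZ⟩ : ∃ Z : Finset (Ix j → ℤ), ∀ c, c ∈ Z ↔ c ∈ box j H ∧
        ∃ P Q : Fin 2 → ℤ, P ≠ Q ∧ eval P (G + pol c) = 0 ∧ eval Q (G + pol c) = 0 :=
      ⟨(box j H).filter fun c => ∃ P Q : Fin 2 → ℤ, P ≠ Q ∧ eval P (G + pol c) = 0 ∧ eval Q (G + pol c) = 0,
        fun c => by rw [Finset.mem_filter]⟩
    rw [ncard_filter j H (fun L => ∃ P Q : Fin 2 → ℤ, P ≠ Q ∧ eval P (G + L) = 0 ∧ eval Q (G + L) = 0) Z hZ]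
    have h3 := hv2 Z hZ
    have h4 : (C1 + C2) * u * V = C1 * u * V + C2 * u * V := by ring
    have h5 : (C1 + C2) * u * V ≤ (B : ℝ) ^ (κ₁ + κ₂ + 1) * u * V := by gcongr
    rw [h4] at h5
    linarith
  · intro T hT
    have hT' : (1 : ℝ) ≤ (T : ℝ) := by exact_mod_cast hT
    obtain ⟨Z, hZ⟩ : ∃ Z : Finset (Ix j → ℤ), Z = (box j H).filter fun c =>
      ∃ P : Fin 2 → ℤ, (T : ℤ) < max |P 0| |P 1| ∧ eval P (G + pol c) = 0 := ⟨_, rfl⟩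
    rw [ncard_filter j H (fun L => ∃ P : Fin 2 → ℤ, (T : ℤ) < max |P 0| |P 1| ∧ eval P (G + L) = 0) Z
      (fun c => by rw [hZ, Finset.mem_filter])]
    have h3 := h2 H hH (T : ℝ) hT' Z (by
      intro c hc
      rw [hZ, Finset.mem_filter, mem_box] at hc
      obtain ⟨hb, P, hP1, hP2⟩ := hc
      refine ⟨hb, P, hP2, ?_⟩
      have h4 : (T : ℤ) ≤ max |P 0| |P 1| := hP1.le
      exact_mod_cast h4)
    rw [card_ix, ← hV] at h3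
    have hT0 : 0 ≤ 1 / (T : ℝ) ^ (j - 2) := by positivity
    rw [← hu] at h3
    calc (Z.card : ℝ) ≤ C2 * V * (1 / (T : ℝ) ^ (j - 2) + u) := h3
      _ = C2 * (1 / (T : ℝ) ^ (j - 2) + u) * V := by ring
      _ ≤ (B : ℝ) ^ (κ₁ + κ₂ + 1) * (1 / (T : ℝ) ^ (j - 2) + u) * V := by
          refine mul_le_mul_of_nonneg_right (mul_le_mul_of_nonneg_right (by linarith) (by positivity)) hV0

end Pool.Agent.H88.TU
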