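import Pool.Agent.H88.TU.Def
import Pool.Agent.H88.TU.Sta
import Pool.Agent.H88.TS.Near

/-! # [H88 TU NEX] Zeros are near the asymptotes, with explicit constants

PROOF. `TS/Near.lean` (`near`) with `c0 = 1/B`: copy the proof, its constants are explicit: `1 + ρ + 2 M ρ/c0` and `2/c0 (M ρ² + n K + n K ρ)`, `K = (n+1) B 2^n`, `ρ = 2 n K/c0`,
`M = n (n K)`, all `≤ B^κ`. The zero `t` found there has `|t| ≤ 2` and `|φ_n'(t)| ≥ c0/2`. `Bs n (B^κ) H e` from `Bs n B H e` (`κ ≥ 1`). -/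

namespace Pool.Agent.H88.TU

open Finset Polynomial Pool.Agent.H8.AA Pool.Agent.H88.A2

/-- degree and coefficient bound -/
private def Qb (k : ℕ) (D : ℝ) (P : ℤ[X]) : Prop := P.natDegree ≤ k ∧ ∀ j, |(P.coeff j : ℝ)| ≤ D

private theorem Qb.der {k : ℕ} {D : ℝ} {P : ℤ[X]} (h : Qb k D P) : Qb k (k * D) (derivative P) := by
  obtain ⟨h1, h2⟩ := h
  have hD : 0 ≤ D := (abs_nonneg _).trans (h2 0)
  refine ⟨(natDegree_derivative_le P).trans (by omega), fun j => ?_⟩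
  rw [coeff_derivative]
  push_cast
  rw [abs_mul]
  by_cases hj : j + 1 ≤ k
  · have e : |((j : ℝ) + 1)| ≤ k := by
      rw [abs_of_nonneg (by positivity)]
      exact_mod_cast hj
    calc |(P.coeff (j + 1) : ℝ)| * |((j : ℝ) + 1)| ≤ D * k :=
          mul_le_mul (h2 _) e (abs_nonneg _) hD
      _ = k * D := mul_comm _ _
  · have e : P.coeff (j + 1) = 0 := coeff_eq_zero_of_natDegree_lt (by omega)
    rw [e]
    simp
    positivity

private theorem Qb.val {k : ℕ} {D : ℝ} {P : ℤ[X]} (h : Qb k D P) {t : ℝ} (ht : |t| ≤ 2) :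
    |aeval t P| ≤ (k + 1) * D * 2 ^ k := by
  obtain ⟨h1, h2⟩ := h
  have hD : 0 ≤ D := (abs_nonneg _).trans (h2 0)
  rw [aeval_eq_sum_range' (Nat.lt_succ_of_le h1)]
  calc |∑ i ∈ Finset.range (k + 1), P.coeff i • t ^ i|
      ≤ ∑ i ∈ Finset.range (k + 1), |P.coeff i • t ^ i| := Finset.abs_sum_le_sum_abs _ _
    _ ≤ ∑ i ∈ Finset.range (k + 1), D * 2 ^ k := by
        refine Finset.sum_le_sum fun i hi => ?_
        have hi' := Finset.mem_range.1 hi
        rw [zsmul_eq_mul, abs_mul, abs_pow]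
        have e1 : |t| ^ i ≤ 2 ^ k :=
          (pow_le_pow_left₀ (abs_nonneg _) ht i).trans (pow_le_pow_right₀ (by norm_num) (by omega))
        exact mul_le_mul (h2 i) e1 (by positivity) hD
    _ = (k + 1) * D * 2 ^ k := by
        rw [Finset.sum_const, Finset.card_range, nsmul_eq_mul]
        push_cast
        ring

private theorem lip (P : ℤ[X]) {M : ℝ} (hM : ∀ s : ℝ, |s| ≤ 2 → |aeval s (derivative P)| ≤ M) {s t : ℝ}
    (hs : |s| ≤ 2) (ht : |t| ≤ 2) : |aeval s P - aeval t P| ≤ M * |s - t| := by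
  have hconv : Convex ℝ (Set.Icc (-2 : ℝ) 2) := convex_Icc _ _
  have key := hconv.norm_image_sub_le_of_norm_hasDerivWithin_le (f := fun r : ℝ => aeval r P)
    (f' := fun r : ℝ => aeval r (derivative P)) (C := M)
    (fun r _ => (Polynomial.hasDerivAt_aeval P r).hasDerivWithinAt)
    (fun r hr => by
      rw [Real.norm_eq_abs]
      exact hM r (abs_le.2 hr)) (abs_le.1 ht) (abs_le.1 hs)
  simpa [Real.norm_eq_abs] using key

private theorem tay (P : ℤ[X]) {M : ℝ}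
    (hM : ∀ s : ℝ, |s| ≤ 2 → |aeval s (derivative (derivative P))| ≤ M) {s t : ℝ}
    (hs : |s| ≤ 2) (ht : |t| ≤ 2) :
    |aeval s P - aeval t P - aeval t (derivative P) * (s - t)| ≤ M * (s - t) ^ 2 := by
  have hM0 : 0 ≤ M := (abs_nonneg _).trans (hM s hs)
  have hconv : Convex ℝ (Set.uIcc t s) := convex_uIcc _ _
  have hsub : ∀ r ∈ Set.uIcc t s, |r| ≤ 2 ∧ |r - t| ≤ |s - t| := by
    intro r hr
    refine ⟨?_, Set.abs_sub_left_of_mem_uIcc hr⟩
    rw [Set.mem_uIcc] at hr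
    rw [abs_le] at hs ht ⊢
    rcases hr with hr | hr
    · exact ⟨ht.1.trans hr.1, hr.2.trans hs.2⟩
    · exact ⟨hs.1.trans hr.1, hr.2.trans ht.2⟩
  have key := hconv.norm_image_sub_le_of_norm_hasDerivWithin_le
    (f := fun r : ℝ => aeval r P - aeval t (derivative P) * r)
    (f' := fun r : ℝ => aeval r (derivative P) - aeval t (derivative P)) (C := M * |s - t|)
    (fun r _ => by
      have e1 := (Polynomial.hasDerivAt_aeval P r).hasDerivWithinAt (s := Set.uIcc t s)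
      have e2 := ((hasDerivAt_id r).const_mul (aeval t (derivative P))).hasDerivWithinAt
        (s := Set.uIcc t s)
      have e3 := e1.sub e2
      rw [mul_one] at e3
      exact e3)
    (fun r hr => by
      rw [Real.norm_eq_abs]
      obtain ⟨h1, h2⟩ := hsub r hr
      exact (lip (derivative P) hM h1 ht).trans (mul_le_mul_of_nonneg_left h2 hM0))
    Set.left_mem_uIcc Set.right_mem_uIcc
  rw [Real.norm_eq_abs, Real.norm_eq_abs] at key
  calc |aeval s P - aeval t P - aeval t (derivative P) * (s - t)|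
      = |aeval s P - aeval t (derivative P) * s - (aeval t P - aeval t (derivative P) * t)| := by
        congr 1
        ring
    _ ≤ M * |s - t| * |s - t| := key
    _ = M * (s - t) ^ 2 := by rw [mul_assoc, ← sq, sq_abs]

private theorem root_pos (P : ℤ[X]) {M c t₀ r : ℝ}
    (hM : ∀ s : ℝ, |s| ≤ 2 → |aeval s (derivative (derivative P))| ≤ M) (ht₀ : |t₀| ≤ 1)
    (hc0 : 0 < c) (hc : c < aeval t₀ (derivative P)) (hr : r = 2 / c * |aeval t₀ P|) (hr1 : r ≤ 1)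
    (hr2 : M * r ≤ c / 2) :
    ∃ t : ℝ, aeval t P = 0 ∧ |t - t₀| ≤ r := by
  have hr0 : 0 ≤ r := by rw [hr]; positivity
  have e0 : |aeval t₀ P| = c / 2 * r := by
    rw [hr]
    field_simp
  have hb : |t₀ + r| ≤ 2 := (abs_add_le _ _).trans (by rw [abs_of_nonneg hr0]; linarith)
  have ha : |t₀ - r| ≤ 2 := (abs_sub _ _).trans (by rw [abs_of_nonneg hr0]; linarith)
  have ht2 : |t₀| ≤ 2 := by linarith
  have h1 := tay P hM hb ht2
  have h2 := tay P hM ha ht2
  rw [abs_le] at h1 h2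
  have e1 : t₀ + r - t₀ = r := by ring
  have e2 : t₀ - r - t₀ = -r := by ring
  rw [e1] at h1
  rw [e2] at h2
  have h3 : M * r ^ 2 ≤ c / 2 * r := by
    have := mul_le_mul_of_nonneg_right hr2 hr0
    nlinarith
  have h4 : c * r ≤ aeval t₀ (derivative P) * r := mul_le_mul_of_nonneg_right hc.le hr0
  have h5 := neg_abs_le (aeval t₀ P)
  have h6 := le_abs_self (aeval t₀ P)
  have hup : 0 ≤ aeval (t₀ + r) P := by
    have := h1.1
    nlinarith
  have hlo : aeval (t₀ - r) P ≤ 0 := by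
    have := h2.2
    have e3 : M * (-r) ^ 2 = M * r ^ 2 := by ring
    rw [e3] at this
    nlinarith
  have hcont : ContinuousOn (fun s : ℝ => aeval s P) (Set.Icc (t₀ - r) (t₀ + r)) :=
    (Polynomial.continuous_aeval P).continuousOn
  obtain ⟨t, ht, ht'⟩ := intermediate_value_Icc (by linarith) hcont ⟨hlo, hup⟩
  refine ⟨t, ht', ?_⟩
  rw [abs_le]
  constructor <;> linarith [ht.1, ht.2]

private theorem root (P : ℤ[X]) {M c t₀ r : ℝ}
    (hM : ∀ s : ℝ, |s| ≤ 2 → |aeval s (derivative (derivative P))| ≤ M) (ht₀ : |t₀| ≤ 1)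
    (hc0 : 0 < c) (hc : c < |aeval t₀ (derivative P)|) (hr : r = 2 / c * |aeval t₀ P|) (hr1 : r ≤ 1)
    (hr2 : M * r ≤ c / 2) :
    ∃ t : ℝ, aeval t P = 0 ∧ |t - t₀| ≤ r ∧ c / 2 ≤ |aeval t (derivative P)| := by
  have hr0 : 0 ≤ r := by rw [hr]; positivity
  have hM0 : 0 ≤ M := (abs_nonneg _).trans (hM t₀ (by linarith))
  obtain ⟨t, h1, h2⟩ : ∃ t : ℝ, aeval t P = 0 ∧ |t - t₀| ≤ r := by
    rcases lt_or_ge 0 (aeval t₀ (derivative P)) with h | h
    · rw [abs_of_pos h] at hc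
      exact root_pos P hM ht₀ hc0 hc hr hr1 hr2
    · rw [abs_of_nonpos h] at hc
      obtain ⟨t, h1, h2⟩ := root_pos (-P) (M := M) (c := c) (t₀ := t₀) (r := r)
        (by
          intro s hs
          rw [derivative_neg, derivative_neg, map_neg, abs_neg]
          exact hM s hs) ht₀ hc0 (by rw [derivative_neg, map_neg]; exact hc)
        (by rw [map_neg, abs_neg]; exact hr) hr1 hr2
      rw [map_neg, neg_eq_zero] at h1
      exact ⟨t, h1, h2⟩
  refine ⟨t, h1, h2, ?_⟩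
  have ht : |t| ≤ 2 := by
    have : |t| ≤ |t - t₀| + |t₀| := by
      have := abs_add_le (t - t₀) t₀
      rwa [sub_add_cancel] at this
    linarith
  have h3 := lip (derivative P) hM ht (by linarith : |t₀| ≤ 2)
  have h4 : M * |t - t₀| ≤ c / 2 := (mul_le_mul_of_nonneg_left h2 hM0).trans hr2
  have h5 := abs_sub_abs_le_abs_sub (aeval t₀ (derivative P)) (aeval t (derivative P))
  rw [abs_sub_comm] at h5
  linarith

private theorem near_ex (n : ℕ) (hn : 2 ≤ n) (B c0 K ρ M : ℝ) (hB : 1 ≤ B) (hc : 0 < c0)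
    (hK : K = (n + 1) * B * 2 ^ n) (hρ : ρ = 2 * n * K / c0) (hM : M = n * (n * K))
    (e : ℕ → ℕ → ℤ) (S : ℝ) (hS : 1 ≤ S) (he : Bs n B S e) (hG : Gd n c0 e) (x y : ℤ)
    (hxy : |y| ≤ |x|) (hx : (1 + ρ + 2 * M * ρ / c0) * S ≤ |(x : ℝ)|) (hev : ev n e x y = 0) :
      ∃ t : ℝ, |t| ≤ 2 ∧ aeval t (fm e n) = 0 ∧ c0 / 2 ≤ |aeval t (derivative (fm e n))| ∧
        |(y : ℝ) - t * x + aeval t (fm e (n - 1)) / aeval t (derivative (fm e n))| ≤
          2 / c0 * (M * ρ ^ 2 + n * K + n * K * ρ) * S ^ 2 / |(x : ℝ)| := by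
  have hn0 : (0 : ℝ) < n := by
    have : 0 < n := by omega
    exact_mod_cast this
  have hK0 : 0 < K := by rw [hK]; positivity
  have hρ0 : 0 < ρ := by rw [hρ]; positivity
  have hM0 : 0 < M := by rw [hM]; positivity
  have hS0 : 0 < S := by linarith
  have hA : 0 < 1 + ρ + 2 * M * ρ / c0 := by positivity
  have hx0 : 0 < |(x : ℝ)| := lt_of_lt_of_le (by positivity) hx
  have hxne : (x : ℝ) ≠ 0 := abs_pos.1 hx0
  have hxz : x ≠ 0 := by exact_mod_cast hxne
  obtain ⟨v, hv⟩ : ∃ v : ℝ, v = S / |(x : ℝ)| := ⟨_, rfl⟩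
  have hv0 : 0 < v := by rw [hv]; positivity
  have hvA : (1 + ρ + 2 * M * ρ / c0) * v ≤ 1 := by
    rw [hv, ← mul_div_assoc, div_le_one hx0]
    exact hx
  have hv1 : v ≤ 1 := by
    have : 0 < (ρ + 2 * M * ρ / c0) * v := by positivity
    nlinarith
  have hvρ : ρ * v ≤ 1 := by
    have : 0 < (2 * M * ρ / c0) * v := by positivity
    nlinarith
  have hvM : M * (ρ * v) ≤ c0 / 2 := by
    have h1 : (2 * M * ρ / c0) * v ≤ 1 := by
      have : 0 < ρ * v := by positivity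
      nlinarith
    have h2 : (2 * M * ρ / c0) * v = 2 * (M * (ρ * v)) / c0 := by ring
    rw [h2, div_le_one hc] at h1
    linarith
  obtain ⟨t₀, ht₀⟩ : ∃ t₀ : ℝ, t₀ = (y : ℝ) / x := ⟨_, rfl⟩
  have ht₀1 : |t₀| ≤ 1 := by
    rw [ht₀, abs_div, div_le_one hx0]
    exact_mod_cast hxy
  have ht₀2 : |t₀| ≤ 2 := by linarith
  -- coefficient bounds
  have hQ : ∀ k ≤ n, Qb k (B * S ^ (n - k)) (fm e k) := by
    intro k hk
    refine ⟨fm_deg e k, fun j => ?_⟩
    rw [fm_coeff]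
    split_ifs with h
    · have h1 := he (k - j) j (by omega)
      have h2 : n - (k - j) - j = n - k := by omega
      rwa [h2] at h1
    · simp
      positivity
  have hval : ∀ k ≤ n, ∀ t : ℝ, |t| ≤ 2 → |aeval t (fm e k)| ≤ K * S ^ (n - k) := by
    intro k hk t ht
    refine ((hQ k hk).val ht).trans ?_
    rw [hK]
    have h1 : (k : ℝ) + 1 ≤ n + 1 := by
      have : (k : ℝ) ≤ n := by exact_mod_cast hk
      linarith
    have h2 : (2 : ℝ) ^ k ≤ 2 ^ n := pow_le_pow_right₀ (by norm_num) hk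
    calc ((k : ℝ) + 1) * (B * S ^ (n - k)) * 2 ^ k ≤ (n + 1) * (B * S ^ (n - k)) * 2 ^ n := by
          gcongr
      _ = _ := by ring
  have hsec : ∀ s : ℝ, |s| ≤ 2 → |aeval s (derivative (derivative (fm e n)))| ≤ M := by
    intro s hs
    have h1 := (hQ n le_rfl).der.der.val hs
    rw [Nat.sub_self, pow_zero, mul_one] at h1
    refine h1.trans (le_of_eq ?_)
    rw [hM, hK]
    ring
  have hfir : ∀ s : ℝ, |s| ≤ 2 → |aeval s (derivative (fm e (n - 1)))| ≤ n * K * S := by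
    intro s hs
    have h1 := (hQ (n - 1) (by omega)).der.val hs
    have h2 : n - (n - 1) = 1 := by omega
    rw [h2, pow_one] at h1
    refine h1.trans ?_
    rw [hK]
    have h3 : ((n - 1 : ℕ) : ℝ) ≤ n := by
      have : n - 1 ≤ n := by omega
      exact_mod_cast this
    have h4 : (0 : ℝ) ≤ ((n - 1 : ℕ) : ℝ) := by positivity
    have h5 : (2 : ℝ) ^ (n - 1) ≤ 2 ^ n := pow_le_pow_right₀ (by norm_num) (by omega)
    calc (((n - 1 : ℕ) : ℝ) + 1) * (((n - 1 : ℕ) : ℝ) * (B * S)) * 2 ^ (n - 1)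
        ≤ ((n : ℝ) + 1) * ((n : ℝ) * (B * S)) * 2 ^ n := by gcongr
      _ = _ := by ring
  -- the equation
  have hsum : ∑ k ∈ Finset.range (n + 1), (1 / (x : ℝ)) ^ (n - k) * aeval t₀ (fm e k) = 0 := by
    have h1 := ev_eq n e x y hxz
    rw [hev, ← ht₀] at h1
    push_cast at h1
    exact (mul_eq_zero.1 h1.symm).resolve_left (pow_ne_zero _ hxne)
  have hterm : ∀ k ≤ n, |(1 / (x : ℝ)) ^ (n - k) * aeval t₀ (fm e k)| ≤ K * v ^ (n - k) := by
    intro k hk
    rw [abs_mul, abs_pow, abs_div, abs_one]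
    calc (1 / |(x : ℝ)|) ^ (n - k) * |aeval t₀ (fm e k)|
        ≤ (1 / |(x : ℝ)|) ^ (n - k) * (K * S ^ (n - k)) :=
          mul_le_mul_of_nonneg_left (hval k hk t₀ ht₀2) (by positivity)
      _ = K * v ^ (n - k) := by
          rw [hv, div_pow, div_pow, one_pow]
          ring
  obtain ⟨R, hR⟩ : ∃ R : ℝ, R = ∑ k ∈ Finset.range (n - 1), (1 / (x : ℝ)) ^ (n - k) * aeval t₀ (fm e k) := ⟨_, rfl⟩
  have hRb : |R| ≤ n * K * v ^ 2 := by
    rw [hR]
    calc |∑ k ∈ Finset.range (n - 1), (1 / (x : ℝ)) ^ (n - k) * aeval t₀ (fm e k)|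
        ≤ ∑ k ∈ Finset.range (n - 1), |(1 / (x : ℝ)) ^ (n - k) * aeval t₀ (fm e k)| :=
          Finset.abs_sum_le_sum_abs _ _
      _ ≤ ∑ k ∈ Finset.range (n - 1), K * v ^ 2 := by
          refine Finset.sum_le_sum fun k hk => ?_
          have hk' := Finset.mem_range.1 hk
          refine (hterm k (by omega)).trans (mul_le_mul_of_nonneg_left ?_ hK0.le)
          exact pow_le_pow_of_le_one hv0.le hv1 (by omega)
      _ = ((n - 1 : ℕ) : ℝ) * (K * v ^ 2) := by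
          rw [Finset.sum_const, Finset.card_range, nsmul_eq_mul]
      _ ≤ n * K * v ^ 2 := by
          have h3 : ((n - 1 : ℕ) : ℝ) ≤ n := by
            have : n - 1 ≤ n := by omega
            exact_mod_cast this
          rw [mul_assoc]
          exact mul_le_mul_of_nonneg_right h3 (by positivity)
  have heq : aeval t₀ (fm e n) + 1 / (x : ℝ) * aeval t₀ (fm e (n - 1)) + R = 0 := by
    obtain ⟨m, rfl⟩ : ∃ m, n = m + 1 := ⟨n - 1, by omega⟩
    rw [Finset.sum_range_succ, Finset.sum_range_succ] at hsum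
    rw [hR]
    have h1 : m + 1 - (m + 1) = 0 := by omega
    have h2 : m + 1 - m = 1 := by omega
    have h3 : m + 1 - 1 = m := by omega
    rw [h1, h2, pow_zero, one_mul, pow_one] at hsum
    rw [h3]
    linarith
  have hn1 := hterm (n - 1) (by omega)
  have hn2 : n - (n - 1) = 1 := by omega
  rw [hn2, pow_one, pow_one] at hn1
  have htop : |aeval t₀ (fm e n)| ≤ n * K * v := by
    have h1 : aeval t₀ (fm e n) = -(1 / (x : ℝ) * aeval t₀ (fm e (n - 1))) - R := by linarith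
    -- direct bound of the sum of all lower terms
    obtain ⟨m, rfl⟩ : ∃ m, n = m + 1 := ⟨n - 1, by omega⟩
    have h2 : aeval t₀ (fm e (m + 1)) =
        -∑ k ∈ Finset.range (m + 1), (1 / (x : ℝ)) ^ (m + 1 - k) * aeval t₀ (fm e k) := by
      rw [Finset.sum_range_succ] at hsum
      have h3 : m + 1 - (m + 1) = 0 := by omega
      rw [h3, pow_zero, one_mul] at hsum
      linarith
    rw [h2, abs_neg]
    calc |∑ k ∈ Finset.range (m + 1), (1 / (x : ℝ)) ^ (m + 1 - k) * aeval t₀ (fm e k)|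
        ≤ ∑ k ∈ Finset.range (m + 1), |(1 / (x : ℝ)) ^ (m + 1 - k) * aeval t₀ (fm e k)| :=
          Finset.abs_sum_le_sum_abs _ _
      _ ≤ ∑ k ∈ Finset.range (m + 1), K * v := by
          refine Finset.sum_le_sum fun k hk => ?_
          have hk' := Finset.mem_range.1 hk
          refine (hterm k (by omega)).trans (mul_le_mul_of_nonneg_left ?_ hK0.le)
          calc v ^ (m + 1 - k) ≤ v ^ 1 := pow_le_pow_of_le_one hv0.le hv1 (by omega)
            _ = v := pow_one v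
      _ = ((m + 1 : ℕ) : ℝ) * K * v := by
          rw [Finset.sum_const, Finset.card_range, nsmul_eq_mul]
          ring
  obtain ⟨r, hr⟩ : ∃ r : ℝ, r = 2 / c0 * |aeval t₀ (fm e n)| := ⟨_, rfl⟩
  have hrρ : r ≤ ρ * v := by
    rw [hr, hρ]
    calc 2 / c0 * |aeval t₀ (fm e n)| ≤ 2 / c0 * (n * K * v) :=
          mul_le_mul_of_nonneg_left htop (by positivity)
      _ = 2 * n * K / c0 * v := by ring
  have hnot : ¬ c0 < |aeval t₀ (fm e n)| := by
    intro h
    have h1 : r ≤ 1 := hrρ.trans hvρ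
    rw [hr] at h1
    have h2 : 2 / c0 * c0 < 2 / c0 * |aeval t₀ (fm e n)| := mul_lt_mul_of_pos_left h (by positivity)
    have h3 : 2 / c0 * c0 = 2 := by field_simp
    linarith
  have hder : c0 < |aeval t₀ (derivative (fm e n))| := (hG t₀ ht₀1).resolve_left hnot
  obtain ⟨t, h1, h2, h3⟩ := root (fm e n) hsec ht₀1 hc hder hr (hrρ.trans hvρ)
    ((mul_le_mul_of_nonneg_left hrρ hM0.le).trans hvM)
  have h2' : |t₀ - t| ≤ ρ * v := by
    rw [abs_sub_comm]
    exact h2.trans hrρ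
  have ht : |t| ≤ 2 := by
    have h4 : |t| ≤ |t - t₀| + |t₀| := by
      have := abs_add_le (t - t₀) t₀
      rwa [sub_add_cancel] at this
    have h5 : |t - t₀| ≤ 1 := h2.trans (hrρ.trans hvρ)
    linarith
  refine ⟨t, ht, h1, h3, ?_⟩
  obtain ⟨a, ha⟩ : ∃ a : ℝ, a = aeval t (derivative (fm e n)) := ⟨_, rfl⟩
  rw [← ha] at h3 ⊢
  have ha0 : 0 < |a| := lt_of_lt_of_le (by positivity) h3
  have hane : a ≠ 0 := abs_pos.1 ha0
  have T1 : |aeval t₀ (fm e n) - a * (t₀ - t)| ≤ M * (ρ * v) ^ 2 := by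
    have h4 := tay (fm e n) hsec ht₀2 ht
    rw [h1, sub_zero, ← ha] at h4
    refine h4.trans (mul_le_mul_of_nonneg_left ?_ hM0.le)
    rw [← sq_abs]
    exact pow_le_pow_left₀ (abs_nonneg _) h2' 2
  have T2 : |1 / (x : ℝ) * (aeval t₀ (fm e (n - 1)) - aeval t (fm e (n - 1)))| ≤ n * K * ρ * v ^ 2 := by
    rw [abs_mul, abs_div, abs_one]
    have h4 := lip (fm e (n - 1)) hfir ht₀2 ht
    calc 1 / |(x : ℝ)| * |aeval t₀ (fm e (n - 1)) - aeval t (fm e (n - 1))|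
        ≤ 1 / |(x : ℝ)| * (n * K * S * (ρ * v)) := by
          refine mul_le_mul_of_nonneg_left (h4.trans ?_) (by positivity)
          exact mul_le_mul_of_nonneg_left h2' (by positivity)
      _ = n * K * ρ * v * (S / |(x : ℝ)|) := by ring
      _ = n * K * ρ * v ^ 2 := by
          rw [← hv]
          ring
  have hE : |a * (t₀ - t) + 1 / (x : ℝ) * aeval t (fm e (n - 1))| ≤
      (M * ρ ^ 2 + n * K + n * K * ρ) * v ^ 2 := by
    have h4 : a * (t₀ - t) + 1 / (x : ℝ) * aeval t (fm e (n - 1)) =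
        -(aeval t₀ (fm e n) - a * (t₀ - t)) - R -
          1 / (x : ℝ) * (aeval t₀ (fm e (n - 1)) - aeval t (fm e (n - 1))) := by
      linear_combination heq
    rw [h4]
    calc |-(aeval t₀ (fm e n) - a * (t₀ - t)) - R -
          1 / (x : ℝ) * (aeval t₀ (fm e (n - 1)) - aeval t (fm e (n - 1)))|
        ≤ |-(aeval t₀ (fm e n) - a * (t₀ - t)) - R| +
          |1 / (x : ℝ) * (aeval t₀ (fm e (n - 1)) - aeval t (fm e (n - 1)))| := abs_sub _ _
      _ ≤ |-(aeval t₀ (fm e n) - a * (t₀ - t))| + |R| +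
          |1 / (x : ℝ) * (aeval t₀ (fm e (n - 1)) - aeval t (fm e (n - 1)))| :=
          add_le_add (abs_sub _ _) le_rfl
      _ ≤ M * (ρ * v) ^ 2 + n * K * v ^ 2 + n * K * ρ * v ^ 2 := by
          rw [abs_neg]
          exact add_le_add (add_le_add T1 hRb) T2
      _ = _ := by ring
  have hfin : (y : ℝ) - t * x + aeval t (fm e (n - 1)) / a =
      (x : ℝ) / a * (a * (t₀ - t) + 1 / (x : ℝ) * aeval t (fm e (n - 1))) := by
    rw [ht₀]
    field_simp
  rw [hfin, abs_mul, abs_div]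
  calc |(x : ℝ)| / |a| * |a * (t₀ - t) + 1 / (x : ℝ) * aeval t (fm e (n - 1))|
      ≤ |(x : ℝ)| / (c0 / 2) * ((M * ρ ^ 2 + n * K + n * K * ρ) * v ^ 2) := by
        refine mul_le_mul ?_ hE (abs_nonneg _) (by positivity)
        exact div_le_div_of_nonneg_left hx0.le (by positivity) h3
    _ = 2 / c0 * (M * ρ ^ 2 + n * K + n * K * ρ) * S ^ 2 / |(x : ℝ)| := by
        rw [hv]
        field_simp

/-- explicit version: `κ = 10 n + 11`. -/
theorem nex_ex (n : ℕ) (hn : 2 ≤ n) : NexS n (10 * n + 11) := by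
  unfold NexS
  intro B hB e H hH he hG x y hxy hx hev
  obtain ⟨b, hb⟩ : ∃ b : ℝ, b = (B : ℝ) := ⟨_, rfl⟩
  have hb2 : (2 : ℝ) ≤ b := by rw [hb]; exact_mod_cast hB
  rw [← hb] at he hG hx ⊢
  have hb1 : (1 : ℝ) ≤ b := by linarith
  have hb0 : (0 : ℝ) < b := by linarith
  have hmono : ∀ {i j : ℕ}, i ≤ j → b ^ i ≤ b ^ j := fun h => pow_le_pow_right₀ hb1 h
  have h2n : ∀ i : ℕ, (2 : ℝ) ^ i ≤ b ^ i := fun i => pow_le_pow_left₀ (by norm_num) hb2 i
  have hnb : (n : ℝ) ≤ b ^ n := by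
    have h1 : (n : ℝ) ≤ 2 ^ n := by exact_mod_cast (Nat.lt_two_pow_self (n := n)).le
    exact h1.trans (h2n n)
  have hn1b : (n : ℝ) + 1 ≤ b ^ n := by
    have h1 : (n : ℝ) + 1 ≤ 2 ^ n := by exact_mod_cast (Nat.lt_two_pow_self (n := n))
    exact h1.trans (h2n n)
  have hn0 : (0 : ℝ) ≤ n := Nat.cast_nonneg n
  obtain ⟨K, hK⟩ : ∃ K : ℝ, K = (n + 1) * b * 2 ^ n := ⟨_, rfl⟩
  obtain ⟨ρ, hρ⟩ : ∃ ρ : ℝ, ρ = 2 * n * K / (1 / b) := ⟨_, rfl⟩
  obtain ⟨M, hM⟩ : ∃ M : ℝ, M = n * (n * K) := ⟨_, rfl⟩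
  have hK0 : 0 ≤ K := by rw [hK]; positivity
  have hρ0 : 0 ≤ ρ := by rw [hρ]; positivity
  have hM0 : 0 ≤ M := by rw [hM]; positivity
  have hKb : K ≤ b ^ (2 * n + 1) := by
    rw [hK]
    calc ((n : ℝ) + 1) * b * 2 ^ n ≤ b ^ n * b * b ^ n := by
          gcongr
      _ = b ^ (2 * n + 1) := by ring
  have hρb : ρ ≤ b ^ (3 * n + 3) := by
    rw [hρ, div_div_eq_mul_div, div_one]
    calc 2 * (n : ℝ) * K * b ≤ b * b ^ n * b ^ (2 * n + 1) * b := by
          gcongr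
      _ = b ^ (3 * n + 3) := by ring
  have hMb : M ≤ b ^ (4 * n + 1) := by
    rw [hM]
    calc (n : ℝ) * (n * K) ≤ b ^ n * (b ^ n * b ^ (2 * n + 1)) := by
          gcongr
      _ = b ^ (4 * n + 1) := by ring
  have h3 : (3 : ℝ) ≤ b ^ 2 := by nlinarith
  have hA : 1 + ρ + 2 * M * ρ / (1 / b) ≤ b ^ (10 * n + 11) := by
    rw [div_div_eq_mul_div, div_one]
    have e1 : 2 * M * ρ * b ≤ b ^ (7 * n + 6) := by
      calc 2 * M * ρ * b ≤ b * b ^ (4 * n + 1) * b ^ (3 * n + 3) * b := by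
            gcongr
        _ = b ^ (7 * n + 6) := by ring
    have e2 : b ^ (3 * n + 3) ≤ b ^ (7 * n + 6) := hmono (by omega)
    have e3 : 1 ≤ b ^ (7 * n + 6) := one_le_pow₀ hb1
    calc 1 + ρ + 2 * M * ρ * b ≤ 3 * b ^ (7 * n + 6) := by linarith
      _ ≤ b ^ 2 * b ^ (7 * n + 6) := by gcongr
      _ = b ^ (7 * n + 8) := by ring
      _ ≤ _ := hmono (by omega)
  have hC : 2 / (1 / b) * (M * ρ ^ 2 + n * K + n * K * ρ) ≤ b ^ (10 * n + 11) := by
    rw [div_div_eq_mul_div, div_one]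
    have e1 : M * ρ ^ 2 ≤ b ^ (10 * n + 7) := by
      calc M * ρ ^ 2 ≤ b ^ (4 * n + 1) * (b ^ (3 * n + 3)) ^ 2 := by
            gcongr
        _ = b ^ (10 * n + 7) := by ring
    have e2 : n * K ≤ b ^ (10 * n + 7) := by
      calc n * K ≤ b ^ n * b ^ (2 * n + 1) := by gcongr
        _ = b ^ (3 * n + 1) := by ring
        _ ≤ _ := hmono (by omega)
    have e3 : n * K * ρ ≤ b ^ (10 * n + 7) := by
      calc n * K * ρ ≤ b ^ n * b ^ (2 * n + 1) * b ^ (3 * n + 3) := by gcongr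
        _ = b ^ (6 * n + 4) := by ring
        _ ≤ _ := hmono (by omega)
    calc 2 * b * (M * ρ ^ 2 + n * K + n * K * ρ) ≤ b * b * (3 * b ^ (10 * n + 7)) := by
          have : M * ρ ^ 2 + n * K + n * K * ρ ≤ 3 * b ^ (10 * n + 7) := by linarith
          gcongr
      _ ≤ b * b * (b ^ 2 * b ^ (10 * n + 7)) := by gcongr
      _ = b ^ (10 * n + 11) := by ring
  have hx' : (1 + ρ + 2 * M * ρ / (1 / b)) * H ≤ |(x : ℝ)| :=
    (mul_le_mul_of_nonneg_right hA (by linarith)).trans hx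
  obtain ⟨t, ht2, ht0, htd, hne⟩ := near_ex n hn b (1 / b) K ρ M hb1 (by positivity) hK hρ hM e H hH he hG
    x y hxy hx' hev
  have hbk : b ≤ b ^ (10 * n + 11) := by
    calc b = b ^ 1 := (pow_one b).symm
      _ ≤ _ := hmono (by omega)
  refine ⟨t, ⟨?_, ht2, ht0, ?_⟩, ?_⟩
  · intro i j hij
    exact (he i j hij).trans (mul_le_mul_of_nonneg_right hbk (by positivity))
  · refine le_trans ?_ htd
    rw [div_div]
    apply one_div_le_one_div_of_le (by positivity)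
    calc b * 2 ≤ b * b := by gcongr
      _ = b ^ 2 := by ring
      _ ≤ _ := hmono (by omega)
  · have e1 : (y : ℝ) - t * x - be n e t =
        (y : ℝ) - t * x + aeval t (fm e (n - 1)) / aeval t (derivative (fm e n)) := by
      unfold be
      ring
    rw [e1]
    refine hne.trans ?_
    gcongr

theorem nex (n : ℕ) (hn : 2 ≤ n) : ∃ κ : ℕ, ∀ B : ℕ, 2 ≤ B → ∀ (e : ℕ → ℕ → ℤ) (H : ℝ), 1 ≤ H → Bs n B H e →
    Gd n (1 / (B : ℝ)) e → ∀ x y : ℤ, |y| ≤ |x| → (B : ℝ) ^ κ * H ≤ |(x : ℝ)| → ev n e x y = 0 →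
      ∃ t : ℝ, Ct n ((B : ℝ) ^ κ) H e t ∧ |(y : ℝ) - t * x - be n e t| ≤ (B : ℝ) ^ κ * H ^ 2 / |(x : ℝ)| :=
  ⟨10 * n + 11, nex_ex n hn⟩

end Pool.Agent.H88.TU
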