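import Pool.Agent.H88.TU.Dge

/-! # [H88 TU LWE] Points between `R` and `A H`, explicit constant

PROOF. Copy of the proof of `TS.low` (`TS/Low.lean`), constant `24 C0 (2 A)^j`. -/

namespace Pool.Agent.H88.TU

open Pool.Agent.H8.AA

/-- the shell `max(|x|,|y|) = X` -/
private noncomputable def Sh (X : ℕ) : Finset (ℤ × ℤ) :=
  ({(X : ℤ), -(X : ℤ)} ×ˢ Finset.Icc (-(X : ℤ)) X) ∪ (Finset.Icc (-(X : ℤ)) X ×ˢ {(X : ℤ), -(X : ℤ)})

private theorem card_Sh (X : ℕ) (hX : 1 ≤ X) : (Sh X).card ≤ 12 * X := by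
  have h1 : (({(X : ℤ), -(X : ℤ)} : Finset ℤ)).card ≤ 2 := Finset.card_le_two
  have h2 : (Finset.Icc (-(X : ℤ)) X).card = 2 * X + 1 := by
    rw [Int.card_Icc]
    omega
  have h3 : (Sh X).card ≤ (({(X : ℤ), -(X : ℤ)} : Finset ℤ) ×ˢ Finset.Icc (-(X : ℤ)) X).card +
      (Finset.Icc (-(X : ℤ)) X ×ˢ ({(X : ℤ), -(X : ℤ)} : Finset ℤ)).card := Finset.card_union_le _ _
  rw [Finset.card_product, Finset.card_product, h2] at h3
  have h4 : (({(X : ℤ), -(X : ℤ)} : Finset ℤ)).card * (2 * X + 1) ≤ 2 * (2 * X + 1) :=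
    Nat.mul_le_mul_right _ h1
  have h5 : (2 * X + 1) * (({(X : ℤ), -(X : ℤ)} : Finset ℤ)).card ≤ (2 * X + 1) * 2 :=
    Nat.mul_le_mul_left _ h1
  omega

private theorem mem_Sh (x y : ℤ) : (x, y) ∈ Sh (max x.natAbs y.natAbs) := by
  unfold Sh
  rw [Finset.mem_union, Finset.mem_product, Finset.mem_product]
  simp only [Finset.mem_insert, Finset.mem_singleton, Finset.mem_Icc]
  omega

private theorem Sh_max (X : ℕ) (P : ℤ × ℤ) (hP : P ∈ Sh X) : max |(P.1 : ℝ)| |(P.2 : ℝ)| = X := by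
  have h : max |P.1| |P.2| = (X : ℤ) := by
    unfold Sh at hP
    rw [Finset.mem_union, Finset.mem_product, Finset.mem_product] at hP
    simp only [Finset.mem_insert, Finset.mem_singleton, Finset.mem_Icc] at hP
    rcases hP with ⟨h1, h2⟩ | ⟨h1, h2⟩
    · have h3 : |P.1| = (X : ℤ) := by
        rcases h1 with h1 | h1
        · rw [h1, abs_of_nonneg (by omega)]
        · rw [h1, abs_neg, abs_of_nonneg (by omega)]
      rw [h3]
      exact max_eq_left (abs_le.2 h2)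
    · have h3 : |P.2| = (X : ℤ) := by
        rcases h2 with h2 | h2
        · rw [h2, abs_of_nonneg (by omega)]
        · rw [h2, abs_neg, abs_of_nonneg (by omega)]
      rw [h3]
      exact max_eq_right (abs_le.2 h1)
  have h2 : ((max |P.1| |P.2| : ℤ) : ℝ) = ((X : ℤ) : ℝ) := by rw [h]
  rw [Int.cast_max, Int.cast_abs, Int.cast_abs, Int.cast_natCast] at h2
  exact h2

private theorem cast_max (x y : ℤ) : max |(x : ℝ)| |(y : ℝ)| = ((max x.natAbs y.natAbs : ℕ) : ℝ) :=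
  Sh_max _ (x, y) (mem_Sh x y)

theorem lwx_ex (j : ℕ) (hj : 3 ≤ j) : ∀ A : ℝ, 1 ≤ A → ∀ (H : ℕ), 1 ≤ H → ∀ R : ℝ, 1 ≤ R → ∀ g : ℤ → ℤ → ℤ,
    ∀ T : Finset (Ix j → ℤ), (∀ c ∈ T, (∀ p, |c p| ≤ (H : ℤ)) ∧ ∃ x y : ℤ, R ≤ max |(x : ℝ)| |(y : ℝ)| ∧
      max |(x : ℝ)| |(y : ℝ)| ≤ A * H ∧ g x y + ev j (co c) x y = 0) →
    (T.card : ℝ) ≤ (24 * (4 ^ j * 2 ^ Fintype.card (Ix j)) * 2 ^ j) * A ^ j * (2 * (H : ℝ) + 1) ^ (Fintype.card (Ix j) - 1) / R ^ (j - 2) := by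
  classical
  obtain ⟨C0, hC0d⟩ : ∃ C0 : ℝ, C0 = 4 ^ j * 2 ^ Fintype.card (Ix j) := ⟨_, rfl⟩
  have hC0 : 0 ≤ C0 := by rw [hC0d]; positivity
  have hd := dig_ex j
  rw [← hC0d] at hd ⊢
  have hcard : j + 1 ≤ Fintype.card (Ix j) := by
    have h := Pool.Agent.H15.SC.card_pur j
    have h2 : Fintype.card (Pool.Agent.H8.NoPt.Ix j) = Fintype.card (Ix j) := rfl
    omega
  intro A hA H hH R hR g T hT
  have hHr : (1 : ℝ) ≤ H := by exact_mod_cast hH
  set K : ℝ := 2 * (H : ℝ) + 1 with hK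
  have hKp : 0 < K := by positivity
  set M : ℕ := Fintype.card (Ix j) with hM
  set m : ℕ := ⌈R⌉₊ with hm
  have hm1 : 1 ≤ m := Nat.one_le_ceil_iff.2 (by linarith)
  have hmR : R ≤ (m : ℝ) := Nat.le_ceil R
  set B : ℕ := ⌊A * H⌋₊ with hB
  set S : Finset ℕ := Finset.Ioo (m - 1) (B + 1) with hS
  have hSX : ∀ X ∈ S, R ≤ (X : ℝ) ∧ (X : ℝ) ≤ A * H ∧ 1 ≤ X := by
    intro X hX
    rw [hS, Finset.mem_Ioo] at hX
    have h1 : m ≤ X := by omega
    have h2 : X ≤ B := by omega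
    refine ⟨hmR.trans (by exact_mod_cast h1), ?_, by omega⟩
    have h3 : (B : ℝ) ≤ A * H := Nat.floor_le (by positivity)
    exact le_trans (by exact_mod_cast h2) h3
  have hsub : T ⊆ S.biUnion fun X => (Sh X).biUnion fun P =>
      T.filter fun c => g P.1 P.2 + ev j (co c) P.1 P.2 = 0 := by
    intro c hc
    obtain ⟨_, x, y, h1, h2, h3⟩ := hT c hc
    rw [cast_max] at h1 h2
    rw [Finset.mem_biUnion]
    refine ⟨max x.natAbs y.natAbs, ?_, ?_⟩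
    · rw [hS, Finset.mem_Ioo]
      have h4 : m ≤ max x.natAbs y.natAbs := Nat.ceil_le.2 h1
      have h5 : max x.natAbs y.natAbs ≤ B := Nat.le_floor h2
      omega
    · rw [Finset.mem_biUnion]
      exact ⟨(x, y), mem_Sh x y, Finset.mem_filter.2 ⟨hc, h3⟩⟩
  have hpt : ∀ X ∈ S, ∀ P ∈ Sh X,
      ((T.filter fun c => g P.1 P.2 + ev j (co c) P.1 P.2 = 0).card : ℝ) ≤
        C0 * (2 * A) ^ j * K ^ (M - 1) / (X : ℝ) ^ j := by
    intro X hX P hP
    obtain ⟨h1, h2, h3⟩ := hSX X hX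
    have hXp : (0 : ℝ) < X := by exact_mod_cast h3
    have hmax := Sh_max X P hP
    have hne : P.1 ≠ 0 ∨ P.2 ≠ 0 := by
      by_contra hcon
      rw [not_or, not_not, not_not] at hcon
      rw [hcon.1, hcon.2, Int.cast_zero, abs_zero, max_self] at hmax
      linarith
    have h4 := hd H hH P.1 P.2 (-(g P.1 P.2)) hne
      (T.filter fun c => g P.1 P.2 + ev j (co c) P.1 P.2 = 0) (by
        intro c hc
        rw [Finset.mem_filter] at hc
        exact ⟨(hT c hc.1).1, by linarith [hc.2]⟩)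
    rw [hmax] at h4
    refine h4.trans ?_
    have h5 : (H : ℝ) / X + 1 ≤ 2 * A * K / X := by
      rw [div_add_one hXp.ne', div_le_div_iff_of_pos_right hXp]
      have : A * H ≤ A * K := mul_le_mul_of_nonneg_left (by rw [hK]; linarith) (by linarith)
      have h6 : (H : ℝ) ≤ A * K := by
        calc (H : ℝ) ≤ 1 * K := by rw [hK]; linarith
          _ ≤ A * K := mul_le_mul_of_nonneg_right hA hKp.le
      linarith
    have h6 : ((H : ℝ) / X + 1) ^ j ≤ (2 * A) ^ j * K ^ j / (X : ℝ) ^ j := by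
      calc ((H : ℝ) / X + 1) ^ j ≤ (2 * A * K / X) ^ j := pow_le_pow_left₀ (by positivity) h5 j
        _ = (2 * A) ^ j * K ^ j / (X : ℝ) ^ j := by rw [div_pow, mul_pow]
    have h7 : K ^ (M - 1) = K ^ j * K ^ (M - (j + 1)) := by
      rw [← pow_add]
      congr 1
      omega
    calc C0 * ((H : ℝ) / X + 1) ^ j * K ^ (M - (j + 1))
        ≤ C0 * ((2 * A) ^ j * K ^ j / (X : ℝ) ^ j) * K ^ (M - (j + 1)) :=
          mul_le_mul_of_nonneg_right (mul_le_mul_of_nonneg_left h6 hC0) (by positivity)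
      _ = C0 * (2 * A) ^ j * K ^ (M - 1) / (X : ℝ) ^ j := by
          rw [h7]
          ring
  have h1 : (T.card : ℝ) ≤ ∑ X ∈ S, ∑ P ∈ Sh X,
      ((T.filter fun c => g P.1 P.2 + ev j (co c) P.1 P.2 = 0).card : ℝ) := by
    have h2 : T.card ≤ ∑ X ∈ S, ∑ P ∈ Sh X,
        (T.filter fun c => g P.1 P.2 + ev j (co c) P.1 P.2 = 0).card :=
      (Finset.card_le_card hsub).trans (Finset.card_biUnion_le.trans
        (Finset.sum_le_sum fun X _ => Finset.card_biUnion_le))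
    exact_mod_cast h2
  have hin : ∀ X ∈ S, ∑ P ∈ Sh X,
      ((T.filter fun c => g P.1 P.2 + ev j (co c) P.1 P.2 = 0).card : ℝ) ≤
        12 * C0 * (2 * A) ^ j * K ^ (M - 1) / R ^ (j - 3) * ((X : ℝ) ^ 2)⁻¹ := by
    intro X hX
    obtain ⟨h1, h2, h3⟩ := hSX X hX
    have hXp : (0 : ℝ) < X := by exact_mod_cast h3
    have hRp : (0 : ℝ) < R := by linarith
    have h4 := Finset.sum_le_sum (hpt X hX)
    rw [Finset.sum_const, nsmul_eq_mul] at h4
    refine h4.trans ?_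
    have h5 : ((Sh X).card : ℝ) ≤ 12 * X := by exact_mod_cast card_Sh X h3
    have h6 : (X : ℝ) ^ j = X * X ^ 2 * X ^ (j - 3) := by
      rw [← pow_succ', ← pow_add]
      congr 1
      omega
    have h7 : R ^ (j - 3) ≤ (X : ℝ) ^ (j - 3) := pow_le_pow_left₀ hRp.le h1 _
    have hD : 0 ≤ C0 * (2 * A) ^ j * K ^ (M - 1) := by positivity
    calc ((Sh X).card : ℝ) * (C0 * (2 * A) ^ j * K ^ (M - 1) / (X : ℝ) ^ j)
        ≤ 12 * X * (C0 * (2 * A) ^ j * K ^ (M - 1) / (X : ℝ) ^ j) :=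
          mul_le_mul_of_nonneg_right h5 (by positivity)
      _ = 12 * (C0 * (2 * A) ^ j * K ^ (M - 1)) / (X : ℝ) ^ (j - 3) * ((X : ℝ) ^ 2)⁻¹ := by
          rw [h6]
          field_simp
      _ ≤ 12 * (C0 * (2 * A) ^ j * K ^ (M - 1)) / R ^ (j - 3) * ((X : ℝ) ^ 2)⁻¹ := by
          refine mul_le_mul_of_nonneg_right ?_ (by positivity)
          exact div_le_div_of_nonneg_left (by positivity) (by positivity) h7
      _ = 12 * C0 * (2 * A) ^ j * K ^ (M - 1) / R ^ (j - 3) * ((X : ℝ) ^ 2)⁻¹ := by ring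
  have h2 : ∑ X ∈ S, ((X : ℝ) ^ 2)⁻¹ ≤ 2 / R := by
    have h3 : ∑ X ∈ S, ((X : ℝ) ^ 2)⁻¹ ≤ 2 / (((m - 1 : ℕ) : ℝ) + 1) :=
      sum_Ioo_inv_sq_le (m - 1) (B + 1)
    have h4 : ((m - 1 : ℕ) : ℝ) + 1 = m := by
      rw [Nat.cast_sub hm1]
      push_cast
      ring
    rw [h4] at h3
    exact h3.trans (div_le_div_of_nonneg_left (by norm_num) (by linarith) hmR)
  have hRp : (0 : ℝ) < R := by linarith
  calc (T.card : ℝ) ≤ ∑ X ∈ S, 12 * C0 * (2 * A) ^ j * K ^ (M - 1) / R ^ (j - 3) * ((X : ℝ) ^ 2)⁻¹ :=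
        h1.trans (Finset.sum_le_sum hin)
    _ = 12 * C0 * (2 * A) ^ j * K ^ (M - 1) / R ^ (j - 3) * ∑ X ∈ S, ((X : ℝ) ^ 2)⁻¹ := by
        rw [Finset.mul_sum]
    _ ≤ 12 * C0 * (2 * A) ^ j * K ^ (M - 1) / R ^ (j - 3) * (2 / R) :=
        mul_le_mul_of_nonneg_left h2 (by positivity)
    _ = 24 * C0 * 2 ^ j * A ^ j * K ^ (M - 1) / R ^ (j - 2) := by
        have h6 : R ^ (j - 2) = R ^ (j - 3) * R := by
          rw [← pow_succ]
          congr 1
          omega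
        rw [h6, ← div_div, mul_pow]
        ring

end Pool.Agent.H88.TU
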