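import Pool.Agent.H88.TU.Exx
import Pool.Agent.H12.TU.Asm4

/-! # [H88 TU WCO] One constant `W(G)` (helper88): finite for every `G`, at most `B^(n^16)` under the hypotheses of TSU -/

namespace Pool.Agent.H88.TU

open MvPolynomial
open Pool.Agent.H15.SC (kaps)

/-- the three counts with the constant `W` -/
def Cou (n j : ℕ) (G : MvPolynomial (Fin 2) ℤ) (W : ℝ) : Prop := ∀ H : ℕ, 1 ≤ H →
    |((Set.ncard {L : MvPolynomial (Fin 2) ℤ | L.totalDegree ≤ j ∧ (∀ m, |L.coeff m| ≤ (H : ℤ)) ∧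
        ∃ P : Fin 2 → ℤ, eval P (G + L) = 0} : ℕ) : ℝ) -
      kaps j * (2 * (H : ℝ) + 1) ^ ((j + 1) * (j + 2) / 2 - 1)| ≤
      W * (H : ℝ) ^ (-(1 / (2 * (n : ℝ) + 4))) * (2 * (H : ℝ) + 1) ^ ((j + 1) * (j + 2) / 2 - 1) ∧
    ((Set.ncard {L : MvPolynomial (Fin 2) ℤ | L.totalDegree ≤ j ∧ (∀ m, |L.coeff m| ≤ (H : ℤ)) ∧
        ∃ P Q : Fin 2 → ℤ, P ≠ Q ∧ eval P (G + L) = 0 ∧ eval Q (G + L) = 0} : ℕ) : ℝ) ≤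
      W * (H : ℝ) ^ (-(1 / (2 * (n : ℝ) + 4))) * (2 * (H : ℝ) + 1) ^ ((j + 1) * (j + 2) / 2 - 1) ∧
    ∀ T : ℕ, 1 ≤ T →
      ((Set.ncard {L : MvPolynomial (Fin 2) ℤ | L.totalDegree ≤ j ∧ (∀ m, |L.coeff m| ≤ (H : ℤ)) ∧
          ∃ P : Fin 2 → ℤ, (T : ℤ) < max |P 0| |P 1| ∧ eval P (G + L) = 0} : ℕ) : ℝ) ≤
        W * (1 / (T : ℝ) ^ (j - 2) + (H : ℝ) ^ (-(1 / (2 * (n : ℝ) + 4)))) *
          (2 * (H : ℝ) + 1) ^ ((j + 1) * (j + 2) / 2 - 1)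

theorem wco (n j : ℕ) (G : MvPolynomial (Fin 2) ℤ) (hn : 4 ≤ n) (hj : 3 ≤ j) (hjn : j < n) (hG : G.totalDegree ≤ n)
    (hirr : Irreducible (map (Int.castRingHom ℚ) (homogeneousComponent n G))) :
    ∃ W : ℝ, (5 ≤ n → (j + 3 ≤ n → Pool.Agent.H88.TS.Flx n G) → ∀ B : ℕ, 2 ≤ B → (∀ m, |G.coeff m| < (B : ℤ)) →
      W ≤ (B : ℝ) ^ (n ^ 16)) ∧ Cou n j G W := by
  classical
  by_cases h : 5 ≤ n ∧ (j + 3 ≤ n → Pool.Agent.H88.TS.Flx n G)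
  · obtain ⟨B0, hB0, hGB0⟩ := Pool.Agent.H88.TS.exists_bound G
    have hex : ∃ B : ℕ, 2 ≤ B ∧ ∀ m, |G.coeff m| < (B : ℤ) := ⟨B0, hB0, fun m => by have := hGB0 m; omega⟩
    obtain ⟨κ₀, h1, h2⟩ := mixS_all n j h.1 hj hjn
    refine ⟨((Nat.find hex : ℕ) : ℝ) ^ (n ^ 16), ?_, ?_⟩
    · intro _ _ B hB hGB
      have h3 : Nat.find hex ≤ B := Nat.find_min' hex ⟨hB, hGB⟩
      refine pow_le_pow_left₀ (Nat.cast_nonneg _) (by exact_mod_cast h3) _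
    · exact main_ex n j κ₀ (n ^ 16) hj hjn h1 h2 (Nat.find hex) (Nat.find_spec hex).1 G
        ⟨h.1, hj, hjn, hG, hirr, h.2⟩ (fun m => (Nat.find_spec hex).2 m)
  · obtain ⟨C, hC⟩ := Pool.Agent.H12.TU.main4 n j G ⟨hn, hj, hjn, hG, hirr⟩
    exact ⟨C, fun h5 hf => absurd ⟨h5, hf⟩ h, hC⟩

end Pool.Agent.H88.TU
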