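import Pool.Agent.H88.TU.Cub
import Pool.Agent.H88.TU.Sta

/-! # [H88 TU GAM] Small curvature at infinity is rare

PROOF. `gm n (ad e c) t = A + φ_n'(t)² ∑_b c_(n-2-b,b) t^b`, `A` independent of the coordinates in `J = {p | p.1 + p.2 = n - 2}` (`|J| = n - 1`, `j ≥ n - 2`), and `fm (ad e c) n = fm e n`
(`j < n`). `fib` over `J`: in a fibre the vectors `u = (c_(n-2-b,b))_b` of the `c` with the same `t` satisfy `|∑ u_b t^b - A'| ≤ |gm|/φ_n'(t)² ≤ B^(2κ₅) |gm| =: η` (`φ_n'(t) ≠ 0` as `fm e n` is irreducible over `ℚ`, so separable; `lio n n` for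
`f = fm e n`, `p = derivative f`, `h = n B`: `1 ≤ B^κ₅ |φ_n'(t)|`): `cub n (n-2)`: `≤ B^κ₀ (H/h)^(n-2)`; at most `n`
values of `t` (roots of `fm e n ≠ 0`). Total `n B^κ₀ (H/h)^(n-2) (2H+1)^(card - (n-1))`. -/

namespace Pool.Agent.H88.TU

open Finset Polynomial Pool.Agent.H8.AA Pool.Agent.H88.A2

private theorem der_ne (f : ℤ[X])
    (hirr : Irreducible (f.map (Int.castRingHom ℚ))) (t : ℝ) (ht : aeval t f = 0) :
    aeval t (derivative f) ≠ 0 := by
  intro h0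
  have hsep := hirr.separable
  obtain ⟨a, b, hab⟩ := hsep
  have h1 : aeval t (f.map (Int.castRingHom ℚ)) = aeval t f := by
    have := Polynomial.aeval_map_algebraMap (R := ℤ) (A := ℚ) (B := ℝ) t f
    rwa [algebraMap_int_eq] at this
  have h2 : aeval t ((derivative f).map (Int.castRingHom ℚ)) = aeval t (derivative f) := by
    have := Polynomial.aeval_map_algebraMap (R := ℤ) (A := ℚ) (B := ℝ) t (derivative f)
    rwa [algebraMap_int_eq] at this
  have h3 := congrArg (aeval t) hab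
  rw [map_add, map_mul, map_mul, derivative_map, h1, h2, ht, h0, mul_zero, mul_zero, add_zero, map_one] at h3
  exact zero_ne_one h3

private theorem nat_le_pow (m B : ℕ) (hB : 2 ≤ B) : (m : ℝ) ≤ (B : ℝ) ^ m := by
  have h1 : m < 2 ^ m := Nat.lt_two_pow_self
  have h2 : 2 ^ m ≤ B ^ m := Nat.pow_le_pow_left hB m
  exact_mod_cast h1.le.trans h2

private theorem der_low (n κ : ℕ) (hn : 1 ≤ n) (hκ : LioS n n κ) : ∀ B : ℕ, 2 ≤ B → ∀ f : ℤ[X], f.natDegree = n →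
    (∀ i, |f.coeff i| ≤ (B : ℤ)) → Irreducible (f.map (Int.castRingHom ℚ)) → ∀ t : ℝ, aeval t f = 0 →
    1 ≤ (B : ℝ) ^ (κ + (n + 1) * (n - 1)) * |aeval t (derivative f)| := by
  intro B hB f hf hc hirr t ht
  have hB1 : (1 : ℝ) ≤ (B : ℝ) := by exact_mod_cast (by omega : 1 ≤ B)
  have hB0 : (0 : ℝ) ≤ (B : ℝ) := zero_le_one.trans hB1
  have hn1 : (1 : ℝ) ≤ (n : ℝ) := by exact_mod_cast hn
  have h := hκ B hB f hf hc hirr t ht ((n : ℝ) * B) (by nlinarith) (derivative f)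
    ((natDegree_derivative_le f).trans (by omega)) (by
      intro i
      rw [coeff_derivative]
      push_cast
      rw [abs_mul]
      rcases le_or_gt (i + 1) n with hi | hi
      · have h1 : |(f.coeff (i + 1) : ℝ)| ≤ (B : ℝ) := by exact_mod_cast hc (i + 1)
        have h2 : |(i : ℝ) + 1| ≤ (n : ℝ) := by
          rw [abs_of_nonneg (by positivity)]
          exact_mod_cast hi
        calc |(f.coeff (i + 1) : ℝ)| * |(i : ℝ) + 1| ≤ (B : ℝ) * n :=
              mul_le_mul h1 h2 (abs_nonneg _) hB0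
          _ = (n : ℝ) * B := mul_comm _ _
      · have h1 : f.coeff (i + 1) = 0 := coeff_eq_zero_of_natDegree_lt (by omega)
        rw [h1]
        simp only [Int.cast_zero, abs_zero, zero_mul]
        positivity) (der_ne f hirr t ht)
  refine h.trans ?_
  have h1 : ((n : ℝ) * B) ^ (n - 1) ≤ (B : ℝ) ^ ((n + 1) * (n - 1)) := by
    rw [pow_mul]
    refine pow_le_pow_left₀ (by positivity) ?_ _
    rw [pow_succ]
    exact mul_le_mul_of_nonneg_right (nat_le_pow n B hB) hB0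
  rw [pow_add]
  exact mul_le_mul_of_nonneg_right (mul_le_mul_of_nonneg_left h1 (by positivity)) (abs_nonneg _)

private theorem fm_top {j n : ℕ} (hj : j < n) (e : ℕ → ℕ → ℤ) (c : Ix j → ℤ) : fm (ad e c) n = fm e n := by
  ext i
  rw [fm_coeff, fm_coeff]
  split_ifs with h
  · unfold ad co
    rw [dif_neg (by omega), add_zero]
  · rfl

/-- the index in `J` -/
private def jx (j k : ℕ) (hk : k ≤ j) (b : Fin (k + 1)) : Ix j :=
  ix (k - b.val) b.val (by omega)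

private theorem jx_inj (j k : ℕ) (hk : k ≤ j) : Function.Injective (jx j k hk) := by
  intro a b hab
  have h1 : (jx j k hk a).1.2.val = (jx j k hk b).1.2.val := by rw [hab]
  exact Fin.ext h1

private theorem fm_mid {j k : ℕ} (hk : k ≤ j) (e : ℕ → ℕ → ℤ) (c c' : Ix j → ℤ)
    (h : ∀ i, i ∉ univ.image (jx j k hk) → c' i = c i) : fm (ad e c') (k + 1) = fm (ad e c) (k + 1) := by
  ext i
  rw [fm_coeff, fm_coeff]
  split_ifs with hi
  · unfold ad
    congr 1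
    unfold co
    split_ifs with h1
    · apply h
      intro hmem
      rw [mem_image] at hmem
      obtain ⟨b, _, hb⟩ := hmem
      have h2 : (jx j k hk b).1.1.val + (jx j k hk b).1.2.val =
          (ix (n := j) (k + 1 - i) i h1).1.1.val + (ix (n := j) (k + 1 - i) i h1).1.2.val := by rw [hb]
      have h3 : (jx j k hk b).1.1.val + (jx j k hk b).1.2.val = k - b.val + b.val := rfl
      have h4 : (ix (n := j) (k + 1 - i) i h1).1.1.val + (ix (n := j) (k + 1 - i) i h1).1.2.val =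
        k + 1 - i + i := rfl
      rw [h3, h4] at h2
      have := b.isLt
      omega
    · rfl
  · rfl

private theorem fm_low {j k : ℕ} (hk : k ≤ j) (e : ℕ → ℕ → ℤ) (c : Ix j → ℤ) (t : ℝ) :
    aeval t (fm (ad e c) k) = aeval t (fm e k) + ∑ b : Fin (k + 1), (c (jx j k hk b) : ℝ) * t ^ (b : ℕ) := by
  rw [fm_aeval, fm_aeval, Finset.sum_range, Finset.sum_range, ← Finset.sum_add_distrib]
  refine Finset.sum_congr rfl fun b _ => ?_
  unfold ad
  rw [co_of_le c (by omega : k - b.val + b.val ≤ j)]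
  push_cast
  rw [add_mul]
  rfl

private theorem ar1 {g b h d : ℝ} {κ5 κc k : ℕ} (hg : 0 ≤ g) (hb : 1 ≤ b) (hh : 0 < h)
    (hD1 : 1 ≤ b ^ κ5 * d) (hs : g * (b ^ (2 * κ5 + κc + (k + 2)) * h ^ (k + 1)) ≤ 1) :
    g * (b ^ κc * h ^ (k + 1)) ≤ d ^ 2 := by
  have hbp : 0 < b := zero_lt_one.trans_le hb
  have h2 : 1 ≤ b ^ (2 * κ5) * d ^ 2 := by
    have h0 : b ^ (2 * κ5) * d ^ 2 = (b ^ κ5 * d) ^ 2 := by
      rw [mul_pow, ← pow_mul, mul_comm κ5 2]
    rw [h0]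
    exact one_le_pow₀ hD1
  have h3 : (1 : ℝ) ≤ b ^ (k + 2) := one_le_pow₀ hb
  have h4 : g * (b ^ κc * h ^ (k + 1)) * b ^ (2 * κ5) ≤ 1 := by
    calc g * (b ^ κc * h ^ (k + 1)) * b ^ (2 * κ5)
        ≤ g * (b ^ κc * h ^ (k + 1)) * b ^ (2 * κ5) * b ^ (k + 2) :=
          le_mul_of_one_le_right (by positivity) h3
      _ = g * (b ^ (2 * κ5 + κc + (k + 2)) * h ^ (k + 1)) := by
          rw [pow_add, pow_add]
          ring
      _ ≤ 1 := hs
  calc g * (b ^ κc * h ^ (k + 1))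
      ≤ g * (b ^ κc * h ^ (k + 1)) * (b ^ (2 * κ5) * d ^ 2) :=
        le_mul_of_one_le_right (by positivity) h2
    _ = g * (b ^ κc * h ^ (k + 1)) * b ^ (2 * κ5) * d ^ 2 := by ring
    _ ≤ 1 * d ^ 2 := mul_le_mul_of_nonneg_right h4 (by positivity)
    _ = d ^ 2 := one_mul _

theorem gam_ex (n j κ₁ κc : ℕ) (hn : 5 ≤ n) (hj : j < n) (hj2 : n ≤ j + 2) (h₁ : LioS n n κ₁) (h₂ : CubS n (n - 2) κc) :
    GamS n j (2 * (κ₁ + (n + 1) * (n - 1)) + κc + n) := by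
  classical
  obtain ⟨k, rfl⟩ : ∃ k, n = k + 2 := ⟨n - 2, by omega⟩
  have hk : k ≤ j := by omega
  have h5' := der_low (k + 2) κ₁ (by omega) h₁
  obtain ⟨κ5, hκ5⟩ : ∃ κ5 : ℕ, κ5 = κ₁ + (k + 2 + 1) * (k + 2 - 1) := ⟨_, rfl⟩
  rw [← hκ5] at h5'
  have h5 := h5'
  have hc : CubS (k + 2) k κc := h₂
  rw [← hκ5]
  intro B hB e he H h hH1 hh1 hhH T hT
  have e1 : k + 2 - 1 = k + 1 := rfl
  have e2 : k + 2 - 2 = k := rfl
  rw [e2]
  rw [e1] at hT
  have hB1 : (1 : ℝ) ≤ (B : ℝ) := by exact_mod_cast (by omega : 1 ≤ B)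
  have hBp : (0 : ℝ) < (B : ℝ) := zero_lt_one.trans_le hB1
  have hhp : (0 : ℝ) < h := zero_lt_one.trans_le hh1
  have hHp : (0 : ℝ) ≤ (H : ℝ) := Nat.cast_nonneg H
  have hcoef : ∀ i, |(fm e (k + 2)).coeff i| ≤ (B : ℤ) := by
    intro i
    rw [fm_coeff]
    split_ifs with hi
    · have := he.bd (k + 2 - i) i (by omega)
      omega
    · simp
  have hX0 : 0 ≤ (B : ℝ) ^ κc * ((H : ℝ) / h) ^ k := by positivity
  -- one fibre, one root
  have key : ∀ c : Ix j → ℤ, ∀ t : ℝ, ∀ T' : Finset (Ix j → ℤ),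
      (∀ c' ∈ T', (∀ p, |c' p| ≤ (H : ℤ)) ∧ (∀ i, i ∉ univ.image (jx j k hk) → c' i = c i) ∧
        |t| ≤ 2 ∧ aeval t (fm e (k + 2)) = 0 ∧
        |gm (k + 2) (ad e c') t| * ((B : ℝ) ^ (2 * κ5 + κc + (k + 2)) * h ^ (k + 1)) ≤ 1) →
      (T'.card : ℝ) ≤ (B : ℝ) ^ κc * ((H : ℝ) / h) ^ k := by
    intro c t T' hT'
    rcases T'.eq_empty_or_nonempty with rfl | ⟨c0, hc0⟩
    · rw [Finset.card_empty, Nat.cast_zero]
      exact hX0
    obtain ⟨_, _, ht2, ht0, _⟩ := hT' c0 hc0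
    have hD1 := h5 B hB (fm e (k + 2)) he.deg hcoef he.irr t ht0
    set D : ℝ := aeval t (derivative (fm e (k + 2))) with hDdef
    have hD0 : 0 < |D| := by
      rcases (abs_nonneg D).eq_or_lt with h0 | h0
      · rw [← h0, mul_zero] at hD1
        exact absurd hD1 (by norm_num)
      · exact h0
    have hDne : D ≠ 0 := abs_pos.mp hD0
    set G0 : ℝ := aeval t (derivative (derivative (fm e (k + 2)))) / 2 * aeval t (fm (ad e c) (k + 1)) ^ 2 -
      aeval t (derivative (fm (ad e c) (k + 1))) * aeval t (fm (ad e c) (k + 1)) * D +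
      aeval t (fm e k) * D ^ 2 with hG0
    have hgm : ∀ c' ∈ T', gm (k + 2) (ad e c') t =
        G0 + (∑ b : Fin (k + 1), (c' (jx j k hk b) : ℝ) * t ^ (b : ℕ)) * D ^ 2 := by
      intro c' hc'
      obtain ⟨_, hcc, _⟩ := hT' c' hc'
      unfold gm
      have e3 : k + 2 - 1 = k + 1 := rfl
      have e4 : k + 2 - 2 = k := rfl
      rw [e3, e4, fm_top hj e c', fm_mid hk e c c' hcc, fm_low hk e c' t, hG0, hDdef]
      ring
    have hη : ∀ c' ∈ T', |∑ b : Fin (k + 1), (c' (jx j k hk b) : ℝ) * t ^ (b : ℕ) - (-(G0 / D ^ 2))| ≤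
        1 / ((B : ℝ) ^ κc * h ^ (k + 1)) := by
      intro c' hc'
      have h1 : ∑ b : Fin (k + 1), (c' (jx j k hk b) : ℝ) * t ^ (b : ℕ) - (-(G0 / D ^ 2)) =
          gm (k + 2) (ad e c') t / D ^ 2 := by
        rw [hgm c' hc']
        field_simp
        ring
      obtain ⟨_, _, _, _, hsm⟩ := hT' c' hc'
      rw [h1, abs_div, abs_pow, div_le_div_iff₀ (by positivity) (by positivity), one_mul]
      exact ar1 (abs_nonneg _) hB1 hhp hD1 hsm
    have hinj : Set.InjOn (fun (c' : Ix j → ℤ) (b : Fin (k + 1)) => c' (jx j k hk b)) (T' : Set (Ix j → ℤ)) := by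
      intro a ha b hb hab
      obtain ⟨_, ha1, _⟩ := hT' a ha
      obtain ⟨_, hb1, _⟩ := hT' b hb
      funext i
      by_cases hi : i ∈ univ.image (jx j k hk)
      · rw [mem_image] at hi
        obtain ⟨q, _, rfl⟩ := hi
        exact congrFun hab q
      · rw [ha1 i hi, hb1 i hi]
    rw [← Finset.card_image_of_injOn hinj]
    refine hc B hB (fm e (k + 2)) he.deg hcoef he.irr t ht0 ht2 H h (1 / ((B : ℝ) ^ κc * h ^ (k + 1)))
      (-(G0 / D ^ 2)) hh1 hhH ?_ _ ?_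
    · rw [e1, one_div, inv_mul_cancel₀ (by positivity)]
    · intro u hu
      rw [mem_image] at hu
      obtain ⟨c', hc', rfl⟩ := hu
      refine ⟨fun i => ?_, hη c' hc'⟩
      have := (hT' c' hc').1 (jx j k hk i)
      exact_mod_cast this
  -- the roots
  have hf0 : fm e (k + 2) ≠ 0 := by
    intro h0
    have h1 := he.deg
    rw [h0, natDegree_zero] at h1
    omega
  set Z : Finset ℝ := ((fm e (k + 2)).map (Int.castRingHom ℝ)).roots.toFinset with hZ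
  have hZc : Z.card ≤ k + 2 := by
    refine (Multiset.toFinset_card_le _).trans ?_
    refine (Polynomial.card_roots' _).trans ?_
    refine Polynomial.natDegree_map_le.trans ?_
    exact he.deg.le
  have hZm : ∀ t : ℝ, aeval t (fm e (k + 2)) = 0 → t ∈ Z := by
    intro t ht
    rw [hZ, Multiset.mem_toFinset, Polynomial.mem_roots]
    · rw [Polynomial.IsRoot.def, Polynomial.eval_map]
      rw [Polynomial.aeval_def, algebraMap_int_eq] at ht
      exact ht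
    · rw [Ne, Polynomial.map_eq_zero_iff]
      · exact hf0
      · exact Int.cast_injective
  set X : ℝ := ((k : ℝ) + 2) * ((B : ℝ) ^ κc * ((H : ℝ) / h) ^ k) with hX
  have hXn : 0 ≤ X := by positivity
  have hfib : T.card ≤ ⌊X⌋₊ * (2 * H + 1) ^ (Fintype.card (Ix j) - (univ.image (jx j k hk)).card) := by
    refine fib (univ.image (jx j k hk)) H ⌊X⌋₊ T (fun c hc => (hT c hc).1) ?_
    intro c hcT T' hT'
    apply Nat.le_floor
    have hsub : T' ⊆ Z.biUnion fun t => T'.filter fun c' => |t| ≤ 2 ∧ aeval t (fm e (k + 2)) = 0 ∧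
        |gm (k + 2) (ad e c') t| * ((B : ℝ) ^ (2 * κ5 + κc + (k + 2)) * h ^ (k + 1)) ≤ 1 := by
      intro c' hc'
      obtain ⟨_, t, ht2, ht0, hg⟩ := hT c' (hT' c' hc').1
      rw [mem_biUnion]
      exact ⟨t, hZm t ht0, mem_filter.2 ⟨hc', ht2, ht0, hg⟩⟩
    have h1 : (T'.card : ℝ) ≤ ∑ t ∈ Z, (((T'.filter fun c' => |t| ≤ 2 ∧ aeval t (fm e (k + 2)) = 0 ∧
        |gm (k + 2) (ad e c') t| * ((B : ℝ) ^ (2 * κ5 + κc + (k + 2)) * h ^ (k + 1)) ≤ 1).card : ℕ) : ℝ) := by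
      exact_mod_cast (Finset.card_le_card hsub).trans Finset.card_biUnion_le
    refine h1.trans ?_
    refine (Finset.sum_le_card_nsmul Z _ ((B : ℝ) ^ κc * ((H : ℝ) / h) ^ k) ?_).trans ?_
    · intro t _
      apply key c t
      intro c' hc'
      rw [mem_filter] at hc'
      exact ⟨(hT c' (hT' c' hc'.1).1).1, (hT' c' hc'.1).2, hc'.2.1, hc'.2.2.1, hc'.2.2.2⟩
    · rw [nsmul_eq_mul, hX]
      refine mul_le_mul_of_nonneg_right ?_ hX0
      exact_mod_cast hZc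
  have hJ : (univ.image (jx j k hk)).card = k + 1 := by
    rw [Finset.card_image_of_injective _ (jx_inj j k hk), Finset.card_univ, Fintype.card_fin]
  have hJle : k + 1 ≤ Fintype.card (Ix j) := by
    rw [← hJ]
    exact Finset.card_le_univ _
  rw [hJ] at hfib
  have h1 : (T.card : ℝ) ≤ X * (2 * (H : ℝ) + 1) ^ (Fintype.card (Ix j) - (k + 1)) := by
    have h2 : (T.card : ℝ) ≤ (⌊X⌋₊ : ℝ) * (2 * (H : ℝ) + 1) ^ (Fintype.card (Ix j) - (k + 1)) := by
      exact_mod_cast hfib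
    exact h2.trans (mul_le_mul_of_nonneg_right (Nat.floor_le hXn) (by positivity))
  refine h1.trans ?_
  rw [le_div_iff₀ (by positivity)]
  have h3 : X * h ^ k = ((k : ℝ) + 2) * (B : ℝ) ^ κc * (H : ℝ) ^ k := by
    rw [hX, div_pow]
    field_simp
  have h4 : (2 * (H : ℝ) + 1) ^ (Fintype.card (Ix j) - 1) =
      (2 * (H : ℝ) + 1) ^ (Fintype.card (Ix j) - (k + 1)) * (2 * (H : ℝ) + 1) ^ k := by
    rw [← pow_add]
    congr 1
    omega
  have h5' : (H : ℝ) ^ k ≤ (2 * (H : ℝ) + 1) ^ k := pow_le_pow_left₀ hHp (by linarith) _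
  have h6 : ((k : ℝ) + 2) ≤ (B : ℝ) ^ (k + 2) := by
    have := nat_le_pow (k + 2) B hB
    push_cast at this
    exact this
  have h7 : (1 : ℝ) ≤ (B : ℝ) ^ (2 * κ5) := one_le_pow₀ hB1
  calc X * (2 * (H : ℝ) + 1) ^ (Fintype.card (Ix j) - (k + 1)) * h ^ k
      = (X * h ^ k) * (2 * (H : ℝ) + 1) ^ (Fintype.card (Ix j) - (k + 1)) := by ring
    _ = (((k : ℝ) + 2) * (B : ℝ) ^ κc) * (H : ℝ) ^ k * (2 * (H : ℝ) + 1) ^ (Fintype.card (Ix j) - (k + 1)) := by
        rw [h3]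
    _ ≤ ((B : ℝ) ^ (k + 2) * (B : ℝ) ^ κc) * (2 * (H : ℝ) + 1) ^ k *
        (2 * (H : ℝ) + 1) ^ (Fintype.card (Ix j) - (k + 1)) := by
        refine mul_le_mul_of_nonneg_right ?_ (by positivity)
        refine mul_le_mul ?_ h5' (by positivity) (by positivity)
        exact mul_le_mul_of_nonneg_right h6 (by positivity)
    _ ≤ (B : ℝ) ^ (2 * κ5) * (((B : ℝ) ^ (k + 2) * (B : ℝ) ^ κc) * (2 * (H : ℝ) + 1) ^ k *
        (2 * (H : ℝ) + 1) ^ (Fintype.card (Ix j) - (k + 1))) :=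
        le_mul_of_one_le_left (by positivity) h7
    _ = (B : ℝ) ^ (2 * κ5 + κc + (k + 2)) * (2 * (H : ℝ) + 1) ^ (Fintype.card (Ix j) - 1) := by
        rw [h4, pow_add, pow_add]
        ring

theorem gam (n j : ℕ) (hn : 5 ≤ n) (hj : j < n) (hj2 : n ≤ j + 2) : ∃ κ : ℕ, ∀ B : ℕ, 2 ≤ B → ∀ e : ℕ → ℕ → ℤ, Bas n B e →
    ∀ (H : ℕ) (h : ℝ), 1 ≤ H → 1 ≤ h → h ≤ H → ∀ T : Finset (Ix j → ℤ),
    (∀ c ∈ T, (∀ p, |c p| ≤ (H : ℤ)) ∧ ∃ t : ℝ, |t| ≤ 2 ∧ aeval t (fm e n) = 0 ∧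
      |gm n (ad e c) t| * ((B : ℝ) ^ κ * h ^ (n - 1)) ≤ 1) →
    (T.card : ℝ) ≤ (B : ℝ) ^ κ * (2 * (H : ℝ) + 1) ^ (Fintype.card (Ix j) - 1) / h ^ (n - 2) := by
  obtain ⟨κ₁, h₁⟩ := lio n n (by omega)
  obtain ⟨κc, h₂⟩ := cub n (n - 2) (by omega) (by omega)
  exact ⟨_, gam_ex n j κ₁ κc hn hj hj2 h₁ h₂⟩

end Pool.Agent.H88.TU
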