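import Pool.Agent.H88.TU.Fik
import Pool.Agent.H88.TU.Sta

/-! # [H88 TU RGB] Second range, points beyond `H^(al n)` (proof: helper73)

PROOF. If `H ^ (1/(n-1)) < B ^ (κ₁ + κ₂)` then `T.card ≤ (2H+1)^M` is enough. Otherwise `fib` over `J = {p.1 + p.2 ≤ k}` and `FikS` with `h = H^a`, `g = B^(-κ₁) H^(-1/(n-1))`, `X₁ = H^(al n)`,
`X₂ = (BH)^E`, where `k = 2`, `a = 0` for `n ≥ 6` and `k = 1`, `a = 13/16` for `n = 5`. If `X₂ < X₁` then `T = ∅`. The exponent is `2 n (κ₁ + κ₂) + 2 E + n + 7`. -/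

namespace Pool.Agent.H88.TU

open Finset Polynomial Pool.Agent.H8.AA Pool.Agent.H88.A2

/-- the indices of degree `≤ k` -/
private def ik {k j : ℕ} (hk : k ≤ j) (p : Ix k) : Ix j := ix p.1.1.val p.1.2.val (p.2.trans hk)

private theorem ik_inj {k j : ℕ} (hk : k ≤ j) : Function.Injective (ik hk) := by
  intro p q h
  have h1 : (ik hk p).1.1.val = (ik hk q).1.1.val := by rw [h]
  have h2 : (ik hk p).1.2.val = (ik hk q).1.2.val := by rw [h]
  exact Subtype.ext (Prod.ext (Fin.ext h1) (Fin.ext h2))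

private theorem ik_mem {k j : ℕ} (hk : k ≤ j) (p : Ix j) :
    p ∈ univ.image (ik hk) ↔ p.1.1.val + p.1.2.val ≤ k := by
  constructor
  · intro h
    obtain ⟨q, _, rfl⟩ := mem_image.1 h
    exact q.2
  · intro h
    exact mem_image.2 ⟨ix p.1.1.val p.1.2.val h, mem_univ _, Subtype.ext (Prod.ext (Fin.ext rfl) (Fin.ext rfl))⟩

/-- `c` with the terms of degree `≤ k` removed -/
private def upk (k : ℕ) {j : ℕ} (c : Ix j → ℤ) : Ix j → ℤ := fun p => if p.1.1.val + p.1.2.val ≤ k then 0 else c p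

/-- the terms of degree `≤ k` -/
private def lok {k j : ℕ} (hk : k ≤ j) (c : Ix j → ℤ) : Ix k → ℤ := fun p => c (ik hk p)

private theorem co_upk (k : ℕ) {j : ℕ} (c : Ix j → ℤ) (a b : ℕ) : co (upk k c) a b = if a + b ≤ k then 0 else co c a b := by
  unfold co
  by_cases h : a + b ≤ j
  · rw [dif_pos h, dif_pos h]
    rfl
  · rw [dif_neg h, dif_neg h]
    split_ifs <;> rfl

private theorem co_lok {k j : ℕ} (hk : k ≤ j) (c : Ix j → ℤ) (a b : ℕ) :
    co (lok hk c) a b = if a + b ≤ k then co c a b else 0 := by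
  unfold co
  by_cases h : a + b ≤ k
  · rw [dif_pos h, if_pos h, dif_pos (h.trans hk)]
    rfl
  · rw [dif_neg h, if_neg h]

private theorem co_splitk {k j : ℕ} (hk : k ≤ j) (c c' : Ix j → ℤ) (h : ∀ p, p ∉ univ.image (ik hk) → c' p = c p) (a b : ℕ) :
    co c' a b = co (upk k c) a b + co (lok hk c') a b := by
  rw [co_upk, co_lok]
  by_cases h3 : a + b ≤ k
  · rw [if_pos h3, if_pos h3, zero_add]
  · rw [if_neg h3, if_neg h3, add_zero]
    unfold co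
    by_cases hab : a + b ≤ j
    · rw [dif_pos hab, dif_pos hab]
      apply h
      rw [ik_mem]
      exact h3
    · rw [dif_neg hab, dif_neg hab]

private theorem ev_addk (n : ℕ) (f g : ℕ → ℕ → ℤ) (x y : ℤ) :
    ev n (fun a b => f a b + g a b) x y = ev n f x y + ev n g x y := by
  unfold ev
  rw [← Finset.sum_add_distrib]
  refine Finset.sum_congr rfl fun m _ => ?_
  rw [← Finset.sum_add_distrib]
  refine Finset.sum_congr rfl fun i _ => ?_
  ring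

private theorem ev_cutk {m n : ℕ} (h : m ≤ n) (f : ℕ → ℕ → ℤ) (hf : ∀ a b, m < a + b → f a b = 0) (x y : ℤ) :
    ev n f x y = ev m f x y := by
  unfold ev
  symm
  refine Finset.sum_subset (Finset.range_subset_range.2 (by omega)) fun k _ hk => ?_
  have h1 : m < k := by
    have := mt Finset.mem_range.2 hk
    omega
  refine Finset.sum_eq_zero fun i hi => ?_
  have := Finset.mem_range.1 hi
  rw [hf _ _ (by omega), zero_mul]

private theorem co_outk {j : ℕ} (c : Ix j → ℤ) {a b : ℕ} (h : j < a + b) : co c a b = 0 := by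
  unfold co
  rw [dif_neg (by omega)]

private theorem co_absk {j H : ℕ} (c : Ix j → ℤ) (hc : ∀ p, |c p| ≤ (H : ℤ)) (a b : ℕ) : |co c a b| ≤ (H : ℤ) := by
  unfold co
  split_ifs with h
  · exact hc _
  · simp

private theorem ev_totk {n k j : ℕ} (hk : k ≤ j) (hjn : j < n) (e : ℕ → ℕ → ℤ) (c c' : Ix j → ℤ)
    (h : ∀ p, p ∉ univ.image (ik hk) → c' p = c p) (x y : ℤ) :
    ev n (ad e (upk k c)) x y + ev k (co (lok hk c')) x y = ev n e x y + ev j (co c') x y := by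
  have h1 : ev n (ad e (upk k c)) x y = ev n e x y + ev j (co (upk k c)) x y := by
    rw [← ev_cutk hjn.le (co (upk k c)) (fun a b hab => co_outk _ hab)]
    exact ev_addk n e (co (upk k c)) x y
  have h2 : ev j (co c') x y = ev j (co (upk k c)) x y + ev k (co (lok hk c')) x y := by
    rw [← ev_cutk hk (co (lok hk c')) (fun a b hab => co_outk _ hab), ← ev_addk]
    congr 1
    funext a b
    exact co_splitk hk c c' h a b
  rw [h1, h2]
  ring

private theorem fm_upk {n j : ℕ} (hjn : j < n) (e : ℕ → ℕ → ℤ) (c : Ix j → ℤ) : fm (ad e c) n = fm e n := by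
  unfold fm
  refine Finset.sum_congr rfl fun i hi => ?_
  have := Finset.mem_range.1 hi
  have e1 : ad e c (n - i) i = e (n - i) i := by
    unfold ad
    rw [co_outk c (by omega), add_zero]
  rw [e1]

private theorem fm_up2 {k m j : ℕ} (hkm : k < m) (e : ℕ → ℕ → ℤ) (c : Ix j → ℤ) : fm (ad e (upk k c)) m = fm (ad e c) m := by
  unfold fm
  refine Finset.sum_congr rfl fun i hi => ?_
  have := Finset.mem_range.1 hi
  have e1 : ad e (upk k c) (m - i) i = ad e c (m - i) i := by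
    unfold ad
    rw [co_upk, if_neg (by omega)]
  rw [e1]

private theorem gm_upk {n k j : ℕ} (hk : k + 3 ≤ n) (e : ℕ → ℕ → ℤ) (c : Ix j → ℤ) (t : ℝ) :
    gm n (ad e (upk k c)) t = gm n (ad e c) t := by
  unfold gm
  rw [fm_up2 (show k < n by omega), fm_up2 (show k < n - 1 by omega), fm_up2 (show k < n - 2 by omega)]

private theorem fb_upk {n j B H : ℕ} (hjn : j < n) (hB : 2 ≤ B) (hH : 1 ≤ H) {e : ℕ → ℕ → ℤ} (he : Bas n B e)
    (c : Ix j → ℤ) (hc : ∀ p, |c p| ≤ (H : ℤ)) : Fb n B H (ad e c) where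
  bd := by
    intro a b hab
    have h1 : |ad e c a b| ≤ |e a b| + |co c a b| := abs_add_le _ _
    have h2 := he.bd a b hab.le
    have h3 := co_absk c hc a b
    have hB1 : (2 : ℤ) ≤ B := by exact_mod_cast hB
    have hH0 : (1 : ℤ) ≤ H := by exact_mod_cast hH
    nlinarith
  tp := by
    intro a b hab
    have h7 : ad e c a b = e a b := by
      unfold ad
      rw [co_outk c (by omega), add_zero]
    rw [h7]
    have h2 := he.bd a b hab.le
    linarith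
  irr := by
    rw [fm_upk hjn e c]
    exact he.irr
  deg := by
    rw [fm_upk hjn e c]
    exact he.deg
  gd := by
    have h := he.gd
    unfold Gd at h ⊢
    rw [fm_upk hjn e c]
    exact h

/-- the logarithm -/
private theorem logb (n E B : ℕ) (hn : 1 ≤ n) (hB : 2 ≤ B) (H : ℝ) (hH : 1 ≤ H) :
    1 + Real.log (((B : ℝ) * H) ^ E) ≤ (B : ℝ) ^ (2 * E + n + 5) * H ^ (1 / (4 * (n : ℝ))) := by
  have hB2 : (2 : ℝ) ≤ B := by exact_mod_cast hB
  have hB0 : (0 : ℝ) < B := by linarith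
  have hH0 : 0 < H := by linarith
  have hn1 : (1 : ℝ) ≤ n := by exact_mod_cast hn
  obtain ⟨h, hh⟩ : ∃ h : ℝ, h = H ^ (1 / (4 * (n : ℝ))) := ⟨_, rfl⟩
  have h1 : 1 ≤ h := by
    rw [hh]
    exact Real.one_le_rpow hH (by positivity)
  have h2 : Real.log H ≤ 4 * n * (h - 1) := by
    have h3 := Real.log_le_sub_one_of_pos (by linarith : 0 < h)
    rw [hh, Real.log_rpow hH0, ← hh] at h3
    have h4 : Real.log H = 4 * n * (1 / (4 * (n : ℝ)) * Real.log H) := by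
      field_simp
    rw [h4]
    exact mul_le_mul_of_nonneg_left h3 (by positivity)
  have h0 : 0 ≤ Real.log H := Real.log_nonneg hH
  have hlB : Real.log B ≤ B := (Real.log_le_sub_one_of_pos hB0).trans (by linarith)
  have hlB0 : 0 ≤ Real.log B := Real.log_nonneg (by linarith)
  rw [Real.log_pow, Real.log_mul hB0.ne' hH0.ne', ← hh]
  -- `E ≤ B ^ E`, `n ≤ B ^ n`
  have hE : (E : ℝ) ≤ (B : ℝ) ^ E := by
    have h5 : E ≤ B ^ E := (Nat.lt_two_pow_self).le.trans (Nat.pow_le_pow_left hB E)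
    exact_mod_cast h5
  have hN : (n : ℝ) ≤ (B : ℝ) ^ n := by
    have h5 : n ≤ B ^ n := (Nat.lt_two_pow_self).le.trans (Nat.pow_le_pow_left hB n)
    exact_mod_cast h5
  have hE1 : (1 : ℝ) ≤ (B : ℝ) ^ E := one_le_pow₀ (by linarith)
  have hN1 : (1 : ℝ) ≤ (B : ℝ) ^ n := one_le_pow₀ (by linarith)
  have hE0 : (0 : ℝ) ≤ E := Nat.cast_nonneg _
  -- 1 + E (log B + log H) ≤ (1 + E B) (1 + 4 n E (h - 1))
  have h5 : 1 + (E : ℝ) * (Real.log B + Real.log H) ≤ (1 + E * B) * (1 + 4 * n * E * (h - 1)) := by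
    have h6 : (E : ℝ) * Real.log B ≤ E * B := mul_le_mul_of_nonneg_left hlB hE0
    have h7 : (E : ℝ) * Real.log H ≤ 4 * n * E * (h - 1) := by
      have := mul_le_mul_of_nonneg_left h2 hE0
      linarith
    have h8 : 0 ≤ (E : ℝ) * B * (4 * n * E * (h - 1)) := by
      have : 0 ≤ h - 1 := by linarith
      positivity
    nlinarith
  have h6 : 1 + (E : ℝ) * B ≤ (B : ℝ) ^ (E + 2) := by
    rw [pow_add]
    have h7 : (E : ℝ) * B ≤ (B : ℝ) ^ E * B := mul_le_mul_of_nonneg_right hE hB0.le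
    have h8 : 1 + (B : ℝ) ^ E * B ≤ (B : ℝ) ^ E * B ^ 2 := by
      have h9 : 0 ≤ ((B : ℝ) ^ E - 1) * (B ^ 2 - B) := mul_nonneg (by linarith) (by nlinarith)
      nlinarith
    linarith
  have h7 : 1 + 4 * (n : ℝ) * E * (h - 1) ≤ (B : ℝ) ^ (n + E + 3) * h := by
    have h8 : 1 + 4 * (n : ℝ) * E * (h - 1) ≤ (1 + 4 * n * E) * h := by
      have : 0 ≤ 4 * (n : ℝ) * E := by positivity
      nlinarith
    refine h8.trans (mul_le_mul_of_nonneg_right ?_ (by linarith))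
    have h9 : (n : ℝ) * E ≤ (B : ℝ) ^ n * B ^ E := mul_le_mul hN hE hE0 (by positivity)
    have h10 : 1 ≤ (B : ℝ) ^ n * B ^ E := by nlinarith
    have h11 : (5 : ℝ) ≤ (B : ℝ) ^ 3 := by
      have : (2 : ℝ) ^ 3 ≤ (B : ℝ) ^ 3 := pow_le_pow_left₀ (by norm_num) hB2 3
      linarith
    calc 1 + 4 * (n : ℝ) * E ≤ 5 * ((B : ℝ) ^ n * B ^ E) := by linarith
      _ ≤ (B : ℝ) ^ 3 * ((B : ℝ) ^ n * B ^ E) := mul_le_mul_of_nonneg_right h11 (by positivity)
      _ = (B : ℝ) ^ (n + E + 3) := by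
        rw [pow_add, pow_add]
        ring
  have h8 : 0 ≤ 1 + 4 * (n : ℝ) * E * (h - 1) := by
    have : 0 ≤ h - 1 := by linarith
    positivity
  calc 1 + (E : ℝ) * (Real.log B + Real.log H) ≤ (1 + E * B) * (1 + 4 * n * E * (h - 1)) := h5
    _ ≤ (B : ℝ) ^ (E + 2) * ((B : ℝ) ^ (n + E + 3) * h) := mul_le_mul h6 h7 h8 (by positivity)
    _ = (B : ℝ) ^ (2 * E + n + 5) * h := by
      rw [← mul_assoc, ← pow_add]
      congr 2
      omega

private theorem dl_nonneg (n : ℕ) : 0 ≤ dl n := by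
  unfold dl
  positivity

private theorem dl_le (n : ℕ) : dl n ≤ 1 := by
  unfold dl
  rw [div_le_one (by positivity)]
  have : (0 : ℝ) ≤ n := Nat.cast_nonneg _
  linarith

private theorem small (n j B H m κ : ℕ) (hB : 2 ≤ B) (hH : 1 ≤ H) (hM : 1 ≤ Fintype.card (Ix j)) (hs : (H : ℝ) ≤ (B : ℝ) ^ m)
    (hκ : 2 * m + 2 ≤ κ) (T : Finset (Ix j → ℤ)) (hT : ∀ c ∈ T, ∀ p, |c p| ≤ (H : ℤ)) :
    (T.card : ℝ) ≤ (B : ℝ) ^ κ * (2 * (H : ℝ) + 1) ^ (Fintype.card (Ix j) - 1) * (H : ℝ) ^ (-dl n) := by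
  classical
  have hB2 : (2 : ℝ) ≤ B := by exact_mod_cast hB
  have hH1 : (1 : ℝ) ≤ H := by exact_mod_cast hH
  have hH0 : (0 : ℝ) < H := by linarith
  have h1 : T.card ≤ 1 * (2 * H + 1) ^ (Fintype.card (Ix j) - (∅ : Finset (Ix j)).card) := by
    refine fib ∅ H 1 T hT ?_
    intro c _ T' hT'
    rw [Finset.card_le_one]
    intro a ha b hb
    funext p
    rw [(hT' a ha).2 p (Finset.notMem_empty _), (hT' b hb).2 p (Finset.notMem_empty _)]
  rw [Finset.card_empty, Nat.sub_zero, one_mul] at h1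
  have h2 : (T.card : ℝ) ≤ (2 * (H : ℝ) + 1) ^ Fintype.card (Ix j) := by exact_mod_cast h1
  have e1 : (2 * (H : ℝ) + 1) ^ Fintype.card (Ix j) = (2 * (H : ℝ) + 1) ^ (Fintype.card (Ix j) - 1) * (2 * H + 1) := by
    rw [← pow_succ]
    congr 1
    omega
  have h3 : (2 * (H : ℝ) + 1) ≤ (B : ℝ) ^ κ * (H : ℝ) ^ (-dl n) := by
    have h4 : (H : ℝ) ^ (-(1 : ℝ)) ≤ (H : ℝ) ^ (-dl n) :=
      Real.rpow_le_rpow_of_exponent_le hH1 (by have := dl_le n; linarith)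
    rw [Real.rpow_neg_one] at h4
    have h5 : (B : ℝ) ^ (2 * m + 2) ≤ (B : ℝ) ^ κ := pow_le_pow_right₀ (by linarith) hκ
    have h6 : (2 * (H : ℝ) + 1) * H ≤ (B : ℝ) ^ (2 * m + 2) := by
      have h7 : (2 * (H : ℝ) + 1) * H ≤ 4 * (H * H) := by nlinarith
      have h8 : (H : ℝ) * H ≤ (B : ℝ) ^ m * (B : ℝ) ^ m := mul_le_mul hs hs hH0.le (by positivity)
      have h9 : (4 : ℝ) ≤ (B : ℝ) ^ 2 := by nlinarith
      calc (2 * (H : ℝ) + 1) * H ≤ 4 * (H * H) := h7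
        _ ≤ (B : ℝ) ^ 2 * ((B : ℝ) ^ m * (B : ℝ) ^ m) := mul_le_mul h9 h8 (by positivity) (by positivity)
        _ = (B : ℝ) ^ (2 * m + 2) := by
          rw [two_mul, pow_add, pow_add]
          ring
    calc (2 * (H : ℝ) + 1) = (2 * (H : ℝ) + 1) * H * (H : ℝ)⁻¹ := by
          field_simp
      _ ≤ (B : ℝ) ^ κ * (H : ℝ) ^ (-dl n) :=
          mul_le_mul (h6.trans h5) h4 (by positivity) (by positivity)
  rw [e1] at h2
  calc (T.card : ℝ) ≤ (2 * (H : ℝ) + 1) ^ (Fintype.card (Ix j) - 1) * (2 * H + 1) := h2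
    _ ≤ (2 * (H : ℝ) + 1) ^ (Fintype.card (Ix j) - 1) * ((B : ℝ) ^ κ * (H : ℝ) ^ (-dl n)) :=
      mul_le_mul_of_nonneg_left h3 (by positivity)
    _ = _ := by ring

private theorem big (n k j E κ₁ κ₂ : ℕ) (a : ℝ) (hn : 5 ≤ n) (hk1 : 1 ≤ k) (hk : k + 4 ≤ n) (hkj : k ≤ j) (hjn : j < n) (hκ : FikS n k κ₂)
    (ha : 0 ≤ a) (ha1 : a ≤ 1) (hal : 1 / ((n : ℝ) - 1) ≤ al n - 3 - 1 / ((n : ℝ) - 1))
    (hal2 : 1 / ((n : ℝ) - 1) ≤ al n - 2 - ((n : ℝ) - 1) * a)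
    (hex : 3 / 2 + 1 / (2 * ((n : ℝ) - 1)) - k * a + 1 / (4 * (n : ℝ)) + dl n ≤ k) :
    RgbS n j E κ₁ (2 * n * (κ₁ + κ₂) + 2 * E + n + 7) := by
  classical
  intro B hB e he H hH T hT
  have hB2 : (2 : ℝ) ≤ B := by exact_mod_cast hB
  have hB1 : (1 : ℝ) ≤ B := by linarith
  have hB0 : (0 : ℝ) < B := by linarith
  have hH1 : (1 : ℝ) ≤ H := by exact_mod_cast hH
  have hH0 : (0 : ℝ) < H := by linarith
  have hn5 : (5 : ℝ) ≤ n := by exact_mod_cast hn
  obtain ⟨θ, hθ⟩ : ∃ θ : ℝ, θ = 1 / ((n : ℝ) - 1) := ⟨_, rfl⟩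
  have hθ0 : 0 < θ := by
    rw [hθ]
    exact div_pos one_pos (by linarith)
  have hθn : θ * ((n : ℝ) - 1) = 1 := by
    rw [hθ]
    exact div_mul_cancel₀ _ (by linarith)
  rw [← hθ] at hal hal2
  have hJc : (univ.image (ik hkj)).card = Fintype.card (Ix k) := by
    rw [Finset.card_image_of_injective _ (ik_inj hkj), Finset.card_univ]
  have hMk : Fintype.card (Ix k) ≤ Fintype.card (Ix j) := by
    rw [← hJc]
    exact Finset.card_le_univ _
  have hk2 : k + 1 ≤ Fintype.card (Ix k) := by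
    rw [card_ix]
    have : 2 * (k + 1) ≤ (k + 1) * (k + 2) := by nlinarith
    omega
  by_cases hs : (H : ℝ) ^ θ < (B : ℝ) ^ (κ₁ + κ₂)
  · -- small `H`
    refine small n j B H ((n - 1) * (κ₁ + κ₂)) _ hB hH (by omega) ?_ ?_ T (fun c hc => (hT c hc).1)
    · have h1 : ((H : ℝ) ^ θ) ^ (n - 1) ≤ ((B : ℝ) ^ (κ₁ + κ₂)) ^ (n - 1) :=
        pow_le_pow_left₀ (Real.rpow_nonneg hH0.le _) hs.le _
      rw [← Real.rpow_natCast, ← Real.rpow_mul hH0.le, Nat.cast_sub (by omega), Nat.cast_one, hθn, Real.rpow_one, ← pow_mul] at h1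
      rwa [mul_comm (n - 1)]
    · have h1 : (n - 1) * (κ₁ + κ₂) ≤ n * (κ₁ + κ₂) := Nat.mul_le_mul_right _ (by omega)
      have h2 : 2 * n * (κ₁ + κ₂) = 2 * (n * (κ₁ + κ₂)) := by ring
      omega
  · rw [not_lt] at hs
    obtain ⟨X, hX⟩ : ∃ X : ℝ, X = (H : ℝ) ^ al n := ⟨_, rfl⟩
    obtain ⟨X₂, hX₂⟩ : ∃ X₂ : ℝ, X₂ = ((B : ℝ) * H) ^ E := ⟨_, rfl⟩
    obtain ⟨g, hg⟩ : ∃ g : ℝ, g = (H : ℝ) ^ (-θ) / (B : ℝ) ^ κ₁ := ⟨_, rfl⟩
    obtain ⟨h, hh⟩ : ∃ h : ℝ, h = (H : ℝ) ^ a := ⟨_, rfl⟩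
    have hX0 : 0 < X := by
      rw [hX]
      exact Real.rpow_pos_of_pos hH0 _
    have hg0 : 0 < g := by
      rw [hg]
      exact div_pos (Real.rpow_pos_of_pos hH0 _) (by positivity)
    have hBk : (1 : ℝ) ≤ (B : ℝ) ^ κ₁ := one_le_pow₀ hB1
    have hg1 : g ≤ H := by
      rw [hg, div_le_iff₀ (by positivity)]
      have h1 : (H : ℝ) ^ (-θ) ≤ 1 := Real.rpow_le_one_of_one_le_of_nonpos hH1 (by linarith)
      nlinarith
    have hh1 : 1 ≤ h := by
      rw [hh]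
      exact Real.one_le_rpow hH1 ha
    have hhH : h ≤ H := by
      rw [hh]
      calc (H : ℝ) ^ a ≤ (H : ℝ) ^ (1 : ℝ) := Real.rpow_le_rpow_of_exponent_le hH1 ha1
        _ = H := Real.rpow_one _
    -- the two conditions
    have c1 : (B : ℝ) ^ κ₂ * (H : ℝ) ^ 3 ≤ g * X := by
      rw [hg, hX, div_mul_eq_mul_div, le_div_iff₀ (by positivity), ← Real.rpow_add hH0]
      have h1 : (B : ℝ) ^ κ₂ * (H : ℝ) ^ 3 * (B : ℝ) ^ κ₁ = (B : ℝ) ^ (κ₁ + κ₂) * (H : ℝ) ^ (3 : ℝ) := by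
        rw [pow_add]
        have : (H : ℝ) ^ (3 : ℝ) = (H : ℝ) ^ 3 := by norm_cast
        rw [this]
        ring
      rw [h1]
      calc (B : ℝ) ^ (κ₁ + κ₂) * (H : ℝ) ^ (3 : ℝ) ≤ (H : ℝ) ^ θ * (H : ℝ) ^ (3 : ℝ) :=
            mul_le_mul_of_nonneg_right hs (Real.rpow_nonneg hH0.le _)
        _ = (H : ℝ) ^ (θ + 3) := (Real.rpow_add hH0 _ _).symm
        _ ≤ (H : ℝ) ^ (-θ + al n) := Real.rpow_le_rpow_of_exponent_le hH1 (by linarith)
    have c2 : (B : ℝ) ^ κ₂ * h ^ (n - 1) * (H : ℝ) ^ 2 ≤ X := by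
      have h1 : h ^ (n - 1) = (H : ℝ) ^ (((n : ℝ) - 1) * a) := by
        rw [hh, ← Real.rpow_natCast, ← Real.rpow_mul hH0.le, Nat.cast_sub (by omega), Nat.cast_one, mul_comm]
      have h2 : (B : ℝ) ^ κ₂ ≤ (H : ℝ) ^ θ := le_trans (pow_le_pow_right₀ hB1 (by omega)) hs
      have h3 : (H : ℝ) ^ 2 = (H : ℝ) ^ (2 : ℝ) := by norm_cast
      rw [h1, h3, hX]
      calc (B : ℝ) ^ κ₂ * (H : ℝ) ^ (((n : ℝ) - 1) * a) * (H : ℝ) ^ (2 : ℝ)
          ≤ (H : ℝ) ^ θ * (H : ℝ) ^ (((n : ℝ) - 1) * a) * (H : ℝ) ^ (2 : ℝ) :=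
            mul_le_mul_of_nonneg_right (mul_le_mul_of_nonneg_right h2 (Real.rpow_nonneg hH0.le _)) (Real.rpow_nonneg hH0.le _)
        _ = (H : ℝ) ^ (θ + ((n : ℝ) - 1) * a + 2) := by rw [Real.rpow_add hH0, Real.rpow_add hH0]
        _ ≤ (H : ℝ) ^ al n := Real.rpow_le_rpow_of_exponent_le hH1 (by linarith)
    by_cases hXX : X ≤ X₂
    swap
    · -- no points
      have hTe : T = ∅ := by
        rw [Finset.eq_empty_iff_forall_notMem]
        intro c hc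
        obtain ⟨-, -, x, y, -, hx1, hx2, -⟩ := hT c hc
        apply hXX
        rw [hX, hX₂]
        refine hx1.trans (hx2.trans (le_of_eq ?_))
        push_cast
        rfl
      rw [hTe, Finset.card_empty, Nat.cast_zero]
      have := Real.rpow_nonneg hH0.le (-dl n)
      positivity
    have hX1 : 1 ≤ X := by
      rw [hX]
      exact Real.one_le_rpow hH1 (by linarith)
    have hL : 0 ≤ 1 + Real.log X₂ := by
      have := Real.log_nonneg (hX1.trans hXX)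
      linarith
    obtain ⟨F, hF⟩ : ∃ F : ℝ, F = (B : ℝ) ^ κ₂ * (1 + Real.log X₂) * (H * Real.sqrt (H / g)) *
      (2 * (H : ℝ) + 1) ^ (Fintype.card (Ix k) - (k + 1)) / h ^ k := ⟨_, rfl⟩
    have hF0 : 0 ≤ F := by
      rw [hF]
      exact div_nonneg (mul_nonneg (mul_nonneg (mul_nonneg (by positivity) hL)
        (mul_nonneg hH0.le (Real.sqrt_nonneg _))) (by positivity)) (by positivity)
    have hfib : T.card ≤ ⌊F⌋₊ * (2 * H + 1) ^ (Fintype.card (Ix j) - (univ.image (ik hkj)).card) := by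
      refine fib (univ.image (ik hkj)) H ⌊F⌋₊ T (fun c hc => (hT c hc).1) ?_
      intro c hcT T' hT'
      apply Nat.le_floor
      have hinj : Set.InjOn (lok hkj) (T' : Set (Ix j → ℤ)) := by
        intro a ha b hb hab
        funext p
        by_cases hp : p ∈ univ.image (ik hkj)
        · obtain ⟨q, _, rfl⟩ := mem_image.1 hp
          exact congrFun hab q
        · rw [(hT' a ha).2 p hp, (hT' b hb).2 p hp]
      have hup : ∀ p, |upk k c p| ≤ (H : ℤ) := by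
        intro p
        unfold upk
        split_ifs
        · simp
        · exact (hT c hcT).1 p
      have h1 := hκ B H hB hH (ad e (upk k c)) (fb_upk hjn hB hH he _ hup) g h X X₂ hg0 hg1 hh1 hhH (by
        intro t ht2 ht
        rw [fm_upk hjn] at ht
        rw [gm_upk (by omega), hg, div_le_iff₀ (by positivity), mul_comm]
        have h2 := (hT c hcT).2.1 t ht2 ht
        rw [← hθ] at h2
        exact h2) c1 c2 hXX (T'.image (lok hkj)) (by
        intro u hu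
        obtain ⟨c', hc', rfl⟩ := mem_image.1 hu
        obtain ⟨h2, -, x, y, hxy, hx1, hx2, hx3⟩ := hT c' (hT' c' hc').1
        refine ⟨fun p => h2 _, x, y, hxy, ?_, ?_, ?_⟩
        · rw [hX]
          exact hx1
        · rw [hX₂]
          refine hx2.trans (le_of_eq ?_)
          push_cast
          rfl
        · rw [ev_totk hkj hjn e c c' (hT' c' hc').2]
          exact hx3)
      rw [Finset.card_image_of_injOn hinj, ← hF] at h1
      exact h1
    rw [hJc] at hfib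
    have h1 : (T.card : ℝ) ≤ F * (2 * (H : ℝ) + 1) ^ (Fintype.card (Ix j) - Fintype.card (Ix k)) := by
      have h2 : (T.card : ℝ) ≤ (⌊F⌋₊ : ℝ) * (2 * (H : ℝ) + 1) ^ (Fintype.card (Ix j) - Fintype.card (Ix k)) := by
        exact_mod_cast hfib
      exact h2.trans (mul_le_mul_of_nonneg_right (Nat.floor_le hF0) (by positivity))
    refine h1.trans ?_
    -- the square root
    have hsq : Real.sqrt (H / g) ≤ (B : ℝ) ^ κ₁ * (H : ℝ) ^ ((1 + θ) / 2) := by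
      have h2 : (H : ℝ) / g = (B : ℝ) ^ κ₁ * (H : ℝ) ^ (1 + θ) := by
        rw [hg, Real.rpow_neg hH0.le, Real.rpow_add hH0, Real.rpow_one]
        have := (Real.rpow_pos_of_pos hH0 θ).ne'
        field_simp
      rw [h2]
      refine Real.sqrt_le_iff.2 ⟨mul_nonneg (by positivity) (Real.rpow_nonneg hH0.le _), ?_⟩
      have h3 : ((H : ℝ) ^ ((1 + θ) / 2)) ^ 2 = (H : ℝ) ^ (1 + θ) := by
        rw [← Real.rpow_natCast, ← Real.rpow_mul hH0.le]
        congr 1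
        push_cast
        ring
      rw [mul_pow, h3]
      refine mul_le_mul_of_nonneg_right ?_ (Real.rpow_nonneg hH0.le _)
      nlinarith
    have hlog := logb n E B (by omega) hB H hH1
    rw [← hX₂] at hlog
    obtain ⟨W, hW⟩ : ∃ W : ℝ, W = 2 * (H : ℝ) + 1 := ⟨_, rfl⟩
    have hW1 : (H : ℝ) ≤ W := by
      rw [hW]
      linarith
    have hW0 : 0 < W := by linarith
    have e1 : W ^ (Fintype.card (Ix j) - 1) =
        W ^ (Fintype.card (Ix j) - Fintype.card (Ix k)) * W ^ (Fintype.card (Ix k) - (k + 1)) * W ^ k := by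
      rw [← pow_add, ← pow_add]
      congr 1
      omega
    have hhk : h ^ k = (H : ℝ) ^ ((k : ℝ) * a) := by
      rw [hh, ← Real.rpow_natCast, ← Real.rpow_mul hH0.le, mul_comm]
    -- the exponents
    have hexp : (1 + Real.log X₂) * (H * Real.sqrt (H / g)) / h ^ k ≤
        (B : ℝ) ^ (κ₁ + (2 * E + n + 5)) * (W ^ k * (H : ℝ) ^ (-dl n)) := by
      have h2 : (1 + Real.log X₂) * (H * Real.sqrt (H / g)) ≤
          ((B : ℝ) ^ (2 * E + n + 5) * (H : ℝ) ^ (1 / (4 * (n : ℝ)))) * (H * ((B : ℝ) ^ κ₁ * (H : ℝ) ^ ((1 + θ) / 2))) :=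
        mul_le_mul hlog (mul_le_mul_of_nonneg_left hsq hH0.le) (mul_nonneg hH0.le (Real.sqrt_nonneg _))
          (mul_nonneg (by positivity) (Real.rpow_nonneg hH0.le _))
      have h3 : ((B : ℝ) ^ (2 * E + n + 5) * (H : ℝ) ^ (1 / (4 * (n : ℝ)))) * (H * ((B : ℝ) ^ κ₁ * (H : ℝ) ^ ((1 + θ) / 2))) / h ^ k =
          (B : ℝ) ^ (κ₁ + (2 * E + n + 5)) * (H : ℝ) ^ (1 / (4 * (n : ℝ)) + (1 + (1 + θ) / 2) - k * a) := by
        rw [hhk, Real.rpow_sub hH0, Real.rpow_add hH0, Real.rpow_add hH0 1, Real.rpow_one, pow_add]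
        ring
      have h4 : (H : ℝ) ^ (1 / (4 * (n : ℝ)) + (1 + (1 + θ) / 2) - k * a) ≤ (H : ℝ) ^ ((k : ℝ) + -dl n) := by
        refine Real.rpow_le_rpow_of_exponent_le hH1 ?_
        have h5 : 1 / (2 * ((n : ℝ) - 1)) = θ / 2 := by
          rw [hθ]
          have : (n : ℝ) - 1 ≠ 0 := by linarith
          field_simp
        rw [h5] at hex
        linarith
      have h5 : (H : ℝ) ^ ((k : ℝ) + -dl n) ≤ W ^ k * (H : ℝ) ^ (-dl n) := by
        rw [Real.rpow_add hH0, Real.rpow_natCast]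
        exact mul_le_mul_of_nonneg_right (pow_le_pow_left₀ hH0.le hW1 k) (Real.rpow_nonneg hH0.le _)
      calc (1 + Real.log X₂) * (H * Real.sqrt (H / g)) / h ^ k
          ≤ ((B : ℝ) ^ (2 * E + n + 5) * (H : ℝ) ^ (1 / (4 * (n : ℝ)))) * (H * ((B : ℝ) ^ κ₁ * (H : ℝ) ^ ((1 + θ) / 2))) / h ^ k :=
            div_le_div_of_nonneg_right h2 (by positivity)
        _ = (B : ℝ) ^ (κ₁ + (2 * E + n + 5)) * (H : ℝ) ^ (1 / (4 * (n : ℝ)) + (1 + (1 + θ) / 2) - k * a) := h3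
        _ ≤ _ := mul_le_mul_of_nonneg_left (h4.trans h5) (by positivity)
    rw [← hW]
    rw [← hW] at hF
    have hd : 0 ≤ (H : ℝ) ^ (-dl n) := Real.rpow_nonneg hH0.le _
    calc F * W ^ (Fintype.card (Ix j) - Fintype.card (Ix k))
        = ((B : ℝ) ^ κ₂ * W ^ (Fintype.card (Ix j) - Fintype.card (Ix k)) * W ^ (Fintype.card (Ix k) - (k + 1))) *
            ((1 + Real.log X₂) * (H * Real.sqrt (H / g)) / h ^ k) := by
          rw [hF]
          ring
      _ ≤ ((B : ℝ) ^ κ₂ * W ^ (Fintype.card (Ix j) - Fintype.card (Ix k)) * W ^ (Fintype.card (Ix k) - (k + 1))) *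
            ((B : ℝ) ^ (κ₁ + (2 * E + n + 5)) * (W ^ k * (H : ℝ) ^ (-dl n))) :=
          mul_le_mul_of_nonneg_left hexp (by positivity)
      _ = (B : ℝ) ^ (κ₂ + (κ₁ + (2 * E + n + 5))) * W ^ (Fintype.card (Ix j) - 1) * (H : ℝ) ^ (-dl n) := by
          rw [e1, pow_add (B : ℝ) κ₂]
          ring
      _ ≤ (B : ℝ) ^ (2 * n * (κ₁ + κ₂) + 2 * E + n + 7) * W ^ (Fintype.card (Ix j) - 1) * (H : ℝ) ^ (-dl n) := by
          refine mul_le_mul_of_nonneg_right (mul_le_mul_of_nonneg_right (pow_le_pow_right₀ hB1 ?_) (by positivity)) hd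
          have h2 : 1 * (κ₁ + κ₂) ≤ 2 * n * (κ₁ + κ₂) := Nat.mul_le_mul_right _ (by omega)
          omega

/-- explicit form -/
theorem rgb_ex (n j E κ₁ κ₂ : ℕ) (hn : 5 ≤ n) (hj : 3 ≤ j) (hjn : j < n) (h5 : n = 5 → FikS n 1 κ₂) (h6 : 6 ≤ n → FikS n 2 κ₂) :
    RgbS n j E κ₁ (2 * n * (κ₁ + κ₂) + 2 * E + n + 7) := by
  have hn5 : (5 : ℝ) ≤ n := by exact_mod_cast hn
  by_cases h : n = 5
  · refine big n 1 j E κ₁ κ₂ (13 / 16) hn le_rfl (by omega) (by omega) hjn (h5 h) (by norm_num) (by norm_num) ?_ ?_ ?_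
    · unfold al
      rw [if_pos h, h]
      norm_num
    · unfold al
      rw [if_pos h, h]
      norm_num
    · unfold dl
      rw [h]
      norm_num
  · have h7 : 6 ≤ n := by omega
    have hn6 : (6 : ℝ) ≤ n := by exact_mod_cast h7
    have hθ : 1 / ((n : ℝ) - 1) ≤ 1 / 5 := one_div_le_one_div_of_le (by norm_num) (by linarith)
    have hθ0 : 0 < 1 / ((n : ℝ) - 1) := div_pos one_pos (by linarith)
    have e2 : 2 / ((n : ℝ) - 1) = 2 * (1 / ((n : ℝ) - 1)) := by ring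
    refine big n 2 j E κ₁ κ₂ 0 hn (by norm_num) (by omega) (by omega) hjn (h6 h7) le_rfl (by norm_num) ?_ ?_ ?_
    · unfold al
      rw [if_neg h, e2]
      linarith
    · unfold al
      rw [if_neg h, e2]
      linarith
    · have e3 : 1 / (2 * ((n : ℝ) - 1)) = 1 / ((n : ℝ) - 1) / 2 := by
        have : (n : ℝ) - 1 ≠ 0 := by linarith
        field_simp
      have h8 : 1 / (4 * (n : ℝ)) ≤ 1 / 24 := one_div_le_one_div_of_le (by norm_num) (by linarith)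
      have h9 : dl n ≤ 1 / 16 := by
        unfold dl
        exact one_div_le_one_div_of_le (by norm_num) (by linarith)
      rw [e3]
      push_cast
      linarith

theorem rgb (n j E κ₁ : ℕ) (hn : 5 ≤ n) (hj : 3 ≤ j) (hjn : j < n) : ∃ κ : ℕ, ∀ B : ℕ, 2 ≤ B → ∀ e : ℕ → ℕ → ℤ, Bas n B e →
    ∀ H : ℕ, 1 ≤ H → ∀ T : Finset (Ix j → ℤ),
    (∀ c ∈ T, (∀ p, |c p| ≤ (H : ℤ)) ∧
      (∀ t : ℝ, |t| ≤ 2 → aeval t (fm e n) = 0 →
        (H : ℝ) ^ (-(1 / ((n : ℝ) - 1))) ≤ (B : ℝ) ^ κ₁ * |gm n (ad e c) t|) ∧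
      ∃ x y : ℤ, |y| ≤ |x| ∧ (H : ℝ) ^ al n ≤ |(x : ℝ)| ∧ |(x : ℝ)| ≤ ((B * H : ℕ) : ℝ) ^ E ∧
      ev n e x y + ev j (co c) x y = 0) →
    (T.card : ℝ) ≤ (B : ℝ) ^ κ * (2 * (H : ℝ) + 1) ^ (Fintype.card (Ix j) - 1) * (H : ℝ) ^ (-dl n) := by
  by_cases h : n = 5
  · obtain ⟨κ₂, h₂⟩ := fik n 1 hn le_rfl (by omega)
    have h3 : FikS n 1 κ₂ := h₂
    have h4 := rgb_ex n j E κ₁ κ₂ hn hj hjn (fun _ => h3) (fun h6 => by omega)
    exact ⟨2 * n * (κ₁ + κ₂) + 2 * E + n + 7, h4⟩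
  · obtain ⟨κ₂, h₂⟩ := fik n 2 hn (by norm_num) (by omega)
    have h3 : FikS n 2 κ₂ := h₂
    have h4 := rgb_ex n j E κ₁ κ₂ hn hj hjn (fun h5 => absurd h5 h) (fun _ => h3)
    exact ⟨2 * n * (κ₁ + κ₂) + 2 * E + n + 7, h4⟩

end Pool.Agent.H88.TU
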