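import Pool.Agent.H88.TU.Rga
import Pool.Agent.H88.TU.Rgb
import Pool.Agent.H88.TU.Gam
import Pool.Agent.H88.TU.Sta

/-! # [H88 TU CHR] The middle range in one chart

PROOF. `T = T₁ ∪ T₂ ∪ T₃`: `T₁`: `|x| ≤ H^(al n)`: `rga`. `j + 3 ≤ n`: `gm n (ad e c) t = gm n e t` (`gm` uses the terms of degree `n, n-1, n-2` only), `≥ 1/B`: all other `c` by `rgb` with
`κ₁ = 1`. `j + 3 > n`: `κ₁` = the constant of `gam`; `T₃` = the `c` for which some zero `t`, `|t| ≤ 2`, has `B^κ₁ |gm n (ad e c) t| < H^(-1/(n-1))`: `gam` with `h = H^(1/(n-1)^2)`,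
`h^(n-1) = H^(1/(n-1))`: factor `h^(-(n-2))`, `(n-2)/(n-1)^2 ≥ 1/(2n+4) = dl n`. `T₂` = the rest: `rgb n j E κ₁`. -/

namespace Pool.Agent.H88.TU

open Finset Polynomial Pool.Agent.H8.AA Pool.Agent.H88.A2

private theorem fm_ad {j k : ℕ} (hk : j < k) (e : ℕ → ℕ → ℤ) (c : Ix j → ℤ) :
    fm (ad e c) k = fm e k := by
  unfold fm
  refine Finset.sum_congr rfl fun i hi => ?_
  have hi' : i ≤ k := by
    have := Finset.mem_range.1 hi
    omega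
  have h1 : ad e c (k - i) i = e (k - i) i := by
    unfold ad co
    rw [dif_neg (by omega), add_zero]
  rw [h1]

private theorem gm_ad {n j : ℕ} (h : j + 3 ≤ n) (e : ℕ → ℕ → ℤ) (c : Ix j → ℤ) (t : ℝ) :
    gm n (ad e c) t = gm n e t := by
  unfold gm
  rw [fm_ad (show j < n by omega), fm_ad (show j < n - 1 by omega), fm_ad (show j < n - 2 by omega)]

/-- the statement about the `c` with small curvature at infinity -/
private def ThiS (n j κ₁ κ : ℕ) : Prop :=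
    ∀ B : ℕ, 2 ≤ B → ∀ e : ℕ → ℕ → ℤ, Bas n B e →
    (j + 3 ≤ n → ∀ t : ℝ, aeval t (fm e n) = 0 → 1 ≤ (B : ℝ) * |gm n e t|) →
    ∀ H : ℕ, 1 ≤ H → ∀ T : Finset (Ix j → ℤ),
    (∀ c ∈ T, (∀ p, |c p| ≤ (H : ℤ)) ∧ ∃ t : ℝ, |t| ≤ 2 ∧ aeval t (fm e n) = 0 ∧
      (B : ℝ) ^ κ₁ * |gm n (ad e c) t| < (H : ℝ) ^ (-(1 / ((n : ℝ) - 1)))) →
    (T.card : ℝ) ≤ (B : ℝ) ^ κ * (2 * (H : ℝ) + 1) ^ (Fintype.card (Ix j) - 1) *
      (H : ℝ) ^ (-dl n)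

private theorem third_gam (n j κ : ℕ) (hn : 5 ≤ n) (hκ : GamS n j κ) : ThiS n j κ κ := by
  have hn' : (5 : ℝ) ≤ n := by exact_mod_cast hn
  have hn1 : (0 : ℝ) < (n : ℝ) - 1 := by linarith
  intro B hB e he _ H hH T hT
  have hH1 : (1 : ℝ) ≤ H := by exact_mod_cast hH
  have hH0 : (0 : ℝ) < H := by linarith
  obtain ⟨h, hh⟩ : ∃ h : ℝ, h = (H : ℝ) ^ (1 / ((n : ℝ) - 1) ^ 2) := ⟨_, rfl⟩
  have h1 : 1 ≤ h := by
    rw [hh]
    exact Real.one_le_rpow hH1 (by positivity)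
  have h2 : h ≤ H := by
    rw [hh]
    have h21 : 1 / ((n : ℝ) - 1) ^ 2 ≤ 1 := by
      rw [div_le_one (by positivity)]
      nlinarith
    calc (H : ℝ) ^ (1 / ((n : ℝ) - 1) ^ 2) ≤ (H : ℝ) ^ (1 : ℝ) :=
          Real.rpow_le_rpow_of_exponent_le hH1 h21
      _ = H := Real.rpow_one _
  have h3 : h ^ (n - 1) = (H : ℝ) ^ (1 / ((n : ℝ) - 1)) := by
    rw [hh, ← Real.rpow_natCast, ← Real.rpow_mul hH0.le]
    congr 1
    rw [Nat.cast_sub (by omega), Nat.cast_one]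
    field_simp
  have h4 : (H : ℝ) ^ dl n ≤ h ^ (n - 2) := by
    rw [hh, ← Real.rpow_natCast, ← Real.rpow_mul hH0.le]
    apply Real.rpow_le_rpow_of_exponent_le hH1
    rw [Nat.cast_sub (by omega), Nat.cast_ofNat]
    unfold dl
    rw [div_mul_eq_mul_div, one_mul, div_le_div_iff₀ (by linarith) (by positivity)]
    nlinarith
  have h5 := hκ B hB e he H h hH h1 h2 T (by
    intro c hc
    obtain ⟨hc1, t, ht, hr, hg⟩ := hT c hc
    refine ⟨hc1, t, ht, hr, ?_⟩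
    rw [h3]
    have hp : 0 < (H : ℝ) ^ (1 / ((n : ℝ) - 1)) := Real.rpow_pos_of_pos hH0 _
    rw [Real.rpow_neg hH0.le] at hg
    have h6 := mul_le_mul_of_nonneg_right hg.le hp.le
    rw [inv_mul_cancel₀ hp.ne'] at h6
    calc |gm n (ad e c) t| * ((B : ℝ) ^ κ * (H : ℝ) ^ (1 / ((n : ℝ) - 1)))
        = (B : ℝ) ^ κ * |gm n (ad e c) t| * (H : ℝ) ^ (1 / ((n : ℝ) - 1)) := by ring
      _ ≤ 1 := h6)
  refine h5.trans ?_
  rw [Real.rpow_neg hH0.le, ← div_eq_mul_inv]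
  have h7 : 0 < (H : ℝ) ^ dl n := Real.rpow_pos_of_pos hH0 _
  exact div_le_div_of_nonneg_left (by positivity) h7 h4

private theorem third_far (n j : ℕ) (hn : 5 ≤ n) (h : j + 3 ≤ n) : ThiS n j 1 0 := by
  have hn' : (5 : ℝ) ≤ n := by exact_mod_cast hn
  have hn1 : (0 : ℝ) < (n : ℝ) - 1 := by linarith
  intro B hB e he hfl H hH T hT
  have hH1 : (1 : ℝ) ≤ H := by exact_mod_cast hH
  have hH0 : (0 : ℝ) < H := by linarith
  have h1 : T = ∅ := by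
    rw [Finset.eq_empty_iff_forall_notMem]
    intro c hc
    obtain ⟨-, t, -, hr, hg⟩ := hT c hc
    rw [gm_ad h, pow_one] at hg
    have h2 := hfl h t hr
    have h3 : (H : ℝ) ^ (-(1 / ((n : ℝ) - 1))) ≤ 1 := by
      apply Real.rpow_le_one_of_one_le_of_nonpos hH1
      have : 0 < 1 / ((n : ℝ) - 1) := by positivity
      linarith
    linarith
  rw [h1, Finset.card_empty, Nat.cast_zero]
  positivity

private theorem core (n j E κ₁ κa κb κg κ : ℕ) (ha : RgaS n j κa) (hg : ThiS n j κ₁ κg)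
    (hb : RgbS n j E κ₁ κb) (hκ : κa + κb + κg + 2 ≤ κ) : ChrS n j E κ := by
  classical
  intro B hB e he hfl H hH T hT
  have hB2 : (2 : ℝ) ≤ B := by exact_mod_cast hB
  have hB1 : (1 : ℝ) ≤ B := by linarith
  have hH1 : (1 : ℝ) ≤ H := by exact_mod_cast hH
  have hH0 : (0 : ℝ) < H := by linarith
  obtain ⟨P, hP⟩ : ∃ P : (Ix j → ℤ) → Prop, P = fun c => ∃ x y : ℤ, |y| ≤ |x| ∧
      (B : ℝ) ^ κa * H ≤ |(x : ℝ)| ∧ |(x : ℝ)| ≤ (H : ℝ) ^ al n ∧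
      ev n e x y + ev j (co c) x y = 0 := ⟨_, rfl⟩
  obtain ⟨Q, hQ⟩ : ∃ Q : (Ix j → ℤ) → Prop, Q = fun c => ∃ t : ℝ, |t| ≤ 2 ∧
      aeval t (fm e n) = 0 ∧
      (B : ℝ) ^ κ₁ * |gm n (ad e c) t| < (H : ℝ) ^ (-(1 / ((n : ℝ) - 1))) := ⟨_, rfl⟩
  have h1 := ha B hB e he H hH (T.filter P) (by
    intro c hc
    rw [Finset.mem_filter, hP] at hc
    exact ⟨(hT c hc.1).1, hc.2⟩)
  have h3 := hg B hB e he hfl H hH (T.filter Q) (by
    intro c hc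
    rw [Finset.mem_filter, hQ] at hc
    exact ⟨(hT c hc.1).1, hc.2⟩)
  have h2 := hb B hB e he H hH (T.filter fun c => ¬ P c ∧ ¬ Q c) (by
    intro c hc
    rw [Finset.mem_filter] at hc
    obtain ⟨hcT, hcP, hcQ⟩ := hc
    obtain ⟨hc1, x, y, hxy, hx1, hx2, hx3⟩ := hT c hcT
    refine ⟨hc1, ?_, x, y, hxy, ?_, hx2, hx3⟩
    · intro t ht hr
      by_contra hcon
      push Not at hcon
      apply hcQ
      rw [hQ]
      exact ⟨t, ht, hr, hcon⟩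
    · by_contra hcon
      push Not at hcon
      apply hcP
      rw [hP]
      refine ⟨x, y, hxy, ?_, hcon.le, hx3⟩
      refine le_trans ?_ hx1
      apply mul_le_mul_of_nonneg_right _ hH0.le
      exact pow_le_pow_right₀ hB1 (by omega))
  have hcov : T ⊆ (T.filter P ∪ T.filter Q) ∪ T.filter fun c => ¬ P c ∧ ¬ Q c := by
    intro c hc
    simp only [Finset.mem_union, Finset.mem_filter]
    tauto
  have hcard : (T.card : ℝ) ≤ (T.filter P).card + (T.filter Q).card +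
      (T.filter fun c => ¬ P c ∧ ¬ Q c).card := by
    have h4 := (Finset.card_le_card hcov).trans
      ((Finset.card_union_le _ _).trans (Nat.add_le_add_right (Finset.card_union_le _ _) _))
    exact_mod_cast h4
  obtain ⟨W, hW⟩ : ∃ W : ℝ, W = (2 * (H : ℝ) + 1) ^ (Fintype.card (Ix j) - 1) *
      (H : ℝ) ^ (-dl n) := ⟨_, rfl⟩
  have hW0 : 0 ≤ W := by
    rw [hW]
    have := Real.rpow_pos_of_pos hH0 (-dl n)
    positivity
  rw [mul_assoc, ← hW] at h1 h2 h3 ⊢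
  have hpw : ∀ m : ℕ, m ≤ κa + κb + κg → (B : ℝ) ^ m ≤ (B : ℝ) ^ (κa + κb + κg) := fun m hm =>
    pow_le_pow_right₀ hB1 hm
  have e1 := mul_le_mul_of_nonneg_right (hpw κa (by omega)) hW0
  have e2 := mul_le_mul_of_nonneg_right (hpw κb (by omega)) hW0
  have e3 := mul_le_mul_of_nonneg_right (hpw κg (by omega)) hW0
  have e4 : (3 : ℝ) ≤ (B : ℝ) ^ 2 := by nlinarith
  have e5 : 0 ≤ (B : ℝ) ^ (κa + κb + κg) * W := by positivity
  calc (T.card : ℝ) ≤ 3 * ((B : ℝ) ^ (κa + κb + κg) * W) := by linarith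
    _ ≤ (B : ℝ) ^ 2 * ((B : ℝ) ^ (κa + κb + κg) * W) := mul_le_mul_of_nonneg_right e4 e5
    _ = (B : ℝ) ^ (κa + κb + κg + 2) * W := by ring
    _ ≤ (B : ℝ) ^ κ * W := mul_le_mul_of_nonneg_right (pow_le_pow_right₀ hB1 hκ) hW0

/-- `chr` with an explicit exponent -/
theorem chr_ex (n j E κa κg κb κc : ℕ) (hn : 5 ≤ n) (ha : RgaS n j κa)
    (hg : n ≤ j + 2 → GamS n j κg) (hb : n ≤ j + 2 → RgbS n j E κg κb)
    (hc : j + 3 ≤ n → RgbS n j E 1 κc) : ChrS n j E (κa + κg + κb + κc + 2) := by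
  rcases Nat.lt_or_ge n (j + 3) with h | h
  · exact core n j E κg κa κb κg _ ha (third_gam n j κg hn (hg (by omega))) (hb (by omega))
      (by omega)
  · exact core n j E 1 κa κc 0 _ ha (third_far n j hn h) (hc h) (by omega)

theorem chr (n j E : ℕ) (hn : 5 ≤ n) (hj : 3 ≤ j) (hjn : j < n) : ∃ κ : ℕ, ∀ B : ℕ, 2 ≤ B → ∀ e : ℕ → ℕ → ℤ, Bas n B e →
    (j + 3 ≤ n → ∀ t : ℝ, aeval t (fm e n) = 0 → 1 ≤ (B : ℝ) * |gm n e t|) →
    ∀ H : ℕ, 1 ≤ H → ∀ T : Finset (Ix j → ℤ),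
    (∀ c ∈ T, (∀ p, |c p| ≤ (H : ℤ)) ∧ ∃ x y : ℤ, |y| ≤ |x| ∧ (B : ℝ) ^ κ * H ≤ |(x : ℝ)| ∧ |(x : ℝ)| ≤ ((B * H : ℕ) : ℝ) ^ E ∧
      ev n e x y + ev j (co c) x y = 0) →
    (T.card : ℝ) ≤ (B : ℝ) ^ κ * (2 * (H : ℝ) + 1) ^ (Fintype.card (Ix j) - 1) * (H : ℝ) ^ (-dl n) := by
  obtain ⟨κa, ha⟩ := rga n j hn hj hjn
  obtain ⟨κc, hc⟩ := rgb n j E 1 hn hj hjn
  rcases Nat.lt_or_ge n (j + 3) with h | h
  · obtain ⟨κg, hg⟩ := gam n j hn hjn (by omega)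
    obtain ⟨κb, hb⟩ := rgb n j E κg hn hj hjn
    exact ⟨_, chr_ex n j E κa κg κb κc hn ha (fun _ => hg) (fun _ => hb) fun _ => hc⟩
  · exact ⟨_, chr_ex n j E κa 0 0 κc hn ha (fun h' => absurd h (by omega))
      (fun h' => absurd h (by omega)) fun _ => hc⟩

end Pool.Agent.H88.TU
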