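import Pool.Agent.H88.TU.Exp
import Pool.Agent.H88.TU.Sta

/-! # [H88 TU CU1] Three collinear points near an asymptote

`D = φ_n'(t)`, `β = be n e t`, `s_i = y_i - t x_i`; the points lie on `s(x) = s₀ + τ (x - x₀)`, `|s(x) - β| ≤ K H²/X` on `[x₀,x₂]` (convexity), `|s| ≤ K^c H`.
`ψ(x) = evR n e x (t x + s(x)) / x^(n-1) = D (s(x) - β) + ∑_(i=2)^n ∑_(m ≤ i) q_(i,m) s^m x^(1-i)` (`exp`, `q 0 0 = 0`); `|ψ(x_i)| ≤ K H X^(k+1-n) ≤ K H/X³`.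
Step 1. Mean value theorem on `[x₀,x₂]`, `x₂ - x₀ ≥ 1`: `|ψ'| ≤ 2 K H/X³` somewhere; `ψ' = D τ + O(K^c (H/X) |τ|) + O(K^c H²/X²)`, so `|τ| ≤ K^c H²/X²`.
Step 2. `(s^m x^(1-i))'' = m(m-1) s^(m-2) τ² x^(1-i) - 2 m (i-1) s^(m-1) τ x^(-i) + i(i-1) s^m x^(-i-1)`: the main term is `i = 2`: `2 a₂(s)/x³`, `a₂(s) = q20 + q21 s + q22 s²`; all the others are
`O(K^c H³/X⁴)` (`H ≤ X`), and `a₂(s) = a₂(β) + O(K^c H³/X)`, `D² a₂(β) = gm n e t`. So `|ψ'' - 2 gm/(D² x³)| ≤ K^c H³/X⁴`, hence by `K^κ H³ ≤ |gm| X`: `ψ''` has constant sign and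
`|ψ''| ≥ |gm|/(K^c X³)` on `[x₀,x₂]`.
Step 3. If `ψ'' ≥ μ > 0` then `ψ - μ x²/2` is convex (`convexOn_of_deriv2_nonneg` or the mean value theorem): `μ/2 (x₁-x₀)(x₂-x₁) ≤ max|ψ(x_i)| * 2`. So `|gm| (x₁-x₀)(x₂-x₁) ≤ K^κ H`. -/

namespace Pool.Agent.H88.TU

open Finset Polynomial Pool.Agent.H8.AA Pool.Agent.H88.A2

/-- Rolle twice -/
private theorem dd2 {f f1 f2 : ℝ → ℝ} {x₀ x₁ x₂ : ℝ} (h01 : x₀ < x₁) (h12 : x₁ < x₂)
    (hf : ∀ x ∈ Set.Icc x₀ x₂, HasDerivAt f (f1 x) x) (hf1 : ∀ x ∈ Set.Icc x₀ x₂, HasDerivAt f1 (f2 x) x) :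
    ∃ ξ ∈ Set.Icc x₀ x₂, f2 ξ * ((x₁ - x₀) * (x₂ - x₁) * (x₂ - x₀)) =
      2 * (f x₀ * (x₂ - x₁) - f x₁ * (x₂ - x₀) + f x₂ * (x₁ - x₀)) := by
  have d01 : 0 < x₁ - x₀ := sub_pos.2 h01
  have d12 : 0 < x₂ - x₁ := sub_pos.2 h12
  have d02 : 0 < x₂ - x₀ := by linarith
  obtain ⟨L, hL⟩ : ∃ L : ℝ, L * ((x₁ - x₀) * (x₂ - x₁) * (x₂ - x₀)) =
      f x₀ * (x₂ - x₁) - f x₁ * (x₂ - x₀) + f x₂ * (x₁ - x₀) :=
    ⟨_, div_mul_cancel₀ _ (by positivity)⟩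
  obtain ⟨c, hc⟩ : ∃ c : ℝ, c * (x₁ - x₀) = f x₁ - f x₀ := ⟨_, div_mul_cancel₀ _ d01.ne'⟩
  have hg : ∀ x ∈ Set.Icc x₀ x₂, HasDerivAt (fun x => f x - L * x ^ 2 - (c - L * (x₀ + x₁)) * x)
      (f1 x - 2 * L * x - (c - L * (x₀ + x₁))) x := by
    intro x hx
    refine (((hf x hx).sub ((hasDerivAt_pow 2 x).const_mul L)).sub
      ((hasDerivAt_id x).const_mul (c - L * (x₀ + x₁)))).congr_deriv ?_
    push_cast
    ring
  have hg1 : ∀ x ∈ Set.Icc x₀ x₂, HasDerivAt (fun x => f1 x - 2 * L * x - (c - L * (x₀ + x₁))) (f2 x - 2 * L) x := by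
    intro x hx
    refine (((hf1 x hx).sub ((hasDerivAt_id x).const_mul (2 * L))).sub_const (c - L * (x₀ + x₁))).congr_deriv ?_
    ring
  have e01 : f x₀ - L * x₀ ^ 2 - (c - L * (x₀ + x₁)) * x₀ = f x₁ - L * x₁ ^ 2 - (c - L * (x₀ + x₁)) * x₁ := by
    linear_combination hc
  have e12 : f x₁ - L * x₁ ^ 2 - (c - L * (x₀ + x₁)) * x₁ = f x₂ - L * x₂ ^ 2 - (c - L * (x₀ + x₁)) * x₂ := by
    have h : (x₁ - x₀) * (f x₁ - L * x₁ ^ 2 - (c - L * (x₀ + x₁)) * x₁) =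
        (x₁ - x₀) * (f x₂ - L * x₂ ^ 2 - (c - L * (x₀ + x₁)) * x₂) := by
      linear_combination hL + (x₂ - x₁) * hc
    exact mul_left_cancel₀ d01.ne' h
  obtain ⟨a, ⟨ha0, ha1⟩, ha⟩ := exists_hasDerivAt_eq_zero h01
    (fun x hx => (hg x ⟨hx.1, hx.2.trans h12.le⟩).continuousAt.continuousWithinAt) e01
    (fun x hx => hg x ⟨hx.1.le, (hx.2.trans h12).le⟩)
  obtain ⟨b, ⟨hb0, hb1⟩, hb⟩ := exists_hasDerivAt_eq_zero h12
    (fun x hx => (hg x ⟨h01.le.trans hx.1, hx.2⟩).continuousAt.continuousWithinAt) e12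
    (fun x hx => hg x ⟨(h01.trans hx.1).le, hx.2.le⟩)
  have hab : a < b := ha1.trans hb0
  obtain ⟨ξ, ⟨hx0, hx1⟩, hξ⟩ := exists_hasDerivAt_eq_zero hab
    (fun x hx => (hg1 x ⟨ha0.le.trans hx.1, hx.2.trans hb1.le⟩).continuousAt.continuousWithinAt)
    (ha.trans hb.symm) (fun x hx => hg1 x ⟨(ha0.trans hx.1).le, (hx.2.trans hb1).le⟩)
  refine ⟨ξ, ⟨(ha0.trans hx0).le, (hx1.trans hb1).le⟩, ?_⟩
  linear_combination ((x₁ - x₀) * (x₂ - x₁) * (x₂ - x₀)) * hξ + 2 * hL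

/-- `s^m x^(-j)` -/
private noncomputable def T (s : ℝ → ℝ) (m j : ℕ) (x : ℝ) : ℝ := s x ^ m * (x ^ j)⁻¹

private theorem T_deriv {s : ℝ → ℝ} {τ x : ℝ} (hs : HasDerivAt s τ x) (hx : x ≠ 0) (m j : ℕ) :
    HasDerivAt (T s m j) (m * τ * T s (m - 1) j x - j * T s m (j + 1) x) x := by
  unfold T
  refine ((hs.pow m).mul ((hasDerivAt_pow j x).inv (pow_ne_zero j hx))).congr_deriv ?_
  rcases j with _ | j
  · simp
    ring
  · simp only [Pi.inv_apply, Pi.pow_apply]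
    push_cast
    field_simp
    ring

private theorem tb {B A H X x : ℝ} {s : ℝ → ℝ} {n i m p j : ℕ} {Q : ℝ} (hA : 1 ≤ A) (hH : 0 ≤ H) (hX : 0 < X)
    (hx : X ≤ x) (hs : |s x| ≤ A * H) (hm : m ≤ i) (hi : i ≤ n) (hp : p ≤ m) (hQ : |Q| ≤ B * H ^ (i - m)) :
    |Q * T s (m - p) j x| ≤ B * A ^ n * (H ^ (i - p) / X ^ j) := by
  have hx0 : 0 < x := hX.trans_le hx
  have h1 : |T s (m - p) j x| ≤ A ^ n * H ^ (m - p) * (X ^ j)⁻¹ := by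
    unfold T
    rw [abs_mul, abs_pow, abs_of_pos (inv_pos.2 (pow_pos hx0 j))]
    have h2 : |s x| ^ (m - p) ≤ A ^ n * H ^ (m - p) := by
      calc |s x| ^ (m - p) ≤ (A * H) ^ (m - p) := pow_le_pow_left₀ (abs_nonneg _) hs _
        _ = A ^ (m - p) * H ^ (m - p) := mul_pow _ _ _
        _ ≤ _ := mul_le_mul_of_nonneg_right (pow_le_pow_right₀ hA (by omega)) (pow_nonneg hH _)
    have h3 : (x ^ j)⁻¹ ≤ (X ^ j)⁻¹ := inv_anti₀ (pow_pos hX j) (pow_le_pow_left₀ hX.le hx j)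
    exact mul_le_mul h2 h3 (inv_pos.2 (pow_pos hx0 j)).le (by positivity)
  have h4 : H ^ (i - m) * H ^ (m - p) = H ^ (i - p) := by
    rw [← pow_add]
    exact congrArg (fun z => H ^ z) (by omega)
  rw [abs_mul]
  calc |Q| * |T s (m - p) j x| ≤ (B * H ^ (i - m)) * (A ^ n * H ^ (m - p) * (X ^ j)⁻¹) :=
        mul_le_mul hQ h1 (abs_nonneg _) ((abs_nonneg _).trans hQ)
    _ = B * A ^ n * ((H ^ (i - m) * H ^ (m - p)) / X ^ j) := by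
        rw [div_eq_mul_inv]
        ring
    _ = _ := by rw [h4]

private theorem dsum {N M : ℕ} {a : ℕ → ℕ → ℝ} {c : ℝ} (hc : 0 ≤ c) (h : ∀ j < N, ∀ m < j + M, |a j m| ≤ c) :
    |∑ j ∈ range N, ∑ m ∈ range (j + M), a j m| ≤ ((N : ℝ) + M) ^ 2 * c := by
  have h1 : ∀ j ∈ range N, |∑ m ∈ range (j + M), a j m| ≤ ((N : ℝ) + M) * c := by
    intro j hj
    rw [mem_range] at hj
    refine (abs_sum_le_sum_abs _ _).trans ?_
    refine (sum_le_card_nsmul _ _ c (fun m hm => h j hj m (by rwa [mem_range] at hm))).trans ?_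
    rw [card_range, nsmul_eq_mul]
    refine mul_le_mul_of_nonneg_right ?_ hc
    have : j + M ≤ N + M := by omega
    exact_mod_cast this
  refine (abs_sum_le_sum_abs _ _).trans ?_
  refine (sum_le_card_nsmul _ _ _ h1).trans ?_
  rw [card_range, nsmul_eq_mul]
  have hN : (0 : ℝ) ≤ N := Nat.cast_nonneg _
  have hM : (0 : ℝ) ≤ M := Nat.cast_nonneg _
  have : 0 ≤ ((N : ℝ) + M) * c := by positivity
  nlinarith [mul_nonneg hM this]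

private theorem ep0 {H X : ℝ} (hH : 0 ≤ H) (hX : 0 < X) (hHX : H ≤ X) {a k : ℕ} (hk : k ≤ a) :
    H ^ a / X ^ a ≤ (H / X) ^ k := by
  rw [← div_pow]
  exact pow_le_pow_of_le_one (div_nonneg hH hX.le) ((div_le_one hX).2 hHX) hk

private theorem ep1 {H X : ℝ} (hH : 0 ≤ H) (hX : 0 < X) (hHX : H ≤ X) {a k : ℕ} (hk : k ≤ a) :
    H ^ a / X ^ (a + 1) ≤ (H / X) ^ k / X := by
  rw [pow_succ, ← div_div]
  exact div_le_div_of_nonneg_right (ep0 hH hX hHX hk) hX.le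

/-- the function `ψ` -/
private noncomputable def ps (q : ℕ → ℕ → ℝ) (N : ℕ) (s : ℝ → ℝ) (x : ℝ) : ℝ :=
  q 1 0 + q 1 1 * s x + ∑ j ∈ range N, ∑ m ∈ range (j + 3), q (j + 2) m * T s m (j + 1) x

private noncomputable def ps1 (q : ℕ → ℕ → ℝ) (N : ℕ) (s : ℝ → ℝ) (τ x : ℝ) : ℝ :=
  q 1 1 * τ + ∑ j ∈ range N, ∑ m ∈ range (j + 3),
    q (j + 2) m * (m * τ * T s (m - 1) (j + 1) x - ((j + 1 : ℕ) : ℝ) * T s m (j + 1 + 1) x)

private noncomputable def ps2 (q : ℕ → ℕ → ℝ) (N : ℕ) (s : ℝ → ℝ) (τ x : ℝ) : ℝ :=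
  ∑ j ∈ range N, ∑ m ∈ range (j + 3),
    q (j + 2) m * (m * τ * (((m - 1 : ℕ) : ℝ) * τ * T s (m - 1 - 1) (j + 1) x -
      ((j + 1 : ℕ) : ℝ) * T s (m - 1) (j + 1 + 1) x) -
      ((j + 1 : ℕ) : ℝ) * (m * τ * T s (m - 1) (j + 1 + 1) x - ((j + 1 + 1 : ℕ) : ℝ) * T s m (j + 1 + 1 + 1) x))

private theorem ps_deriv {q : ℕ → ℕ → ℝ} {N : ℕ} {s : ℝ → ℝ} {τ x : ℝ} (hs : HasDerivAt s τ x) (hx : x ≠ 0) :
    HasDerivAt (ps q N s) (ps1 q N s τ x) x := by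
  unfold ps ps1
  refine HasDerivAt.add ?_ ?_
  · exact ((hs.const_mul (q 1 1)).const_add (q 1 0))
  · refine HasDerivAt.fun_sum fun j _ => HasDerivAt.fun_sum fun m _ => ?_
    exact (T_deriv hs hx m (j + 1)).const_mul _

private theorem ps1_deriv {q : ℕ → ℕ → ℝ} {N : ℕ} {s : ℝ → ℝ} {τ x : ℝ} (hs : HasDerivAt s τ x) (hx : x ≠ 0) :
    HasDerivAt (ps1 q N s τ) (ps2 q N s τ x) x := by
  unfold ps1 ps2
  refine HasDerivAt.const_add _ ?_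
  refine HasDerivAt.fun_sum fun j _ => HasDerivAt.fun_sum fun m _ => ?_
  exact (((T_deriv hs hx (m - 1) (j + 1)).const_mul (m * τ)).sub
    ((T_deriv hs hx m (j + 1 + 1)).const_mul ((j + 1 : ℕ) : ℝ))).const_mul _

private theorem ev_eq {q : ℕ → ℕ → ℝ} (N : ℕ) {s : ℝ → ℝ} {x : ℝ} (hx : x ≠ 0) (h0 : q 0 0 = 0) :
    ∑ i ∈ range (N + 1 + 1), ∑ m ∈ range (i + 1), q i m * s x ^ m * x ^ (N + 1 - i) = x ^ N * ps q N s x := by
  unfold ps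
  rw [sum_range_succ', sum_range_succ']
  have h1 : ∑ m ∈ range (0 + 1), q 0 m * s x ^ m * x ^ (N + 1 - 0) = 0 := by
    simp [h0]
  have h2 : ∑ m ∈ range (0 + 1 + 1), q (0 + 1) m * s x ^ m * x ^ (N + 1 - (0 + 1)) =
      x ^ N * (q 1 0 + q 1 1 * s x) := by
    rw [sum_range_succ, sum_range_one]
    simp only [Nat.zero_add, Nat.add_sub_cancel, pow_zero, pow_one, mul_one]
    ring
  rw [h1, h2, add_zero, mul_add (x ^ N) (q 1 0 + q 1 1 * s x), add_comm]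
  congr 1
  rw [mul_sum]
  refine sum_congr rfl fun j hj => ?_
  rw [mem_range] at hj
  rw [mul_sum]
  refine sum_congr rfl fun m _ => ?_
  unfold T
  have h3 : x ^ N = x ^ (N + 1 - (j + 1 + 1)) * x ^ (j + 1) := by
    rw [← pow_add]
    exact congrArg (fun z => x ^ z) (by omega)
  rw [h3]
  have h4 : x ^ (j + 1) ≠ 0 := pow_ne_zero _ hx
  field_simp

section bounds

variable {B A H X x τ : ℝ} {s : ℝ → ℝ} {q : ℕ → ℕ → ℝ} {n : ℕ}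

private theorem t0 (hA : 1 ≤ A) (hH : 0 ≤ H) (hX : 0 < X) (hx : X ≤ x) (hs : |s x| ≤ A * H)
    (hq : ∀ i m, m ≤ i → i ≤ n → |q i m| ≤ B * H ^ (i - m)) {j m J : ℕ} (hj : j + 2 ≤ n) (hm : m ≤ j + 2) :
    |q (j + 2) m * T s m J x| ≤ B * A ^ n * (H ^ (j + 2) / X ^ J) := by
  have h := tb (j := J) (p := 0) hA hH hX hx hs hm hj (Nat.zero_le m) (hq _ _ hm hj)
  rwa [Nat.sub_zero, Nat.sub_zero] at h

private theorem t1 (hB : 0 ≤ B) (hA : 1 ≤ A) (hH : 0 ≤ H) (hX : 0 < X) (hx : X ≤ x) (hs : |s x| ≤ A * H)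
    (hq : ∀ i m, m ≤ i → i ≤ n → |q i m| ≤ B * H ^ (i - m)) {j m J : ℕ} (hj : j + 2 ≤ n) (hm : m ≤ j + 2) :
    |q (j + 2) m * (m * T s (m - 1) J x)| ≤ n * (B * A ^ n * (H ^ (j + 1) / X ^ J)) := by
  have h5 : 0 ≤ B * A ^ n * (H ^ (j + 1) / X ^ J) := by positivity
  rcases Nat.eq_zero_or_pos m with rfl | hm0
  · simp only [Nat.cast_zero, zero_mul, mul_zero, abs_zero]
    positivity
  · have h := tb (j := J) (p := 1) hA hH hX hx hs hm hj hm0 (hq _ _ hm hj)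
    have h2 : j + 2 - 1 = j + 1 := by omega
    rw [h2] at h
    have h3 : q (j + 2) m * (m * T s (m - 1) J x) = m * (q (j + 2) m * T s (m - 1) J x) := by ring
    rw [h3, abs_mul, Nat.abs_cast]
    have h4 : (m : ℝ) ≤ n := by exact_mod_cast hm.trans hj
    exact mul_le_mul h4 h (abs_nonneg _) (Nat.cast_nonneg _)

private theorem t2 (hB : 0 ≤ B) (hA : 1 ≤ A) (hH : 0 ≤ H) (hX : 0 < X) (hx : X ≤ x) (hs : |s x| ≤ A * H)
    (hq : ∀ i m, m ≤ i → i ≤ n → |q i m| ≤ B * H ^ (i - m)) {j m J : ℕ} (hj : j + 2 ≤ n) (hm : m ≤ j + 2) :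
    |q (j + 2) m * (m * (((m - 1 : ℕ) : ℝ) * T s (m - 1 - 1) J x))| ≤ n ^ 2 * (B * A ^ n * (H ^ j / X ^ J)) := by
  have h5 : 0 ≤ B * A ^ n * (H ^ j / X ^ J) := by positivity
  rcases Nat.lt_or_ge m 2 with hm2 | hm2
  · have : (m : ℝ) * (((m - 1 : ℕ) : ℝ) * T s (m - 1 - 1) J x) = 0 := by
      interval_cases m
      · simp
      · simp
    rw [this, mul_zero, abs_zero]
    positivity
  · have h := tb (j := J) (p := 2) hA hH hX hx hs hm hj hm2 (hq _ _ hm hj)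
    have h2 : j + 2 - 2 = j := by omega
    have h6 : m - 1 - 1 = m - 2 := by omega
    rw [h2] at h
    rw [h6]
    have h3 : q (j + 2) m * (m * (((m - 1 : ℕ) : ℝ) * T s (m - 2) J x)) =
        (m * ((m - 1 : ℕ) : ℝ)) * (q (j + 2) m * T s (m - 2) J x) := by ring
    rw [h3, abs_mul, abs_mul, Nat.abs_cast, Nat.abs_cast]
    have h4 : (m : ℝ) ≤ n := by exact_mod_cast hm.trans hj
    have h7 : ((m - 1 : ℕ) : ℝ) ≤ n := by exact_mod_cast (Nat.sub_le m 1).trans (hm.trans hj)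
    have h8 : (m : ℝ) * ((m - 1 : ℕ) : ℝ) ≤ (n : ℝ) ^ 2 := by
      rw [pow_two]
      exact mul_le_mul h4 h7 (Nat.cast_nonneg _) (Nat.cast_nonneg _)
    exact mul_le_mul h8 h (abs_nonneg _) (by positivity)

/-- the first derivative -/
private theorem b1 (hB : 0 ≤ B) (hA : 1 ≤ A) (hH : 0 ≤ H) (hX : 0 < X) (hHX : H ≤ X) (hx : X ≤ x)
    (hs : |s x| ≤ A * H) {N : ℕ} (hN : n = N + 1)
    (hq : ∀ i m, m ≤ i → i ≤ n → |q i m| ≤ B * H ^ (i - m)) :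
    |ps1 q N s τ x - q 1 1 * τ| ≤ ((N : ℝ) + 4) ^ 2 * (n ^ 2 * (B * A ^ n)) * (|τ| * (H / X) + (H / X) ^ 2) := by
  have hn1 : (1 : ℝ) ≤ n := by
    rw [hN]
    push_cast
    linarith [(Nat.cast_nonneg N : (0 : ℝ) ≤ N)]
  have hP : 0 ≤ B * A ^ n := by positivity
  have hε : 0 ≤ H / X := div_nonneg hH hX.le
  set c : ℝ := n ^ 2 * (B * A ^ n) * (|τ| * (H / X) + (H / X) ^ 2) with hc
  have hc0 : 0 ≤ c := by positivity
  have key : ∀ j < N, ∀ m < j + 3,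
      |q (j + 2) m * (m * τ * T s (m - 1) (j + 1) x - ((j + 1 : ℕ) : ℝ) * T s m (j + 1 + 1) x)| ≤ c := by
    intro j hj m hm
    have hj2 : j + 2 ≤ n := by omega
    have hm2 : m ≤ j + 2 := by omega
    have e1 := t1 (J := j + 1) hB hA hH hX hx hs hq hj2 hm2
    have e2 := t0 (J := j + 1 + 1) hA hH hX hx hs hq hj2 hm2
    have f1 := ep0 hH hX hHX (a := j + 1) (k := 1) (by omega)
    have f2 := ep0 hH hX hHX (a := j + 2) (k := 2) (by omega)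
    rw [pow_one] at f1
    have g : q (j + 2) m * (m * τ * T s (m - 1) (j + 1) x - ((j + 1 : ℕ) : ℝ) * T s m (j + 1 + 1) x) =
        τ * (q (j + 2) m * (m * T s (m - 1) (j + 1) x)) - ((j + 1 : ℕ) : ℝ) * (q (j + 2) m * T s m (j + 1 + 1) x) := by
      ring
    rw [g]
    refine (abs_sub _ _).trans ?_
    rw [abs_mul τ, abs_mul ((j + 1 : ℕ) : ℝ), Nat.abs_cast]
    have k1 : |τ| * |q (j + 2) m * (m * T s (m - 1) (j + 1) x)| ≤ |τ| * (n ^ 2 * (B * A ^ n * (H / X))) := by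
      refine mul_le_mul_of_nonneg_left (e1.trans ?_) (abs_nonneg _)
      have : (n : ℝ) ≤ n ^ 2 := by nlinarith
      refine mul_le_mul this (mul_le_mul_of_nonneg_left f1 hP) (by positivity) (by positivity)
    have k2 : ((j + 1 : ℕ) : ℝ) * |q (j + 2) m * T s m (j + 1 + 1) x| ≤ n ^ 2 * (B * A ^ n * (H / X) ^ 2) := by
      have h1 : ((j + 1 : ℕ) : ℝ) ≤ n := by exact_mod_cast (by omega : j + 1 ≤ n)
      have h2 : ((j + 1 : ℕ) : ℝ) ≤ n ^ 2 := by nlinarith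
      exact mul_le_mul h2 (e2.trans (mul_le_mul_of_nonneg_left f2 hP)) (abs_nonneg _) (by positivity)
    calc _ ≤ |τ| * (n ^ 2 * (B * A ^ n * (H / X))) + n ^ 2 * (B * A ^ n * (H / X) ^ 2) := add_le_add k1 k2
      _ = c := by rw [hc]; ring
  have h := dsum hc0 key
  have h2 : ps1 q N s τ x - q 1 1 * τ = ∑ j ∈ range N, ∑ m ∈ range (j + 3),
      q (j + 2) m * (m * τ * T s (m - 1) (j + 1) x - ((j + 1 : ℕ) : ℝ) * T s m (j + 1 + 1) x) := by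
    unfold ps1
    ring
  rw [h2]
  refine h.trans ?_
  have h3 : ((N : ℝ) + ((3 : ℕ) : ℝ)) ^ 2 ≤ ((N : ℝ) + 4) ^ 2 := by
    push_cast
    nlinarith [(Nat.cast_nonneg N : (0 : ℝ) ≤ N)]
  refine (mul_le_mul_of_nonneg_right h3 hc0).trans (le_of_eq ?_)
  rw [hc]
  ring

/-- the second derivative -/
private theorem b2 (hB : 0 ≤ B) (hA : 1 ≤ A) (hH : 0 ≤ H) (hX : 0 < X) (hHX : H ≤ X) (hx : X ≤ x)
    (hs : |s x| ≤ A * H) {N : ℕ} (hN : n = N + 1 + 1)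
    (hq : ∀ i m, m ≤ i → i ≤ n → |q i m| ≤ B * H ^ (i - m)) :
    |ps2 q (N + 1) s τ x - 2 * (q 2 0 + q 2 1 * s x + q 2 2 * s x ^ 2) / x ^ 3| ≤
      ((N : ℝ) + 4) ^ 2 * (n ^ 2 * (B * A ^ n)) *
        ((|τ| ^ 2 + 2 * |τ| * (H / X) + (H / X) ^ 3) / X) := by
  have hx0 : 0 < x := hX.trans_le hx
  have hP : 0 ≤ B * A ^ n := by positivity
  have hε : 0 ≤ H / X := div_nonneg hH hX.le
  have hn2 : (0 : ℝ) ≤ n := Nat.cast_nonneg n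
  set U : ℕ → ℕ → ℝ := fun j m => q (j + 2) m * (m * τ * (((m - 1 : ℕ) : ℝ) * τ * T s (m - 1 - 1) (j + 1) x -
      ((j + 1 : ℕ) : ℝ) * T s (m - 1) (j + 1 + 1) x) -
      ((j + 1 : ℕ) : ℝ) * (m * τ * T s (m - 1) (j + 1 + 1) x)) with hU
  set V : ℕ → ℕ → ℝ := fun j m => q (j + 2) m * (((j + 1 : ℕ) : ℝ) * (((j + 1 + 1 : ℕ) : ℝ) *
      T s m (j + 1 + 1 + 1) x)) with hV
  have split : ps2 q (N + 1) s τ x = (∑ j ∈ range (N + 1), ∑ m ∈ range (j + 3), U j m) +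
      ((∑ j ∈ range N, ∑ m ∈ range (j + 4), V (j + 1) m) +
        2 * (q 2 0 + q 2 1 * s x + q 2 2 * s x ^ 2) / x ^ 3) := by
    have h1 : ps2 q (N + 1) s τ x = ∑ j ∈ range (N + 1), ∑ m ∈ range (j + 3), (U j m + V j m) := by
      unfold ps2
      refine sum_congr rfl fun j _ => sum_congr rfl fun m _ => ?_
      rw [hU, hV]
      ring
    have h2 : ∑ j ∈ range (N + 1), ∑ m ∈ range (j + 3), (U j m + V j m) =
        (∑ j ∈ range (N + 1), ∑ m ∈ range (j + 3), U j m) + ∑ j ∈ range (N + 1), ∑ m ∈ range (j + 3), V j m := by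
      rw [← sum_add_distrib]
      exact sum_congr rfl fun j _ => sum_add_distrib
    have h3 : ∑ j ∈ range (N + 1), ∑ m ∈ range (j + 3), V j m =
        (∑ j ∈ range N, ∑ m ∈ range (j + 4), V (j + 1) m) + ∑ m ∈ range 3, V 0 m := by
      rw [sum_range_succ']
    have h4 : ∑ m ∈ range 3, V 0 m = 2 * (q 2 0 + q 2 1 * s x + q 2 2 * s x ^ 2) / x ^ 3 := by
      rw [hV]
      simp only [sum_range_succ, range_zero, sum_empty, T]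
      push_cast
      field_simp
      ring
    rw [h1, h2, h3, h4]
  have hUb : ∀ j < N + 1, ∀ m < j + 3, |U j m| ≤ n ^ 2 * (B * A ^ n) * ((|τ| ^ 2 + 2 * |τ| * (H / X)) / X) := by
    intro j hj m hm
    have hj2 : j + 2 ≤ n := by omega
    have hm2 : m ≤ j + 2 := by omega
    have e1 := t1 (J := j + 1 + 1) hB hA hH hX hx hs hq hj2 hm2
    have e2 := t2 (J := j + 1) hB hA hH hX hx hs hq hj2 hm2
    have f1 := ep1 hH hX hHX (a := j + 1) (k := 1) (by omega)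
    have f2 := ep1 hH hX hHX (a := j) (k := 0) (by omega)
    rw [pow_one] at f1
    rw [pow_zero] at f2
    have g : U j m = τ ^ 2 * (q (j + 2) m * (m * (((m - 1 : ℕ) : ℝ) * T s (m - 1 - 1) (j + 1) x))) -
        (2 * τ * ((j + 1 : ℕ) : ℝ)) * (q (j + 2) m * (m * T s (m - 1) (j + 1 + 1) x)) := by
      rw [hU]
      ring
    rw [g]
    refine (abs_sub _ _).trans ?_
    rw [abs_mul (τ ^ 2), abs_mul (2 * τ * _), abs_mul (2 * τ), abs_mul 2 τ, Nat.abs_cast, abs_pow, abs_two]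
    have k1 : |τ| ^ 2 * |q (j + 2) m * (m * (((m - 1 : ℕ) : ℝ) * T s (m - 1 - 1) (j + 1) x))| ≤
        |τ| ^ 2 * (n ^ 2 * (B * A ^ n * (1 / X))) := by
      refine mul_le_mul_of_nonneg_left (e2.trans ?_) (by positivity)
      exact mul_le_mul_of_nonneg_left (mul_le_mul_of_nonneg_left f2 hP) (by positivity)
    have k2 : (2 * |τ| * ((j + 1 : ℕ) : ℝ)) * |q (j + 2) m * (m * T s (m - 1) (j + 1 + 1) x)| ≤
        (2 * |τ|) * (n ^ 2 * (B * A ^ n * (H / X / X))) := by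
      have h1 : ((j + 1 : ℕ) : ℝ) ≤ n := by exact_mod_cast (by omega : j + 1 ≤ n)
      have h2 : ((j + 1 : ℕ) : ℝ) * |q (j + 2) m * (m * T s (m - 1) (j + 1 + 1) x)| ≤
          n * (n * (B * A ^ n * (H / X / X))) :=
        mul_le_mul h1 (e1.trans (mul_le_mul_of_nonneg_left (mul_le_mul_of_nonneg_left f1 hP) hn2))
          (abs_nonneg _) hn2
      calc _ = (2 * |τ|) * (((j + 1 : ℕ) : ℝ) * |q (j + 2) m * (m * T s (m - 1) (j + 1 + 1) x)|) := by ring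
        _ ≤ (2 * |τ|) * (n * (n * (B * A ^ n * (H / X / X)))) := mul_le_mul_of_nonneg_left h2 (by positivity)
        _ = _ := by ring
    calc _ ≤ |τ| ^ 2 * (n ^ 2 * (B * A ^ n * (1 / X))) + (2 * |τ|) * (n ^ 2 * (B * A ^ n * (H / X / X))) :=
          add_le_add k1 k2
      _ = _ := by ring
  have hVb : ∀ j < N, ∀ m < j + 4, |V (j + 1) m| ≤ n ^ 2 * (B * A ^ n) * ((H / X) ^ 3 / X) := by
    intro j hj m hm
    have hj2 : j + 1 + 2 ≤ n := by omega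
    have hm2 : m ≤ j + 1 + 2 := by omega
    have e1 := t0 (J := j + 1 + 1 + 1 + 1) hA hH hX hx hs hq hj2 hm2
    have f1 := ep1 hH hX hHX (a := j + 1 + 2) (k := 3) (by omega)
    have g : V (j + 1) m = (((j + 1 + 1 : ℕ) : ℝ) * ((j + 1 + 1 + 1 : ℕ) : ℝ)) *
        (q (j + 1 + 2) m * T s m (j + 1 + 1 + 1 + 1) x) := by
      rw [hV]
      ring
    rw [g, abs_mul, abs_mul, Nat.abs_cast, Nat.abs_cast]
    have h1 : ((j + 1 + 1 : ℕ) : ℝ) ≤ n := by exact_mod_cast (by omega : j + 1 + 1 ≤ n)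
    have h2 : ((j + 1 + 1 + 1 : ℕ) : ℝ) ≤ n := by exact_mod_cast (by omega : j + 1 + 1 + 1 ≤ n)
    have h3 : ((j + 1 + 1 : ℕ) : ℝ) * ((j + 1 + 1 + 1 : ℕ) : ℝ) ≤ (n : ℝ) ^ 2 := by
      rw [pow_two]
      exact mul_le_mul h1 h2 (Nat.cast_nonneg _) hn2
    calc _ ≤ (n : ℝ) ^ 2 * (B * A ^ n * ((H / X) ^ 3 / X)) :=
          mul_le_mul h3 (e1.trans (mul_le_mul_of_nonneg_left f1 hP)) (abs_nonneg _) (by positivity)
      _ = _ := by ring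
  have s1 := dsum (by positivity) hUb
  have s2 := dsum (by positivity) hVb
  rw [split, ← add_assoc, add_sub_cancel_right]
  refine (abs_add_le _ _).trans ((add_le_add s1 s2).trans (le_of_eq ?_))
  push_cast
  ring

end bounds

private theorem step1 {K W D τ ε : ℝ} (hK : 2 ≤ K) (hW : 0 ≤ W) (hε : 0 ≤ ε) (hD : 1 ≤ K * |D|)
    (h : |D| * |τ| ≤ 2 * K * ε ^ 2 + W * (|τ| * ε + ε ^ 2)) (hs : 2 * K * W * ε ≤ 1) :
    |τ| ≤ 2 * K * (2 * K + W) * ε ^ 2 := by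
  have h0 := abs_nonneg τ
  have h1 : |τ| ≤ K * (|D| * |τ|) := by
    calc |τ| = 1 * |τ| := (one_mul _).symm
      _ ≤ (K * |D|) * |τ| := mul_le_mul_of_nonneg_right hD h0
      _ = _ := by ring
  have h2 : K * (|D| * |τ|) ≤ K * (2 * K * ε ^ 2 + W * (|τ| * ε + ε ^ 2)) :=
    mul_le_mul_of_nonneg_left h (by linarith)
  have h3 : (2 * K * W * ε) * |τ| ≤ 1 * |τ| := mul_le_mul_of_nonneg_right hs h0
  nlinarith

private theorem step2 {K W C τ ε D g P A2 E X Y Z H : ℝ} {κ a : ℕ} (hK : 2 ≤ K) (hW : 0 ≤ W) (hC : 0 ≤ C)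
    (hX : 0 < X) (hε0 : 0 ≤ ε) (hε : ε ≤ 1) (hεX : ε * X = H) (hτ : |τ| ≤ C * ε ^ 2) (hD : D ^ 2 ≤ K ^ (2 * a))
    (hE : 0 ≤ E) (hY0 : 0 < Y) (hY : Y ≤ 8 * X ^ 3)
    (hg : |g| ≤ D ^ 2 * (|A2| + E * (H ^ 3 / X)))
    (hA : |P - 2 * A2 / Y| ≤ W * ((|τ| ^ 2 + 2 * |τ| * ε + ε ^ 3) / X))
    (hκ : 2 * K ^ (2 * a) * (4 * (W * (C + 1) ^ 2) + E) ≤ K ^ κ) (hgX : K ^ κ * H ^ 3 ≤ |g| * X)
    (hZ : 0 ≤ Z) (hP : |P| * Z * X ^ 3 ≤ 4 * K * H) : |g| * Z ≤ 32 * K ^ (2 * a) * (K * H) := by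
  have hK0 : 0 < K := by linarith
  have hH : 0 ≤ H := by rw [← hεX]; positivity
  have h1 : |τ| ^ 2 + 2 * |τ| * ε + ε ^ 3 ≤ (C + 1) ^ 2 * ε ^ 3 := by
    have e1 : |τ| ^ 2 ≤ (C * ε ^ 2) ^ 2 := pow_le_pow_left₀ (abs_nonneg _) hτ 2
    have e2 : (C * ε ^ 2) ^ 2 ≤ C ^ 2 * ε ^ 3 := by
      have : C ^ 2 * ε ^ 3 * ε ≤ C ^ 2 * ε ^ 3 * 1 := mul_le_mul_of_nonneg_left hε (by positivity)
      calc (C * ε ^ 2) ^ 2 = C ^ 2 * ε ^ 3 * ε := by ring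
        _ ≤ _ := this
        _ = _ := by ring
    have e3 : 2 * |τ| * ε ≤ 2 * (C * ε ^ 2) * ε := by
      have := mul_le_mul_of_nonneg_right hτ hε0
      linarith
    nlinarith
  have h2 : |2 * A2 / Y| ≤ |P| + W * ((C + 1) ^ 2 * ε ^ 3 / X) := by
    have e1 : |2 * A2 / Y| ≤ |P| + |P - 2 * A2 / Y| := by
      have := abs_sub_abs_le_abs_sub (2 * A2 / Y) P
      rw [abs_sub_comm] at this
      linarith
    have e2 : W * ((|τ| ^ 2 + 2 * |τ| * ε + ε ^ 3) / X) ≤ W * ((C + 1) ^ 2 * ε ^ 3 / X) :=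
      mul_le_mul_of_nonneg_left (div_le_div_of_nonneg_right h1 hX.le) hW
    linarith
  have h3 : |A2| ≤ 4 * X ^ 3 * (|P| + W * ((C + 1) ^ 2 * ε ^ 3 / X)) := by
    have e1 : |2 * A2 / Y| * Y = 2 * |A2| := by
      rw [abs_div, abs_mul, abs_two, abs_of_pos hY0]
      exact div_mul_cancel₀ _ hY0.ne'
    have e2 : |2 * A2 / Y| * Y ≤ (|P| + W * ((C + 1) ^ 2 * ε ^ 3 / X)) * (8 * X ^ 3) :=
      mul_le_mul h2 hY hY0.le (by positivity)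
    linarith
  have h4 : X ^ 3 * (W * ((C + 1) ^ 2 * ε ^ 3 / X)) = W * (C + 1) ^ 2 * (H ^ 3 / X) := by
    rw [← hεX]
    ring
  have h5 : |g| ≤ K ^ (2 * a) * (4 * (X ^ 3 * |P|) + (4 * (W * (C + 1) ^ 2) + E) * (H ^ 3 / X)) := by
    refine hg.trans ?_
    refine mul_le_mul hD ?_ (by positivity) (by positivity)
    calc |A2| + E * (H ^ 3 / X) ≤ 4 * X ^ 3 * (|P| + W * ((C + 1) ^ 2 * ε ^ 3 / X)) + E * (H ^ 3 / X) := by
          linarith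
      _ = 4 * (X ^ 3 * |P|) + 4 * (X ^ 3 * (W * ((C + 1) ^ 2 * ε ^ 3 / X))) + E * (H ^ 3 / X) := by ring
      _ = _ := by rw [h4]; ring
  have h6 : K ^ κ * (H ^ 3 / X) ≤ |g| := by
    rw [← mul_div_assoc, div_le_iff₀ hX]
    exact hgX
  have h7 : 2 * K ^ (2 * a) * (4 * (W * (C + 1) ^ 2) + E) * (H ^ 3 / X) ≤ |g| :=
    (mul_le_mul_of_nonneg_right hκ (by positivity)).trans h6
  have h8 : |g| ≤ 8 * K ^ (2 * a) * (X ^ 3 * |P|) := by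
    nlinarith
  calc |g| * Z ≤ 8 * K ^ (2 * a) * (X ^ 3 * |P|) * Z := mul_le_mul_of_nonneg_right h8 hZ
    _ = 8 * K ^ (2 * a) * (|P| * Z * X ^ 3) := by ring
    _ ≤ 8 * K ^ (2 * a) * (4 * K * H) := mul_le_mul_of_nonneg_left hP (by positivity)
    _ = _ := by ring

/-- the constants -/
private theorem consts {K : ℝ} (hK : 2 ≤ K) (N a : ℕ) {w : ℕ} (hw : w = (N + 5) ^ 2 * (N + 2) ^ 2 + a + (a + 2) * (N + 2)) :
    ((N : ℝ) + 5) ^ 2 * (((N + 1 + 1 : ℕ) : ℝ) ^ 2 * (K ^ a * (K ^ (a + 2)) ^ (N + 1 + 1))) ≤ K ^ w ∧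
      2 * K * K ^ w ≤ K ^ (3 * w + 12 + 2 * a) ∧
      2 * K ^ (2 * a) * (4 * (K ^ w * (2 * K * (2 * K + K ^ w) + 1) ^ 2) + 3 * (K ^ a * K ^ (a + 2) * K)) ≤
        K ^ (3 * w + 12 + 2 * a) ∧ 32 * K ^ (2 * a) * K ≤ K ^ (3 * w + 12 + 2 * a) := by
  have hK1 : 1 ≤ K := by linarith
  have hK0 : 0 < K := by linarith
  have hmono : ∀ {x y : ℕ}, x ≤ y → K ^ x ≤ K ^ y := fun h => pow_le_pow_right₀ hK1 h
  have hw1 : 2 * a + 3 ≤ 3 * w := by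
    rw [hw]
    nlinarith [Nat.zero_le N, Nat.zero_le a, Nat.zero_le ((N + 5) ^ 2 * (N + 2) ^ 2), Nat.zero_le (a * N)]
  have hw2 : 2 ≤ w := by
    rw [hw]
    nlinarith [Nat.zero_le N, Nat.zero_le a, Nat.zero_le ((N + 5) ^ 2 * (N + 2) ^ 2), Nat.zero_le (a * N)]
  have hKw : 0 < K ^ w := pow_pos hK0 w
  have h2K : (2 : ℝ) ≤ K := hK
  have h4 : (4 : ℝ) ≤ K ^ 2 := by nlinarith
  have h8 : (8 : ℝ) ≤ K ^ 3 := by nlinarith [pow_pos hK0 2]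
  have h32 : (32 : ℝ) ≤ K ^ 5 := by
    calc (32 : ℝ) = 8 * 4 := by norm_num
      _ ≤ K ^ 3 * K ^ 2 := mul_le_mul h8 h4 (by norm_num) (by positivity)
      _ = K ^ 5 := by ring
  have hKle : K * 2 ≤ K ^ w := by
    calc K * 2 ≤ K * K := mul_le_mul_of_nonneg_left hK hK0.le
      _ = K ^ 2 := by ring
      _ ≤ K ^ w := hmono hw2
  refine ⟨?_, ?_, ?_, ?_⟩
  · have e1 : ((N : ℝ) + 5) ^ 2 * ((N + 1 + 1 : ℕ) : ℝ) ^ 2 ≤ K ^ ((N + 5) ^ 2 * (N + 2) ^ 2) := by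
      have e2 : (((N + 5) ^ 2 * (N + 2) ^ 2 : ℕ) : ℝ) ≤ 2 ^ ((N + 5) ^ 2 * (N + 2) ^ 2) := by
        exact_mod_cast (Nat.lt_two_pow_self).le
      have e3 : (2 : ℝ) ^ ((N + 5) ^ 2 * (N + 2) ^ 2) ≤ K ^ ((N + 5) ^ 2 * (N + 2) ^ 2) :=
        pow_le_pow_left₀ (by norm_num) hK _
      refine le_trans (le_of_eq ?_) (e2.trans e3)
      push_cast
      ring
    calc _ = (((N : ℝ) + 5) ^ 2 * ((N + 1 + 1 : ℕ) : ℝ) ^ 2) * K ^ (a + (a + 2) * (N + 2)) := by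
          rw [← pow_mul, pow_add]
          ring
      _ ≤ K ^ ((N + 5) ^ 2 * (N + 2) ^ 2) * K ^ (a + (a + 2) * (N + 2)) :=
          mul_le_mul_of_nonneg_right e1 (by positivity)
      _ = K ^ w := by rw [← pow_add, hw]; ring_nf
  · calc 2 * K * K ^ w ≤ K * K * K ^ w := by
          have : 2 * K ≤ K * K := mul_le_mul_of_nonneg_right hK hK0.le
          exact mul_le_mul_of_nonneg_right this hKw.le
      _ = K ^ (w + 2) := by ring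
      _ ≤ _ := hmono (by omega)
  · have c1 : 2 * K * (2 * K + K ^ w) + 1 ≤ K ^ (w + 4) := by
      have : 2 * K * (2 * K + K ^ w) ≤ 4 * K * K ^ w := by nlinarith
      have f1 : 4 * K * K ^ w + 1 ≤ 8 * K * K ^ w := by
        have : 1 ≤ K * K ^ w := by
          calc (1 : ℝ) = 1 * 1 := by norm_num
            _ ≤ K * K ^ w := mul_le_mul hK1 (one_le_pow₀ hK1) (by norm_num) hK0.le
        nlinarith
      calc _ ≤ 8 * K * K ^ w := by linarith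
        _ ≤ K ^ 3 * K * K ^ w := by
            refine mul_le_mul_of_nonneg_right (mul_le_mul_of_nonneg_right h8 hK0.le) hKw.le
        _ = _ := by ring
    have c2 : K ^ w * (2 * K * (2 * K + K ^ w) + 1) ^ 2 ≤ K ^ (3 * w + 8) := by
      have : (2 * K * (2 * K + K ^ w) + 1) ^ 2 ≤ (K ^ (w + 4)) ^ 2 := pow_le_pow_left₀ (by positivity) c1 2
      calc _ ≤ K ^ w * (K ^ (w + 4)) ^ 2 := mul_le_mul_of_nonneg_left this hKw.le
        _ = _ := by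
          rw [← pow_mul, ← pow_add]
          ring_nf
    have c3 : K ^ a * K ^ (a + 2) * K ≤ K ^ (3 * w + 8) := by
      calc _ = K ^ (2 * a + 3) := by ring
        _ ≤ _ := hmono (by omega)
    have c4 : 2 * K ^ (2 * a) * (4 * (K ^ w * (2 * K * (2 * K + K ^ w) + 1) ^ 2) + 3 * (K ^ a * K ^ (a + 2) * K)) ≤
        2 * K ^ (2 * a) * (4 * K ^ (3 * w + 8) + 3 * K ^ (3 * w + 8)) := by
      refine mul_le_mul_of_nonneg_left ?_ (by positivity)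
      linarith
    refine c4.trans ?_
    have c5 : (14 : ℝ) ≤ K ^ 4 := by
      calc (14 : ℝ) ≤ 4 * 4 := by norm_num
        _ ≤ K ^ 2 * K ^ 2 := mul_le_mul h4 h4 (by norm_num) (by positivity)
        _ = K ^ 4 := by ring
    calc _ = 14 * (K ^ (2 * a) * K ^ (3 * w + 8)) := by ring
      _ ≤ K ^ 4 * (K ^ (2 * a) * K ^ (3 * w + 8)) := mul_le_mul_of_nonneg_right c5 (by positivity)
      _ = _ := by ring
  · calc 32 * K ^ (2 * a) * K ≤ K ^ 5 * K ^ (2 * a) * K :=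
          mul_le_mul_of_nonneg_right (mul_le_mul_of_nonneg_right h32 (by positivity)) hK0.le
      _ = K ^ (2 * a + 6) := by ring
      _ ≤ _ := hmono (by omega)

/-- convexity -/
private theorem conv {s : ℝ → ℝ} {τ β R c x₀ x₂ x : ℝ} (hs : ∀ x, s x = c + τ * (x - x₀)) (d02 : 0 < x₂ - x₀)
    (e0 : |s x₀ - β| ≤ R) (e2 : |s x₂ - β| ≤ R) (hx : x ∈ Set.Icc x₀ x₂) : |s x - β| ≤ R := by
  have key : (x₂ - x₀) * (s x - β) = (x₂ - x) * (s x₀ - β) + (x - x₀) * (s x₂ - β) := by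
    rw [hs x, hs x₀, hs x₂]
    ring
  have h1 : 0 ≤ x₂ - x := sub_nonneg.2 hx.2
  have h2 : 0 ≤ x - x₀ := sub_nonneg.2 hx.1
  have h3 : (x₂ - x₀) * |s x - β| ≤ (x₂ - x₀) * R := by
    calc (x₂ - x₀) * |s x - β| = |(x₂ - x₀) * (s x - β)| := by rw [abs_mul, abs_of_pos d02]
      _ ≤ |(x₂ - x) * (s x₀ - β)| + |(x - x₀) * (s x₂ - β)| := by rw [key]; exact abs_add_le _ _
      _ = (x₂ - x) * |s x₀ - β| + (x - x₀) * |s x₂ - β| := by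
        rw [abs_mul, abs_mul, abs_of_nonneg h1, abs_of_nonneg h2]
      _ ≤ (x₂ - x) * R + (x - x₀) * R :=
        add_le_add (mul_le_mul_of_nonneg_left e0 h1) (mul_le_mul_of_nonneg_left e2 h2)
      _ = _ := by ring
  exact le_of_mul_le_mul_left h3 d02

/-- the value of `ψ` at a point -/
private theorem pt {q : ℕ → ℕ → ℝ} {N k : ℕ} {F G X x : ℝ} {s : ℝ → ℝ} (hk : k + 3 ≤ N + 1) (hX : 0 < X)
    (hX1 : 1 ≤ X) (hq00 : q 0 0 = 0) (hx : X ≤ x)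
    (hF : F = ∑ i ∈ range (N + 1 + 1 + 1), ∑ m ∈ range (i + 1), q i m * s x ^ m * x ^ (N + 1 + 1 - i))
    (he : |F| ≤ G * X ^ k) : |ps q (N + 1) s x| * X ^ 3 ≤ G := by
  have hx0 : 0 < x := hX.trans_le hx
  have h1 : F = x ^ (N + 1) * ps q (N + 1) s x := hF.trans (ev_eq (N + 1) hx0.ne' hq00)
  rw [h1, abs_mul, abs_of_pos (pow_pos hx0 _)] at he
  have h2 : X ^ (k + 3) ≤ x ^ (N + 1) :=
    (pow_le_pow_right₀ hX1 hk).trans (pow_le_pow_left₀ hX.le hx _)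
  have h3 : (|ps q (N + 1) s x| * X ^ 3) * X ^ k ≤ G * X ^ k := by
    calc _ = X ^ (k + 3) * |ps q (N + 1) s x| := by ring
      _ ≤ x ^ (N + 1) * |ps q (N + 1) s x| := mul_le_mul_of_nonneg_right h2 (abs_nonneg _)
      _ ≤ _ := he
  exact le_of_mul_le_mul_right h3 (pow_pos hX k)

/-- the slope -/
private theorem sl {f f1 : ℝ → ℝ} {x₀ x₂ G Q : ℝ} (d : 1 ≤ x₂ - x₀) (hQ : 0 < Q)
    (hf : ∀ x ∈ Set.Icc x₀ x₂, HasDerivAt f (f1 x) x) (g0 : |f x₀| * Q ≤ G) (g2 : |f x₂| * Q ≤ G) :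
    ∃ c ∈ Set.Icc x₀ x₂, |f1 c| * Q ≤ 2 * G := by
  have d02 : 0 < x₂ - x₀ := by linarith
  obtain ⟨c, hc, hc2⟩ := exists_hasDerivAt_eq_slope f f1 (by linarith : x₀ < x₂)
    (fun x hx => (hf x hx).continuousAt.continuousWithinAt) (fun x hx => hf x ⟨hx.1.le, hx.2.le⟩)
  refine ⟨c, ⟨hc.1.le, hc.2.le⟩, ?_⟩
  have h1 : |f1 c| * (x₂ - x₀) = |f x₂ - f x₀| := by
    rw [hc2, abs_div, abs_of_pos d02]
    exact div_mul_cancel₀ _ d02.ne'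
  have h2 : |f1 c| ≤ |f1 c| * (x₂ - x₀) := le_mul_of_one_le_right (abs_nonneg _) d
  have h3 : |f x₂ - f x₀| ≤ |f x₂| + |f x₀| := abs_sub _ _
  have h4 : |f1 c| ≤ |f x₂| + |f x₀| := (h2.trans h1.le).trans h3
  calc _ ≤ (|f x₂| + |f x₀|) * Q := mul_le_mul_of_nonneg_right h4 hQ.le
    _ = |f x₂| * Q + |f x₀| * Q := by ring
    _ ≤ _ := by linarith

/-- the second difference -/
private theorem sl2 {f f1 f2 : ℝ → ℝ} {x₀ x₁ x₂ G Q : ℝ} (h01 : 1 ≤ x₁ - x₀) (h12 : 1 ≤ x₂ - x₁) (hQ : 0 < Q)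
    (hf : ∀ x ∈ Set.Icc x₀ x₂, HasDerivAt f (f1 x) x) (hf1 : ∀ x ∈ Set.Icc x₀ x₂, HasDerivAt f1 (f2 x) x)
    (g0 : |f x₀| * Q ≤ G) (g1 : |f x₁| * Q ≤ G) (g2 : |f x₂| * Q ≤ G) :
    ∃ ξ ∈ Set.Icc x₀ x₂, |f2 ξ| * ((x₁ - x₀) * (x₂ - x₁)) * Q ≤ 4 * G := by
  have d01 : 0 < x₁ - x₀ := by linarith
  have d12 : 0 < x₂ - x₁ := by linarith
  have d02 : 0 < x₂ - x₀ := by linarith
  obtain ⟨ξ, hξI, hξ⟩ := dd2 (by linarith : x₀ < x₁) (by linarith : x₁ < x₂) hf hf1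
  refine ⟨ξ, hξI, ?_⟩
  have h1 : 0 < (x₁ - x₀) * (x₂ - x₁) * (x₂ - x₀) := mul_pos (mul_pos d01 d12) d02
  have h2 : |f2 ξ| * ((x₁ - x₀) * (x₂ - x₁) * (x₂ - x₀)) ≤
      2 * (|f x₀| * (x₂ - x₁) + |f x₁| * (x₂ - x₀) + |f x₂| * (x₁ - x₀)) := by
    calc _ = |f2 ξ * ((x₁ - x₀) * (x₂ - x₁) * (x₂ - x₀))| := by rw [abs_mul, abs_of_pos h1]
      _ = 2 * |f x₀ * (x₂ - x₁) - f x₁ * (x₂ - x₀) + f x₂ * (x₁ - x₀)| := by
        rw [hξ, abs_mul, abs_two]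
      _ ≤ _ := by
        refine mul_le_mul_of_nonneg_left ?_ (by norm_num)
        refine (abs_add_le _ _).trans (add_le_add ((abs_sub _ _).trans (add_le_add ?_ ?_)) ?_)
        · rw [abs_mul, abs_of_pos d12]
        · rw [abs_mul, abs_of_pos d02]
        · rw [abs_mul, abs_of_pos d01]
  have k0 := mul_le_mul_of_nonneg_right g0 d12.le
  have k1 := mul_le_mul_of_nonneg_right g1 d02.le
  have k2 := mul_le_mul_of_nonneg_right g2 d01.le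
  have h3 : (|f2 ξ| * ((x₁ - x₀) * (x₂ - x₁)) * Q) * (x₂ - x₀) ≤ (4 * G) * (x₂ - x₀) := by
    calc _ = (|f2 ξ| * ((x₁ - x₀) * (x₂ - x₁) * (x₂ - x₀))) * Q := by ring
      _ ≤ (2 * (|f x₀| * (x₂ - x₁) + |f x₁| * (x₂ - x₀) + |f x₂| * (x₁ - x₀))) * Q :=
        mul_le_mul_of_nonneg_right h2 hQ.le
      _ = 2 * ((|f x₀| * Q) * (x₂ - x₁) + (|f x₁| * Q) * (x₂ - x₀) + (|f x₂| * Q) * (x₁ - x₀)) := by ring
      _ ≤ 2 * (G * (x₂ - x₁) + G * (x₂ - x₀) + G * (x₁ - x₀)) :=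
        mul_le_mul_of_nonneg_left (add_le_add (add_le_add k0 k1) k2) (by norm_num)
      _ = _ := by ring
  exact le_of_mul_le_mul_right h3 d02

/-- the slope `τ` is small -/
private theorem st1 {P D τ K W ε H X : ℝ} (hK : 2 ≤ K) (hW : 0 ≤ W) (hH : 1 ≤ H) (hX : 0 < X) (hX1 : H ^ 2 ≤ X)
    (hε0 : 0 ≤ ε) (hεX : ε * X = H) (hD : 1 ≤ K * |D|) (e1 : |P| * X ^ 3 ≤ 2 * (K * H))
    (e4 : |P - D * τ| ≤ W * (|τ| * ε + ε ^ 2)) (h : 2 * K * W * H ≤ X) : |τ| ≤ 2 * K * (2 * K + W) * ε ^ 2 := by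
  have hK0 : 0 < K := by linarith
  have hH0 : 0 ≤ H := by linarith
  have e2 : |P| ≤ 2 * K * ε ^ 2 := by
    have h1 : H ≤ ε ^ 2 * X ^ 3 := by
      have h2 : ε ^ 2 * X ^ 3 = H ^ 2 * X := by rw [← hεX]; ring
      rw [h2]
      have h3 : 1 ≤ X := (one_le_pow₀ hH).trans hX1
      calc H = H * 1 := (mul_one H).symm
        _ ≤ H ^ 2 * X := mul_le_mul (by nlinarith) h3 (by norm_num) (by positivity)
    have h2 : |P| * X ^ 3 ≤ (2 * K * ε ^ 2) * X ^ 3 := by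
      calc _ ≤ 2 * (K * H) := e1
        _ ≤ 2 * (K * (ε ^ 2 * X ^ 3)) := by
          have := mul_le_mul_of_nonneg_left h1 hK0.le
          linarith
        _ = _ := by ring
    exact le_of_mul_le_mul_right h2 (pow_pos hX 3)
  have e5 : |D| * |τ| ≤ 2 * K * ε ^ 2 + W * (|τ| * ε + ε ^ 2) := by
    have h1 : |D * τ| ≤ |P| + |P - D * τ| := by
      have := abs_sub_abs_le_abs_sub (D * τ) P
      rw [abs_sub_comm] at this
      linarith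
    rw [abs_mul] at h1
    linarith
  have e6 : 2 * K * W * ε ≤ 1 := by
    have h1 : 2 * K * W * ε * X ≤ 1 * X := by
      calc _ = 2 * K * W * (ε * X) := by ring
        _ = 2 * K * W * H := by rw [hεX]
        _ ≤ X := h
        _ = _ := (one_mul X).symm
    exact le_of_mul_le_mul_right h1 hX
  exact step1 hK hW hε0 hD e5 e6

/-- `a₂(s)` against `a₂(β)` -/
private theorem gb {A B K H X D a0 a1 a2 β σ : ℝ} (hA : 0 ≤ A) (hB : 1 ≤ B) (hK : 0 ≤ K) (hH : 0 ≤ H) (hX : 0 < X)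
    (h1 : |a1| ≤ A * H) (h2 : |a2| ≤ A) (hβ : |β| ≤ B * H) (hσ : |σ| ≤ B * H) (hd : |σ - β| ≤ K * H ^ 2 / X) :
    |D ^ 2 * (a0 + a1 * β + a2 * β ^ 2)| ≤
      D ^ 2 * (|a0 + a1 * σ + a2 * σ ^ 2| + 3 * (A * B * K) * (H ^ 3 / X)) := by
  rw [abs_mul, abs_of_nonneg (sq_nonneg D)]
  refine mul_le_mul_of_nonneg_left ?_ (sq_nonneg _)
  have h3 : |a1 + a2 * (σ + β)| ≤ 3 * (A * B) * H := by
    have k1 : |σ + β| ≤ 2 * (B * H) := by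
      have := abs_add_le σ β
      linarith
    have k2 : |a2 * (σ + β)| ≤ A * (2 * (B * H)) := by
      rw [abs_mul]
      exact mul_le_mul h2 k1 (abs_nonneg _) hA
    have k3 : A * H ≤ A * (B * H) := mul_le_mul_of_nonneg_left (le_mul_of_one_le_left hH hB) hA
    calc _ ≤ |a1| + |a2 * (σ + β)| := abs_add_le _ _
      _ ≤ A * (B * H) + A * (2 * (B * H)) := add_le_add (h1.trans k3) k2
      _ = _ := by ring
  have h4 : |(a0 + a1 * σ + a2 * σ ^ 2) - (a0 + a1 * β + a2 * β ^ 2)| ≤ 3 * (A * B * K) * (H ^ 3 / X) := by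
    have e : (a0 + a1 * σ + a2 * σ ^ 2) - (a0 + a1 * β + a2 * β ^ 2) = (σ - β) * (a1 + a2 * (σ + β)) := by ring
    rw [e, abs_mul]
    calc _ ≤ (K * H ^ 2 / X) * (3 * (A * B) * H) := mul_le_mul hd h3 (abs_nonneg _) (by positivity)
      _ = _ := by ring
  have h5 := abs_sub_abs_le_abs_sub (a0 + a1 * β + a2 * β ^ 2) (a0 + a1 * σ + a2 * σ ^ 2)
  rw [abs_sub_comm] at h5
  linarith

/-- the bounds for `β` and `s` -/
private theorem bb {K H X A D β q0 σ : ℝ} (hK : 2 ≤ K) (hH : 1 ≤ H) (hX : 0 < X) (hX1 : H ^ 2 ≤ X) (hA : 1 ≤ A)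
    (hD : 1 ≤ K * |D|) (hβ : D * β = -q0) (hq : |q0| ≤ A * H) (hs : |σ - β| ≤ K * H ^ 2 / X) :
    |β| ≤ A * K ^ 2 * H ∧ |σ| ≤ A * K ^ 2 * H := by
  have hK0 : 0 < K := by linarith
  have hβb : |β| ≤ K * (A * H) := by
    calc |β| = 1 * |β| := (one_mul _).symm
      _ ≤ (K * |D|) * |β| := mul_le_mul_of_nonneg_right hD (abs_nonneg _)
      _ = K * |D * β| := by rw [abs_mul]; ring
      _ = K * |q0| := by rw [hβ, abs_neg]
      _ ≤ _ := mul_le_mul_of_nonneg_left hq hK0.le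
  have hR : K * H ^ 2 / X ≤ K := by
    rw [div_le_iff₀ hX]
    exact mul_le_mul_of_nonneg_left hX1 hK0.le
  have hAH : 1 ≤ A * H := by
    calc (1 : ℝ) = 1 * 1 := by norm_num
      _ ≤ A * H := mul_le_mul hA hH (by norm_num) (by linarith)
  have hA2 : 2 * (K * (A * H)) ≤ A * K ^ 2 * H := by
    have h : 2 * (K * (A * H)) ≤ K * (K * (A * H)) :=
      mul_le_mul_of_nonneg_right hK (mul_nonneg hK0.le (by linarith))
    refine h.trans (le_of_eq ?_)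
    ring
  have hKA : K ≤ K * (A * H) := le_mul_of_one_le_right hK0.le hAH
  have h2 : |σ| ≤ |σ - β| + |β| := by
    calc |σ| = |(σ - β) + β| := by rw [sub_add_cancel]
      _ ≤ _ := abs_add_le _ _
  constructor
  · linarith
  · linarith

private theorem core {q : ℕ → ℕ → ℝ} {N a w κ : ℕ} {K H X β τ c x₀ x₁ x₂ : ℝ} {s : ℝ → ℝ} (hK : 2 ≤ K) (hH : 1 ≤ H)
    (hX2 : K ^ κ * H ^ 2 ≤ X)
    (hgX : K ^ κ * H ^ 3 ≤ |q 1 1 ^ 2 * (q 2 0 + q 2 1 * β + q 2 2 * β ^ 2)| * X)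
    (hq : ∀ i m, m ≤ i → i ≤ N + 1 + 1 → |q i m| ≤ K ^ a * H ^ (i - m)) (hD : 1 ≤ K * |q 1 1|)
    (hβ : q 1 1 * β = -q 1 0) (hs : ∀ x, s x = c + τ * (x - x₀)) (h01 : 1 ≤ x₁ - x₀) (h12 : 1 ≤ x₂ - x₁)
    (u0 : X ≤ x₀) (v2 : x₂ ≤ 2 * X) (r0 : |s x₀ - β| ≤ K * H ^ 2 / X) (r2 : |s x₂ - β| ≤ K * H ^ 2 / X)
    (g0 : |ps q (N + 1) s x₀| * X ^ 3 ≤ K * H) (g1 : |ps q (N + 1) s x₁| * X ^ 3 ≤ K * H)
    (g2 : |ps q (N + 1) s x₂| * X ^ 3 ≤ K * H)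
    (cW : ((N : ℝ) + 5) ^ 2 * (((N + 1 + 1 : ℕ) : ℝ) ^ 2 * (K ^ a * (K ^ (a + 2)) ^ (N + 1 + 1))) ≤ K ^ w)
    (cκ1 : 2 * K * K ^ w ≤ K ^ κ)
    (cκ2 : 2 * K ^ (2 * a) * (4 * (K ^ w * (2 * K * (2 * K + K ^ w) + 1) ^ 2) + 3 * (K ^ a * K ^ (a + 2) * K)) ≤ K ^ κ)
    (cκ3 : 32 * K ^ (2 * a) * K ≤ K ^ κ) :
    |q 1 1 ^ 2 * (q 2 0 + q 2 1 * β + q 2 2 * β ^ 2)| * ((x₁ - x₀) * (x₂ - x₁)) ≤ K ^ κ * H := by
  have hK1 : 1 ≤ K := by linarith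
  have hK0 : 0 < K := by linarith
  have hH0 : 0 ≤ H := by linarith
  have hKw : 0 ≤ K ^ w := (pow_pos hK0 w).le
  have hKa : 1 ≤ K ^ a := one_le_pow₀ hK1
  have hKa0 : 0 ≤ K ^ a := (pow_pos hK0 a).le
  have hKa2 : 1 ≤ K ^ (a + 2) := one_le_pow₀ hK1
  have hKκ : 1 ≤ K ^ κ := one_le_pow₀ hK1
  have hH2 : 0 ≤ H ^ 2 := sq_nonneg H
  have hHH : H ≤ H ^ 2 := by
    rw [pow_two]
    exact le_mul_of_one_le_right hH0 hH
  have hX1 : H ^ 2 ≤ X := (le_mul_of_one_le_left hH2 hKκ).trans hX2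
  have hHX : H ≤ X := hHH.trans hX1
  have hX : 0 < X := (zero_lt_one.trans_le hH).trans_le hHX
  have hε0 : 0 ≤ H / X := div_nonneg hH0 hX.le
  have hε1 : H / X ≤ 1 := (div_le_one hX).2 hHX
  have hεX : H / X * X = H := div_mul_cancel₀ _ hX.ne'
  have d02 : 1 ≤ x₂ - x₀ := by linarith
  have hsb : ∀ x ∈ Set.Icc x₀ x₂, |s x - β| ≤ K * H ^ 2 / X :=
    fun x hx => conv hs (zero_lt_one.trans_le d02) r0 r2 hx
  have hq10b : |q 1 0| ≤ K ^ a * H := by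
    have h := hq 1 0 (Nat.zero_le 1) (by omega)
    rwa [Nat.sub_zero, pow_one] at h
  have hq21 : |q 2 1| ≤ K ^ a * H := by
    have h := hq 2 1 (by omega) (by omega)
    rwa [show 2 - 1 = 1 from rfl, pow_one] at h
  have hq22 : |q 2 2| ≤ K ^ a := by
    have h := hq 2 2 le_rfl (by omega)
    rwa [Nat.sub_self, pow_zero, mul_one] at h
  have hDup : |q 1 1| ≤ K ^ a := by
    have h := hq 1 1 le_rfl (by omega)
    rwa [Nat.sub_self, pow_zero, mul_one] at h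
  have hD2 : q 1 1 ^ 2 ≤ K ^ (2 * a) := by
    rw [← sq_abs]
    calc |q 1 1| ^ 2 ≤ (K ^ a) ^ 2 := pow_le_pow_left₀ (abs_nonneg _) hDup 2
      _ = _ := by rw [← pow_mul, mul_comm]
  have hpp : K ^ a * K ^ 2 = K ^ (a + 2) := (pow_add K a 2).symm
  have hsA : ∀ x ∈ Set.Icc x₀ x₂, |β| ≤ K ^ (a + 2) * H ∧ |s x| ≤ K ^ (a + 2) * H := by
    intro x hx
    have h := bb hK hH hX hX1 hKa hD hβ hq10b (hsb x hx)
    rwa [hpp] at h
  have hpos : ∀ x ∈ Set.Icc x₀ x₂, X ≤ x := fun x hx => u0.trans hx.1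
  have hsd : ∀ x, HasDerivAt s τ x := by
    intro x
    have h : s = fun x => c + τ * (x - x₀) := funext hs
    rw [h]
    exact ((((hasDerivAt_id x).sub_const x₀).const_mul τ).const_add c).congr_deriv (mul_one _)
  have hD1 : ∀ x ∈ Set.Icc x₀ x₂, HasDerivAt (ps q (N + 1) s) (ps1 q (N + 1) s τ x) x :=
    fun x hx => ps_deriv (hsd x) (hX.trans_le (hpos x hx)).ne'
  have hD3 : ∀ x ∈ Set.Icc x₀ x₂, HasDerivAt (ps1 q (N + 1) s τ) (ps2 q (N + 1) s τ x) x :=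
    fun x hx => ps1_deriv (hsd x) (hX.trans_le (hpos x hx)).ne'
  have hτb : |τ| ≤ 2 * K * (2 * K + K ^ w) * (H / X) ^ 2 := by
    obtain ⟨z, hz, e1⟩ := sl d02 (pow_pos hX 3) hD1 g0 g2
    have e3 := b1 (τ := τ) hKa0 hKa2 hH0 hX hHX (hpos z hz) (hsA z hz).2 (N := N + 1) rfl hq
    have e4 : |ps1 q (N + 1) s τ z - q 1 1 * τ| ≤ K ^ w * (|τ| * (H / X) + (H / X) ^ 2) := by
      refine e3.trans (mul_le_mul_of_nonneg_right ?_
        (add_nonneg (mul_nonneg (abs_nonneg _) hε0) (sq_nonneg _)))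
      refine le_trans (le_of_eq ?_) cW
      push_cast
      ring
    refine st1 hK hKw hH hX hX1 hε0 hεX hD e1 e4 ?_
    calc 2 * K * K ^ w * H ≤ K ^ κ * H := mul_le_mul_of_nonneg_right cκ1 hH0
      _ ≤ K ^ κ * H ^ 2 := mul_le_mul_of_nonneg_left hHH (zero_le_one.trans hKκ)
      _ ≤ X := hX2
  obtain ⟨ξ, hξI, hP⟩ := sl2 h01 h12 (pow_pos hX 3) hD1 hD3 g0 g1 g2
  have hξX := hpos ξ hξI
  have hξ0 : 0 < ξ := hX.trans_le hξX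
  have hξ2 : ξ ≤ 2 * X := hξI.2.trans v2
  have hb2 := b2 (τ := τ) hKa0 hKa2 hH0 hX hHX hξX (hsA ξ hξI).2 (N := N) rfl hq
  have hY : ξ ^ 3 ≤ 8 * X ^ 3 := by
    calc ξ ^ 3 ≤ (2 * X) ^ 3 := pow_le_pow_left₀ hξ0.le hξ2 3
      _ = _ := by ring
  have hb3 : |ps2 q (N + 1) s τ ξ - 2 * (q 2 0 + q 2 1 * s ξ + q 2 2 * s ξ ^ 2) / ξ ^ 3| ≤
      K ^ w * ((|τ| ^ 2 + 2 * |τ| * (H / X) + (H / X) ^ 3) / X) := by
    refine hb2.trans (mul_le_mul_of_nonneg_right ?_ ?_)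
    · refine le_trans ?_ cW
      have hN : (0 : ℝ) ≤ N := Nat.cast_nonneg N
      refine mul_le_mul_of_nonneg_right (pow_le_pow_left₀ (by linarith) (by linarith) 2) ?_
      exact mul_nonneg (sq_nonneg _) (mul_nonneg hKa0 (pow_nonneg (zero_le_one.trans hKa2) _))
    · exact div_nonneg (add_nonneg (add_nonneg (sq_nonneg _)
        (mul_nonneg (mul_nonneg zero_le_two (abs_nonneg _)) hε0)) (pow_nonneg hε0 3)) hX.le
  have hg := gb (D := q 1 1) (a0 := q 2 0) hKa0 hKa2 hK0.le hH0 hX hq21 hq22 (hsA ξ hξI).1 (hsA ξ hξI).2 (hsb ξ hξI)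
  have hC : 0 ≤ 2 * K * (2 * K + K ^ w) :=
    mul_nonneg (mul_nonneg zero_le_two hK0.le) (add_nonneg (mul_nonneg zero_le_two hK0.le) hKw)
  have hE : 0 ≤ 3 * (K ^ a * K ^ (a + 2) * K) :=
    mul_nonneg zero_le_three (mul_nonneg (mul_nonneg hKa0 (zero_le_one.trans hKa2)) hK0.le)
  have hP2 : |ps2 q (N + 1) s τ ξ| * ((x₁ - x₀) * (x₂ - x₁)) * X ^ 3 ≤ 4 * K * H := by
    refine hP.trans (le_of_eq ?_)
    ring
  have hZ : 0 ≤ (x₁ - x₀) * (x₂ - x₁) := mul_nonneg (zero_le_one.trans h01) (zero_le_one.trans h12)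
  have hfin := step2 (κ := κ) (a := a) hK hKw hC hX hε0 hε1 hεX hτb hD2 hE (pow_pos hξ0 3) hY hg hb3 cκ2 hgX hZ hP2
  refine hfin.trans ?_
  calc 32 * K ^ (2 * a) * (K * H) = (32 * K ^ (2 * a) * K) * H := by ring
    _ ≤ K ^ κ * H := mul_le_mul_of_nonneg_right cκ3 hH0

/-- the line through the points -/
private theorem line {t x₀ x₁ x₂ y₀ y₁ y₂ : ℝ} (d02 : 0 < x₂ - x₀)
    (hcol : (x₁ - x₀) * (y₂ - y₀) = (x₂ - x₀) * (y₁ - y₀)) :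
    ∃ (τ : ℝ) (s : ℝ → ℝ), (∀ x, s x = (y₀ - t * x₀) + τ * (x - x₀)) ∧ t * x₀ + s x₀ = y₀ ∧
      t * x₁ + s x₁ = y₁ ∧ t * x₂ + s x₂ = y₂ := by
  obtain ⟨τ, hτ⟩ : ∃ τ, τ * (x₂ - x₀) = (y₂ - y₀) - t * (x₂ - x₀) := ⟨_, div_mul_cancel₀ _ d02.ne'⟩
  refine ⟨τ, fun x => (y₀ - t * x₀) + τ * (x - x₀), fun _ => rfl, ?_, ?_, ?_⟩
  · ring
  · have h : (x₂ - x₀) * (τ * (x₁ - x₀)) = (x₂ - x₀) * ((y₁ - y₀) - t * (x₁ - x₀)) := by
      linear_combination (x₁ - x₀) * hτ + hcol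
    have h' := mul_left_cancel₀ d02.ne' h
    linear_combination h'
  · linear_combination hτ

theorem cu1_ex (n k κ₀ : ℕ) (hk : k + 4 ≤ n) (hE : ExpS n κ₀) :
    Cu1S n k (3 * ((n + 3) ^ 2 * n ^ 2 + κ₀ + (κ₀ + 2) * n) + 12 + 2 * κ₀) := by
  obtain ⟨N, rfl⟩ : ∃ N, n = N + 1 + 1 := ⟨n - 2, by omega⟩
  intro K H hK hH e t hct X hgX hX2 x₀ x₁ x₂ y₀ y₁ y₂ p0 p1 p2 h01 h12 hcol
  obtain ⟨q, hq, q00, q10, q11, q20, q21, q22, hF⟩ := hE K H hK hH e t hct.bs hct.t2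
  obtain ⟨cW, cκ1, cκ2, cκ3⟩ := consts hK N κ₀
    (w := (N + 1 + 1 + 3) ^ 2 * (N + 1 + 1) ^ 2 + κ₀ + (κ₀ + 2) * (N + 1 + 1)) rfl
  have hK1 : 1 ≤ K := by linarith
  have hK0 : 0 < K := by linarith
  have hq00 : q 0 0 = 0 := q00.trans hct.rt
  have hDlow : 1 ≤ K * |q 1 1| := by
    have h := hct.dr
    rw [← q11, div_le_iff₀ hK0] at h
    rwa [mul_comm] at h
  have hD0 : q 1 1 ≠ 0 := by
    intro h0
    rw [h0, abs_zero, mul_zero] at hDlow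
    exact absurd hDlow (by norm_num)
  obtain ⟨β, hβ⟩ : ∃ β, β = be (N + 1 + 1) e t := ⟨_, rfl⟩
  have hβ1 : q 1 1 * β = -q 1 0 := by
    rw [hβ, be, ← q10, ← q11]
    field_simp
  have hgm : gm (N + 1 + 1) e t = q 1 1 ^ 2 * (q 2 0 + q 2 1 * β + q 2 2 * β ^ 2) := by
    rw [gm, ← q22, ← q21, ← q20, ← q10, ← q11]
    linear_combination (-(q 2 1 * q 1 1) - q 2 2 * (q 1 1 * β - q 1 0)) * hβ1
  rw [hgm] at hgX ⊢
  obtain ⟨u0, v0, r0, f0⟩ := p0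
  obtain ⟨u1, v1, r1, f1⟩ := p1
  obtain ⟨u2, v2, r2, f2⟩ := p2
  rw [← hβ] at r0 r2
  obtain ⟨τ, s, hs, s0, s1, s2⟩ := line (t := t) (by linarith : 0 < x₂ - x₀) hcol
  have hX1 : 1 ≤ X := by
    refine le_trans ?_ hX2
    calc (1 : ℝ) = 1 * 1 := by norm_num
      _ ≤ _ := mul_le_mul (one_le_pow₀ hK1) (one_le_pow₀ hH) (by norm_num) (pow_pos hK0 _).le
  have hX : 0 < X := zero_lt_one.trans_le hX1
  have hk3 : k + 3 ≤ N + 1 := by omega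
  have e0 : y₀ - t * x₀ - β = s x₀ - β := by linear_combination -s0
  have e2 : y₂ - t * x₂ - β = s x₂ - β := by linear_combination -s2
  rw [e0] at r0
  rw [e2] at r2
  rw [← s0, hF] at f0
  rw [← s1, hF] at f1
  rw [← s2, hF] at f2
  exact core hK hH hX2 hgX hq hDlow hβ1 hs h01 h12 u0 v2 r0 r2 (pt hk3 hX hX1 hq00 u0 rfl f0)
    (pt hk3 hX hX1 hq00 u1 rfl f1) (pt hk3 hX hX1 hq00 u2 rfl f2) cW cκ1 cκ2 cκ3

theorem cu1 (n k : ℕ) (hk : k + 4 ≤ n) : ∃ κ : ℕ, ∀ K H : ℝ, 2 ≤ K → 1 ≤ H → ∀ (e : ℕ → ℕ → ℤ) (t : ℝ), Ct n K H e t →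
    ∀ X : ℝ, K ^ κ * H ^ 3 ≤ |gm n e t| * X → K ^ κ * H ^ 2 ≤ X → ∀ x₀ x₁ x₂ y₀ y₁ y₂ : ℝ,
      Np n k K H X e t x₀ y₀ → Np n k K H X e t x₁ y₁ → Np n k K H X e t x₂ y₂ → 1 ≤ x₁ - x₀ → 1 ≤ x₂ - x₁ →
      (x₁ - x₀) * (y₂ - y₀) = (x₂ - x₀) * (y₁ - y₀) →
      |gm n e t| * ((x₁ - x₀) * (x₂ - x₁)) ≤ K ^ κ * H := by
  obtain ⟨a, ha⟩ := exp n (by omega)
  exact ⟨_, cu1_ex n k a hk ha⟩

end Pool.Agent.H88.TU
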