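import Pool.Agent.H88.TU.Exp
import Pool.Agent.H88.TU.Sta

/-! # [H88 TU CU2] Three integer points in a short arc are collinear

`s_i = y_i - t x_i`, `D = φ_n'(t)`, `β = be n e t`: by `exp`, `D (s_i - β) = - a₂(s_i)/x_i + O(K^c H³/X²) + O(K H/X³)` (`a₂(s) = q20 + q21 s + q22 s²`, `a₂(s_i) = a₂(β) + O(K^c H³/X)`), so
`s_i = β + γ/x_i + r_i`, `γ = - a₂(β)/D`, `|γ| ≤ K^c H²`, `|r_i| ≤ K^c H³/X²`. `(x₁-x₀)(y₂-y₀) - (x₂-x₀)(y₁-y₀) = (x₁-x₀)(s₂-s₀) - (x₂-x₀)(s₁-s₀)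
= γ (x₁-x₀)(x₂-x₀)(x₁-x₂)(..)/(x₀x₁x₂) + (x₁-x₀)(r₂-r₀) - (x₂-x₀)(r₁-r₀)`, with `|x_i - x_j| ≤ ℓ = X/(K^κ H)`: `≤ |γ| ℓ³/X³ + 4 ℓ K^c H³/X² < 1` as `X ≥ K^κ H²`. It is an integer. -/

namespace Pool.Agent.H88.TU

open Finset Polynomial Pool.Agent.H8.AA Pool.Agent.H88.A2

/-- the tail of the expansion -/
private theorem tail_le (n : ℕ) (hn : 3 ≤ n) (q : ℕ → ℕ → ℝ) (A S H x s : ℝ) (hA : 0 ≤ A)
    (hS : 1 ≤ S) (hH : 1 ≤ H) (hx : H ≤ x) (hs : |s| ≤ S * H)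
    (hq : ∀ i m, m ≤ i → i ≤ n → |q i m| ≤ A * H ^ (i - m)) :
    |∑ i ∈ Ico 3 (n + 1), ∑ m ∈ range (i + 1), q i m * s ^ m * x ^ (n - i)| ≤
      (n + 1 : ℝ) ^ 2 * (A * S ^ n) * H ^ 3 * x ^ (n - 3) := by
  have hx0 : 0 ≤ x := by linarith
  have hH0 : 0 ≤ H := by linarith
  have hin : ∀ i ∈ Ico 3 (n + 1), |∑ m ∈ range (i + 1), q i m * s ^ m * x ^ (n - i)| ≤
      (n + 1 : ℝ) * (A * S ^ n * H ^ 3 * x ^ (n - 3)) := by
    intro i hi
    rw [mem_Ico] at hi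
    have hterm : ∀ m ∈ range (i + 1), |q i m * s ^ m * x ^ (n - i)| ≤
        A * S ^ n * H ^ 3 * x ^ (n - 3) := by
      intro m hm
      rw [mem_range] at hm
      rw [abs_mul, abs_mul, abs_pow, abs_of_nonneg (pow_nonneg hx0 _)]
      have h1 : |s| ^ m ≤ (S * H) ^ m := pow_le_pow_left₀ (abs_nonneg _) hs m
      have h2 : |q i m| * |s| ^ m ≤ (A * H ^ (i - m)) * (S * H) ^ m :=
        mul_le_mul (hq i m (by omega) (by omega)) h1 (by positivity) (by positivity)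
      have h3 : (A * H ^ (i - m)) * (S * H) ^ m = A * S ^ m * H ^ i := by
        rw [mul_pow]
        have : H ^ i = H ^ (i - m) * H ^ m := by rw [← pow_add]; congr 1; omega
        rw [this]; ring
      have h4 : S ^ m ≤ S ^ n := pow_le_pow_right₀ hS (by omega)
      have h5 : H ^ i * x ^ (n - i) ≤ H ^ 3 * x ^ (n - 3) := by
        have e1 : H ^ i = H ^ 3 * H ^ (i - 3) := by rw [← pow_add]; congr 1; omega
        have e2 : x ^ (n - 3) = x ^ (i - 3) * x ^ (n - i) := by rw [← pow_add]; congr 1; omega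
        rw [e1, e2]
        have : H ^ (i - 3) ≤ x ^ (i - 3) := pow_le_pow_left₀ hH0 hx _
        have h6 : 0 ≤ H ^ 3 * x ^ (n - i) := by positivity
        nlinarith [mul_le_mul_of_nonneg_left this h6]
      calc |q i m| * |s| ^ m * x ^ (n - i) ≤ A * S ^ m * H ^ i * x ^ (n - i) := by
            rw [← h3]; exact mul_le_mul_of_nonneg_right h2 (pow_nonneg hx0 _)
        _ = A * S ^ m * (H ^ i * x ^ (n - i)) := by ring
        _ ≤ A * S ^ n * (H ^ 3 * x ^ (n - 3)) := by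
            refine mul_le_mul (mul_le_mul_of_nonneg_left h4 hA) h5 (by positivity) (by positivity)
        _ = A * S ^ n * H ^ 3 * x ^ (n - 3) := by ring
    refine (abs_sum_le_sum_abs _ _).trans ((sum_le_sum hterm).trans ?_)
    rw [sum_const, card_range, nsmul_eq_mul]
    refine mul_le_mul_of_nonneg_right ?_ (by positivity)
    push_cast
    have : (i : ℝ) ≤ n := by exact_mod_cast (by omega : i ≤ n)
    linarith
  refine (abs_sum_le_sum_abs _ _).trans ((sum_le_sum hin).trans ?_)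
  rw [sum_const, Nat.card_Ico, nsmul_eq_mul]
  have h1 : ((n + 1 - 3 : ℕ) : ℝ) ≤ (n + 1 : ℝ) := by
    exact_mod_cast Nat.sub_le (n + 1) 3
  have h2 : 0 ≤ (n + 1 : ℝ) * (A * S ^ n * H ^ 3 * x ^ (n - 3)) := by positivity
  calc ((n + 1 - 3 : ℕ) : ℝ) * ((n + 1 : ℝ) * (A * S ^ n * H ^ 3 * x ^ (n - 3)))
      ≤ (n + 1 : ℝ) * ((n + 1 : ℝ) * (A * S ^ n * H ^ 3 * x ^ (n - 3))) :=
        mul_le_mul_of_nonneg_right h1 h2
    _ = (n + 1 : ℝ) ^ 2 * (A * S ^ n) * H ^ 3 * x ^ (n - 3) := by ring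

/-- one point: `s = β + γ / x + r` -/
private theorem one_pt (n k : ℕ) (hk : k + 4 ≤ n) (K H A S D β q20 q21 q22 X x s : ℝ)
    (q : ℕ → ℕ → ℝ) (hK : 2 ≤ K) (hH : 1 ≤ H) (hA : 1 ≤ A) (hS : S = K ^ 2 * A)
    (hq : ∀ i m, m ≤ i → i ≤ n → |q i m| ≤ A * H ^ (i - m)) (hD : 1 / K ≤ |D|)
    (h00 : q 0 0 = 0) (h10 : q 1 0 = -(D * β)) (h11 : q 1 1 = D)
    (h20 : q 2 0 = q20) (h21 : q 2 1 = q21) (h22 : q 2 2 = q22)
    (hX : H ^ 2 ≤ X) (hx : X ≤ x) (hx2 : x ≤ 2 * X) (hs : |s - β| ≤ K * H ^ 2 / X)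
    (hF : |∑ i ∈ range (n + 1), ∑ m ∈ range (i + 1), q i m * s ^ m * x ^ (n - i)| ≤
      K * H * X ^ k) :
    |β| ≤ S * H ∧ |s - β - (-(q20 + q21 * β + q22 * β ^ 2) / D) / x| ≤
      K * (K + (n + 1 : ℝ) ^ 2 * (A * S ^ n) + 6 * K * A * S) * H ^ 3 / X ^ 2 := by
  have hX1 : 1 ≤ X := by nlinarith
  have hHX : H ≤ X := by nlinarith
  have hx0 : 0 < x := by linarith
  have hX0 : 0 < X := by linarith
  have hD0 : 0 < |D| := lt_of_lt_of_le (by positivity) hD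
  have hDne : D ≠ 0 := abs_pos.1 hD0
  have hKD : 1 ≤ K * |D| := by
    have := mul_le_mul_of_nonneg_left hD (by linarith : (0 : ℝ) ≤ K)
    rwa [mul_one_div_cancel (by linarith : K ≠ 0)] at this
  have hA0 : 0 ≤ A := by linarith
  have hS1 : 1 ≤ S := by rw [hS]; nlinarith
  -- bound of β
  have hβ1 : |β| ≤ K * A * H := by
    have h1 : |D| * |β| ≤ A * H := by
      have := hq 1 0 (by omega) (by omega)
      rw [h10, abs_neg, abs_mul] at this
      simpa using this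
    calc |β| ≤ (K * |D|) * |β| := by nlinarith [abs_nonneg β]
      _ = K * (|D| * |β|) := by ring
      _ ≤ K * (A * H) := mul_le_mul_of_nonneg_left h1 (by linarith)
      _ = K * A * H := by ring
  have hKA : K * A * H ≤ K * A * H * 1 := by linarith
  have hβ : |β| ≤ S * H := by
    refine hβ1.trans ?_
    rw [hS]
    have : 0 ≤ K * A * H := by positivity
    nlinarith
  have hsb : |s - β| ≤ K := by
    refine hs.trans ?_
    rw [div_le_iff₀ hX0]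
    nlinarith
  have hsS : |s| ≤ S * H := by
    have h1 : |s| ≤ |s - β| + |β| := by
      have := abs_add_le (s - β) β
      rwa [sub_add_cancel] at this
    have h2 : K ≤ K * A * H := by
      have : 1 ≤ A * H := by nlinarith
      nlinarith
    have h3 : K * A * H + K * A * H ≤ S * H := by
      rw [hS]
      have : 0 ≤ K * A * H := by positivity
      nlinarith
    linarith
  have htail := tail_le n (by omega) q A S H x s hA0 hS1 hH (hHX.trans hx) hsS hq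
  -- split the sum
  have hsplit : ∑ i ∈ range (n + 1), ∑ m ∈ range (i + 1), q i m * s ^ m * x ^ (n - i) =
      (D * (s - β) * x ^ 2 + (q20 + q21 * s + q22 * s ^ 2) * x) * x ^ (n - 3) +
      ∑ i ∈ Ico 3 (n + 1), ∑ m ∈ range (i + 1), q i m * s ^ m * x ^ (n - i) := by
    rw [range_eq_Ico, ← sum_Ico_consecutive _ (Nat.zero_le 3) (by omega : 3 ≤ n + 1)]
    congr 1
    have e1 : x ^ (n - 1) = x ^ 2 * x ^ (n - 3) := by rw [← pow_add]; congr 1; omega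
    have e2 : x ^ (n - 2) = x * x ^ (n - 3) := by
      rw [← pow_succ']; congr 1; omega
    rw [← range_eq_Ico]
    simp only [sum_range_succ, sum_range_zero, Nat.sub_zero, pow_zero, pow_one, mul_one, zero_add,
      h00, h10, h11, h20, h21, h22, e1, e2]
    ring
  rw [hsplit] at hF
  set Z := D * (s - β) * x ^ 2 + (q20 + q21 * s + q22 * s ^ 2) * x with hZ
  have hxn : 0 < x ^ (n - 3) := by positivity
  have hXk : X ^ k ≤ x ^ (n - 3) := by
    calc X ^ k ≤ x ^ k := pow_le_pow_left₀ hX0.le hx k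
      _ ≤ x ^ (n - 3) := pow_le_pow_right₀ (by linarith) (by omega)
  have hH3 : H ≤ H ^ 3 := le_self_pow₀ hH (by norm_num)
  have hZ1 : |Z| * x ^ (n - 3) ≤ (K + (n + 1 : ℝ) ^ 2 * (A * S ^ n)) * H ^ 3 * x ^ (n - 3) := by
    set T := ∑ i ∈ Ico 3 (n + 1), ∑ m ∈ range (i + 1), q i m * s ^ m * x ^ (n - i) with hT
    have h1 : |Z * x ^ (n - 3)| ≤ |Z * x ^ (n - 3) + T| + |T| := by
      have := abs_sub (Z * x ^ (n - 3) + T) T
      rwa [add_sub_cancel_right] at this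
    have h2 : |Z * x ^ (n - 3)| = |Z| * x ^ (n - 3) := by
      rw [abs_mul, abs_of_pos hxn]
    have h3 : K * H * X ^ k ≤ K * H ^ 3 * x ^ (n - 3) := by
      refine mul_le_mul ?_ hXk (by positivity) (by positivity)
      exact mul_le_mul_of_nonneg_left hH3 (by linarith)
    rw [← h2]
    calc |Z * x ^ (n - 3)| ≤ _ := h1
      _ ≤ K * H ^ 3 * x ^ (n - 3) + (n + 1 : ℝ) ^ 2 * (A * S ^ n) * H ^ 3 * x ^ (n - 3) := by
        linarith
      _ = _ := by ring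
  have hZ2 : |Z| ≤ (K + (n + 1 : ℝ) ^ 2 * (A * S ^ n)) * H ^ 3 :=
    le_of_mul_le_mul_right hZ1 hxn
  -- replace s by β in a₂
  have ha : |(q20 + q21 * s + q22 * s ^ 2) - (q20 + q21 * β + q22 * β ^ 2)| * x ≤
      6 * K * A * S * H ^ 3 := by
    have e : (q20 + q21 * s + q22 * s ^ 2) - (q20 + q21 * β + q22 * β ^ 2) =
        (s - β) * (q21 + q22 * (s + β)) := by ring
    rw [e, abs_mul]
    have b1 : |q21| ≤ A * H := by
      have := hq 2 1 (by omega) (by omega)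
      rw [h21] at this
      simpa using this
    have b2 : |q22| ≤ A := by
      have := hq 2 2 (by omega) (by omega)
      rw [h22] at this
      simpa using this
    have b3 : |q21 + q22 * (s + β)| ≤ 3 * A * S * H := by
      have c1 : |q21 + q22 * (s + β)| ≤ |q21| + |q22| * (|s| + |β|) := by
        refine (abs_add_le _ _).trans ?_
        rw [abs_mul]
        have := abs_add_le s β
        have := mul_le_mul_of_nonneg_left this (abs_nonneg q22)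
        linarith
      have c2 : |q22| * (|s| + |β|) ≤ A * (S * H + S * H) :=
        mul_le_mul b2 (by linarith) (by positivity) hA0
      have c3 : A * H ≤ A * S * H := by
        have : 0 ≤ A * H := by positivity
        nlinarith
      nlinarith
    have b4 : |s - β| * x ≤ 2 * K * H ^ 2 := by
      calc |s - β| * x ≤ (K * H ^ 2 / X) * (2 * X) :=
            mul_le_mul hs hx2 hx0.le (by positivity)
        _ = 2 * K * H ^ 2 := by field_simp
    calc |s - β| * |q21 + q22 * (s + β)| * x = (|s - β| * x) * |q21 + q22 * (s + β)| := by ring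
      _ ≤ (2 * K * H ^ 2) * (3 * A * S * H) :=
          mul_le_mul b4 b3 (abs_nonneg _) (by positivity)
      _ = 6 * K * A * S * H ^ 3 := by ring
  refine ⟨hβ, ?_⟩
  set a := q20 + q21 * β + q22 * β ^ 2 with hadef
  have hW : |D * (s - β) * x ^ 2 + a * x| ≤
      (K + (n + 1 : ℝ) ^ 2 * (A * S ^ n) + 6 * K * A * S) * H ^ 3 := by
    have e : D * (s - β) * x ^ 2 + a * x = Z - ((q20 + q21 * s + q22 * s ^ 2) - a) * x := by
      rw [hZ]; ring
    rw [e]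
    refine (abs_sub _ _).trans ?_
    rw [abs_mul ((q20 + q21 * s + q22 * s ^ 2) - a) x, abs_of_pos hx0]
    linarith
  have hfin : s - β - (-a / D) / x = (D * (s - β) * x ^ 2 + a * x) / (D * x ^ 2) := by
    field_simp
    ring
  rw [hfin, abs_div, abs_mul, abs_of_pos (by positivity : 0 < x ^ 2)]
  set C := K + (n + 1 : ℝ) ^ 2 * (A * S ^ n) + 6 * K * A * S with hC
  have hC0 : 0 ≤ C := by positivity
  have h1 : |D * (s - β) * x ^ 2 + a * x| / (|D| * x ^ 2) ≤ C * H ^ 3 / (|D| * x ^ 2) :=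
    div_le_div_of_nonneg_right hW (by positivity)
  refine h1.trans ?_
  rw [div_le_div_iff₀ (by positivity) (by positivity)]
  have h2 : X ^ 2 ≤ x ^ 2 := pow_le_pow_left₀ hX0.le hx 2
  have h3 : 0 ≤ C * H ^ 3 := by positivity
  calc C * H ^ 3 * X ^ 2 ≤ C * H ^ 3 * x ^ 2 := mul_le_mul_of_nonneg_left h2 h3
    _ ≤ C * H ^ 3 * x ^ 2 * (K * |D|) := le_mul_of_one_le_right (by positivity) hKD
    _ = K * C * H ^ 3 * (|D| * x ^ 2) := by ring

/-- the determinant is small -/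
private theorem det_small (G L H X γ β t x0 x1 x2 y0 y1 y2 : ℝ) (hG : 0 ≤ G) (hL : 16 * G ≤ L)
    (hL1 : 1 ≤ L) (hH : 1 ≤ H) (hX : L * H ^ 2 ≤ X) (hγ : |γ| ≤ G * H ^ 2)
    (h0 : X ≤ x0) (h1 : X ≤ x1) (h2 : X ≤ x2)
    (r0 : |y0 - t * x0 - β - γ / x0| ≤ G * H ^ 3 / X ^ 2)
    (r1 : |y1 - t * x1 - β - γ / x1| ≤ G * H ^ 3 / X ^ 2)
    (r2 : |y2 - t * x2 - β - γ / x2| ≤ G * H ^ 3 / X ^ 2)
    (d1 : |x1 - x0| ≤ X / (L * H)) (d2 : |x2 - x0| ≤ X / (L * H))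
    (d3 : |x2 - x1| ≤ X / (L * H)) :
    |(x1 - x0) * (y2 - y0) - (x2 - x0) * (y1 - y0)| < 1 := by
  have hH0 : 0 < H := by linarith
  have hL0 : 0 < L := by linarith
  have hLH : 0 < L * H ^ 2 := by positivity
  have hX0 : 0 < X := lt_of_lt_of_le hLH hX
  have p0 : 0 < x0 := lt_of_lt_of_le hX0 h0
  have p1 : 0 < x1 := lt_of_lt_of_le hX0 h1
  have p2 : 0 < x2 := lt_of_lt_of_le hX0 h2
  set ℓ := X / (L * H) with hℓ
  have hℓ0 : 0 ≤ ℓ := by positivity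
  set R := G * H ^ 3 / X ^ 2 with hR
  have hR0 : 0 ≤ R := by positivity
  have key : (x1 - x0) * (y2 - y0) - (x2 - x0) * (y1 - y0) =
      γ * ((x1 - x0) * (x2 - x0) * (x2 - x1)) / (x0 * x1 * x2) +
      ((x1 - x0) * ((y2 - t * x2 - β - γ / x2) - (y0 - t * x0 - β - γ / x0)) -
      (x2 - x0) * ((y1 - t * x1 - β - γ / x1) - (y0 - t * x0 - β - γ / x0))) := by
    field_simp
    ring
  rw [key]
  have b1 : |γ * ((x1 - x0) * (x2 - x0) * (x2 - x1)) / (x0 * x1 * x2)| ≤ 1 / 16 := by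
    rw [abs_div, abs_of_pos (by positivity : 0 < x0 * x1 * x2), abs_mul, abs_mul, abs_mul,
      div_le_iff₀ (by positivity)]
    have c1 : |x1 - x0| * |x2 - x0| * |x2 - x1| ≤ ℓ * ℓ * ℓ :=
      mul_le_mul (mul_le_mul d1 d2 (abs_nonneg _) hℓ0) d3 (abs_nonneg _) (by positivity)
    have c2 : |γ| * (|x1 - x0| * |x2 - x0| * |x2 - x1|) ≤ G * H ^ 2 * (ℓ * ℓ * ℓ) :=
      mul_le_mul hγ c1 (by positivity) (by positivity)
    have c3 : X * X * X ≤ x0 * x1 * x2 :=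
      mul_le_mul (mul_le_mul h0 h1 hX0.le p0.le) h2 hX0.le (by positivity)
    have c4 : G * H ^ 2 * (ℓ * ℓ * ℓ) ≤ 1 / 16 * (X * X * X) := by
      have e : G * H ^ 2 * (ℓ * ℓ * ℓ) = G / (L ^ 3 * H) * (X * X * X) := by
        rw [hℓ]; field_simp
      rw [e]
      refine mul_le_mul_of_nonneg_right ?_ (by positivity)
      rw [div_le_iff₀ (by positivity)]
      have g1 : L ≤ L ^ 3 := le_self_pow₀ hL1 (by norm_num)
      have g2 : L ^ 3 ≤ L ^ 3 * H := le_mul_of_one_le_right (by positivity) hH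
      linarith
    linarith
  have b2 : ∀ u v d : ℝ, |u| ≤ R → |v| ≤ R → |d| ≤ ℓ → |d * (u - v)| ≤ 1 / 8 := by
    intro u v d hu hv hd
    rw [abs_mul]
    have c1 : |u - v| ≤ R + R := (abs_sub _ _).trans (add_le_add hu hv)
    have c2 : |d| * |u - v| ≤ ℓ * (R + R) := mul_le_mul hd c1 (abs_nonneg _) hℓ0
    refine c2.trans ?_
    have e : ℓ * (R + R) = 2 * G * H ^ 2 / (L * X) := by
      rw [hℓ, hR]; field_simp; ring
    rw [e, div_le_iff₀ (by positivity)]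
    have c3 : L * (L * H ^ 2) ≤ L * X := mul_le_mul_of_nonneg_left hX hL0.le
    have c4 : 16 * G * H ^ 2 ≤ L * (L * H ^ 2) := by
      have g1 : 16 * G * H ^ 2 ≤ L * H ^ 2 := mul_le_mul_of_nonneg_right hL (by positivity)
      have g2 : L * H ^ 2 ≤ L * (L * H ^ 2) := le_mul_of_one_le_left (by positivity) hL1
      linarith
    linarith
  have b3 := b2 _ _ _ r2 r0 d1
  have b4 := b2 _ _ _ r1 r0 d2
  refine lt_of_le_of_lt (abs_add_le _ _) ?_
  have b5 := abs_sub ((x1 - x0) * ((y2 - t * x2 - β - γ / x2) - (y0 - t * x0 - β - γ / x0)))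
    ((x2 - x0) * ((y1 - t * x1 - β - γ / x1) - (y0 - t * x0 - β - γ / x0)))
  linarith

/-- explicit form of `cu2`: the exponent is a polynomial in `n` and the exponent of the expansion -/
theorem cu2_ex (n k κ : ℕ) (hk : k + 4 ≤ n) (hκ : ExpS n κ) :
    Cu2S n k (2 * n + 3 * κ + (κ + 2) * n + 13) := by
  intro K H hK hH e t hC X hX x₀ x₁ x₂ y₀ y₁ y₂ N0 N1 N2 D1 D2 D3
  obtain ⟨q, hq, h00, h10, h11, h20, h21, h22, hexp⟩ := hκ K H hK hH e t hC.bs hC.t2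
  set D := aeval t (derivative (fm e n)) with hDdef
  set β := be n e t with hβdef
  set c := 2 * n + 3 * κ + (κ + 2) * n + 9 with hc
  have hcc : 2 * n + 3 * κ + (κ + 2) * n + 13 = c + 4 := by omega
  rw [hcc] at hX D1 D2 D3
  have hK1 : 1 ≤ K := by linarith
  have hK0 : 0 < K := by linarith
  have pw : ∀ a b : ℕ, a ≤ b → K ^ a ≤ K ^ b := fun a b h => pow_le_pow_right₀ hK1 h
  have hA : 1 ≤ K ^ κ := one_le_pow₀ hK1
  have hD0 : 0 < |D| := lt_of_lt_of_le (by positivity) hC.dr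
  have hDne : D ≠ 0 := abs_pos.1 hD0
  have hKc : 1 ≤ K ^ (c + 4) := one_le_pow₀ hK1
  have hXH : H ^ 2 ≤ X := by
    have : H ^ 2 ≤ K ^ (c + 4) * H ^ 2 := le_mul_of_one_le_left (by positivity) hKc
    linarith
  have hX0 : 0 < X := lt_of_lt_of_le (by positivity) hXH
  have hβe : D * β = -(q 1 0) := by
    rw [hβdef]
    unfold be
    rw [h10, mul_neg, mul_div_cancel₀ _ hDne]
  have h10' : q 1 0 = -(D * β) := by rw [hβe, neg_neg]
  set γ := -(q 2 0 + q 2 1 * β + q 2 2 * β ^ 2) / D with hγdef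
  set C := K + (n + 1 : ℝ) ^ 2 * (K ^ κ * (K ^ 2 * K ^ κ) ^ n) + 6 * K * K ^ κ * (K ^ 2 * K ^ κ)
    with hCdef
  have one : ∀ x y : ℤ, Np n k K H X e t x y → |β| ≤ K ^ 2 * K ^ κ * H ∧
      |(y : ℝ) - t * x - β - γ / x| ≤ K * C * H ^ 3 / X ^ 2 := by
    intro x y hN
    obtain ⟨g1, g2, g3, g4⟩ := hN
    have hy : (y : ℝ) = t * x + (y - t * x) := by ring
    have hF : |∑ i ∈ range (n + 1), ∑ m ∈ range (i + 1), q i m * ((y : ℝ) - t * x) ^ m *
        (x : ℝ) ^ (n - i)| ≤ K * H * X ^ k := by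
      rw [← hexp, ← hy]
      exact g4
    exact one_pt n k hk K H (K ^ κ) (K ^ 2 * K ^ κ) D β (q 2 0) (q 2 1) (q 2 2) X x
      ((y : ℝ) - t * x) q hK hH hA rfl hq hC.dr (h00.trans hC.rt) h10' h11 rfl rfl rfl hXH g1 g2
      g3 hF
  have o0 := one _ _ N0
  have o1 := one _ _ N1
  have o2 := one _ _ N2
  -- powers of K
  have hn2 : (n + 1 : ℝ) ≤ K ^ n := by
    have h1 : n + 1 ≤ 2 ^ n := Nat.lt_two_pow_self
    have h2 : (n + 1 : ℝ) ≤ 2 ^ n := by exact_mod_cast h1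
    exact h2.trans (pow_le_pow_left₀ (by norm_num) hK n)
  have hKC : K * C ≤ K ^ c := by
    have t1 : K ≤ K ^ (2 * n + 3 * κ + (κ + 2) * n + 6) :=
      le_self_pow₀ hK1 (by omega)
    have t2 : (n + 1 : ℝ) ^ 2 * (K ^ κ * (K ^ 2 * K ^ κ) ^ n) ≤
        K ^ (2 * n + 3 * κ + (κ + 2) * n + 6) := by
      have s1 : (n + 1 : ℝ) ^ 2 ≤ (K ^ n) ^ 2 := pow_le_pow_left₀ (by positivity) hn2 2
      have s2 : (K ^ n) ^ 2 * (K ^ κ * (K ^ 2 * K ^ κ) ^ n) = K ^ (n * 2 + (κ + (2 + κ) * n)) := by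
        rw [← pow_mul, ← pow_add K 2 κ, ← pow_mul, ← pow_add, ← pow_add]
      calc _ ≤ (K ^ n) ^ 2 * (K ^ κ * (K ^ 2 * K ^ κ) ^ n) :=
            mul_le_mul_of_nonneg_right s1 (by positivity)
        _ = K ^ (n * 2 + (κ + (2 + κ) * n)) := s2
        _ ≤ _ := pw _ _ (by nlinarith)
    have t3 : 6 * K * K ^ κ * (K ^ 2 * K ^ κ) ≤ K ^ (2 * n + 3 * κ + (κ + 2) * n + 6) := by
      have s1 : (6 : ℝ) ≤ K ^ 3 := by
        have := pow_le_pow_left₀ (by norm_num) hK 3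
        norm_num at this
        linarith
      have s2 : K ^ 3 * K * K ^ κ * (K ^ 2 * K ^ κ) = K ^ (3 + 1 + κ + (2 + κ)) := by
        rw [pow_add, pow_add, pow_add, pow_add, pow_one]
      calc _ ≤ K ^ 3 * K * K ^ κ * (K ^ 2 * K ^ κ) := by
            refine mul_le_mul_of_nonneg_right (mul_le_mul_of_nonneg_right
              (mul_le_mul_of_nonneg_right s1 hK0.le) (by positivity)) (by positivity)
        _ = K ^ (3 + 1 + κ + (2 + κ)) := s2
        _ ≤ _ := pw _ _ (by nlinarith)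
    have t4 : C ≤ 4 * K ^ (2 * n + 3 * κ + (κ + 2) * n + 6) := by
      have : 0 ≤ K ^ (2 * n + 3 * κ + (κ + 2) * n + 6) := by positivity
      rw [hCdef]
      linarith
    have t5 : (4 : ℝ) ≤ K ^ 2 := by nlinarith
    calc K * C ≤ K * (4 * K ^ (2 * n + 3 * κ + (κ + 2) * n + 6)) :=
          mul_le_mul_of_nonneg_left t4 hK0.le
      _ ≤ K * (K ^ 2 * K ^ (2 * n + 3 * κ + (κ + 2) * n + 6)) :=
          mul_le_mul_of_nonneg_left (mul_le_mul_of_nonneg_right t5 (by positivity)) hK0.le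
      _ = K ^ c := by rw [hc]; ring
  have hγ : |γ| ≤ K ^ c * H ^ 2 := by
    have a0 : |q 2 0| ≤ K ^ κ * H ^ 2 := by simpa using hq 2 0 (by omega) (by omega)
    have a1 : |q 2 1| ≤ K ^ κ * H := by simpa using hq 2 1 (by omega) (by omega)
    have a2 : |q 2 2| ≤ K ^ κ := by simpa using hq 2 2 (by omega) (by omega)
    have hβ := o0.1
    have hS1 : 1 ≤ K ^ 2 * K ^ κ := by
      rw [← pow_add]; exact one_le_pow₀ hK1
    set S := K ^ 2 * K ^ κ with hS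
    have b1 : |q 2 1| * |β| ≤ K ^ κ * S ^ 2 * H ^ 2 := by
      calc |q 2 1| * |β| ≤ (K ^ κ * H) * (S * H) := mul_le_mul a1 hβ (abs_nonneg _) (by positivity)
        _ = K ^ κ * S * H ^ 2 := by ring
        _ ≤ K ^ κ * S ^ 2 * H ^ 2 := by
            refine mul_le_mul_of_nonneg_right (mul_le_mul_of_nonneg_left ?_ (by positivity))
              (by positivity)
            exact le_self_pow₀ hS1 (by norm_num)
    have b2 : |q 2 2| * |β| ^ 2 ≤ K ^ κ * S ^ 2 * H ^ 2 := by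
      calc |q 2 2| * |β| ^ 2 ≤ K ^ κ * (S * H) ^ 2 :=
            mul_le_mul a2 (pow_le_pow_left₀ (abs_nonneg _) hβ 2) (by positivity) (by positivity)
        _ = K ^ κ * S ^ 2 * H ^ 2 := by ring
    have b0 : |q 2 0| ≤ K ^ κ * S ^ 2 * H ^ 2 := by
      refine a0.trans (mul_le_mul_of_nonneg_right ?_ (by positivity))
      exact le_mul_of_one_le_right (by positivity) (one_le_pow₀ hS1)
    have b3 : |q 2 0 + q 2 1 * β + q 2 2 * β ^ 2| ≤ 4 * (K ^ κ * S ^ 2 * H ^ 2) := by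
      have g1 := abs_add_le (q 2 0 + q 2 1 * β) (q 2 2 * β ^ 2)
      have g2 := abs_add_le (q 2 0) (q 2 1 * β)
      rw [abs_mul, abs_pow] at g1
      rw [abs_mul] at g2
      have g3 : 0 ≤ K ^ κ * S ^ 2 * H ^ 2 := by positivity
      linarith
    have hKD : 1 ≤ K * |D| := by
      have := mul_le_mul_of_nonneg_left hC.dr hK0.le
      rwa [mul_one_div_cancel hK0.ne'] at this
    rw [hγdef, abs_div, abs_neg, div_le_iff₀ hD0]
    have b4 : K ^ 3 * (K ^ κ * S ^ 2) ≤ K ^ c := by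
      have s2 : K ^ 3 * (K ^ κ * S ^ 2) = K ^ (3 + (κ + (2 + κ) * 2)) := by
        rw [hS, ← pow_add K 2 κ, ← pow_mul, ← pow_add, ← pow_add]
      rw [s2]
      exact pw _ _ (by rw [hc]; nlinarith)
    have t5 : (4 : ℝ) ≤ K ^ 2 := by nlinarith
    have b5 : 4 * (K ^ κ * S ^ 2 * H ^ 2) ≤ K ^ 2 * (K ^ κ * S ^ 2 * H ^ 2) :=
      mul_le_mul_of_nonneg_right t5 (by positivity)
    have b6 : K ^ 2 * (K ^ κ * S ^ 2 * H ^ 2) ≤ K ^ 2 * (K ^ κ * S ^ 2 * H ^ 2) * (K * |D|) :=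
      le_mul_of_one_le_right (by positivity) hKD
    have b7 : K ^ 2 * (K ^ κ * S ^ 2 * H ^ 2) * (K * |D|) =
        K ^ 3 * (K ^ κ * S ^ 2) * (H ^ 2 * |D|) := by ring
    have b8 : K ^ 3 * (K ^ κ * S ^ 2) * (H ^ 2 * |D|) ≤ K ^ c * (H ^ 2 * |D|) :=
      mul_le_mul_of_nonneg_right b4 (by positivity)
    linarith
  have hr : ∀ x y : ℤ, |(y : ℝ) - t * x - β - γ / x| ≤ K * C * H ^ 3 / X ^ 2 →
      |(y : ℝ) - t * x - β - γ / x| ≤ K ^ c * H ^ 3 / X ^ 2 := by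
    intro x y h
    refine h.trans ?_
    exact div_le_div_of_nonneg_right (mul_le_mul_of_nonneg_right hKC (by positivity))
      (by positivity)
  have h16 : 16 * K ^ c ≤ K ^ (c + 4) := by
    have : (16 : ℝ) ≤ K ^ 4 := by
      have := pow_le_pow_left₀ (by norm_num) hK 4
      norm_num at this
      linarith
    rw [pow_add K c 4, mul_comm (K ^ c)]
    exact mul_le_mul_of_nonneg_right this (by positivity)
  have hdet := det_small (K ^ c) (K ^ (c + 4)) H X γ β t x₀ x₁ x₂ y₀ y₁ y₂ (by positivity) h16 hKc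
    hH hX hγ N0.1 N1.1 N2.1 (hr _ _ o0.2) (hr _ _ o1.2) (hr _ _ o2.2) D1 D2 D3
  have hcast : |(((x₁ - x₀) * (y₂ - y₀) - (x₂ - x₀) * (y₁ - y₀) : ℤ) : ℝ)| < 1 := by
    push_cast
    exact hdet
  have hz : |(x₁ - x₀) * (y₂ - y₀) - (x₂ - x₀) * (y₁ - y₀)| < 1 := by
    exact_mod_cast hcast
  have := Int.abs_lt_one_iff.1 hz
  linarith


theorem cu2 (n k : ℕ) (hk : k + 4 ≤ n) : ∃ κ : ℕ, ∀ K H : ℝ, 2 ≤ K → 1 ≤ H → ∀ (e : ℕ → ℕ → ℤ) (t : ℝ), Ct n K H e t →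
    ∀ X : ℝ, K ^ κ * H ^ 2 ≤ X → ∀ x₀ x₁ x₂ y₀ y₁ y₂ : ℤ,
      Np n k K H X e t x₀ y₀ → Np n k K H X e t x₁ y₁ → Np n k K H X e t x₂ y₂ →
      |(x₁ : ℝ) - x₀| ≤ X / (K ^ κ * H) → |(x₂ : ℝ) - x₀| ≤ X / (K ^ κ * H) → |(x₂ : ℝ) - x₁| ≤ X / (K ^ κ * H) →
      (x₁ - x₀) * (y₂ - y₀) = (x₂ - x₀) * (y₁ - y₀) := by
  obtain ⟨κ, hκ⟩ := exp n (by omega)
  exact ⟨2 * n + 3 * κ + (κ + 2) * n + 13, cu2_ex n k κ hk hκ⟩

end Pool.Agent.H88.TU
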