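import Pool.Agent.H88.TU.Cu1
import Pool.Agent.H88.TU.Cu2
import Pool.Agent.H88.TU.Sta

/-! # [H88 TU CU3] Number of integer points near an asymptote at one scale

PROOF. First `P.1 > 0` (`Np`; `evR_cast`). For given `x` at most one `y` (`2 K H²/X < 1`): count the abscissas. `ℓ = X/(K^κ₂ H)`: `[X, 2X]` is the union of at most `K^κ₂ H + 1` intervals of length
`≤ ℓ`. In one interval let `a < b` be the smallest and the largest abscissa: every other abscissa `x` has `|gm| (x - a)(b - x) ≤ K^κ₁ H` (`cu2`, then `cu1`), so `x - a ≤ D` or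
`b - x ≤ D`, `D = (K^κ₁ H/|gm|)^(1/2)`: at most `2 (D + 1)` abscissas in the interval (`2D + 2` integers in `[a, a+D] ∪ [b-D, b]`).
`P.1 < 0`: the array `e'(a,b) = (-1)^(a+b) e(a,b)` and the points `-P`: `fm e' k = (-1)^k fm e k`, `be n e' t = - be n e t`, `|gm n e' t| = |gm n e t|`, `ev n e' x y = ev n e (-x) (-y)`. -/

namespace Pool.Agent.H88.TU

open Finset Polynomial Pool.Agent.H8.AA Pool.Agent.H88.A2

/-- one block of abscissas -/
private lemma block_card (A : Finset ℤ) (D : ℝ) (hD : 0 ≤ D)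
    (h : ∀ a ∈ A, ∀ x ∈ A, ∀ b ∈ A, a < x → x < b → ((x : ℝ) - a) * ((b : ℝ) - x) ≤ D ^ 2) :
    (A.card : ℝ) ≤ 2 * (D + 1) := by
  rcases A.eq_empty_or_nonempty with rfl | hne
  · simp only [card_empty, Nat.cast_zero]
    positivity
  set a := A.min' hne with ha
  set b := A.max' hne with hb
  have haA : a ∈ A := A.min'_mem hne
  have hbA : b ∈ A := A.max'_mem hne
  have hsub : A ⊆ Icc a (a + ⌊D⌋) ∪ Icc (b - ⌊D⌋) b := by
    intro x hx
    have h1 : a ≤ x := A.min'_le x hx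
    have h2 : x ≤ b := A.le_max' x hx
    have hf : 0 ≤ ⌊D⌋ := Int.floor_nonneg.2 hD
    rw [mem_union, mem_Icc, mem_Icc]
    rcases eq_or_lt_of_le h1 with h3 | h3
    · left
      exact ⟨h1, by omega⟩
    rcases eq_or_lt_of_le h2 with h4 | h4
    · right
      exact ⟨by omega, h2⟩
    have h5 := h a haA x hx b hbA h3 h4
    by_cases h6 : (x : ℝ) - a ≤ D
    · left
      refine ⟨h1, ?_⟩
      have : x - a ≤ ⌊D⌋ := by
        rw [Int.le_floor]
        push_cast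
        exact h6
      omega
    · right
      refine ⟨?_, h2⟩
      have h7 : (b : ℝ) - x ≤ D := by
        by_contra h8
        rw [not_le] at h6 h8
        nlinarith
      have : b - x ≤ ⌊D⌋ := by
        rw [Int.le_floor]
        push_cast
        exact h7
      omega
  have hc := (card_le_card hsub).trans (card_union_le _ _)
  rw [Int.card_Icc, Int.card_Icc] at hc
  have hf : 0 ≤ ⌊D⌋ := Int.floor_nonneg.2 hD
  have hfl : (⌊D⌋ : ℝ) ≤ D := Int.floor_le D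
  have hc' : (A.card : ℤ) ≤ 2 * (⌊D⌋ + 1) := by omega
  have hc'' : (A.card : ℝ) ≤ 2 * ((⌊D⌋ : ℝ) + 1) := by exact_mod_cast hc'
  linarith

/-- cutting into blocks -/
private lemma blocks_card (A : Finset ℤ) (X l M C : ℝ) (hl : 0 < l) (hM : 0 ≤ M) (hC : 0 ≤ C)
    (hX : X = l * M) (hA : ∀ x ∈ A, X ≤ (x : ℝ) ∧ (x : ℝ) ≤ 2 * X)
    (h : ∀ S, S ⊆ A → (∀ x ∈ S, ∀ y ∈ S, |(x : ℝ) - y| ≤ l) → (S.card : ℝ) ≤ C) :
    (A.card : ℝ) ≤ (M + 1) * C := by
  classical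
  let f : ℤ → ℕ := fun x => ⌊((x : ℝ) - X) / l⌋₊
  have h1 : A.card ≤ ⌊C⌋₊ * (A.image f).card := by
    refine card_le_mul_card_image A ⌊C⌋₊ fun m _ => ?_
    rw [Nat.le_floor_iff hC]
    refine h _ (filter_subset _ _) fun x hx y hy => ?_
    rw [mem_filter] at hx hy
    have hx0 : 0 ≤ ((x : ℝ) - X) / l := div_nonneg (by linarith [(hA x hx.1).1]) hl.le
    have hy0 : 0 ≤ ((y : ℝ) - X) / l := div_nonneg (by linarith [(hA y hy.1).1]) hl.le
    have e1 := Nat.floor_le hx0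
    have e2 := Nat.lt_floor_add_one (((x : ℝ) - X) / l)
    have e3 := Nat.floor_le hy0
    have e4 := Nat.lt_floor_add_one (((y : ℝ) - X) / l)
    have hx2 : ⌊((x : ℝ) - X) / l⌋₊ = m := hx.2
    have hy2 : ⌊((y : ℝ) - X) / l⌋₊ = m := hy.2
    rw [hx2] at e1 e2
    rw [hy2] at e3 e4
    rw [le_div_iff₀ hl] at e1 e3
    rw [div_lt_iff₀ hl] at e2 e4
    rw [abs_le]
    constructor <;> nlinarith
  have h2 : (A.image f).card ≤ ⌊M⌋₊ + 1 := by
    have : A.image f ⊆ range (⌊M⌋₊ + 1) := by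
      intro m hm
      rw [mem_image] at hm
      obtain ⟨x, hx, rfl⟩ := hm
      rw [mem_range, Nat.lt_succ_iff]
      refine Nat.floor_mono ?_
      rw [div_le_iff₀ hl]
      have := (hA x hx).2
      nlinarith
    have h3 := card_le_card this
    rwa [card_range] at h3
  have h3 : (A.card : ℝ) ≤ (⌊C⌋₊ : ℝ) * ((A.image f).card : ℝ) := by exact_mod_cast h1
  have h4 : ((A.image f).card : ℝ) ≤ M + 1 := by
    have h5 : ((A.image f).card : ℝ) ≤ (⌊M⌋₊ : ℝ) + 1 := by exact_mod_cast h2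
    have := Nat.floor_le hM
    linarith
  have h5 : (⌊C⌋₊ : ℝ) ≤ C := Nat.floor_le hC
  calc (A.card : ℝ) ≤ (⌊C⌋₊ : ℝ) * ((A.image f).card : ℝ) := h3
    _ ≤ C * (M + 1) := mul_le_mul h5 h4 (Nat.cast_nonneg _) hC
    _ = (M + 1) * C := mul_comm _ _

/-- the case `P.1 > 0` -/
private lemma cu3_pos (n k κ₁ κ₂ : ℕ) (h₁ : Cu1S n k κ₁) (h₂ : Cu2S n k κ₂) :
    ∀ K H : ℝ, 2 ≤ K → 1 ≤ H →
    ∀ (e : ℕ → ℕ → ℤ) (t : ℝ), Ct n K H e t →
    ∀ X : ℝ, K ^ (κ₁ + κ₂ + 3) * H ^ 3 ≤ |gm n e t| * X → K ^ (κ₁ + κ₂ + 3) * H ^ 2 ≤ X →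
    ∀ T : Finset (ℤ × ℤ), (∀ P ∈ T, Np n k K H X e t P.1 P.2) →
      (T.card : ℝ) ≤ K ^ (κ₁ + κ₂ + 3) * H * (1 + Real.sqrt (H / |gm n e t|)) := by
  classical
  intro K H hK hH e t hc X hX1 hX2 T hT
  have hK1 : (1 : ℝ) ≤ K := by linarith
  have hK0 : (0 : ℝ) < K := by linarith
  have hH0 : (0 : ℝ) < H := by linarith
  have hp : ∀ m, (0 : ℝ) < K ^ m := fun m => pow_pos hK0 m
  have hX0 : 0 < X := lt_of_lt_of_le (by have := hp (κ₁ + κ₂ + 3); positivity) hX2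
  set g := |gm n e t| with hg
  have hg0 : 0 < g := by
    by_contra hcon
    have h1 : g = 0 := le_antisymm (not_lt.1 hcon) (abs_nonneg _)
    rw [h1, zero_mul] at hX1
    have := hp (κ₁ + κ₂ + 3)
    have h3 : 0 < K ^ (κ₁ + κ₂ + 3) * H ^ 3 := by positivity
    linarith
  have m1 : K ^ κ₁ ≤ K ^ (κ₁ + κ₂ + 3) := pow_le_pow_right₀ hK1 (by omega)
  have m2 : K ^ κ₂ ≤ K ^ (κ₁ + κ₂ + 3) := pow_le_pow_right₀ hK1 (by omega)
  have m3 : K ^ 3 ≤ K ^ (κ₁ + κ₂ + 3) := pow_le_pow_right₀ hK1 (by omega)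
  have a1 : K ^ κ₁ * H ^ 3 ≤ g * X := (mul_le_mul_of_nonneg_right m1 (by positivity)).trans hX1
  have a2 : K ^ κ₁ * H ^ 2 ≤ X := (mul_le_mul_of_nonneg_right m1 (by positivity)).trans hX2
  have a3 : K ^ κ₂ * H ^ 2 ≤ X := (mul_le_mul_of_nonneg_right m2 (by positivity)).trans hX2
  have a4 : K ^ 3 * H ^ 2 ≤ X := (mul_le_mul_of_nonneg_right m3 (by positivity)).trans hX2
  -- one `y` for each `x`
  have hsmall : K * H ^ 2 / X ≤ 1 / 4 := by
    rw [div_le_iff₀ hX0]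
    have h3 : K ^ 3 * H ^ 2 = K ^ 2 * (K * H ^ 2) := by ring
    have h4 : (4 : ℝ) ≤ K ^ 2 := by nlinarith
    have h5 : 0 < K * H ^ 2 := by positivity
    nlinarith
  have hinj : Set.InjOn (fun P : ℤ × ℤ => P.1) (T : Set (ℤ × ℤ)) := by
    rintro P hP Q hQ hPQ
    have hPQ' : P.1 = Q.1 := hPQ
    obtain ⟨-, -, h3, -⟩ := hT P hP
    obtain ⟨-, -, h4, -⟩ := hT Q hQ
    rw [hPQ'] at h3
    rw [abs_le] at h3 h4
    have h5 : |(P.2 : ℝ) - Q.2| < 1 := by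
      rw [abs_lt]
      constructor <;> linarith
    have h6 : |P.2 - Q.2| < 1 := by exact_mod_cast h5
    have h7 : P.2 - Q.2 = 0 := Int.abs_lt_one_iff.1 h6
    exact Prod.ext hPQ' (by omega)
  have hcard : T.card = (T.image fun P : ℤ × ℤ => P.1).card := (card_image_of_injOn hinj).symm
  set A := T.image fun P : ℤ × ℤ => P.1 with hA
  have hAm : ∀ x ∈ A, ∃ y : ℤ, Np n k K H X e t x y := by
    intro x hx
    rw [hA, mem_image] at hx
    obtain ⟨P, hP, rfl⟩ := hx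
    exact ⟨P.2, hT P hP⟩
  set D := Real.sqrt (K ^ κ₁ * H / g) with hD
  have hD0 : 0 ≤ D := Real.sqrt_nonneg _
  have hD2 : D ^ 2 = K ^ κ₁ * H / g := Real.sq_sqrt (by positivity)
  have hM0 : 0 < K ^ κ₂ * H := by have := hp κ₂; positivity
  have hmain := blocks_card A X (X / (K ^ κ₂ * H)) (K ^ κ₂ * H) (2 * (D + 1))
    (div_pos hX0 hM0) hM0.le (by positivity) (by field_simp)
    (fun x hx => by
      obtain ⟨y, g1, g2, -, -⟩ := hAm x hx
      exact ⟨g1, g2⟩)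
    (fun S hS hSl => block_card S D hD0 fun a ha x hx b hb hax hxb => by
      obtain ⟨ya, ca⟩ := hAm a (hS ha)
      obtain ⟨yx, cx⟩ := hAm x (hS hx)
      obtain ⟨yb, cb⟩ := hAm b (hS hb)
      have col := h₂ K H hK hH e t hc X a3 a x b ya yx yb ca cx cb (hSl x hx a ha) (hSl b hb a ha)
        (hSl b hb x hx)
      have col' : ((x : ℝ) - a) * ((yb : ℝ) - ya) = ((b : ℝ) - a) * ((yx : ℝ) - ya) := by
        exact_mod_cast col
      have s1 : (1 : ℝ) ≤ (x : ℝ) - a := by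
        have : (1 : ℤ) ≤ x - a := by omega
        exact_mod_cast this
      have s2 : (1 : ℝ) ≤ (b : ℝ) - x := by
        have : (1 : ℤ) ≤ b - x := by omega
        exact_mod_cast this
      have := h₁ K H hK hH e t hc X a1 a2 a x b ya yx yb ca cx cb s1 s2 col'
      rw [hD2, le_div_iff₀ hg0]
      linarith)
  rw [hcard]
  have hDle : D ≤ K ^ κ₁ * Real.sqrt (H / g) := by
    have e1 : K ^ κ₁ * H / g = K ^ κ₁ * (H / g) := by ring
    rw [hD, e1, Real.sqrt_mul (hp κ₁).le]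
    refine mul_le_mul_of_nonneg_right ?_ (Real.sqrt_nonneg _)
    have h3 : (1 : ℝ) ≤ K ^ κ₁ := one_le_pow₀ hK1
    rw [Real.sqrt_le_left (hp κ₁).le]
    nlinarith
  have hS0 : 0 ≤ Real.sqrt (H / g) := Real.sqrt_nonneg _
  have hk1 : (1 : ℝ) ≤ K ^ κ₁ := one_le_pow₀ hK1
  have hk2 : (1 : ℝ) ≤ K ^ κ₂ := one_le_pow₀ hK1
  have b1 : D + 1 ≤ K ^ κ₁ * (1 + Real.sqrt (H / g)) := by nlinarith
  have b2 : K ^ κ₂ * H + 1 ≤ 2 * (K ^ κ₂ * H) := by nlinarith
  have b3 : (4 : ℝ) ≤ K ^ 3 := by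
    have : (2 : ℝ) ^ 3 ≤ K ^ 3 := pow_le_pow_left₀ (by norm_num) hK 3
    linarith
  calc (A.card : ℝ) ≤ (K ^ κ₂ * H + 1) * (2 * (D + 1)) := hmain
    _ ≤ (2 * (K ^ κ₂ * H)) * (2 * (K ^ κ₁ * (1 + Real.sqrt (H / g)))) :=
        mul_le_mul b2 (by linarith) (by positivity) (by positivity)
    _ = 4 * (K ^ κ₁ * K ^ κ₂ * H * (1 + Real.sqrt (H / g))) := by ring
    _ ≤ K ^ 3 * (K ^ κ₁ * K ^ κ₂ * H * (1 + Real.sqrt (H / g))) :=
        mul_le_mul_of_nonneg_right b3 (by positivity)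
    _ = K ^ (κ₁ + κ₂ + 3) * H * (1 + Real.sqrt (H / g)) := by rw [pow_add, pow_add]; ring

/-- the reflected array -/
private def rf (e : ℕ → ℕ → ℤ) : ℕ → ℕ → ℤ := fun a b => (-1) ^ (a + b) * e a b

private lemma rf_fm (e : ℕ → ℕ → ℤ) (k : ℕ) : fm (rf e) k = C ((-1) ^ k) * fm e k := by
  unfold fm rf
  rw [mul_sum]
  refine sum_congr rfl fun j hj => ?_
  rw [mem_range] at hj
  have : k - j + j = k := by omega
  rw [this, C_mul_monomial]

private lemma rf_ev (n : ℕ) (e : ℕ → ℕ → ℤ) (x y : ℤ) : ev n (rf e) (-x) (-y) = ev n e x y := by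
  unfold ev rf
  refine sum_congr rfl fun k hk => sum_congr rfl fun j hj => ?_
  rw [neg_pow x, neg_pow y]
  have h : ((-1 : ℤ) ^ (k - j + j)) * ((-1) ^ (k - j) * (-1) ^ j) = 1 := by
    rw [← pow_add, ← mul_pow]
    norm_num
  calc (-1) ^ (k - j + j) * e (k - j) j * ((-1) ^ (k - j) * x ^ (k - j) * ((-1) ^ j * y ^ j))
      = ((-1 : ℤ) ^ (k - j + j)) * ((-1) ^ (k - j) * (-1) ^ j) * (e (k - j) j * (x ^ (k - j) * y ^ j)) := by ring
    _ = e (k - j) j * (x ^ (k - j) * y ^ j) := by rw [h, one_mul]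

/-- explicit exponent -/
theorem cu3_ex (n k κ₁ κ₂ : ℕ) (hk : k + 4 ≤ n) (h₁ : Cu1S n k κ₁) (h₂ : Cu2S n k κ₂) :
    Cu3S n k (κ₁ + κ₂ + 4) := by
  classical
  have h := cu3_pos n k κ₁ κ₂ h₁ h₂
  have hκ : κ₁ + κ₂ + 4 = (κ₁ + κ₂ + 3) + 1 := by omega
  rw [hκ]
  generalize κ₁ + κ₂ + 3 = κ at h
  intro K H hK hH e t hc X hX1 hX2 T hT
  have hK1 : (1 : ℝ) ≤ K := by linarith
  have hK0 : (0 : ℝ) < K := by linarith
  have hH0 : (0 : ℝ) < H := by linarith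
  have hp : ∀ m, (0 : ℝ) < K ^ m := fun m => pow_pos hK0 m
  have m1 : K ^ κ ≤ K ^ (κ + 1) := pow_le_pow_right₀ hK1 (by omega)
  have a1 : K ^ κ * H ^ 3 ≤ |gm n e t| * X :=
    (mul_le_mul_of_nonneg_right m1 (by positivity)).trans hX1
  have a2 : K ^ κ * H ^ 2 ≤ X := (mul_le_mul_of_nonneg_right m1 (by positivity)).trans hX2
  have hX0 : 0 < X := lt_of_lt_of_le (by have := hp κ; positivity) a2
  -- the two halves
  let T1 := T.filter fun P => 0 < P.1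
  let T2 := (T.filter fun P => ¬ 0 < P.1).image fun P : ℤ × ℤ => (-P.1, -P.2)
  have hT2c : (T.filter fun P => ¬ 0 < P.1).card = T2.card := by
    refine (card_image_of_injective _ ?_).symm
    rintro ⟨x, y⟩ ⟨x', y'⟩ hxy
    simp only [Prod.mk.injEq, neg_inj] at hxy
    exact Prod.ext hxy.1 hxy.2
  have hcard : T.card = T1.card + T2.card := by
    rw [← hT2c]
    exact (card_filter_add_card_filter_not _).symm
  -- first half
  have c1 := h K H hK hH e t hc X a1 a2 T1 (by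
    intro P hP
    rw [mem_filter] at hP
    obtain ⟨g1, g2, g3, g4⟩ := hT P hP.1
    have hpos : (0 : ℝ) < P.1 := by exact_mod_cast hP.2
    rw [abs_of_pos hpos] at g1 g2
    refine ⟨g1, g2, g3, ?_⟩
    rw [evR_cast]
    exact g4)
  -- second half
  have sq1 : ∀ m : ℕ, ((-1 : ℝ) ^ m) ^ 2 = 1 := fun m => by rw [← pow_mul, mul_comm, pow_mul]; norm_num
  have ab1 : ∀ m : ℕ, |(-1 : ℝ) ^ m| = 1 := fun m => by rw [abs_pow]; norm_num
  have f0 : ∀ m, aeval t (fm (rf e) m) = (-1) ^ m * aeval t (fm e m) := by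
    intro m
    rw [rf_fm, map_mul, aeval_C]
    simp
  have f1 : ∀ m, aeval t (derivative (fm (rf e) m)) = (-1) ^ m * aeval t (derivative (fm e m)) := by
    intro m
    rw [rf_fm, derivative_C_mul, map_mul, aeval_C]
    simp
  have f2 : ∀ m, aeval t (derivative (derivative (fm (rf e) m))) =
      (-1) ^ m * aeval t (derivative (derivative (fm e m))) := by
    intro m
    rw [rf_fm, derivative_C_mul, derivative_C_mul, map_mul, aeval_C]
    simp
  obtain ⟨N, hN⟩ : ∃ N, n = N + 2 := ⟨n - 2, by omega⟩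
  have hbe : be n (rf e) t = - be n e t := by
    unfold be
    rw [f0, f1]
    subst hN
    have e1 : N + 2 - 1 = N + 1 := by omega
    rw [e1, pow_succ (-1 : ℝ) (N + 1)]
    have h3 : (-1 : ℝ) ^ (N + 1) ≠ 0 := pow_ne_zero _ (by norm_num)
    have h4 : (-1 : ℝ) ^ (N + 1) * aeval t (fm e (N + 1)) /
        ((-1) ^ (N + 1) * (-1) * aeval t (derivative (fm e (N + 2)))) =
        - (aeval t (fm e (N + 1)) / aeval t (derivative (fm e (N + 2)))) := by
      rw [mul_assoc, mul_div_mul_left _ _ h3, neg_one_mul, div_neg]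
    rw [h4]
  have hgm : gm n (rf e) t = (-1) ^ n * gm n e t := by
    unfold gm
    rw [f0, f0, f1, f1, f2]
    subst hN
    have e1 : N + 2 - 1 = N + 1 := by omega
    have e2 : N + 2 - 2 = N := by omega
    rw [e1, e2]
    have h3 := sq1 (N + 1)
    have h4 := sq1 (N + 2)
    have h5 : (-1 : ℝ) ^ (N + 2) = (-1) ^ N := by rw [pow_add]; norm_num
    rw [h5] at h4 ⊢
    have e3 : (-1 : ℝ) ^ N * aeval t (derivative (derivative (fm e (N + 2)))) / 2 *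
        ((-1) ^ (N + 1) * aeval t (fm e (N + 1))) ^ 2 -
        (-1) ^ (N + 1) * aeval t (derivative (fm e (N + 1))) * ((-1) ^ (N + 1) * aeval t (fm e (N + 1))) *
          ((-1) ^ N * aeval t (derivative (fm e (N + 2)))) +
        (-1) ^ N * aeval t (fm e N) * ((-1) ^ N * aeval t (derivative (fm e (N + 2)))) ^ 2 =
        (-1) ^ N * aeval t (derivative (derivative (fm e (N + 2)))) / 2 *
        (((-1) ^ (N + 1)) ^ 2 * aeval t (fm e (N + 1)) ^ 2) -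
        ((-1) ^ (N + 1)) ^ 2 * aeval t (derivative (fm e (N + 1))) * aeval t (fm e (N + 1)) *
          ((-1) ^ N * aeval t (derivative (fm e (N + 2)))) +
        (-1) ^ N * aeval t (fm e N) * (((-1) ^ N) ^ 2 * aeval t (derivative (fm e (N + 2))) ^ 2) := by
      ring
    rw [e3, h3, h4]
    ring
  have hgm' : |gm n (rf e) t| = |gm n e t| := by
    rw [hgm, abs_mul, ab1, one_mul]
  have hc' : Ct n K H (rf e) t := by
    refine ⟨?_, hc.t2, ?_, ?_⟩
    · intro a b hab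
      have := hc.bs a b hab
      unfold rf
      push_cast
      rw [abs_mul, ab1, one_mul]
      exact this
    · rw [f0, hc.rt, mul_zero]
    · rw [f1, abs_mul, ab1, one_mul]
      exact hc.dr
  have c2 := h K H hK hH (rf e) t hc' X (by rw [hgm']; exact a1) a2 T2 (by
    intro P hP
    rw [mem_image] at hP
    obtain ⟨Q, hQ, rfl⟩ := hP
    rw [mem_filter] at hQ
    obtain ⟨g1, g2, g3, g4⟩ := hT Q hQ.1
    have hneg : (Q.1 : ℝ) ≤ 0 := by
      have : Q.1 ≤ 0 := by omega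
      exact_mod_cast this
    rw [abs_of_nonpos hneg] at g1 g2
    refine ⟨?_, ?_, ?_, ?_⟩
    · push_cast
      exact g1
    · push_cast
      exact g2
    · rw [hbe]
      push_cast
      have : -(Q.2 : ℝ) - t * -(Q.1 : ℝ) - -be n e t = -((Q.2 : ℝ) - t * Q.1 - be n e t) := by ring
      rw [this, abs_neg]
      exact g3
    · rw [evR_cast, rf_ev]
      exact g4)
  rw [hgm'] at c2
  have hS0 : 0 ≤ Real.sqrt (H / |gm n e t|) := Real.sqrt_nonneg _
  have hcR : (T.card : ℝ) = (T1.card : ℝ) + (T2.card : ℝ) := by exact_mod_cast hcard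
  rw [hcR, pow_succ]
  have hpk := hp κ
  have h9 : 0 ≤ K ^ κ * H * (1 + Real.sqrt (H / |gm n e t|)) := by positivity
  calc (T1.card : ℝ) + (T2.card : ℝ) ≤ 2 * (K ^ κ * H * (1 + Real.sqrt (H / |gm n e t|))) := by
        linarith
    _ ≤ K * (K ^ κ * H * (1 + Real.sqrt (H / |gm n e t|))) := mul_le_mul_of_nonneg_right hK h9
    _ = K ^ κ * K * H * (1 + Real.sqrt (H / |gm n e t|)) := by ring

theorem cu3 (n k : ℕ) (hk : k + 4 ≤ n) : ∃ κ : ℕ, ∀ K H : ℝ, 2 ≤ K → 1 ≤ H → ∀ (e : ℕ → ℕ → ℤ) (t : ℝ), Ct n K H e t →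
    ∀ X : ℝ, K ^ κ * H ^ 3 ≤ |gm n e t| * X → K ^ κ * H ^ 2 ≤ X → ∀ T : Finset (ℤ × ℤ),
      (∀ P ∈ T, X ≤ |(P.1 : ℝ)| ∧ |(P.1 : ℝ)| ≤ 2 * X ∧ |(P.2 : ℝ) - t * P.1 - be n e t| ≤ K * H ^ 2 / X ∧
        |(ev n e P.1 P.2 : ℝ)| ≤ K * H * X ^ k) →
      (T.card : ℝ) ≤ K ^ κ * H * (1 + Real.sqrt (H / |gm n e t|)) := by
  obtain ⟨κ₁, h₁⟩ := cu1 n k hk
  obtain ⟨κ₂, h₂⟩ := cu2 n k hk
  exact ⟨_, cu3_ex n k κ₁ κ₂ hk h₁ h₂⟩

end Pool.Agent.H88.TU
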