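import Pool.Agent.H88.TS.Def
import Pool.Agent.H88.TS.Dig

/-! # [H88 TU DEF] THEOREM TSU (TS effective and uniform in `G`; no Roth), MP_821da1_nt -/

namespace Pool.Agent.H88.TU

open Finset Polynomial Pool.Agent.H8.AA Pool.Agent.H88.A2

/-- sum of an array and the array of a vector -/
def ad (e : ℕ → ℕ → ℤ) {k : ℕ} (c : Ix k → ℤ) : ℕ → ℕ → ℤ := fun a b => e a b + co c a b

/-- the array of the fixed part `G` -/
structure Bas (n B : ℕ) (e : ℕ → ℕ → ℤ) : Prop where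
  bd : ∀ a b, a + b ≤ n → |e a b| + 1 ≤ (B : ℤ)
  irr : Irreducible ((fm e n).map (Int.castRingHom ℚ))
  deg : (fm e n).natDegree = n
  gd : Gd n (1 / (B : ℝ)) e

/-- the array of a fibre (`G` and the fixed coefficients of `L`) -/
structure Fb (n B H : ℕ) (e : ℕ → ℕ → ℤ) : Prop where
  bd : ∀ a b, a + b < n → |e a b| ≤ (B : ℤ) * (H : ℤ)
  tp : ∀ a b, a + b = n → |e a b| ≤ (B : ℤ)
  irr : Irreducible ((fm e n).map (Int.castRingHom ℚ))
  deg : (fm e n).natDegree = n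
  gd : Gd n (1 / (B : ℝ)) e

/-- the asymptote of slope `t` is `y = t x + be` -/
noncomputable def be (n : ℕ) (e : ℕ → ℕ → ℤ) (t : ℝ) : ℝ :=
  -(aeval t (fm e (n - 1)) / aeval t (derivative (fm e n)))

/-- `φ_n'(t)²` times the coefficient of `x^(n-2)` in `F(x, t x + be)` -/
noncomputable def gm (n : ℕ) (e : ℕ → ℕ → ℤ) (t : ℝ) : ℝ :=
  aeval t (derivative (derivative (fm e n))) / 2 * aeval t (fm e (n - 1)) ^ 2 -
    aeval t (derivative (fm e (n - 1))) * aeval t (fm e (n - 1)) * aeval t (derivative (fm e n)) +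
    aeval t (fm e (n - 2)) * aeval t (derivative (fm e n)) ^ 2

/-- the data at a real point `t` at infinity -/
structure Ct (n : ℕ) (K H : ℝ) (e : ℕ → ℕ → ℤ) (t : ℝ) : Prop where
  bs : Bs n K H e
  t2 : |t| ≤ 2
  rt : aeval t (fm e n) = 0
  dr : 1 / K ≤ |aeval t (derivative (fm e n))|

/-- value at a real point -/
noncomputable def evR (n : ℕ) (e : ℕ → ℕ → ℤ) (x y : ℝ) : ℝ :=
  ∑ k ∈ range (n + 1), ∑ j ∈ range (k + 1), (e (k - j) j : ℝ) * (x ^ (k - j) * y ^ j)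

theorem evR_cast (n : ℕ) (e : ℕ → ℕ → ℤ) (x y : ℤ) : evR n e x y = (ev n e x y : ℝ) := by
  unfold evR ev
  push_cast
  rfl

/-- a point near the asymptote where the polynomial is small -/
def Np (n k : ℕ) (K H X : ℝ) (e : ℕ → ℕ → ℤ) (t x y : ℝ) : Prop :=
  X ≤ x ∧ x ≤ 2 * X ∧ |y - t * x - be n e t| ≤ K * H ^ 2 / X ∧ |evR n e x y| ≤ K * H * X ^ k

/-- exponent of the border between the two ranges -/
noncomputable def al (n : ℕ) : ℝ := if n = 5 then 11 / 2 else 3 + 2 / ((n : ℝ) - 1)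

/-- exponent of the error term -/
noncomputable def dl (n : ℕ) : ℝ := 1 / (2 * (n : ℝ) + 4)

end Pool.Agent.H88.TU
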