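import Pool.Agent.H88.TS.Br

/-! # [H88 TU DGE] Vectors with a given value at a point, explicit constants

`dig`: fix one element of `T` and subtract: the differences lie in the box of size `2H` and vanish at `(x,y)`; `H15.SC.pt_count j (2H)` for `|x| ≥ |y|` (divide by `K^(j+1)`),
the other case by `sv`. `(4H+1) ≤ 2 (2H+1)`. `pairs`: the same with `H15.SC.pair_count`. -/

namespace Pool.Agent.H88.TU

open Pool.Agent.H8.AA Pool.Agent.H88.TS

private theorem card_ge (j : ℕ) : j + 1 ≤ Fintype.card (Ix j) := by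
  have h := Pool.Agent.H15.SC.card_pur j
  have h2 : Fintype.card (Pool.Agent.H8.NoPt.Ix j) = Fintype.card (Ix j) := rfl
  omega

private theorem diff_mem (j H : ℕ) (x y N : ℤ) (T : Finset (Ix j → ℤ))
    (hT : ∀ c ∈ T, (∀ p, |c p| ≤ (H : ℤ)) ∧ ev j (co c) x y = N) (c c0 : Ix j → ℤ) (hc : c ∈ T) (h0 : c0 ∈ T) :
    (∀ p, |(c - c0) p| ≤ ((2 * H : ℕ) : ℤ)) ∧
      Pool.Agent.H72.ES.ev j (Pool.Agent.H8.NoPt.arr (n := j) (c - c0)) x y = 0 := by
  refine ⟨fun p => ?_, ?_⟩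
  · have h1 := (hT c hc).1 p
    have h2 := (hT c0 h0).1 p
    have h3 : |(c - c0) p| ≤ |c p| + |c0 p| := by
      rw [Pi.sub_apply]
      exact abs_sub _ _
    push_cast
    linarith
  · rw [arr_co, ev_ev, ev_add, (hT c hc).2, (hT c0 h0).2, sub_self]

private theorem dig0 (j H : ℕ) (x y N : ℤ) (hx : x ≠ 0) (T : Finset (Ix j → ℤ))
    (hT : ∀ c ∈ T, (∀ p, |c p| ≤ (H : ℤ)) ∧ ev j (co c) x y = N) :
    (T.card : ℝ) * (2 * ((2 * H : ℕ) : ℝ) + 1) ^ (j + 1) ≤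
      (2 * ((2 * H : ℕ) : ℝ) / |(x : ℝ)| + 1) ^ j * (2 * ((2 * H : ℕ) : ℝ) + 1) ^ (Fintype.card (Ix j)) := by
  classical
  rcases T.eq_empty_or_nonempty with rfl | ⟨c0, h0⟩
  · rw [Finset.card_empty, Nat.cast_zero, zero_mul]
    positivity
  have hc : (T.image (fun c => c - c0)).card = T.card :=
    Finset.card_image_of_injective _ sub_left_injective
  have h := Pool.Agent.H15.SC.pt_count j (2 * H) (x, y) hx (T.image (fun c => c - c0)) (by
    intro a ha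
    obtain ⟨c, hc, rfl⟩ := Finset.mem_image.1 ha
    exact diff_mem j H x y N T hT c c0 hc h0)
  rw [hc] at h
  exact h

private theorem fin0 (j H N : ℕ) (m n : ℝ) (hm : 0 < m)
    (h : n * (2 * ((2 * H : ℕ) : ℝ) + 1) ^ (j + 1) ≤
      (2 * ((2 * H : ℕ) : ℝ) / m + 1) ^ j * (2 * ((2 * H : ℕ) : ℝ) + 1) ^ N) (hN : j + 1 ≤ N) :
    n ≤ (4 ^ j * 2 ^ N) * ((H : ℝ) / m + 1) ^ j * (2 * (H : ℝ) + 1) ^ (N - (j + 1)) := by
  have hH : (0 : ℝ) ≤ H := Nat.cast_nonneg H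
  have hK : 2 * ((2 * H : ℕ) : ℝ) + 1 = 4 * (H : ℝ) + 1 := by
    push_cast
    ring
  rw [hK] at h
  have hKp : (0 : ℝ) < 4 * (H : ℝ) + 1 := by positivity
  have e1 : (4 * (H : ℝ) + 1) ^ N = (4 * (H : ℝ) + 1) ^ (N - (j + 1)) * (4 * (H : ℝ) + 1) ^ (j + 1) := by
    rw [← pow_add]
    congr 1
    omega
  rw [e1, ← mul_assoc] at h
  have h1 := le_of_mul_le_mul_right h (by positivity)
  have h2 : (2 * ((2 * H : ℕ) : ℝ) / m + 1) ^ j ≤ 4 ^ j * ((H : ℝ) / m + 1) ^ j := by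
    rw [← mul_pow]
    refine pow_le_pow_left₀ (by positivity) ?_ _
    have : 2 * ((2 * H : ℕ) : ℝ) / m = 4 * ((H : ℝ) / m) := by
      push_cast
      ring
    rw [this]
    linarith
  have h3 : (4 * (H : ℝ) + 1) ^ (N - (j + 1)) ≤ 2 ^ N * (2 * (H : ℝ) + 1) ^ (N - (j + 1)) := by
    calc (4 * (H : ℝ) + 1) ^ (N - (j + 1)) ≤ (2 * (2 * (H : ℝ) + 1)) ^ (N - (j + 1)) :=
          pow_le_pow_left₀ hKp.le (by linarith) _
      _ = 2 ^ (N - (j + 1)) * (2 * (H : ℝ) + 1) ^ (N - (j + 1)) := mul_pow _ _ _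
      _ ≤ 2 ^ N * (2 * (H : ℝ) + 1) ^ (N - (j + 1)) :=
          mul_le_mul_of_nonneg_right (pow_le_pow_right₀ one_le_two (Nat.sub_le _ _)) (by positivity)
  calc n ≤ (2 * ((2 * H : ℕ) : ℝ) / m + 1) ^ j * (4 * (H : ℝ) + 1) ^ (N - (j + 1)) := h1
    _ ≤ (4 ^ j * ((H : ℝ) / m + 1) ^ j) * (2 ^ N * (2 * (H : ℝ) + 1) ^ (N - (j + 1))) :=
        mul_le_mul h2 h3 (by positivity) (by positivity)
    _ = (4 ^ j * 2 ^ N) * ((H : ℝ) / m + 1) ^ j * (2 * (H : ℝ) + 1) ^ (N - (j + 1)) := by ring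

theorem dig_ex (j : ℕ) : ∀ (H : ℕ), 1 ≤ H → ∀ x y N : ℤ, x ≠ 0 ∨ y ≠ 0 → ∀ T : Finset (Ix j → ℤ),
    (∀ c ∈ T, (∀ p, |c p| ≤ (H : ℤ)) ∧ ev j (co c) x y = N) →
    (T.card : ℝ) ≤ (4 ^ j * 2 ^ Fintype.card (Ix j)) * ((H : ℝ) / max |(x : ℝ)| |(y : ℝ)| + 1) ^ j * (2 * (H : ℝ) + 1) ^ (Fintype.card (Ix j) - (j + 1)) := by
  classical
  intro H _ x y N hxy T hT
  rcases le_total |(y : ℝ)| |(x : ℝ)| with hle | hle
  · have hx : x ≠ 0 := by
      rintro rfl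
      rcases hxy with h | h
      · exact h rfl
      · rw [Int.cast_zero, abs_zero] at hle
        have h2 : (y : ℝ) = 0 := abs_eq_zero.1 (le_antisymm hle (abs_nonneg _))
        exact h (by exact_mod_cast h2)
    rw [max_eq_left hle]
    exact fin0 j H _ _ _ (abs_pos.2 (by exact_mod_cast hx)) (dig0 j H x y N hx T hT) (card_ge j)
  · have hy : y ≠ 0 := by
      rintro rfl
      rcases hxy with h | h
      · rw [Int.cast_zero, abs_zero] at hle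
        have h2 : (x : ℝ) = 0 := abs_eq_zero.1 (le_antisymm hle (abs_nonneg _))
        exact h (by exact_mod_cast h2)
      · exact h rfl
    rw [max_eq_right hle]
    have hinj : Function.Injective (sv (n := j)) := fun a b hab => by
      rw [← sv_sv a, hab, sv_sv]
    have hc : (T.image (sv (n := j))).card = T.card := Finset.card_image_of_injective _ hinj
    rw [← hc]
    refine fin0 j H _ _ _ (abs_pos.2 (by exact_mod_cast hy)) (dig0 j H y x N hy _ ?_) (card_ge j)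
    intro c hcc
    obtain ⟨d, hd, rfl⟩ := Finset.mem_image.1 hcc
    refine ⟨fun p => (hT d hd).1 _, ?_⟩
    rw [sv_ev]
    exact (hT d hd).2

theorem pairs_ex (j : ℕ) (hj : 1 ≤ j) : ∀ (H : ℕ), 1 ≤ H → ∀ (P Q : ℤ × ℤ) (N₁ N₂ : ℤ), P ≠ Q → ∀ T : Finset (Ix j → ℤ),
    (∀ c ∈ T, (∀ p, |c p| ≤ (H : ℤ)) ∧ ev j (co c) P.1 P.2 = N₁ ∧ ev j (co c) Q.1 Q.2 = N₂) →
    (T.card : ℝ) ≤ 2 ^ Fintype.card (Ix j) * (2 * (H : ℝ) + 1) ^ (Fintype.card (Ix j) - 2) := by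
  classical
  intro H _ P Q N₁ N₂ hPQ T hT
  have hH : (0 : ℝ) ≤ H := Nat.cast_nonneg H
  rcases T.eq_empty_or_nonempty with rfl | ⟨c0, h0⟩
  · rw [Finset.card_empty, Nat.cast_zero]
    positivity
  have hc : (T.image (fun c => c - c0)).card = T.card :=
    Finset.card_image_of_injective _ sub_left_injective
  have h := Pool.Agent.H15.SC.pair_count j hj (2 * H) P Q hPQ (T.image (fun c => c - c0)) (by
    intro a ha
    obtain ⟨c, hc, rfl⟩ := Finset.mem_image.1 ha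
    have h1 := diff_mem j H P.1 P.2 N₁ T (fun c hc => ⟨(hT c hc).1, (hT c hc).2.1⟩) c c0 hc h0
    have h2 := diff_mem j H Q.1 Q.2 N₂ T (fun c hc => ⟨(hT c hc).1, (hT c hc).2.2⟩) c c0 hc h0
    exact ⟨h1.1, h1.2, h2.2⟩)
  rw [hc] at h
  have hcd : Fintype.card (Pool.Agent.H8.NoPt.Ix j) = Fintype.card (Ix j) := rfl
  rw [hcd] at h
  refine h.trans ?_
  calc (2 * ((2 * H : ℕ) : ℝ) + 1) ^ (Fintype.card (Ix j) - 2)
      ≤ (2 * (2 * (H : ℝ) + 1)) ^ (Fintype.card (Ix j) - 2) := by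
        refine pow_le_pow_left₀ (by positivity) ?_ _
        push_cast
        linarith
    _ = 2 ^ (Fintype.card (Ix j) - 2) * (2 * (H : ℝ) + 1) ^ (Fintype.card (Ix j) - 2) := mul_pow _ _ _
    _ ≤ 2 ^ Fintype.card (Ix j) * (2 * (H : ℝ) + 1) ^ (Fintype.card (Ix j) - 2) :=
        mul_le_mul_of_nonneg_right (pow_le_pow_right₀ one_le_two (Nat.sub_le _ _)) (by positivity)

end Pool.Agent.H88.TU
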