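import Pool.Agent.H88.TU.Cub
import Pool.Agent.H88.TU.Sta

/-! # [H88 TU DGH] Vectors with a given value at a point near an asymptote

PROOF. `|y| ≤ 3|x|`. For `c ∈ T`: the form of degree `k` of `c` is `u(x,y) = N - (terms of degree < k)`, so `|u(1, y/x) - N/x^k| ≤ C H/|x|`, and `|u(1,y/x) - u(1,θ)| ≤ C H |y/x - θ| ≤ C B H²/|x|`: the
vectors `u = (c_(k-i,i))_i` satisfy the hypothesis of `cub n k` with `A = N/x^k`, `η = C B H²/|x|`: at most `B^κ₀ (H/h)^k` of them. The `c ∈ T` with given `u`: the rest is a vector of `Ix (k-1)`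
with given value at `(x,y)`: `TS.dig (k-1)` (`|x| ≥ H`): `≤ C (2H+1)^(card Ix (k-1) - k)`; for `k = 1` the rest is one number, `≤ 1`. `card Ix k = card Ix (k-1) + (k+1)`; a fibration lemma:
`Finset.card_le_mul_card_image` or `fib`. -/

namespace Pool.Agent.H88.TU

open Finset Polynomial Pool.Agent.H8.AA Pool.Agent.H88.A2

/-- the form of top degree -/
private def tp {m : ℕ} (c : Ix (m + 1) → ℤ) : Fin (m + 1 + 1) → ℤ := fun i => co c (m + 1 - (i : ℕ)) (i : ℕ)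

/-- the terms of lower degree -/
private def rs {m : ℕ} (c : Ix (m + 1) → ℤ) : Ix m → ℤ := fun p => co c (p.1.1 : ℕ) (p.1.2 : ℕ)

private theorem co_rs {m : ℕ} (c : Ix (m + 1) → ℤ) {a b : ℕ} (h : a + b ≤ m) : co (rs c) a b = co c a b := by
  rw [co_of_le (rs c) h]
  rfl

private theorem ev_split {m : ℕ} (c : Ix (m + 1) → ℤ) (x y : ℤ) :
    ev (m + 1) (co c) x y = ev m (co (rs c)) x y +
      ∑ i : Fin (m + 1 + 1), tp c i * (x ^ (m + 1 - (i : ℕ)) * y ^ (i : ℕ)) := by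
  unfold ev
  rw [Finset.sum_range_succ]
  congr 1
  · refine Finset.sum_congr rfl fun k hk => Finset.sum_congr rfl fun j hj => ?_
    have hk' := Finset.mem_range.1 hk
    have hj' := Finset.mem_range.1 hj
    rw [co_rs c (by omega)]
  · rw [Finset.sum_range]
    rfl

private theorem rs_inj {m : ℕ} {c d : Ix (m + 1) → ℤ} (h1 : tp c = tp d) (h2 : rs c = rs d) : c = d := by
  funext p
  obtain ⟨⟨⟨a, ha⟩, ⟨b, hb⟩⟩, hp⟩ := p
  have hp' : a + b ≤ m + 1 := hp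
  have key : co c a b = co d a b := by
    rcases Nat.lt_or_ge (a + b) (m + 1) with h | h
    · have h3 : a + b ≤ m := by omega
      rw [← co_rs c h3, ← co_rs d h3, h2]
    · have h3 : a = m + 1 - b := by omega
      have h4 := congrFun h1 ⟨b, by omega⟩
      simp only [tp] at h4
      rw [h3]
      exact h4
  rw [co_of_le c hp', co_of_le d hp'] at key
  exact key

private theorem abs_tp {m : ℕ} {H : ℤ} (c : Ix (m + 1) → ℤ) (hH : ∀ p, |c p| ≤ H) (i : Fin (m + 1 + 1)) :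
    |tp c i| ≤ H := by
  have hi := i.2
  unfold tp
  rw [co_of_le c (by omega)]
  exact hH _

private theorem abs_rs {m : ℕ} {H : ℤ} (c : Ix (m + 1) → ℤ) (hH : ∀ p, |c p| ≤ H) (p : Ix m) :
    |rs c p| ≤ H := by
  have hp : (p.1.1 : ℕ) + (p.1.2 : ℕ) ≤ m := p.2
  unfold rs
  rw [co_of_le c (by omega)]
  exact hH _

private theorem card_succ (m : ℕ) : Fintype.card (Ix (m + 1)) = Fintype.card (Ix m) + (m + 2) := by
  rw [card_ix, card_ix]
  have h : (m + 1 + 1) * (m + 1 + 2) = (m + 1) * (m + 2) + (m + 2) * 2 := by ring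
  rw [h, Nat.add_mul_div_right _ _ (by norm_num)]

/-- bound for the terms of lower degree -/
private theorem ev_bd (m : ℕ) (H : ℕ) (r : Ix m → ℤ) (hr : ∀ p, |r p| ≤ (H : ℤ)) (x y : ℤ)
    (hx : 1 ≤ |(x : ℝ)|) (hy : |(y : ℝ)| ≤ 3 * |(x : ℝ)|) :
    |(ev m (co r) x y : ℝ)| ≤ ((m + 1) * ((m + 1) * ((H : ℝ) * 3 ^ m))) * |(x : ℝ)| ^ m := by
  unfold ev
  push_cast
  have hcast : ∀ a b, a + b ≤ m → |(co r a b : ℝ)| ≤ H := by
    intro a b hab
    rw [co_of_le r hab]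
    exact_mod_cast hr _
  have h1 : ∀ k ∈ range (m + 1), |∑ j ∈ range (k + 1), (co r (k - j) j : ℝ) * ((x : ℝ) ^ (k - j) * (y : ℝ) ^ j)| ≤
      (m + 1) * ((H : ℝ) * 3 ^ m) * |(x : ℝ)| ^ m := by
    intro k hk
    have hk' : k ≤ m := by
      have := Finset.mem_range.1 hk
      omega
    calc |∑ j ∈ range (k + 1), (co r (k - j) j : ℝ) * ((x : ℝ) ^ (k - j) * (y : ℝ) ^ j)|
        ≤ ∑ j ∈ range (k + 1), |(co r (k - j) j : ℝ) * ((x : ℝ) ^ (k - j) * (y : ℝ) ^ j)| :=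
          Finset.abs_sum_le_sum_abs _ _
      _ ≤ ∑ _j ∈ range (k + 1), ((H : ℝ) * 3 ^ m) * |(x : ℝ)| ^ m := by
          refine Finset.sum_le_sum fun j hj => ?_
          have hj' : j ≤ k := by
            have := Finset.mem_range.1 hj
            omega
          rw [abs_mul, abs_mul, abs_pow, abs_pow]
          have e1 := hcast (k - j) j (by omega)
          have e2 : |(y : ℝ)| ^ j ≤ 3 ^ m * |(x : ℝ)| ^ j := by
            calc |(y : ℝ)| ^ j ≤ (3 * |(x : ℝ)|) ^ j := pow_le_pow_left₀ (abs_nonneg _) hy _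
              _ = 3 ^ j * |(x : ℝ)| ^ j := mul_pow _ _ _
              _ ≤ 3 ^ m * |(x : ℝ)| ^ j :=
                mul_le_mul_of_nonneg_right (pow_le_pow_right₀ (by norm_num) (by omega)) (by positivity)
          have e3 : |(x : ℝ)| ^ (k - j) * |(y : ℝ)| ^ j ≤ 3 ^ m * |(x : ℝ)| ^ m := by
            calc |(x : ℝ)| ^ (k - j) * |(y : ℝ)| ^ j ≤ |(x : ℝ)| ^ (k - j) * (3 ^ m * |(x : ℝ)| ^ j) :=
                  mul_le_mul_of_nonneg_left e2 (by positivity)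
              _ = 3 ^ m * |(x : ℝ)| ^ k := by
                  have : k = (k - j) + j := by omega
                  conv_rhs => rw [this, pow_add]
                  ring
              _ ≤ 3 ^ m * |(x : ℝ)| ^ m :=
                  mul_le_mul_of_nonneg_left (pow_le_pow_right₀ hx hk') (by positivity)
          calc |(co r (k - j) j : ℝ)| * (|(x : ℝ)| ^ (k - j) * |(y : ℝ)| ^ j)
              ≤ (H : ℝ) * (3 ^ m * |(x : ℝ)| ^ m) := mul_le_mul e1 e3 (by positivity) (by positivity)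
            _ = ((H : ℝ) * 3 ^ m) * |(x : ℝ)| ^ m := by ring
      _ = ((k : ℝ) + 1) * (((H : ℝ) * 3 ^ m) * |(x : ℝ)| ^ m) := by
          rw [Finset.sum_const, Finset.card_range, nsmul_eq_mul]
          push_cast
          ring
      _ ≤ ((m : ℝ) + 1) * (((H : ℝ) * 3 ^ m) * |(x : ℝ)| ^ m) := by
          have : (k : ℝ) ≤ m := by exact_mod_cast hk'
          exact mul_le_mul_of_nonneg_right (by linarith) (by positivity)
      _ = (m + 1) * ((H : ℝ) * 3 ^ m) * |(x : ℝ)| ^ m := by ring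
  calc |∑ k ∈ range (m + 1), ∑ j ∈ range (k + 1), (co r (k - j) j : ℝ) * ((x : ℝ) ^ (k - j) * (y : ℝ) ^ j)|
      ≤ ∑ k ∈ range (m + 1), |∑ j ∈ range (k + 1), (co r (k - j) j : ℝ) * ((x : ℝ) ^ (k - j) * (y : ℝ) ^ j)| :=
        Finset.abs_sum_le_sum_abs _ _
    _ ≤ ∑ _k ∈ range (m + 1), (m + 1) * ((H : ℝ) * 3 ^ m) * |(x : ℝ)| ^ m := Finset.sum_le_sum h1
    _ = ((m + 1) * ((m + 1) * ((H : ℝ) * 3 ^ m))) * |(x : ℝ)| ^ m := by
        rw [Finset.sum_const, Finset.card_range, nsmul_eq_mul]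
        push_cast
        ring

/-- change of the point in the top form -/
private theorem tp_bd (m : ℕ) (H : ℝ) (hH : 0 ≤ H) (u : Fin (m + 1 + 1) → ℤ) (hu : ∀ i, |(u i : ℝ)| ≤ H) (t θ : ℝ)
    (ht : |t| ≤ 3) (hθ : |θ| ≤ 3) :
    |∑ i, (u i : ℝ) * θ ^ (i : ℕ) - ∑ i, (u i : ℝ) * t ^ (i : ℕ)| ≤ ((m + 2) * ((m + 1) * 3 ^ m)) * (H * |θ - t|) := by
  rw [← Finset.sum_sub_distrib]
  refine (Finset.abs_sum_le_sum_abs _ _).trans ?_
  calc ∑ i : Fin (m + 1 + 1), |(u i : ℝ) * θ ^ (i : ℕ) - (u i : ℝ) * t ^ (i : ℕ)|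
      ≤ ∑ _i : Fin (m + 1 + 1), ((m + 1) * 3 ^ m) * (H * |θ - t|) := by
        refine Finset.sum_le_sum fun i _ => ?_
        have hi : (i : ℕ) ≤ m + 1 := by
          have := i.2
          omega
        rw [← mul_sub, abs_mul]
        have h1 := abs_pow_sub_pow_le θ t (i : ℕ)
        have h2 : max |θ| |t| ^ ((i : ℕ) - 1) ≤ 3 ^ m := by
          calc max |θ| |t| ^ ((i : ℕ) - 1) ≤ 3 ^ ((i : ℕ) - 1) :=
                pow_le_pow_left₀ (le_max_of_le_left (abs_nonneg _)) (max_le hθ ht) _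
            _ ≤ 3 ^ m := pow_le_pow_right₀ (by norm_num) (by omega)
        have h3 : ((i : ℕ) : ℝ) ≤ m + 1 := by exact_mod_cast hi
        have h4 : |θ ^ (i : ℕ) - t ^ (i : ℕ)| ≤ |θ - t| * ((m : ℝ) + 1) * 3 ^ m := by
          refine h1.trans ?_
          refine mul_le_mul (mul_le_mul_of_nonneg_left h3 (abs_nonneg _)) h2 ?_ (by positivity)
          exact pow_nonneg (le_max_of_le_left (abs_nonneg _)) _
        calc |(u i : ℝ)| * |θ ^ (i : ℕ) - t ^ (i : ℕ)| ≤ H * (|θ - t| * ((m : ℝ) + 1) * 3 ^ m) :=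
              mul_le_mul (hu i) h4 (abs_nonneg _) hH
          _ = ((m + 1) * 3 ^ m) * (H * |θ - t|) := by ring
    _ = ((m + 2) * ((m + 1) * 3 ^ m)) * (H * |θ - t|) := by
        rw [Finset.sum_const, Finset.card_univ, Fintype.card_fin, nsmul_eq_mul]
        push_cast
        ring

/-- vectors with a given value, explicit constant -/
private theorem fibre (m H : ℕ) (hH : 1 ≤ H) (x y N : ℤ) (hx : (H : ℝ) ≤ |(x : ℝ)|) (R : Finset (Ix m → ℤ))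
    (hR : ∀ c ∈ R, (∀ p, |c p| ≤ (H : ℤ)) ∧ ev m (co c) x y = N) :
    (R.card : ℝ) ≤ (5 ^ m * 2 ^ Fintype.card (Ix m)) * (2 * (H : ℝ) + 1) ^ (Fintype.card (Ix m) - (m + 1)) := by
  classical
  have hH1 : (1 : ℝ) ≤ H := by exact_mod_cast hH
  have hx0 : (0 : ℝ) < |(x : ℝ)| := by linarith
  have hx1 : x ≠ 0 := by
    rintro rfl
    simp at hx0
  rcases R.eq_empty_or_nonempty with rfl | ⟨c0, h0⟩
  · rw [Finset.card_empty, Nat.cast_zero]
    positivity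
  have hc : (R.image (fun c => c - c0)).card = R.card :=
    Finset.card_image_of_injective _ sub_left_injective
  have h := Pool.Agent.H15.SC.pt_count m (2 * H) (x, y) hx1 (R.image (fun c => c - c0)) (by
    intro a ha
    obtain ⟨c, hc, rfl⟩ := Finset.mem_image.1 ha
    refine ⟨fun p => ?_, ?_⟩
    · have h1 := (hR c hc).1 p
      have h2 := (hR c0 h0).1 p
      have h3 : |(c - c0) p| ≤ |c p| + |c0 p| := by
        rw [Pi.sub_apply]
        exact abs_sub _ _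
      push_cast
      linarith
    · rw [TS.arr_co, TS.ev_ev, TS.ev_add, (hR c hc).2, (hR c0 h0).2, sub_self])
  rw [hc] at h
  have hcd : Fintype.card (Pool.Agent.H8.NoPt.Ix m) = Fintype.card (Ix m) := rfl
  rw [hcd] at h
  set C := Fintype.card (Ix m) with hC
  have hmC : m + 1 ≤ C := by
    rw [hC, card_ix, Nat.le_div_iff_mul_le (by norm_num)]
    nlinarith
  have hK : 2 * ((2 * H : ℕ) : ℝ) + 1 = 4 * (H : ℝ) + 1 := by
    push_cast
    ring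
  rw [hK] at h
  have hKp : (0 : ℝ) < 4 * (H : ℝ) + 1 := by positivity
  have e1 : (4 * (H : ℝ) + 1) ^ C = (4 * (H : ℝ) + 1) ^ (C - (m + 1)) * (4 * (H : ℝ) + 1) ^ (m + 1) := by
    rw [← pow_add]
    congr 1
    omega
  rw [e1, ← mul_assoc] at h
  have h1 := le_of_mul_le_mul_right h (by positivity)
  have h2 : (2 * ((2 * H : ℕ) : ℝ) / |(((x, y) : ℤ × ℤ).1 : ℝ)| + 1) ^ m ≤ 5 ^ m := by
    refine pow_le_pow_left₀ (by positivity) ?_ _
    have h3 : 2 * ((2 * H : ℕ) : ℝ) / |(x : ℝ)| ≤ 4 := by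
      rw [div_le_iff₀ hx0]
      push_cast
      linarith
    linarith
  have h3 : (4 * (H : ℝ) + 1) ^ (C - (m + 1)) ≤ 2 ^ C * (2 * (H : ℝ) + 1) ^ (C - (m + 1)) := by
    calc (4 * (H : ℝ) + 1) ^ (C - (m + 1)) ≤ (2 * (2 * (H : ℝ) + 1)) ^ (C - (m + 1)) :=
          pow_le_pow_left₀ hKp.le (by linarith) _
      _ = 2 ^ (C - (m + 1)) * (2 * (H : ℝ) + 1) ^ (C - (m + 1)) := mul_pow _ _ _
      _ ≤ 2 ^ C * (2 * (H : ℝ) + 1) ^ (C - (m + 1)) :=
          mul_le_mul_of_nonneg_right (pow_le_pow_right₀ one_le_two (Nat.sub_le _ _)) (by positivity)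
  calc (R.card : ℝ) ≤ _ := h1
    _ ≤ 5 ^ m * (2 ^ C * (2 * (H : ℝ) + 1) ^ (C - (m + 1))) :=
        mul_le_mul h2 h3 (by positivity) (by positivity)
    _ = (5 ^ m * 2 ^ C) * (2 * (H : ℝ) + 1) ^ (C - (m + 1)) := by ring

private theorem const1 (m : ℕ) : ((m : ℝ) + 2) * ((m + 1) * 3 ^ m) + (m + 1) * ((m + 1) * 3 ^ m) ≤ 2 ^ (4 * m + 5) := by
  have h1 : (m : ℝ) + 2 ≤ 2 ^ (m + 2) := by
    have : m + 2 ≤ 2 ^ (m + 2) := (Nat.lt_two_pow_self (n := m + 2)).le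
    exact_mod_cast this
  have h3 : (3 : ℝ) ^ m ≤ 2 ^ (2 * m) := by
    rw [pow_mul]
    exact pow_le_pow_left₀ (by norm_num) (by norm_num) _
  have hm : (0 : ℝ) ≤ m := Nat.cast_nonneg m
  have h2 : ((m : ℝ) + 2) * (m + 1) + (m + 1) * (m + 1) ≤ 2 * (2 ^ (m + 2) * 2 ^ (m + 2)) := by
    have : ((m : ℝ) + 2) * (m + 2) ≤ 2 ^ (m + 2) * 2 ^ (m + 2) := mul_le_mul h1 h1 (by positivity) (by positivity)
    nlinarith
  calc ((m : ℝ) + 2) * ((m + 1) * 3 ^ m) + (m + 1) * ((m + 1) * 3 ^ m)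
      = (((m : ℝ) + 2) * (m + 1) + (m + 1) * (m + 1)) * 3 ^ m := by ring
    _ ≤ (2 * (2 ^ (m + 2) * 2 ^ (m + 2))) * 2 ^ (2 * m) := mul_le_mul h2 h3 (by positivity) (by positivity)
    _ = 2 ^ (4 * m + 5) := by ring

private theorem const2 (m : ℕ) : (5 : ℝ) ^ m * 2 ^ Fintype.card (Ix m) ≤ 2 ^ (3 * m + (m + 1) ^ 2) := by
  have h1 : (5 : ℝ) ^ m ≤ 2 ^ (3 * m) := by
    rw [pow_mul]
    exact pow_le_pow_left₀ (by norm_num) (by norm_num) _
  have h2 : Fintype.card (Ix m) ≤ (m + 1) ^ 2 := by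
    rw [card_ix]
    refine Nat.div_le_of_le_mul ?_
    nlinarith
  rw [pow_add]
  exact mul_le_mul h1 (pow_le_pow_right₀ one_le_two h2) (by positivity) (by positivity)

theorem dgh_ex (n k κ₀ : ℕ) (hk1 : 1 ≤ k) (_hk : k + 1 ≤ n) (hcub : CubS n k κ₀) :
    DghS n k (κ₀ + (k ^ 2 + 7 * k)) := by
  classical
  obtain ⟨m, rfl⟩ : ∃ m, k = m + 1 := ⟨k - 1, by omega⟩
  intro B hB f hf hfB hirr θ hθ hθ2 H h hH hh hhH x y N hxy hx T hT
  have hB2 : (2 : ℝ) ≤ B := by exact_mod_cast hB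
  have he1' : (m + 2) * ((m + 1) * (3 : ℝ) ^ m) + (m + 1) * ((m + 1) * 3 ^ m) ≤ (B : ℝ) ^ (4 * m + 5) :=
    (const1 m).trans (pow_le_pow_left₀ (by norm_num) hB2 _)
  have he2' : (5 : ℝ) ^ m * 2 ^ Fintype.card (Ix m) ≤ (B : ℝ) ^ (3 * m + (m + 1) ^ 2) :=
    (const2 m).trans (pow_le_pow_left₀ (by norm_num) hB2 _)
  have hC : (0 : ℝ) ≤ 5 ^ m * 2 ^ Fintype.card (Ix m) := by positivity
  have hke : κ₀ + ((m + 1) ^ 2 + 7 * (m + 1)) = κ₀ + 1 + (4 * m + 5) + (3 * m + (m + 1) ^ 2) + 1 := by ring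
  rw [hke] at hx ⊢
  set e1 := 4 * m + 5
  set e2 := 3 * m + (m + 1) ^ 2
  set C : ℝ := 5 ^ m * 2 ^ Fintype.card (Ix m)
  have hB1 : (1 : ℝ) ≤ B := by
    have : (2 : ℝ) ≤ B := by exact_mod_cast hB
    linarith
  have hH1 : (1 : ℝ) ≤ H := by exact_mod_cast hH
  have hhp : (1 : ℝ) ≤ h ^ (n - 1) := one_le_pow₀ hh
  -- size of x
  have hbig : (B : ℝ) * (H : ℝ) ^ 2 ≤ |(x : ℝ)| := by
    refine le_trans ?_ hx
    have h1 : (B : ℝ) ≤ (B : ℝ) ^ (κ₀ + 1 + e1 + e2 + 1) * h ^ (n - 1) := by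
      calc (B : ℝ) = (B : ℝ) ^ 1 * 1 := by ring
        _ ≤ (B : ℝ) ^ (κ₀ + 1 + e1 + e2 + 1) * h ^ (n - 1) :=
          mul_le_mul (pow_le_pow_right₀ hB1 (by omega)) hhp zero_le_one (by positivity)
    exact mul_le_mul_of_nonneg_right h1 (by positivity)
  have hBH : (B : ℝ) * H ≤ |(x : ℝ)| := by
    refine le_trans ?_ hbig
    refine mul_le_mul_of_nonneg_left ?_ (by linarith)
    nlinarith
  have hHx : (H : ℝ) ≤ |(x : ℝ)| := by nlinarith
  have hx1 : 1 ≤ |(x : ℝ)| := by linarith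
  have hx0 : (x : ℝ) ≠ 0 := by
    intro h0
    rw [h0, abs_zero] at hx1
    linarith
  have hy : |(y : ℝ)| ≤ 3 * |(x : ℝ)| := by
    have h1 : (y : ℝ) = (y - θ * x) + θ * x := by ring
    have h2 : |(y : ℝ)| ≤ |(y : ℝ) - θ * x| + |θ * x| := by
      conv_lhs => rw [h1]
      exact abs_add_le _ _
    rw [abs_mul] at h2
    have h3 : |θ| * |(x : ℝ)| ≤ 2 * |(x : ℝ)| := mul_le_mul_of_nonneg_right hθ2 (abs_nonneg _)
    linarith
  set t : ℝ := (y : ℝ) / x with ht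
  have ht3 : |t| ≤ 3 := by
    rw [ht, abs_div, div_le_iff₀ (by linarith)]
    exact hy
  have hθt : |θ - t| ≤ (B : ℝ) * H / |(x : ℝ)| := by
    have h1 : θ - t = -((y : ℝ) - θ * x) / x := by
      rw [ht]
      field_simp
      ring
    rw [h1, abs_div, abs_neg]
    exact div_le_div_of_nonneg_right hxy (abs_nonneg _)
  set c1 : ℝ := (m + 2) * ((m + 1) * 3 ^ m) + (m + 1) * ((m + 1) * 3 ^ m) with hc1
  have hc1p : 0 ≤ c1 := by positivity
  set η : ℝ := c1 * ((B : ℝ) * (H : ℝ) ^ 2 / |(x : ℝ)|) with hη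
  have hηle : η * ((B : ℝ) ^ κ₀ * h ^ (n - 1)) ≤ 1 := by
    have h1 : c1 * (B : ℝ) * (B : ℝ) ^ κ₀ ≤ (B : ℝ) ^ (κ₀ + 1 + e1 + e2 + 1) := by
      calc c1 * (B : ℝ) * (B : ℝ) ^ κ₀ ≤ (B : ℝ) ^ e1 * B * (B : ℝ) ^ κ₀ := by
            refine mul_le_mul_of_nonneg_right (mul_le_mul_of_nonneg_right he1' (by linarith)) (by positivity)
        _ = (B : ℝ) ^ (κ₀ + 1 + e1) := by ring
        _ ≤ (B : ℝ) ^ (κ₀ + 1 + e1 + e2 + 1) := pow_le_pow_right₀ hB1 (by omega)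
    have h2 : η * ((B : ℝ) ^ κ₀ * h ^ (n - 1)) = (c1 * (B : ℝ) * (B : ℝ) ^ κ₀) * h ^ (n - 1) * (H : ℝ) ^ 2 / |(x : ℝ)| := by
      rw [hη]
      ring
    rw [h2, div_le_one (by linarith)]
    refine le_trans ?_ hx
    refine mul_le_mul_of_nonneg_right (mul_le_mul_of_nonneg_right h1 (by positivity)) (by positivity)
  -- the top forms
  have hU := hcub B hB f hf hfB hirr θ hθ hθ2 H h η ((N : ℝ) / (x : ℝ) ^ (m + 1)) hh hhH hηle (T.image tp) (by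
    intro u hu
    obtain ⟨c, hc, rfl⟩ := Finset.mem_image.1 hu
    obtain ⟨c1', c2'⟩ := hT c hc
    have hut : ∀ i, |(tp c i : ℝ)| ≤ (H : ℝ) := by
      intro i
      exact_mod_cast abs_tp c c1' i
    refine ⟨hut, ?_⟩
    have k1 := tp_bd m (H : ℝ) (by linarith) (tp c) hut t θ ht3 (by linarith)
    have k2 := ev_bd m H (rs c) (abs_rs c c1') x y hx1 hy
    -- value of the top form
    have k3 : ∑ i, (tp c i : ℝ) * t ^ (i : ℕ) - (N : ℝ) / (x : ℝ) ^ (m + 1) =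
        -((ev m (co (rs c)) x y : ℝ) / (x : ℝ) ^ (m + 1)) := by
      have k4 : (N : ℝ) = (ev m (co (rs c)) x y : ℝ) +
          ∑ i : Fin (m + 1 + 1), (tp c i : ℝ) * ((x : ℝ) ^ (m + 1 - (i : ℕ)) * (y : ℝ) ^ (i : ℕ)) := by
        rw [← c2', ev_split]
        push_cast
        rfl
      have k5 : ∑ i : Fin (m + 1 + 1), (tp c i : ℝ) * ((x : ℝ) ^ (m + 1 - (i : ℕ)) * (y : ℝ) ^ (i : ℕ)) =
          (x : ℝ) ^ (m + 1) * ∑ i, (tp c i : ℝ) * t ^ (i : ℕ) := by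
        rw [Finset.mul_sum]
        refine Finset.sum_congr rfl fun i _ => ?_
        have hi : (i : ℕ) ≤ m + 1 := by
          have := i.2
          omega
        have h6 : (x : ℝ) ^ (m + 1) = (x : ℝ) ^ (m + 1 - (i : ℕ)) * (x : ℝ) ^ (i : ℕ) := by
          rw [← pow_add]
          congr 1
          omega
        rw [h6, ht, div_pow]
        field_simp
      rw [k4, k5]
      have hxp : (x : ℝ) ^ (m + 1) ≠ 0 := pow_ne_zero _ hx0
      field_simp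
      ring
    have k6 : |(ev m (co (rs c)) x y : ℝ) / (x : ℝ) ^ (m + 1)| ≤ ((m + 1) * ((m + 1) * 3 ^ m)) * (H / |(x : ℝ)|) := by
      rw [abs_div, abs_pow, div_le_iff₀ (by positivity)]
      refine k2.trans (le_of_eq ?_)
      have : |(x : ℝ)| ≠ 0 := by linarith
      field_simp
      ring
    have k7 : |∑ i, (tp c i : ℝ) * θ ^ (i : ℕ) - (N : ℝ) / (x : ℝ) ^ (m + 1)| ≤
        |∑ i, (tp c i : ℝ) * θ ^ (i : ℕ) - ∑ i, (tp c i : ℝ) * t ^ (i : ℕ)| +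
          |∑ i, (tp c i : ℝ) * t ^ (i : ℕ) - (N : ℝ) / (x : ℝ) ^ (m + 1)| := abs_sub_le _ _ _
    rw [k3, abs_neg] at k7
    have k8 : (H : ℝ) * |θ - t| ≤ (B : ℝ) * (H : ℝ) ^ 2 / |(x : ℝ)| := by
      calc (H : ℝ) * |θ - t| ≤ H * ((B : ℝ) * H / |(x : ℝ)|) := mul_le_mul_of_nonneg_left hθt (by linarith)
        _ = (B : ℝ) * (H : ℝ) ^ 2 / |(x : ℝ)| := by ring
    have k9 : (H : ℝ) / |(x : ℝ)| ≤ (B : ℝ) * (H : ℝ) ^ 2 / |(x : ℝ)| := by
      refine div_le_div_of_nonneg_right ?_ (abs_nonneg _)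
      nlinarith
    calc |∑ i, (tp c i : ℝ) * θ ^ (i : ℕ) - (N : ℝ) / (x : ℝ) ^ (m + 1)|
        ≤ ((m + 2) * ((m + 1) * 3 ^ m)) * (H * |θ - t|) + ((m + 1) * ((m + 1) * 3 ^ m)) * (H / |(x : ℝ)|) :=
          k7.trans (add_le_add k1 k6)
      _ ≤ ((m + 2) * ((m + 1) * 3 ^ m)) * ((B : ℝ) * (H : ℝ) ^ 2 / |(x : ℝ)|) +
          ((m + 1) * ((m + 1) * 3 ^ m)) * ((B : ℝ) * (H : ℝ) ^ 2 / |(x : ℝ)|) :=
          add_le_add (mul_le_mul_of_nonneg_left k8 (by positivity)) (mul_le_mul_of_nonneg_left k9 (by positivity))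
      _ = η := by
          rw [hη, hc1]
          ring)
  -- the fibres
  have hF : ∀ u ∈ T.image tp, ((T.filter fun c => tp c = u).card : ℝ) ≤
      C * (2 * (H : ℝ) + 1) ^ (Fintype.card (Ix m) - (m + 1)) := by
    intro u _
    have hinj : Set.InjOn (rs (m := m)) (T.filter fun c => tp c = u : Finset (Ix (m + 1) → ℤ)) := by
      intro c hc d hd hcd
      have h1 := (Finset.mem_filter.1 (Finset.mem_coe.1 hc)).2
      have h2 := (Finset.mem_filter.1 (Finset.mem_coe.1 hd)).2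
      exact rs_inj (h1.trans h2.symm) hcd
    rw [← Finset.card_image_of_injOn hinj]
    refine fibre m H hH x y (N - ∑ i : Fin (m + 1 + 1), u i * (x ^ (m + 1 - (i : ℕ)) * y ^ (i : ℕ))) hHx _ ?_
    intro r hr
    obtain ⟨c, hc, rfl⟩ := Finset.mem_image.1 hr
    obtain ⟨hc1', hc2'⟩ := Finset.mem_filter.1 hc
    obtain ⟨g1, g2⟩ := hT c hc1'
    refine ⟨abs_rs c g1, ?_⟩
    rw [← g2, ev_split c, hc2']
    ring
  have hcard : (T.card : ℝ) ≤ ((T.image tp).card : ℝ) * (C * (2 * (H : ℝ) + 1) ^ (Fintype.card (Ix m) - (m + 1))) := by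
    rw [Finset.card_eq_sum_card_image tp T]
    push_cast
    refine (Finset.sum_le_sum hF).trans (le_of_eq ?_)
    rw [Finset.sum_const, nsmul_eq_mul]
  have hexp : Fintype.card (Ix (m + 1)) - (m + 1 + 1) = (Fintype.card (Ix m) - (m + 1)) + (m + 1) := by
    have h1 := card_succ m
    have h2 : m + 1 ≤ Fintype.card (Ix m) := by
      rw [card_ix]
      rw [Nat.le_div_iff_mul_le (by norm_num)]
      nlinarith
    omega
  have hh0 : (0 : ℝ) < h := by linarith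
  calc (T.card : ℝ) ≤ ((T.image tp).card : ℝ) * (C * (2 * (H : ℝ) + 1) ^ (Fintype.card (Ix m) - (m + 1))) := hcard
    _ ≤ ((B : ℝ) ^ κ₀ * ((H : ℝ) / h) ^ (m + 1)) * (C * (2 * (H : ℝ) + 1) ^ (Fintype.card (Ix m) - (m + 1))) :=
        mul_le_mul_of_nonneg_right hU (by positivity)
    _ = ((B : ℝ) ^ κ₀ * C) * ((H : ℝ) ^ (m + 1) * (2 * (H : ℝ) + 1) ^ (Fintype.card (Ix m) - (m + 1))) / h ^ (m + 1) := by
        rw [div_pow]
        ring
    _ ≤ ((B : ℝ) ^ (κ₀ + 1 + e1 + e2 + 1)) * ((2 * (H : ℝ) + 1) ^ (Fintype.card (Ix (m + 1)) - (m + 1 + 1))) / h ^ (m + 1) := by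
        refine div_le_div_of_nonneg_right ?_ (by positivity)
        refine mul_le_mul ?_ ?_ (by positivity) (by positivity)
        · calc (B : ℝ) ^ κ₀ * C ≤ (B : ℝ) ^ κ₀ * (B : ℝ) ^ e2 := mul_le_mul_of_nonneg_left he2' (by positivity)
            _ = (B : ℝ) ^ (κ₀ + e2) := (pow_add (B : ℝ) κ₀ e2).symm
            _ ≤ (B : ℝ) ^ (κ₀ + 1 + e1 + e2 + 1) := pow_le_pow_right₀ hB1 (by omega)
        · rw [hexp, pow_add (2 * (H : ℝ) + 1) _ (m + 1), mul_comm]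
          refine mul_le_mul_of_nonneg_left (pow_le_pow_left₀ (by linarith) (by linarith) _) (by positivity)

theorem dgh (n k : ℕ) (hk1 : 1 ≤ k) (hk : k + 1 ≤ n) : ∃ κ : ℕ, ∀ B : ℕ, 2 ≤ B → ∀ f : ℤ[X], f.natDegree = n →
    (∀ i, |f.coeff i| ≤ (B : ℤ)) → Irreducible (f.map (Int.castRingHom ℚ)) → ∀ θ : ℝ, aeval θ f = 0 → |θ| ≤ 2 →
    ∀ (H : ℕ) (h : ℝ), 1 ≤ H → 1 ≤ h → h ≤ H → ∀ x y N : ℤ, |(y : ℝ) - θ * x| ≤ B * H →
    (B : ℝ) ^ κ * h ^ (n - 1) * (H : ℝ) ^ 2 ≤ |(x : ℝ)| → ∀ T : Finset (Ix k → ℤ),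
    (∀ c ∈ T, (∀ p, |c p| ≤ (H : ℤ)) ∧ ev k (co c) x y = N) →
    (T.card : ℝ) ≤ (B : ℝ) ^ κ * (2 * (H : ℝ) + 1) ^ (Fintype.card (Ix k) - (k + 1)) / h ^ k := by
  obtain ⟨κ₀, hcub⟩ := cub n k hk1 hk
  exact ⟨_, dgh_ex n k κ₀ hk1 hk hcub⟩

end Pool.Agent.H88.TU
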