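import Pool.Agent.H88.TU.Dgh
import Pool.Agent.H88.TU.Nex
import Pool.Agent.H88.TU.Sta
import Pool.Agent.H88.TU.Dge

/-! # [H88 TU FI3] A fibre, points up to `X₁`: terms of degree `≤ 3` free

PROOF. For `c ∈ T` the array `ad e c` has `Bs n (2B) H`, the same forms of degree `n, n-1` (`3 ≤ n - 2`), `Gd n (1/(2B))`: `nex` (`2B` for `B`): `|y - t x - be n e t| ≤ B^κ₁ H²/|x|`, `t` one of the
at most `n` real zeros of `fm e n`; `|be| ≤ B^c H`. Scales `X = 2^i`, `X ≤ |x| < 2X`, at most `2 + 2 log X₁` of them. Number of such points: `≤ n (4X + 2)(2 B^κ₁ H²/X + 1) ≤ B^c (X + H²)`.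
Vectors for one point: `TS.dig 3`: `≤ C (2H+1)^6` (`|x| ≥ H`, `card (Ix 3) = 10`); if `X ≥ B^κ₂ H²`: `dgh n 3` with `h^(n-1) = X/(B^κ₂ H²)` (`h ≤ H` as `X ≤ H^(n+1)`):
`≤ B^κ₂ (2H+1)^6 (B^κ₂ H²/X)^(3/(n-1))`. Product in both cases `≤ B^c (2H+1)^6 φ(max(X, H²))`, `φ(X) = X (H²/X)^(3/(n-1))` increasing (`3/(n-1) < 1`). -/

namespace Pool.Agent.H88.TU

open Finset Polynomial Pool.Agent.H8.AA Pool.Agent.H88.A2

private theorem cnt_y (a w : ℝ) (hw : 0 ≤ w) (S : Finset ℤ) (h : ∀ y ∈ S, |(y : ℝ) - a| ≤ w) :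
    (S.card : ℝ) ≤ 2 * w + 1 := by
  have hsub : S ⊆ Finset.Icc ⌈a - w⌉ ⌊a + w⌋ := by
    intro y hy
    have h1 := abs_le.1 (h y hy)
    rw [Finset.mem_Icc]
    exact ⟨Int.ceil_le.2 (by linarith), Int.le_floor.2 (by linarith)⟩
  have h1 := Finset.card_le_card hsub
  rw [Int.card_Icc] at h1
  have h2 : ((⌊a + w⌋ + 1 - ⌈a - w⌉).toNat : ℝ) ≤ 2 * w + 1 := by
    rcases le_total 0 (⌊a + w⌋ + 1 - ⌈a - w⌉) with h3 | h3
    · have h4 : (((⌊a + w⌋ + 1 - ⌈a - w⌉).toNat : ℤ) : ℝ) = ((⌊a + w⌋ + 1 - ⌈a - w⌉ : ℤ) : ℝ) := by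
        rw [Int.toNat_of_nonneg h3]
      have h5 := Int.floor_le (a + w)
      have h6 := Int.le_ceil (a - w)
      rw [Int.cast_natCast] at h4
      rw [h4]
      push_cast
      linarith
    · rw [Int.toNat_of_nonpos h3, Nat.cast_zero]
      linarith
  have h3 : (S.card : ℝ) ≤ ((⌊a + w⌋ + 1 - ⌈a - w⌉).toNat : ℝ) := by exact_mod_cast h1
  exact h3.trans h2

private theorem fib_le {α β : Type} [DecidableEq β] (T : Finset α) (F : α → β) (M : ℝ)
    (h : ∀ Q ∈ T.image F, (((T.filter fun c => F c = Q).card : ℕ) : ℝ) ≤ M) :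
    (T.card : ℝ) ≤ M * ((T.image F).card : ℝ) := by
  rw [Finset.card_eq_sum_card_image F T]
  push_cast
  calc ∑ Q ∈ T.image F, (((T.filter fun c => F c = Q).card : ℕ) : ℝ) ≤ ∑ _Q ∈ T.image F, M :=
        Finset.sum_le_sum h
    _ = M * ((T.image F).card : ℝ) := by
        rw [Finset.sum_const, nsmul_eq_mul, mul_comm]

private theorem cnt_p (θ s w Y : ℝ) (hw : 0 ≤ w) (hY : 0 ≤ Y) (S : Finset (ℤ × ℤ))
    (h : ∀ P ∈ S, |(P.1 : ℝ)| ≤ Y ∧ |(P.2 : ℝ) - θ * P.1 - s| ≤ w) :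
    (S.card : ℝ) ≤ (2 * Y + 1) * (2 * w + 1) := by
  classical
  have h1 : ((S.image Prod.fst).card : ℝ) ≤ 2 * Y + 1 := cnt_y 0 Y hY _ (by
    intro x hx
    obtain ⟨P, hP, rfl⟩ := Finset.mem_image.1 hx
    rw [sub_zero]
    exact (h P hP).1)
  have h2 := fib_le S Prod.fst (2 * w + 1) (by
    intro x _
    have h3 : ((S.filter fun P => P.1 = x).image Prod.snd).card = (S.filter fun P => P.1 = x).card := by
      refine Finset.card_image_of_injOn ?_
      intro P hP Q hQ hPQ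
      have hP' := (Finset.mem_filter.1 (Finset.mem_coe.1 hP)).2
      have hQ' := (Finset.mem_filter.1 (Finset.mem_coe.1 hQ)).2
      exact Prod.ext (hP'.trans hQ'.symm) hPQ
    rw [← h3]
    refine cnt_y (θ * x + s) w hw _ ?_
    intro y hy
    obtain ⟨P, hP, rfl⟩ := Finset.mem_image.1 hy
    obtain ⟨hP1, hP2⟩ := Finset.mem_filter.1 hP
    have h4 := (h P hP1).2
    rw [hP2] at h4
    have h5 : (P.2 : ℝ) - (θ * x + s) = (P.2 : ℝ) - θ * x - s := by ring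
    rw [h5]
    exact h4)
  refine h2.trans ?_
  rw [mul_comm]
  exact mul_le_mul_of_nonneg_right h1 (by linarith)

private theorem phi_mono (a A X Y : ℝ) (ha1 : a ≤ 1) (hA : 0 ≤ A) (hX : 0 < X) (hXY : X ≤ Y) :
    X * (A / X) ^ a ≤ Y * (A / Y) ^ a := by
  have hY : 0 < Y := lt_of_lt_of_le hX hXY
  have h1 : A / X = A / Y * (Y / X) := by
    field_simp
  have h2 : 1 ≤ Y / X := (one_le_div hX).2 hXY
  rw [h1, Real.mul_rpow (by positivity) (by positivity)]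
  have h3 : (Y / X) ^ a ≤ Y / X := by
    have := Real.rpow_le_rpow_of_exponent_le h2 ha1
    rwa [Real.rpow_one] at this
  calc X * ((A / Y) ^ a * (Y / X) ^ a) ≤ X * ((A / Y) ^ a * (Y / X)) := by
        refine mul_le_mul_of_nonneg_left (mul_le_mul_of_nonneg_left h3 (by positivity)) hX.le
    _ = Y * (A / Y) ^ a := by
        field_simp

private theorem fm_ad (e : ℕ → ℕ → ℤ) (c : Ix 3 → ℤ) (k : ℕ) (hk : 3 < k) :
    fm (ad e c) k = fm e k := by
  unfold fm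
  refine Finset.sum_congr rfl fun j hj => ?_
  have hj' : j ≤ k := by
    have := Finset.mem_range.1 hj
    omega
  have h1 : ad e c (k - j) j = e (k - j) j := by
    unfold ad co
    rw [dif_neg (by omega), add_zero]
  rw [h1]

private theorem ev_ad (n : ℕ) (hn : 5 ≤ n) (e : ℕ → ℕ → ℤ) (c : Ix 3 → ℤ) (x y : ℤ) :
    ev n (ad e c) x y = ev n e x y + ev 3 (co c) x y := by
  have h1 : ev n (ad e c) x y = ev n e x y + ev n (co c) x y := by
    unfold ev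
    rw [← Finset.sum_add_distrib]
    refine Finset.sum_congr rfl fun k _ => ?_
    rw [← Finset.sum_add_distrib]
    refine Finset.sum_congr rfl fun j _ => ?_
    unfold ad
    ring
  rw [h1]
  congr 1
  unfold ev
  symm
  refine Finset.sum_subset (fun k hk => ?_) fun k _ hk => ?_
  · rw [Finset.mem_range] at hk ⊢
    omega
  · rw [Finset.mem_range] at hk
    refine Finset.sum_eq_zero fun j hj => ?_
    have hj' := Finset.mem_range.1 hj
    have h2 : co c (k - j) j = 0 := by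
      unfold co
      rw [dif_neg (by omega)]
    rw [h2, zero_mul]

private theorem bs_ad (n : ℕ) (hn : 5 ≤ n) (B H : ℕ) (hB : 2 ≤ B) (hH : 1 ≤ H) (e : ℕ → ℕ → ℤ) (he : Fb n B H e)
    (c : Ix 3 → ℤ) (hc : ∀ p, |c p| ≤ (H : ℤ)) : Bs n ((2 * B : ℕ) : ℝ) (H : ℝ) (ad e c) := by
  intro a b hab
  have hH1 : (1 : ℤ) ≤ H := by exact_mod_cast hH
  have hB1 : (2 : ℤ) ≤ B := by exact_mod_cast hB
  have key : |ad e c a b| ≤ 2 * (B : ℤ) * (H : ℤ) ^ (n - a - b) := by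
    rcases eq_or_lt_of_le hab with h | h
    · have h1 : ad e c a b = e a b := by
        unfold ad co
        rw [dif_neg (by omega), add_zero]
      have h2 : n - a - b = 0 := by omega
      rw [h1, h2, pow_zero, mul_one]
      have := he.tp a b h
      linarith
    · have h1 := he.bd a b h
      have h2 : |co c a b| ≤ (H : ℤ) := by
        unfold co
        split_ifs with h3
        · exact hc _
        · rw [abs_zero]
          linarith
      have h3 : |ad e c a b| ≤ |e a b| + |co c a b| := abs_add_le _ _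
      have h4 : (H : ℤ) ^ 1 ≤ (H : ℤ) ^ (n - a - b) := pow_le_pow_right₀ hH1 (by omega)
      rw [pow_one] at h4
      have h5 : (H : ℤ) ≤ B * H := by nlinarith
      have h6 : 2 * (B : ℤ) * H ≤ 2 * (B : ℤ) * (H : ℤ) ^ (n - a - b) :=
        mul_le_mul_of_nonneg_left h4 (by linarith)
      linarith
  have h4 : ((|ad e c a b| : ℤ) : ℝ) ≤ ((2 * (B : ℤ) * (H : ℤ) ^ (n - a - b) : ℤ) : ℝ) := by exact_mod_cast key
  push_cast at h4 ⊢
  exact h4

private theorem fm_val (n : ℕ) (B H : ℕ) (e : ℕ → ℕ → ℤ) (he : Fb n B H e) (hn : 1 ≤ n) (t : ℝ) (ht : |t| ≤ 2) :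
    |aeval t (fm e (n - 1))| ≤ n * 2 ^ n * B * H := by
  rw [fm_aeval]
  have e1 : n - 1 + 1 = n := by omega
  rw [e1]
  calc |∑ j ∈ range n, (e (n - 1 - j) j : ℝ) * t ^ j| ≤ ∑ j ∈ range n, |(e (n - 1 - j) j : ℝ) * t ^ j| :=
        Finset.abs_sum_le_sum_abs _ _
    _ ≤ ∑ _j ∈ range n, (B : ℝ) * H * 2 ^ n := by
        refine Finset.sum_le_sum fun j hj => ?_
        have hj' := Finset.mem_range.1 hj
        rw [abs_mul, abs_pow]
        have h1 : |(e (n - 1 - j) j : ℝ)| ≤ B * H := by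
          have h2 := he.bd (n - 1 - j) j (by omega)
          have h3 : ((|e (n - 1 - j) j| : ℤ) : ℝ) ≤ (((B : ℤ) * (H : ℤ) : ℤ) : ℝ) := by exact_mod_cast h2
          push_cast at h3
          exact h3
        have h2 : |t| ^ j ≤ 2 ^ n :=
          (pow_le_pow_left₀ (abs_nonneg _) ht j).trans (pow_le_pow_right₀ (by norm_num) (by omega))
        exact mul_le_mul h1 h2 (by positivity) (by positivity)
    _ = n * 2 ^ n * B * H := by
        rw [Finset.sum_const, Finset.card_range, nsmul_eq_mul]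
        ring

/-- one scale -/
private theorem scale (n : ℕ) (a D K Cd H X X₁ q : ℝ) (ha1 : a ≤ 1) (hD : 1 ≤ D) (hK : 1 ≤ K) (hCd : 0 ≤ Cd)
    (hH : 1 ≤ H) (hX : 1 ≤ X) (hXX : X ≤ X₁) (hH1 : H ^ 2 ≤ X₁) (hq : 0 ≤ q) (M N : ℝ) (hN0 : 0 ≤ N)
    (hN : N ≤ n * ((2 * (2 * X) + 1) * (2 * (K * H ^ 2 / X) + 1)))
    (hM : M ≤ 8 * Cd * q ∧ X < D * H ^ 2 ∨ M ≤ D * q * (D * H ^ 2 / X) ^ a ∧ D * H ^ 2 ≤ X) :
    M * N ≤ ((15 * n + 120 * Cd * n) * K * D ^ 2) * q * (X₁ * (H ^ 2 / X₁) ^ a) := by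
  have hX0 : 0 < X := by linarith
  have hX1 : 0 < X₁ := by linarith
  have hH2 : 0 < H ^ 2 := by positivity
  have hn0 : (0 : ℝ) ≤ n := Nat.cast_nonneg n
  have hΦ0 : 0 ≤ X₁ * (H ^ 2 / X₁) ^ a := by positivity
  have hHΦ : H ^ 2 ≤ X₁ * (H ^ 2 / X₁) ^ a := by
    have h1 := phi_mono a (H ^ 2) (H ^ 2) X₁ ha1 hH2.le hH2 hH1
    rwa [div_self hH2.ne', Real.one_rpow, mul_one] at h1
  have hXΦ : X * (H ^ 2 / X) ^ a ≤ X₁ * (H ^ 2 / X₁) ^ a := phi_mono a (H ^ 2) X X₁ ha1 hH2.le hX0 hXX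
  have hpos : 0 ≤ (15 * (n : ℝ) + 120 * Cd * n) * K * D ^ 2 := by positivity
  have hNb : N ≤ n * (5 * X * (2 * (K * H ^ 2 / X) + 1)) := by
    refine hN.trans (mul_le_mul_of_nonneg_left ?_ hn0)
    exact mul_le_mul_of_nonneg_right (by linarith) (by positivity)
  rcases hM with ⟨h1, h2⟩ | ⟨h1, h2⟩
  · have h3 : 5 * X * (2 * (K * H ^ 2 / X) + 1) = 10 * K * H ^ 2 + 5 * X := by
      field_simp
      ring
    rw [h3] at hNb
    have h4 : N ≤ n * (15 * (K * D) * H ^ 2) := by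
      refine hNb.trans (mul_le_mul_of_nonneg_left ?_ hn0)
      have h5 : K ≤ K * D := by nlinarith
      have h6 : D ≤ K * D := by nlinarith
      have h7 : K * H ^ 2 ≤ K * D * H ^ 2 := mul_le_mul_of_nonneg_right h5 hH2.le
      have h8 : D * H ^ 2 ≤ K * D * H ^ 2 := mul_le_mul_of_nonneg_right h6 hH2.le
      linarith
    calc M * N ≤ 8 * Cd * q * N := mul_le_mul_of_nonneg_right h1 hN0
      _ ≤ 8 * Cd * q * (n * (15 * (K * D) * H ^ 2)) := mul_le_mul_of_nonneg_left h4 (by positivity)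
      _ = (120 * Cd * n) * K * D * q * H ^ 2 := by ring
      _ ≤ (120 * Cd * n) * K * D * q * (X₁ * (H ^ 2 / X₁) ^ a) :=
          mul_le_mul_of_nonneg_left hHΦ (by positivity)
      _ ≤ ((15 * n + 120 * Cd * n) * K * D ^ 2) * q * (X₁ * (H ^ 2 / X₁) ^ a) := by
          refine mul_le_mul_of_nonneg_right (mul_le_mul_of_nonneg_right ?_ hq) hΦ0
          have h5 : D ≤ D ^ 2 := by nlinarith
          calc 120 * Cd * n * K * D ≤ 120 * Cd * n * K * D ^ 2 :=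
                mul_le_mul_of_nonneg_left h5 (by positivity)
            _ ≤ (15 * n + 120 * Cd * n) * K * D ^ 2 := by
                refine mul_le_mul_of_nonneg_right (mul_le_mul_of_nonneg_right ?_ (by linarith)) (by positivity)
                linarith
  · have h3 : H ^ 2 / X ≤ 1 := by
      rw [div_le_one hX0]
      nlinarith
    have h4 : N ≤ n * (15 * K * X) := by
      refine hNb.trans (mul_le_mul_of_nonneg_left ?_ hn0)
      have h5 : K * H ^ 2 / X ≤ K := by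
        rw [mul_div_assoc]
        nlinarith
      have h6 : 2 * (K * H ^ 2 / X) + 1 ≤ 3 * K := by linarith
      calc 5 * X * (2 * (K * H ^ 2 / X) + 1) ≤ 5 * X * (3 * K) := mul_le_mul_of_nonneg_left h6 (by positivity)
        _ = 15 * K * X := by ring
    have h5 : (D * H ^ 2 / X) ^ a ≤ D * (H ^ 2 / X) ^ a := by
      rw [mul_div_assoc, Real.mul_rpow (by positivity) (by positivity)]
      refine mul_le_mul_of_nonneg_right ?_ (by positivity)
      have := Real.rpow_le_rpow_of_exponent_le hD ha1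
      rwa [Real.rpow_one] at this
    calc M * N ≤ D * q * (D * H ^ 2 / X) ^ a * N := mul_le_mul_of_nonneg_right h1 hN0
      _ ≤ D * q * (D * (H ^ 2 / X) ^ a) * (n * (15 * K * X)) := by
          refine mul_le_mul (mul_le_mul_of_nonneg_left h5 (by positivity)) h4 hN0 (by positivity)
      _ = (15 * n) * K * D ^ 2 * q * (X * (H ^ 2 / X) ^ a) := by ring
      _ ≤ (15 * n) * K * D ^ 2 * q * (X₁ * (H ^ 2 / X₁) ^ a) := mul_le_mul_of_nonneg_left hXΦ (by positivity)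
      _ ≤ ((15 * n + 120 * Cd * n) * K * D ^ 2) * q * (X₁ * (H ^ 2 / X₁) ^ a) := by
          refine mul_le_mul_of_nonneg_right (mul_le_mul_of_nonneg_right ?_ hq) hΦ0
          refine mul_le_mul_of_nonneg_right (mul_le_mul_of_nonneg_right ?_ (by linarith)) (by positivity)
          have : 0 ≤ 120 * Cd * n := by positivity
          linarith

theorem fi3_ex (n κ₁ κ₂ : ℕ) (hn : 5 ≤ n) (hnex : NexS n κ₁) (hdgh : DghS n 3 κ₂) :
    Fi3S n (n + 24 + 2 * κ₁ + 2 * ((2 * κ₁ + (2 * n + 1) + 1) * κ₂)) := by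
  classical
  have hcard : Fintype.card (Ix 3) = 10 := by rw [card_ix]
  unfold DghS at hdgh
  have hdig := dig_ex 3
  rw [hcard] at hdgh hdig
  obtain ⟨Cd, hCdd⟩ : ∃ Cd : ℝ, Cd = 4 ^ 3 * 2 ^ 10 := ⟨_, rfl⟩
  rw [← hCdd] at hdig
  have hCd : 0 ≤ Cd := by rw [hCdd]; positivity
  obtain ⟨m, hm⟩ : ∃ m : ℕ, m = 2 * κ₁ + (2 * n + 1) + 1 := ⟨_, rfl⟩
  obtain ⟨m₂, hm₂⟩ : ∃ m₂ : ℕ, m₂ = n + 24 := ⟨_, rfl⟩
  rw [← hm, ← hm₂]
  intro B H hB hH e he X₁ hX1 hX2 T hT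
  have hH1 : (1 : ℝ) ≤ H := by exact_mod_cast hH
  have hB2 : (2 : ℝ) ≤ B := by exact_mod_cast hB
  have hB1 : (1 : ℝ) ≤ B := by linarith
  have hnR : (5 : ℝ) ≤ n := by exact_mod_cast hn
  have hX10 : 1 ≤ X₁ := le_trans (one_le_pow₀ hH1) hX1
  obtain ⟨K, hK⟩ : ∃ K : ℝ, K = ((2 * B : ℕ) : ℝ) ^ κ₁ := ⟨_, rfl⟩
  obtain ⟨D, hD⟩ : ∃ D : ℝ, D = ((B ^ m : ℕ) : ℝ) ^ κ₂ := ⟨_, rfl⟩
  have hK1 : 1 ≤ K := by
    rw [hK]
    refine one_le_pow₀ ?_
    push_cast
    linarith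
  have hKB : K ≤ (B : ℝ) ^ (2 * κ₁) := by
    rw [hK, pow_mul]
    refine pow_le_pow_left₀ (by positivity) ?_ _
    push_cast
    nlinarith
  have hDB : D = (B : ℝ) ^ (m * κ₂) := by
    rw [hD, pow_mul]
    push_cast
    rfl
  have hD1 : 1 ≤ D := by
    rw [hDB]
    exact one_le_pow₀ hB1
  have hmB : K * (1 + n * 2 ^ n * B) ≤ (B : ℝ) ^ m := by
    have h1 : (1 : ℝ) + n * 2 ^ n * B ≤ (1 + n * 2 ^ n) * B := by
      nlinarith
    have h2 : (1 : ℝ) + n * 2 ^ n ≤ (B : ℝ) ^ (2 * n + 1) := by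
      have h3 : (n : ℝ) ≤ 2 ^ n := by exact_mod_cast (Nat.lt_two_pow_self (n := n)).le
      have h5 : (1 : ℝ) ≤ 2 ^ n := one_le_pow₀ (by norm_num)
      have h4 : (1 : ℝ) + n * 2 ^ n ≤ 2 ^ (2 * n + 1) := by
        have h6 : (2 : ℝ) ^ (2 * n + 1) = 2 ^ n * 2 ^ n + 2 ^ n * 2 ^ n := by
          rw [show 2 * n + 1 = n + n + 1 by ring, pow_succ, pow_add]
          ring
        rw [h6]
        have h7 := mul_le_mul_of_nonneg_right h3 (by linarith : (0 : ℝ) ≤ 2 ^ n)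
        nlinarith
      exact h4.trans (pow_le_pow_left₀ (by norm_num) hB2 _)
    calc K * (1 + n * 2 ^ n * B) ≤ (B : ℝ) ^ (2 * κ₁) * ((B : ℝ) ^ (2 * n + 1) * B) := by
          refine mul_le_mul hKB (h1.trans (mul_le_mul_of_nonneg_right h2 (by linarith))) (by positivity) (by positivity)
      _ = (B : ℝ) ^ m := by
          rw [hm, pow_add (B : ℝ) (2 * κ₁ + (2 * n + 1)) 1, pow_add (B : ℝ) (2 * κ₁) (2 * n + 1), pow_one]
          ring
  -- the zeros at infinity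
  have hf0 : fm e n ≠ 0 := by
    intro h0
    have := he.deg
    rw [h0, natDegree_zero] at this
    omega
  set Z : Finset ℝ := ((fm e n).aroots ℝ).toFinset with hZ
  have hmem : ∀ t : ℝ, aeval t (fm e n) = 0 → t ∈ Z := by
    intro t ht
    rw [hZ, Multiset.mem_toFinset, Polynomial.mem_aroots]
    exact ⟨hf0, ht⟩
  have hZc : Z.card ≤ n := by
    have h1 : Z.card ≤ Multiset.card ((fm e n).aroots ℝ) := Multiset.toFinset_card_le _
    have h2 : Multiset.card ((fm e n).aroots ℝ) ≤ ((fm e n).map (algebraMap ℤ ℝ)).natDegree := Polynomial.card_roots' _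
    have h3 : ((fm e n).map (algebraMap ℤ ℝ)).natDegree ≤ (fm e n).natDegree := natDegree_map_le
    have h4 := he.deg
    omega
  -- choose a point for every vector
  have hch : ∀ c : Ix 3 → ℤ, ∃ P : ℤ × ℤ, c ∈ T → (|P.2| ≤ |P.1| ∧
      (B : ℝ) ^ (m₂ + 2 * κ₁ + 2 * (m * κ₂)) * H ≤ |(P.1 : ℝ)| ∧ |(P.1 : ℝ)| ≤ X₁ ∧ ev n e P.1 P.2 + ev 3 (co c) P.1 P.2 = 0) := by
    intro c
    by_cases hc : c ∈ T
    · obtain ⟨x, y, h⟩ := (hT c hc).2
      exact ⟨(x, y), fun _ => h⟩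
    · exact ⟨(0, 0), fun h => absurd h hc⟩
  choose F hF using hch
  have hnear : ∀ c ∈ T, ∃ t ∈ Z, aeval t (fm e n) = 0 ∧ |t| ≤ 2 ∧
      |((F c).2 : ℝ) - t * (F c).1 - be n e t| ≤ K * H ^ 2 / |((F c).1 : ℝ)| ∧
      |((F c).2 : ℝ) - t * (F c).1| ≤ ((B ^ m : ℕ) : ℝ) * H ∧ (H : ℝ) ≤ |((F c).1 : ℝ)| := by
    intro c hc
    obtain ⟨h1, h2, h3, h4⟩ := hF c hc
    have hx1 : K * H ≤ |((F c).1 : ℝ)| := by
      refine le_trans (mul_le_mul_of_nonneg_right ?_ (by linarith)) h2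
      exact hKB.trans (pow_le_pow_right₀ hB1 (by omega))
    have hx2 : (H : ℝ) ≤ |((F c).1 : ℝ)| := by
      refine le_trans ?_ hx1
      nlinarith
    have hgd : Gd n (1 / ((2 * B : ℕ) : ℝ)) (ad e c) := by
      intro t ht
      have h5 : 1 / ((2 * B : ℕ) : ℝ) ≤ 1 / (B : ℝ) := by
        refine one_div_le_one_div_of_le (by linarith) ?_
        push_cast
        linarith
      rw [fm_ad e c n (by omega)]
      rcases he.gd t ht with h | h
      · exact Or.inl (lt_of_le_of_lt h5 h)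
      · exact Or.inr (lt_of_le_of_lt h5 h)
    obtain ⟨t, hct, h6⟩ := hnex (2 * B) (by omega) (ad e c) H hH1 (bs_ad n hn B H hB hH e he c (hT c hc).1) hgd
      (F c).1 (F c).2 h1 (by rw [← hK]; exact hx1) (by rw [ev_ad n hn]; exact h4)
    have hrt := hct.rt
    have hdr := hct.dr
    rw [fm_ad e c n (by omega)] at hrt hdr
    rw [← hK] at h6 hdr
    have hbe : be n (ad e c) t = be n e t := by
      unfold be
      rw [fm_ad e c n (by omega), fm_ad e c (n - 1) (by omega)]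
    rw [hbe] at h6
    have hbeb : |be n e t| ≤ n * 2 ^ n * B * H * K := by
      unfold be
      rw [abs_neg, abs_div]
      have h7 := fm_val n B H e he (by omega) t hct.t2
      have h8 : 0 < |aeval t (derivative (fm e n))| := lt_of_lt_of_le (by positivity) hdr
      rw [div_le_iff₀ h8]
      have h9 : 1 ≤ K * |aeval t (derivative (fm e n))| := by
        rw [div_le_iff₀ (by linarith)] at hdr
        linarith
      calc |aeval t (fm e (n - 1))| ≤ n * 2 ^ n * B * H := h7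
        _ = n * 2 ^ n * B * H * 1 := by ring
        _ ≤ n * 2 ^ n * B * H * (K * |aeval t (derivative (fm e n))|) := mul_le_mul_of_nonneg_left h9 (by positivity)
        _ = n * 2 ^ n * B * H * K * |aeval t (derivative (fm e n))| := by ring
    refine ⟨t, hmem t hrt, hrt, hct.t2, h6, ?_, hx2⟩
    have h7 : K * (H : ℝ) ^ 2 / |((F c).1 : ℝ)| ≤ K * H := by
      rw [div_le_iff₀ (by linarith)]
      calc K * (H : ℝ) ^ 2 = K * H * H := by ring
        _ ≤ K * H * |((F c).1 : ℝ)| := mul_le_mul_of_nonneg_left hx2 (by positivity)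
    have h8 : |((F c).2 : ℝ) - t * (F c).1| ≤ |((F c).2 : ℝ) - t * (F c).1 - be n e t| + |be n e t| := by
      have := abs_add_le (((F c).2 : ℝ) - t * (F c).1 - be n e t) (be n e t)
      rwa [sub_add_cancel] at this
    have h9 : K * (1 + n * 2 ^ n * B) * H ≤ (B : ℝ) ^ m * H := mul_le_mul_of_nonneg_right hmB (by linarith)
    push_cast
    calc |((F c).2 : ℝ) - t * (F c).1| ≤ K * H + n * 2 ^ n * B * H * K := by linarith
      _ = K * (1 + n * 2 ^ n * B) * H := by ring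
      _ ≤ _ := h9
  have hq0 : 0 ≤ (2 * (H : ℝ) + 1) ^ 6 := by positivity
  have hn1 : (0 : ℝ) < (n : ℝ) - 1 := by linarith
  have ha1 : 3 / ((n : ℝ) - 1) ≤ 1 := by
    rw [div_le_one hn1]
    linarith
  -- one scale
  have hsc : ∀ i : ℕ, (((T.filter fun c => Nat.log 2 (F c).1.natAbs = i).card : ℕ) : ℝ) ≤
      ((15 * n + 120 * Cd * n) * K * D ^ 2) * (2 * (H : ℝ) + 1) ^ 6 * (X₁ * ((H : ℝ) ^ 2 / X₁) ^ (3 / ((n : ℝ) - 1))) := by
    intro i
    rcases (T.filter fun c => Nat.log 2 (F c).1.natAbs = i).eq_empty_or_nonempty with h0 | ⟨c0, hc0⟩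
    · rw [h0, Finset.card_empty, Nat.cast_zero]
      positivity
    set Ti := T.filter fun c => Nat.log 2 (F c).1.natAbs = i with hTi
    have habs : ∀ c ∈ Ti, (2 : ℝ) ^ i ≤ |((F c).1 : ℝ)| ∧ |((F c).1 : ℝ)| ≤ 2 * (2 : ℝ) ^ i := by
      intro c hc
      obtain ⟨hcT, hci⟩ := Finset.mem_filter.1 hc
      obtain ⟨t, ht, h1, h2, h3, h4, h5⟩ := hnear c hcT
      have h6 : (F c).1.natAbs ≠ 0 := by
        intro h0
        rw [Int.natAbs_eq_zero] at h0
        rw [h0, Int.cast_zero, abs_zero] at h5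
        linarith
      have h7 : |((F c).1 : ℝ)| = (((F c).1.natAbs : ℕ) : ℝ) := by
        rw [Nat.cast_natAbs, Int.cast_abs]
      have h8 := Nat.pow_log_le_self 2 h6
      have h9 := Nat.lt_pow_succ_log_self (by norm_num : 1 < 2) (F c).1.natAbs
      rw [hci] at h8 h9
      rw [h7]
      refine ⟨by exact_mod_cast h8, ?_⟩
      rw [← pow_succ']
      exact_mod_cast h9.le
    have hX : (1 : ℝ) ≤ (2 : ℝ) ^ i := one_le_pow₀ (by norm_num)
    have hXX : (2 : ℝ) ^ i ≤ X₁ := (habs c0 hc0).1.trans (hF c0 (Finset.mem_filter.1 hc0).1).2.2.1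
    -- number of points
    have hN : ((Ti.image F).card : ℝ) ≤ n * ((2 * (2 * (2 : ℝ) ^ i) + 1) * (2 * (K * (H : ℝ) ^ 2 / (2 : ℝ) ^ i) + 1)) := by
      have hsub : Ti.image F ⊆ Z.biUnion fun t => (Ti.image F).filter fun P : ℤ × ℤ =>
          |(P.2 : ℝ) - t * P.1 - be n e t| ≤ K * (H : ℝ) ^ 2 / (2 : ℝ) ^ i := by
        intro P hP
        obtain ⟨c, hc, rfl⟩ := Finset.mem_image.1 hP
        obtain ⟨t, ht, h1, h2, h3, h4, h5⟩ := hnear c (Finset.mem_filter.1 hc).1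
        rw [Finset.mem_biUnion]
        refine ⟨t, ht, ?_⟩
        rw [Finset.mem_filter]
        exact ⟨hP, h3.trans (div_le_div_of_nonneg_left (by positivity) (by positivity) (habs c hc).1)⟩
      have h1 := (Finset.card_le_card hsub).trans Finset.card_biUnion_le
      have h2 : ((Ti.image F).card : ℝ) ≤ ∑ t ∈ Z, (((Ti.image F).filter fun P : ℤ × ℤ =>
          |(P.2 : ℝ) - t * P.1 - be n e t| ≤ K * (H : ℝ) ^ 2 / (2 : ℝ) ^ i).card : ℝ) := by exact_mod_cast h1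
      refine h2.trans ?_
      calc ∑ t ∈ Z, (((Ti.image F).filter fun P : ℤ × ℤ =>
            |(P.2 : ℝ) - t * P.1 - be n e t| ≤ K * (H : ℝ) ^ 2 / (2 : ℝ) ^ i).card : ℝ)
          ≤ ∑ _t ∈ Z, ((2 * (2 * (2 : ℝ) ^ i) + 1) * (2 * (K * (H : ℝ) ^ 2 / (2 : ℝ) ^ i) + 1)) := by
            refine Finset.sum_le_sum fun t _ => ?_
            refine cnt_p t (be n e t) _ _ (by positivity) (by positivity) _ ?_
            intro P hP
            obtain ⟨hP1, hP2⟩ := Finset.mem_filter.1 hP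
            obtain ⟨c, hc, rfl⟩ := Finset.mem_image.1 hP1
            exact ⟨(habs c hc).2, hP2⟩
        _ = (Z.card : ℝ) * ((2 * (2 * (2 : ℝ) ^ i) + 1) * (2 * (K * (H : ℝ) ^ 2 / (2 : ℝ) ^ i) + 1)) := by
            rw [Finset.sum_const, nsmul_eq_mul]
        _ ≤ n * ((2 * (2 * (2 : ℝ) ^ i) + 1) * (2 * (K * (H : ℝ) ^ 2 / (2 : ℝ) ^ i) + 1)) :=
            mul_le_mul_of_nonneg_right (by exact_mod_cast hZc) (by positivity)
    -- the vectors of one point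
    have hval : ∀ c ∈ Ti, ∀ d ∈ Ti.filter fun d => F d = F c,
        (∀ p, |d p| ≤ (H : ℤ)) ∧ ev 3 (co d) (F c).1 (F c).2 = - ev n e (F c).1 (F c).2 := by
      intro c hc d hd
      obtain ⟨hd1, hd2⟩ := Finset.mem_filter.1 hd
      have hdT := (Finset.mem_filter.1 hd1).1
      refine ⟨(hT d hdT).1, ?_⟩
      have h7 := (hF d hdT).2.2.2
      rw [hd2] at h7
      linarith
    rcases lt_or_ge ((2 : ℝ) ^ i) (D * (H : ℝ) ^ 2) with hcase | hcase
    · have hM : ∀ Q ∈ Ti.image F, (((Ti.filter fun c => F c = Q).card : ℕ) : ℝ) ≤ 8 * Cd * (2 * (H : ℝ) + 1) ^ 6 := by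
        intro Q hQ
        obtain ⟨c, hc, rfl⟩ := Finset.mem_image.1 hQ
        obtain ⟨t, ht, h1, h2, h3, h4, h5⟩ := hnear c (Finset.mem_filter.1 hc).1
        have hne : (F c).1 ≠ 0 ∨ (F c).2 ≠ 0 := Or.inl (by
          intro h0
          rw [h0, Int.cast_zero, abs_zero] at h5
          linarith)
        have h6 := hdig H hH (F c).1 (F c).2 (- ev n e (F c).1 (F c).2) hne (Ti.filter fun d => F d = F c) (hval c hc)
        refine h6.trans ?_
        have h8 : (H : ℝ) / max |((F c).1 : ℝ)| |((F c).2 : ℝ)| ≤ 1 :=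
          div_le_one_of_le₀ (h5.trans (le_max_left _ _)) (by positivity)
        have h9 : 0 ≤ (H : ℝ) / max |((F c).1 : ℝ)| |((F c).2 : ℝ)| := by positivity
        have h10 : ((H : ℝ) / max |((F c).1 : ℝ)| |((F c).2 : ℝ)| + 1) ^ 3 ≤ 8 := by
          calc ((H : ℝ) / max |((F c).1 : ℝ)| |((F c).2 : ℝ)| + 1) ^ 3 ≤ 2 ^ 3 :=
                pow_le_pow_left₀ (by linarith) (by linarith) 3
            _ = 8 := by norm_num
        have h11 : 10 - (3 + 1) = 6 := by norm_num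
        rw [h11]
        refine mul_le_mul_of_nonneg_right ?_ hq0
        rw [mul_comm 8 Cd]
        exact mul_le_mul_of_nonneg_left h10 hCd
      exact (fib_le Ti F _ hM).trans (scale n _ D K Cd H ((2 : ℝ) ^ i) X₁ _ ha1 hD1 hK1 hCd hH1 hX hXX hX1 hq0 _ _
        (Nat.cast_nonneg _) hN (Or.inl ⟨le_rfl, hcase⟩))
    · obtain ⟨h, hh⟩ : ∃ h : ℝ, h = ((2 : ℝ) ^ i / (D * (H : ℝ) ^ 2)) ^ (1 / ((n : ℝ) - 1)) := ⟨_, rfl⟩
      have hDH : 0 < D * (H : ℝ) ^ 2 := by positivity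
      have hr1 : 1 ≤ (2 : ℝ) ^ i / (D * (H : ℝ) ^ 2) := (one_le_div hDH).2 hcase
      have hh1 : 1 ≤ h := by
        rw [hh]
        exact Real.one_le_rpow hr1 (by positivity)
      have hhp : h ^ (n - 1) = (2 : ℝ) ^ i / (D * (H : ℝ) ^ 2) := by
        rw [hh, ← Real.rpow_natCast, ← Real.rpow_mul (by positivity)]
        have e1 : 1 / ((n : ℝ) - 1) * ((n - 1 : ℕ) : ℝ) = 1 := by
          rw [Nat.cast_sub (by omega), Nat.cast_one]
          field_simp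
        rw [e1, Real.rpow_one]
      have hhH : h ≤ H := by
        by_contra hcon
        push Not at hcon
        have h1 : (H : ℝ) ^ (n - 1) < h ^ (n - 1) := pow_lt_pow_left₀ hcon (by positivity) (by omega)
        rw [hhp] at h1
        have h2 : (2 : ℝ) ^ i / (D * (H : ℝ) ^ 2) ≤ (H : ℝ) ^ (n - 1) := by
          rw [div_le_iff₀ hDH]
          calc (2 : ℝ) ^ i ≤ X₁ := hXX
            _ ≤ (H : ℝ) ^ (n + 1) := hX2
            _ = (H : ℝ) ^ (n - 1) * (1 * (H : ℝ) ^ 2) := by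
                rw [one_mul, ← pow_add]
                congr 1
                omega
            _ ≤ (H : ℝ) ^ (n - 1) * (D * (H : ℝ) ^ 2) := by
                refine mul_le_mul_of_nonneg_left ?_ (by positivity)
                exact mul_le_mul_of_nonneg_right hD1 (by positivity)
        linarith
      have hinv : 1 / h ^ 3 = (D * (H : ℝ) ^ 2 / (2 : ℝ) ^ i) ^ (3 / ((n : ℝ) - 1)) := by
        have e1 : D * (H : ℝ) ^ 2 / (2 : ℝ) ^ i = ((2 : ℝ) ^ i / (D * (H : ℝ) ^ 2))⁻¹ := by rw [inv_div]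
        rw [hh, ← Real.rpow_natCast, ← Real.rpow_mul (by positivity), e1, Real.inv_rpow (by positivity), one_div]
        have e2 : 1 / ((n : ℝ) - 1) * ((3 : ℕ) : ℝ) = 3 / ((n : ℝ) - 1) := by
          push_cast
          ring
        rw [e2]
      have hM : ∀ Q ∈ Ti.image F, (((Ti.filter fun c => F c = Q).card : ℕ) : ℝ) ≤
          D * (2 * (H : ℝ) + 1) ^ 6 * (D * (H : ℝ) ^ 2 / (2 : ℝ) ^ i) ^ (3 / ((n : ℝ) - 1)) := by
        intro Q hQ
        obtain ⟨c, hc, rfl⟩ := Finset.mem_image.1 hQ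
        obtain ⟨t, ht, h1, h2, h3, h4, h5⟩ := hnear c (Finset.mem_filter.1 hc).1
        have hBm : B ≤ B ^ m := Nat.le_self_pow (by omega) B
        have h6 := hdgh (B ^ m) (hB.trans hBm) (fm e n) he.deg (by
          intro j
          have h7 : ((B : ℕ) : ℤ) ≤ ((B ^ m : ℕ) : ℤ) := by exact_mod_cast hBm
          rw [fm_coeff]
          split_ifs with h8
          · exact (he.tp (n - j) j (by omega)).trans h7
          · rw [abs_zero]
            positivity) he.irr t h1 h2 H h hH hh1 hhH (F c).1 (F c).2 (- ev n e (F c).1 (F c).2) h4 (by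
          rw [← hD, hhp]
          have h7 : D * ((2 : ℝ) ^ i / (D * (H : ℝ) ^ 2)) * (H : ℝ) ^ 2 = (2 : ℝ) ^ i := by
            have h8 : (H : ℝ) ≠ 0 := by linarith
            have h9 : D ≠ 0 := by linarith
            field_simp
          rw [h7]
          exact (habs c hc).1) (Ti.filter fun d => F d = F c) (hval c hc)
        have h11 : 10 - (3 + 1) = 6 := by norm_num
        rw [h11, ← hD] at h6
        refine h6.trans (le_of_eq ?_)
        rw [← hinv, mul_one_div]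
      exact (fib_le Ti F _ hM).trans (scale n _ D K Cd H ((2 : ℝ) ^ i) X₁ _ ha1 hD1 hK1 hCd hH1 hX hXX hX1 hq0 _ _
        (Nat.cast_nonneg _) hN (Or.inr ⟨le_rfl, hcase⟩))
  -- all scales
  obtain ⟨L, hL⟩ : ∃ L : ℕ, L = Nat.log 2 ⌊X₁⌋₊ := ⟨_, rfl⟩
  have hsum : T.card = ∑ i ∈ range (L + 1), (T.filter fun c => Nat.log 2 (F c).1.natAbs = i).card := by
    refine Finset.card_eq_sum_card_fiberwise ?_
    intro c hc
    have hc' : c ∈ T := Finset.mem_coe.1 hc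
    have h1 : (((F c).1.natAbs : ℕ) : ℝ) ≤ X₁ := by
      rw [Nat.cast_natAbs, Int.cast_abs]
      exact (hF c hc').2.2.1
    have h2 : (F c).1.natAbs ≤ ⌊X₁⌋₊ := Nat.le_floor h1
    have h3 : Nat.log 2 (F c).1.natAbs ≤ Nat.log 2 ⌊X₁⌋₊ := Nat.log_mono_right h2
    rw [Finset.mem_coe, Finset.mem_range]
    show Nat.log 2 (F c).1.natAbs < L + 1
    omega
  have hlog0 : 0 ≤ Real.log X₁ := Real.log_nonneg hX10
  have hL1 : ((L : ℝ) + 1) ≤ 2 * (1 + Real.log X₁) := by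
    have h1 : ⌊X₁⌋₊ ≠ 0 := by
      have := (Nat.one_le_floor_iff X₁).2 hX10
      omega
    have h2 : 2 ^ L ≤ ⌊X₁⌋₊ := by
      rw [hL]
      exact Nat.pow_log_le_self 2 h1
    have h3 : (2 : ℝ) ^ L ≤ X₁ := by
      have h4 : ((2 ^ L : ℕ) : ℝ) ≤ (⌊X₁⌋₊ : ℝ) := by exact_mod_cast h2
      push_cast at h4
      exact h4.trans (Nat.floor_le (by linarith))
    have h4 := Real.log_le_log (by positivity) h3
    rw [Real.log_pow] at h4
    have h5 := Real.log_two_gt_d9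
    have h6 : (L : ℝ) * (1 / 2) ≤ L * Real.log 2 := mul_le_mul_of_nonneg_left (by linarith) (Nat.cast_nonneg _)
    linarith
  have hW0 : 0 ≤ ((15 * n + 120 * Cd * n) * K * D ^ 2) * (2 * (H : ℝ) + 1) ^ 6 *
      (X₁ * ((H : ℝ) ^ 2 / X₁) ^ (3 / ((n : ℝ) - 1))) := by positivity
  have htot : (T.card : ℝ) ≤ ((L : ℝ) + 1) * (((15 * n + 120 * Cd * n) * K * D ^ 2) * (2 * (H : ℝ) + 1) ^ 6 *
      (X₁ * ((H : ℝ) ^ 2 / X₁) ^ (3 / ((n : ℝ) - 1)))) := by
    rw [hsum]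
    push_cast
    refine (Finset.sum_le_sum fun i _ => hsc i).trans (le_of_eq ?_)
    rw [Finset.sum_const, Finset.card_range, nsmul_eq_mul]
    push_cast
    rfl
  have hconst : 2 * ((15 * n + 120 * Cd * n) * K * D ^ 2) ≤ (B : ℝ) ^ (m₂ + 2 * κ₁ + 2 * (m * κ₂)) := by
    have h1 : 2 * (15 * (n : ℝ) + 120 * Cd * n) ≤ (B : ℝ) ^ m₂ := by
      have h3 : (n : ℝ) ≤ 2 ^ n := by exact_mod_cast (Nat.lt_two_pow_self (n := n)).le
      have h2 : 2 * (15 * (n : ℝ) + 120 * Cd * n) ≤ (2 : ℝ) ^ m₂ := by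
        rw [hm₂, hCdd, pow_add]
        have h5 : (0 : ℝ) ≤ n := Nat.cast_nonneg n
        norm_num
        nlinarith
      exact h2.trans (pow_le_pow_left₀ (by norm_num) hB2 _)
    have h2 : D ^ 2 = (B : ℝ) ^ (2 * (m * κ₂)) := by
      rw [hDB, ← pow_mul]
      congr 1
      ring
    calc 2 * ((15 * n + 120 * Cd * n) * K * D ^ 2) = 2 * (15 * (n : ℝ) + 120 * Cd * n) * K * D ^ 2 := by ring
      _ ≤ (B : ℝ) ^ m₂ * (B : ℝ) ^ (2 * κ₁) * D ^ 2 := by
          refine mul_le_mul_of_nonneg_right ?_ (by positivity)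
          exact mul_le_mul h1 hKB (by linarith) (by positivity)
      _ = (B : ℝ) ^ (m₂ + 2 * κ₁ + 2 * (m * κ₂)) := by
          rw [h2, ← pow_add, ← pow_add]
  calc (T.card : ℝ) ≤ _ := htot
    _ ≤ (2 * (1 + Real.log X₁)) * (((15 * n + 120 * Cd * n) * K * D ^ 2) * (2 * (H : ℝ) + 1) ^ 6 *
        (X₁ * ((H : ℝ) ^ 2 / X₁) ^ (3 / ((n : ℝ) - 1)))) := mul_le_mul_of_nonneg_right hL1 hW0
    _ = (2 * ((15 * n + 120 * Cd * n) * K * D ^ 2)) * ((1 + Real.log X₁) * (2 * (H : ℝ) + 1) ^ 6 *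
        (X₁ * ((H : ℝ) ^ 2 / X₁) ^ (3 / ((n : ℝ) - 1)))) := by ring
    _ ≤ (B : ℝ) ^ (m₂ + 2 * κ₁ + 2 * (m * κ₂)) * ((1 + Real.log X₁) * (2 * (H : ℝ) + 1) ^ 6 *
        (X₁ * ((H : ℝ) ^ 2 / X₁) ^ (3 / ((n : ℝ) - 1)))) := mul_le_mul_of_nonneg_right hconst (by positivity)
    _ = _ := by ring

theorem fi3 (n : ℕ) (hn : 5 ≤ n) : ∃ κ : ℕ, ∀ B H : ℕ, 2 ≤ B → 1 ≤ H → ∀ e : ℕ → ℕ → ℤ, Fb n B H e →
    ∀ X₁ : ℝ, (H : ℝ) ^ 2 ≤ X₁ → X₁ ≤ (H : ℝ) ^ (n + 1) → ∀ T : Finset (Ix 3 → ℤ),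
    (∀ c ∈ T, (∀ p, |c p| ≤ (H : ℤ)) ∧ ∃ x y : ℤ, |y| ≤ |x| ∧ (B : ℝ) ^ κ * H ≤ |(x : ℝ)| ∧ |(x : ℝ)| ≤ X₁ ∧
      ev n e x y + ev 3 (co c) x y = 0) →
    (T.card : ℝ) ≤ (B : ℝ) ^ κ * (1 + Real.log X₁) * (2 * (H : ℝ) + 1) ^ 6 * (X₁ * ((H : ℝ) ^ 2 / X₁) ^ (3 / ((n : ℝ) - 1))) := by
  obtain ⟨κ₁, h₁⟩ := nex n (by omega)
  obtain ⟨κ₂, h₂⟩ := dgh n 3 (by norm_num) (by omega)
  exact ⟨_, fi3_ex n κ₁ κ₂ hn h₁ h₂⟩

end Pool.Agent.H88.TU
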