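import Pool.Agent.H88.TU.Cu3
import Pool.Agent.H88.TU.Dgh
import Pool.Agent.H88.TU.Nex
import Pool.Agent.H88.TU.Sta

/-! # [H88 TU FIK] A fibre, points beyond `X₁`: terms of degree `≤ k` free

PROOF. `ad e c` as in `FI3`: `nex` (with `2B`) gives `t`, `Ct n K H (ad e c) t` and `|y - t x - be| ≤ K H²/|x|`, `K = B^κ₁`; the forms of degree `n, n-1, n-2` of `ad e c` and `e` agree
(`k ≤ n - 3`), `Ct n K H e t` (`Fb`), `be n (ad e c) t = be n e t`, `|be| ≤ K^c H`. `|ev n e x y| = |ev k (co c) x y| ≤ C_k H |x|^k`. Scales `X = 2^i X₁`, `X ≤ |x| ≤ 2X`, at most `2 + 2 log X₂` of them: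
`cu3` (for each of the at most `n` zeros `t`, `K^κ H³ ≤ g X₁ ≤ |gm| X`): at most `K^κ H (1 + (H/g)^(1/2)) ≤ 2 K^κ H (H/g)^(1/2)` points (`g ≤ H`). Each point has by `dgh`
(`B^κ h^(n-1) H² ≤ X₁`) at most `B^c (2H+1)^(..)/h^k` vectors. -/

namespace Pool.Agent.H88.TU

open Finset Polynomial Pool.Agent.H8.AA Pool.Agent.H88.A2

private theorem card_bd {α β : Type*} [DecidableEq β] (T : Finset α) (f : α → β) (M N : ℝ) (hM : 0 ≤ M)
    (h1 : ((T.image f).card : ℝ) ≤ N) (h2 : ∀ b ∈ T.image f, ((T.filter (fun a => f a = b)).card : ℝ) ≤ M) :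
    (T.card : ℝ) ≤ N * M := by
  rw [Finset.card_eq_sum_card_image f T]
  push_cast
  calc ∑ b ∈ T.image f, ((T.filter (fun a => f a = b)).card : ℝ) ≤ ∑ b ∈ T.image f, M := Finset.sum_le_sum h2
    _ = (T.image f).card * M := by rw [Finset.sum_const, nsmul_eq_mul]
    _ ≤ N * M := mul_le_mul_of_nonneg_right h1 hM

private theorem co0 {k : ℕ} (c : Ix k → ℤ) {a b : ℕ} (h : k < a + b) : co c a b = 0 := by
  unfold co
  rw [dif_neg (by omega)]

private theorem co_le {k H : ℕ} (c : Ix k → ℤ) (hc : ∀ p, |c p| ≤ (H : ℤ)) (a b : ℕ) : |co c a b| ≤ (H : ℤ) := by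
  unfold co
  split_ifs with h
  · exact hc _
  · simp

private theorem fm_ad {k m : ℕ} (e : ℕ → ℕ → ℤ) (c : Ix k → ℤ) (h : k < m) : fm (ad e c) m = fm e m := by
  unfold fm
  refine Finset.sum_congr rfl fun j hj => ?_
  have := Finset.mem_range.1 hj
  have e1 : ad e c (m - j) j = e (m - j) j := by
    unfold ad
    rw [co0 c (by omega), add_zero]
  rw [e1]

private theorem ev_co {n k : ℕ} (hk : k ≤ n) (c : Ix k → ℤ) (x y : ℤ) : ev n (co c) x y = ev k (co c) x y := by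
  unfold ev
  symm
  refine Finset.sum_subset (Finset.range_subset_range.2 (by omega)) fun m _ hm' => ?_
  have h1 : k < m := by
    have := mt Finset.mem_range.2 hm'
    omega
  refine Finset.sum_eq_zero fun j hj => ?_
  have := Finset.mem_range.1 hj
  rw [co0 c (by omega), zero_mul]

private theorem ev_ad {n k : ℕ} (hk : k ≤ n) (e : ℕ → ℕ → ℤ) (c : Ix k → ℤ) (x y : ℤ) :
    ev n (ad e c) x y = ev n e x y + ev k (co c) x y := by
  rw [← ev_co hk c]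
  unfold ev ad
  rw [← Finset.sum_add_distrib]
  refine Finset.sum_congr rfl fun m _ => ?_
  rw [← Finset.sum_add_distrib]
  refine Finset.sum_congr rfl fun j _ => ?_
  ring

private theorem bs_fb {n B H : ℕ} (hH : 1 ≤ H) {e : ℕ → ℕ → ℤ} (he : Fb n B H e) {K : ℝ} (hK : (B : ℝ) ≤ K) :
    Bs n K H e := by
  intro a b hab
  have hB0 : (0 : ℝ) ≤ B := Nat.cast_nonneg B
  have hH1 : (1 : ℝ) ≤ H := by exact_mod_cast hH
  rcases Nat.lt_or_ge (a + b) n with h | h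
  · have h5 : |(e a b : ℝ)| ≤ (B : ℝ) * H := by exact_mod_cast he.bd a b h
    have h6 : (H : ℝ) ≤ (H : ℝ) ^ (n - a - b) := by
      calc (H : ℝ) = (H : ℝ) ^ 1 := (pow_one _).symm
        _ ≤ _ := pow_le_pow_right₀ hH1 (by omega)
    exact h5.trans (mul_le_mul hK h6 (by positivity) (hB0.trans hK))
  · have h5 : |(e a b : ℝ)| ≤ (B : ℝ) := by exact_mod_cast he.tp a b (by omega)
    have h6 : n - a - b = 0 := by omega
    rw [h6, pow_zero, mul_one]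
    exact h5.trans hK

private theorem bs_ad {n k B H : ℕ} (hk : k < n) (hB : 2 ≤ B) (hH : 1 ≤ H) {e : ℕ → ℕ → ℤ} (he : Fb n B H e)
    (c : Ix k → ℤ) (hc : ∀ p, |c p| ≤ (H : ℤ)) : Bs n ((2 * B : ℕ) : ℝ) H (ad e c) := by
  intro a b hab
  have hB0 : (0 : ℝ) ≤ B := Nat.cast_nonneg B
  have hB1 : (2 : ℤ) ≤ B := by exact_mod_cast hB
  have hH0 : (1 : ℤ) ≤ H := by exact_mod_cast hH
  have hH1 : (1 : ℝ) ≤ H := by exact_mod_cast hH
  rcases Nat.lt_or_ge (a + b) n with h | h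
  · have h1 : |ad e c a b| ≤ |e a b| + |co c a b| := abs_add_le _ _
    have h2 := he.bd a b h
    have h3 := co_le c hc a b
    have h4 : |ad e c a b| ≤ 2 * (B : ℤ) * H := by nlinarith
    have h5 : |(ad e c a b : ℝ)| ≤ 2 * (B : ℝ) * H := by exact_mod_cast h4
    refine h5.trans ?_
    push_cast
    have h6 : (H : ℝ) ≤ (H : ℝ) ^ (n - a - b) := by
      calc (H : ℝ) = (H : ℝ) ^ 1 := (pow_one _).symm
        _ ≤ _ := pow_le_pow_right₀ hH1 (by omega)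
    exact mul_le_mul_of_nonneg_left h6 (by positivity)
  · have h5 : |(e a b : ℝ)| ≤ (B : ℝ) := by exact_mod_cast he.tp a b (by omega)
    have h6 : n - a - b = 0 := by omega
    have h7 : ad e c a b = e a b := by
      unfold ad
      rw [co0 c (by omega), add_zero]
    rw [h6, pow_zero, mul_one, h7]
    push_cast
    linarith

private theorem ev_bd {k H : ℕ} (c : Ix k → ℤ) (hc : ∀ p, |c p| ≤ (H : ℤ)) (x y : ℤ) (hx : 1 ≤ |x|) (hy : |y| ≤ |x|) :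
    |ev k (co c) x y| ≤ ((k : ℤ) + 1) * (((k : ℤ) + 1) * (H * |x| ^ k)) := by
  unfold ev
  have hH0 : (0 : ℤ) ≤ H := Int.natCast_nonneg H
  calc |∑ m ∈ range (k + 1), ∑ j ∈ range (m + 1), co c (m - j) j * (x ^ (m - j) * y ^ j)|
      ≤ ∑ m ∈ range (k + 1), |∑ j ∈ range (m + 1), co c (m - j) j * (x ^ (m - j) * y ^ j)| :=
        Finset.abs_sum_le_sum_abs _ _
    _ ≤ ∑ m ∈ range (k + 1), ((k : ℤ) + 1) * (H * |x| ^ k) := by
        refine Finset.sum_le_sum fun m hm => ?_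
        have hm' := Finset.mem_range.1 hm
        calc |∑ j ∈ range (m + 1), co c (m - j) j * (x ^ (m - j) * y ^ j)|
            ≤ ∑ j ∈ range (m + 1), |co c (m - j) j * (x ^ (m - j) * y ^ j)| := Finset.abs_sum_le_sum_abs _ _
          _ ≤ ∑ j ∈ range (m + 1), (H : ℤ) * |x| ^ k := by
              refine Finset.sum_le_sum fun j hj => ?_
              have hj' := Finset.mem_range.1 hj
              rw [abs_mul, abs_mul, abs_pow, abs_pow]
              refine mul_le_mul (co_le c hc _ _) ?_ (by positivity) hH0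
              calc |x| ^ (m - j) * |y| ^ j ≤ |x| ^ (m - j) * |x| ^ j := by gcongr
                _ = |x| ^ m := by
                    rw [← pow_add]
                    congr 1
                    omega
                _ ≤ |x| ^ k := pow_le_pow_right₀ hx (by omega)
          _ = ((m : ℤ) + 1) * (H * |x| ^ k) := by
              rw [Finset.sum_const, Finset.card_range, nsmul_eq_mul]
              push_cast
              ring
          _ ≤ ((k : ℤ) + 1) * (H * |x| ^ k) := by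
              have h1 : (m : ℤ) + 1 ≤ (k : ℤ) + 1 := by omega
              exact mul_le_mul_of_nonneg_right h1 (by positivity)
    _ = _ := by
        rw [Finset.sum_const, Finset.card_range, nsmul_eq_mul]
        push_cast
        ring

private theorem fm_bd {n B H : ℕ} (hn : 1 ≤ n) {e : ℕ → ℕ → ℤ} (he : Fb n B H e) {t : ℝ} (ht : |t| ≤ 2) :
    |aeval t (fm e (n - 1))| ≤ n * (B * H * 2 ^ n) := by
  rw [fm_aeval]
  calc |∑ j ∈ range (n - 1 + 1), (e (n - 1 - j) j : ℝ) * t ^ j|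
      ≤ ∑ j ∈ range (n - 1 + 1), |(e (n - 1 - j) j : ℝ) * t ^ j| := Finset.abs_sum_le_sum_abs _ _
    _ ≤ ∑ j ∈ range (n - 1 + 1), ((B : ℝ) * H * 2 ^ n) := by
        refine Finset.sum_le_sum fun j hj => ?_
        have hj' := Finset.mem_range.1 hj
        rw [abs_mul, abs_pow]
        have h1 : |(e (n - 1 - j) j : ℝ)| ≤ (B : ℝ) * H := by exact_mod_cast he.bd _ _ (by omega)
        have h2 : |t| ^ j ≤ 2 ^ n :=
          (pow_le_pow_left₀ (abs_nonneg _) ht j).trans (pow_le_pow_right₀ (by norm_num) (by omega))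
        exact mul_le_mul h1 h2 (by positivity) (by positivity)
    _ = n * (B * H * 2 ^ n) := by rw [Finset.sum_const, Finset.card_range, nsmul_eq_mul, Nat.sub_add_cancel hn]

private theorem be_bd {n a B H : ℕ} (hn : 1 ≤ n) (hB : 2 ≤ B) {e : ℕ → ℕ → ℤ} (he : Fb n B H e) {t : ℝ}
    (hc : Ct n ((B : ℝ) ^ a) H e t) : |be n e t| ≤ (B : ℝ) ^ (a + 2 * n + 1) * H := by
  have hB2 : (2 : ℝ) ≤ B := by exact_mod_cast hB
  have hB0 : (0 : ℝ) < B := by linarith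
  have hH0 : (0 : ℝ) ≤ H := Nat.cast_nonneg H
  have h1 := fm_bd hn he hc.t2
  have h2 := hc.dr
  have hK : (0 : ℝ) < (B : ℝ) ^ a := by positivity
  have hd : 0 < |aeval t (derivative (fm e n))| := lt_of_lt_of_le (by positivity) h2
  unfold be
  rw [abs_neg, abs_div, div_le_iff₀ hd]
  have h3 : 1 ≤ (B : ℝ) ^ a * |aeval t (derivative (fm e n))| := by
    rw [div_le_iff₀ hK] at h2
    linarith
  have h4 : (n : ℝ) ≤ (B : ℝ) ^ n := by
    have e1 : (n : ℝ) ≤ (2 : ℝ) ^ n := by exact_mod_cast Nat.lt_two_pow_self.le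
    exact e1.trans (pow_le_pow_left₀ (by norm_num) hB2 n)
  have h5 : (2 : ℝ) ^ n ≤ (B : ℝ) ^ n := pow_le_pow_left₀ (by norm_num) hB2 n
  calc |aeval t (fm e (n - 1))| ≤ n * (B * H * 2 ^ n) := h1
    _ ≤ (B : ℝ) ^ n * (B * H * (B : ℝ) ^ n) := by gcongr
    _ = ((B : ℝ) ^ (2 * n + 1) * H) * 1 := by ring
    _ ≤ ((B : ℝ) ^ (2 * n + 1) * H) * ((B : ℝ) ^ a * |aeval t (derivative (fm e n))|) :=
        mul_le_mul_of_nonneg_left h3 (by positivity)
    _ = (B : ℝ) ^ (a + 2 * n + 1) * H * |aeval t (derivative (fm e n))| := by ring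

/-- scales -/
private theorem scl {X₁ X₂ x : ℝ} (h1 : 1 ≤ X₁) (hx : X₁ ≤ x) (hx2 : x ≤ X₂) :
    ∃ i : ℕ, i < ⌊2 * Real.log X₂⌋₊ + 1 ∧ X₁ * 2 ^ i ≤ x ∧ x ≤ 2 * (X₁ * 2 ^ i) := by
  have h0 : 0 < X₁ := by linarith
  obtain ⟨i, hi1, hi2⟩ := exists_nat_pow_near (x := x / X₁) (y := 2) (by rwa [one_le_div h0]) (by norm_num)
  rw [le_div_iff₀ h0] at hi1
  rw [div_lt_iff₀ h0] at hi2
  refine ⟨i, ?_, by linarith, ?_⟩
  · rw [Nat.lt_succ_iff]
    refine Nat.le_floor ?_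
    have h3 : (2 : ℝ) ^ i ≤ X₂ := by
      have : (2 : ℝ) ^ i * 1 ≤ (2 : ℝ) ^ i * X₁ := mul_le_mul_of_nonneg_left h1 (by positivity)
      linarith
    have h4 := Real.log_le_log (by positivity) h3
    rw [Real.log_pow] at h4
    have h5 : (1 : ℝ) / 2 ≤ Real.log 2 := by
      have := Real.log_two_gt_d9
      linarith
    have h6 : (i : ℝ) * (1 / 2) ≤ i * Real.log 2 := mul_le_mul_of_nonneg_left h5 (Nat.cast_nonneg i)
    linarith
  · rw [pow_succ] at hi2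
    linarith

theorem fik_ex (n k κ₁ κ₂ κ₃ : ℕ) (hn : 5 ≤ n) (hk1 : 1 ≤ k) (hk : k + 4 ≤ n) (h₁ : NexS n κ₁) (h₂ : DghS n k κ₂)
    (h₃ : Cu3S n k κ₃) :
    FikS n k (n + 2 + (2 * κ₁ + 1 + 3 * k) * κ₃ + (2 * κ₁ + 1 + 3 * k + 2 * n + 2) * κ₂ + (2 * κ₁ + 1 + 3 * k)) := by
  classical
  unfold NexS at h₁
  unfold DghS at h₂
  unfold Cu3S at h₃
  obtain ⟨a, ha⟩ : ∃ a : ℕ, a = 2 * κ₁ + 1 + 3 * k := ⟨_, rfl⟩
  obtain ⟨b, hb⟩ : ∃ b : ℕ, b = a + 2 * n + 2 := ⟨_, rfl⟩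
  have hE : n + 2 + (2 * κ₁ + 1 + 3 * k) * κ₃ + (2 * κ₁ + 1 + 3 * k + 2 * n + 2) * κ₂ + (2 * κ₁ + 1 + 3 * k) =
      n + 2 + a * κ₃ + b * κ₂ + a := by rw [hb, ha]
  rw [hE]
  unfold FikS
  intro B H hB hH e he g h X₁ X₂ hg hgH h1h hhH hgm hX1 hX2 hX T hT
  have hB2 : (2 : ℝ) ≤ B := by exact_mod_cast hB
  have hB1 : (1 : ℝ) ≤ B := by linarith
  have hB0 : (0 : ℝ) < B := by linarith
  have hH1 : (1 : ℝ) ≤ H := by exact_mod_cast hH
  have hH0 : (0 : ℝ) < H := by linarith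
  have hh0 : (0 : ℝ) < h := by linarith
  have hpow : ∀ {u v : ℕ}, u ≤ v → (B : ℝ) ^ u ≤ (B : ℝ) ^ v := fun huv => pow_le_pow_right₀ hB1 huv
  have h2B : (((2 * B : ℕ) : ℝ)) ^ κ₁ ≤ (B : ℝ) ^ (2 * κ₁) := by
    rw [pow_mul]
    refine pow_le_pow_left₀ (by positivity) ?_ _
    push_cast
    nlinarith
  have hK2 : (2 : ℝ) ≤ (B : ℝ) ^ a := by
    calc (2 : ℝ) ≤ B := hB2
      _ = (B : ℝ) ^ 1 := (pow_one _).symm
      _ ≤ _ := hpow (by omega)
  have hKB : (B : ℝ) ≤ (B : ℝ) ^ a := by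
    calc (B : ℝ) = (B : ℝ) ^ 1 := (pow_one _).symm
      _ ≤ _ := hpow (by omega)
  have hK0 : (0 : ℝ) < (B : ℝ) ^ a := by positivity
  have hkk : ((k : ℝ) + 1) * (((k : ℝ) + 1) * 2 ^ k) ≤ (B : ℝ) ^ a := by
    have e1 : (k : ℝ) + 1 ≤ 2 ^ k := by exact_mod_cast Nat.lt_two_pow_self
    have e2 : (2 : ℝ) ^ k ≤ (B : ℝ) ^ k := pow_le_pow_left₀ (by norm_num) hB2 k
    calc ((k : ℝ) + 1) * (((k : ℝ) + 1) * 2 ^ k) ≤ (B : ℝ) ^ k * ((B : ℝ) ^ k * (B : ℝ) ^ k) := by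
          have e3 : (k : ℝ) + 1 ≤ (B : ℝ) ^ k := e1.trans e2
          gcongr
      _ = (B : ℝ) ^ (3 * k) := by ring
      _ ≤ _ := hpow (by omega)
  have hX0 : 0 < X₁ := lt_of_lt_of_le (by positivity) hX2
  have hXH : (B : ℝ) ^ (n + 2 + a * κ₃ + b * κ₂ + a) * (H : ℝ) ^ 2 ≤ X₁ := by
    have e1 : (B : ℝ) ^ (n + 2 + a * κ₃ + b * κ₂ + a) * (H : ℝ) ^ 3 ≤ H * X₁ :=
      hX1.trans (mul_le_mul_of_nonneg_right hgH hX0.le)
    have e2 : H * ((B : ℝ) ^ (n + 2 + a * κ₃ + b * κ₂ + a) * (H : ℝ) ^ 2) ≤ H * X₁ := by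
      calc H * ((B : ℝ) ^ (n + 2 + a * κ₃ + b * κ₂ + a) * (H : ℝ) ^ 2)
          = (B : ℝ) ^ (n + 2 + a * κ₃ + b * κ₂ + a) * (H : ℝ) ^ 3 := by ring
        _ ≤ _ := e1
    exact le_of_mul_le_mul_left e2 hH0
  have hXa : (B : ℝ) ^ a * (H : ℝ) ^ 2 ≤ X₁ :=
    (mul_le_mul_of_nonneg_right (hpow (by omega)) (by positivity)).trans hXH
  have hX11 : 1 ≤ X₁ := by
    refine le_trans ?_ hXa
    have e1 : (1 : ℝ) ≤ (B : ℝ) ^ a := by linarith
    have e2 : (1 : ℝ) ≤ (H : ℝ) ^ 2 := one_le_pow₀ hH1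
    nlinarith
  have hlog : 0 ≤ Real.log X₂ := Real.log_nonneg (hX11.trans hX)
  -- data for one vector
  have key : ∀ c ∈ T, ∃ (t : ℝ) (i : ℕ) (P : ℤ × ℤ), i < ⌊2 * Real.log X₂⌋₊ + 1 ∧ Ct n ((B : ℝ) ^ a) H e t ∧
      X₁ * 2 ^ i ≤ |(P.1 : ℝ)| ∧ |(P.1 : ℝ)| ≤ 2 * (X₁ * 2 ^ i) ∧
      |(P.2 : ℝ) - t * P.1 - be n e t| ≤ (B : ℝ) ^ a * (H : ℝ) ^ 2 / (X₁ * 2 ^ i) ∧
      |(ev n e P.1 P.2 : ℝ)| ≤ (B : ℝ) ^ a * H * (X₁ * 2 ^ i) ^ k ∧
      ev k (co c) P.1 P.2 = - ev n e P.1 P.2 := by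
    intro c hc
    obtain ⟨hcH, x, y, hxy, hx1, hx2, hev⟩ := hT c hc
    have hev' : ev n (ad e c) x y = 0 := by
      rw [ev_ad (by omega)]
      exact hev
    have hgd : Gd n (1 / ((2 * B : ℕ) : ℝ)) (ad e c) := by
      intro s hs
      have e0 : 1 / ((2 * B : ℕ) : ℝ) ≤ 1 / (B : ℝ) := by
        push_cast
        exact one_div_le_one_div_of_le hB0 (by linarith)
      rw [fm_ad e c (by omega)]
      rcases he.gd s hs with e1 | e1
      · exact Or.inl (lt_of_le_of_lt e0 e1)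
      · exact Or.inr (lt_of_le_of_lt e0 e1)
    have hx0 : (((2 * B : ℕ) : ℝ)) ^ κ₁ * H ≤ |(x : ℝ)| := by
      calc (((2 * B : ℕ) : ℝ)) ^ κ₁ * H ≤ (B : ℝ) ^ (2 * κ₁) * H := mul_le_mul_of_nonneg_right h2B hH0.le
        _ ≤ (B : ℝ) ^ a * (H : ℝ) ^ 2 := by
            refine mul_le_mul (hpow (by omega)) ?_ hH0.le hK0.le
            nlinarith
        _ ≤ _ := hXa.trans hx1
    obtain ⟨t, ht1, ht2⟩ := h₁ (2 * B) (by omega) (ad e c) H hH1 (bs_ad (by omega) hB hH he c hcH) hgd x y hxy hx0 hev'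
    have hfn : fm (ad e c) n = fm e n := fm_ad e c (by omega)
    have hfn1 : fm (ad e c) (n - 1) = fm e (n - 1) := fm_ad e c (by omega)
    have hbe : be n (ad e c) t = be n e t := by
      unfold be
      rw [hfn, hfn1]
    rw [hbe] at ht2
    have hKK : (((2 * B : ℕ) : ℝ)) ^ κ₁ ≤ (B : ℝ) ^ a := h2B.trans (hpow (by omega))
    have hct : Ct n ((B : ℝ) ^ a) H e t := by
      refine ⟨bs_fb hH he hKB, ht1.t2, ?_, ?_⟩
      · rw [← hfn]
        exact ht1.rt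
      · rw [← hfn]
        refine le_trans ?_ ht1.dr
        exact one_div_le_one_div_of_le (by positivity) hKK
    obtain ⟨i, hi1, hi2, hi3⟩ := scl hX11 hx1 hx2
    have hXi : 0 < X₁ * 2 ^ i := by positivity
    refine ⟨t, i, (x, y), hi1, hct, hi2, hi3, ?_, ?_, by linarith⟩
    · refine ht2.trans ?_
      calc (((2 * B : ℕ) : ℝ)) ^ κ₁ * (H : ℝ) ^ 2 / |(x : ℝ)| ≤ (B : ℝ) ^ a * (H : ℝ) ^ 2 / |(x : ℝ)| := by
            gcongr
        _ ≤ (B : ℝ) ^ a * (H : ℝ) ^ 2 / (X₁ * 2 ^ i) := by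
            gcongr
    · have e1 : ev n e x y = - ev k (co c) x y := by linarith
      have hx1' : (1 : ℝ) ≤ |(x : ℝ)| := hX11.trans hx1
      have e2 := ev_bd c hcH x y (by exact_mod_cast hx1') hxy
      have e3 : |(ev n e x y : ℝ)| ≤ ((k : ℝ) + 1) * (((k : ℝ) + 1) * (H * |(x : ℝ)| ^ k)) := by
        rw [e1]
        push_cast
        rw [abs_neg]
        exact_mod_cast e2
      refine e3.trans ?_
      calc ((k : ℝ) + 1) * (((k : ℝ) + 1) * (H * |(x : ℝ)| ^ k))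
          ≤ ((k : ℝ) + 1) * (((k : ℝ) + 1) * (H * (2 * (X₁ * 2 ^ i)) ^ k)) := by gcongr
        _ = (((k : ℝ) + 1) * (((k : ℝ) + 1) * 2 ^ k)) * (H * (X₁ * 2 ^ i) ^ k) := by
            rw [mul_pow 2]
            ring
        _ ≤ (B : ℝ) ^ a * (H * (X₁ * 2 ^ i) ^ k) := mul_le_mul_of_nonneg_right hkk (by positivity)
        _ = _ := by ring
  choose! tc ic Pc q1 q2 q3 q4 q5 q6 q7 using key
  -- the zeros
  have hf0 : fm e n ≠ 0 := by
    intro h0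
    have := he.deg
    rw [h0, natDegree_zero] at this
    omega
  have hR : ((fm e n).aroots ℝ).toFinset.card ≤ n := by
    refine (Multiset.toFinset_card_le _).trans ?_
    refine (Polynomial.card_roots' _).trans ?_
    refine Polynomial.natDegree_map_le.trans ?_
    rw [he.deg]
  obtain ⟨M, hM⟩ : ∃ M : ℝ, M = (B : ℝ) ^ (b * κ₂) * (2 * (H : ℝ) + 1) ^ (Fintype.card (Ix k) - (k + 1)) / h ^ k :=
    ⟨_, rfl⟩
  have hM0 : 0 ≤ M := by
    rw [hM]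
    positivity
  obtain ⟨s, hs⟩ : ∃ s : ℝ, s = Real.sqrt (H / g) := ⟨_, rfl⟩
  have hs1 : 1 ≤ s := by
    rw [hs, ← Real.sqrt_one]
    exact Real.sqrt_le_sqrt (by rwa [one_le_div hg])
  have hN : ((⌊2 * Real.log X₂⌋₊ + 1 : ℕ) : ℝ) ≤ 2 * (1 + Real.log X₂) := by
    push_cast
    have := Nat.floor_le (by linarith : 0 ≤ 2 * Real.log X₂)
    linarith
  -- one scale, one zero
  have hF : ∀ p ∈ T.image (fun c => (tc c, ic c)), ((T.filter (fun c => (tc c, ic c) = p)).card : ℝ) ≤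
      ((B : ℝ) ^ (a * κ₃) * H * (2 * s)) * M := by
    rintro ⟨t, i⟩ hp
    obtain ⟨c1, hc1, hc1'⟩ := Finset.mem_image.1 hp
    simp only [Prod.mk.injEq] at hc1'
    have ht : Ct n ((B : ℝ) ^ a) H e t := by
      rw [← hc1'.1]
      exact q2 c1 hc1
    have hgt := hgm t ht.t2 ht.rt
    have hXi : X₁ ≤ X₁ * 2 ^ i := by
      have e1 : (1 : ℝ) ≤ 2 ^ i := one_le_pow₀ (by norm_num)
      nlinarith
    have hpw : ((B : ℝ) ^ a) ^ κ₃ ≤ (B : ℝ) ^ (n + 2 + a * κ₃ + b * κ₂ + a) := by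
      rw [← pow_mul]
      exact hpow (by omega)
    refine card_bd _ Pc _ _ hM0 ?_ ?_
    · have e1 := h₃ ((B : ℝ) ^ a) H hK2 hH1 e t ht (X₁ * 2 ^ i) ?_ ?_
        ((T.filter (fun c => (tc c, ic c) = (t, i))).image Pc) ?_
      · refine e1.trans ?_
        rw [← pow_mul]
        refine mul_le_mul_of_nonneg_left ?_ (by positivity)
        have e2 : Real.sqrt (H / |gm n e t|) ≤ s := by
          rw [hs]
          exact Real.sqrt_le_sqrt (div_le_div_of_nonneg_left hH0.le hg hgt)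
        linarith
      · calc ((B : ℝ) ^ a) ^ κ₃ * (H : ℝ) ^ 3
            ≤ (B : ℝ) ^ (n + 2 + a * κ₃ + b * κ₂ + a) * (H : ℝ) ^ 3 := mul_le_mul_of_nonneg_right hpw (by positivity)
          _ ≤ g * X₁ := hX1
          _ ≤ |gm n e t| * (X₁ * 2 ^ i) := mul_le_mul hgt hXi hX0.le (abs_nonneg _)
      · calc ((B : ℝ) ^ a) ^ κ₃ * (H : ℝ) ^ 2
            ≤ (B : ℝ) ^ (n + 2 + a * κ₃ + b * κ₂ + a) * (H : ℝ) ^ 2 := mul_le_mul_of_nonneg_right hpw (by positivity)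
          _ ≤ X₁ := hXH
          _ ≤ _ := hXi
      · intro P hP
        obtain ⟨c, hc, rfl⟩ := Finset.mem_image.1 hP
        obtain ⟨hcT, hc'⟩ := Finset.mem_filter.1 hc
        simp only [Prod.mk.injEq] at hc'
        obtain ⟨rfl, rfl⟩ := hc'
        exact ⟨q3 c hcT, q4 c hcT, q5 c hcT, q6 c hcT⟩
    · intro P hP
      obtain ⟨c2, hc2, rfl⟩ := Finset.mem_image.1 hP
      obtain ⟨hc2T, hc2'⟩ := Finset.mem_filter.1 hc2
      simp only [Prod.mk.injEq] at hc2'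
      obtain ⟨rfl, rfl⟩ := hc2'
      have hBb : 2 ≤ B ^ b := by
        calc 2 ≤ B := hB
          _ = B ^ 1 := (pow_one _).symm
          _ ≤ B ^ b := Nat.pow_le_pow_right (by omega) (by omega)
      have hBb' : (B : ℤ) ≤ ((B ^ b : ℕ) : ℤ) := by
        have : B ≤ B ^ b := by
          calc B = B ^ 1 := (pow_one _).symm
            _ ≤ B ^ b := Nat.pow_le_pow_right (by omega) (by omega)
        exact_mod_cast this
      have hfc : ∀ i, |(fm e n).coeff i| ≤ ((B ^ b : ℕ) : ℤ) := by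
        intro i
        rw [fm_coeff]
        split_ifs with hi
        · exact (he.tp _ _ (by omega)).trans hBb'
        · simp
      have hxX : X₁ ≤ |((Pc c2).1 : ℝ)| := hXi.trans (q3 c2 hc2T)
      have hnear : |((Pc c2).2 : ℝ) - tc c2 * (Pc c2).1| ≤ ((B ^ b : ℕ) : ℝ) * H := by
        have e1 := q5 c2 hc2T
        have e2 : (B : ℝ) ^ a * (H : ℝ) ^ 2 / (X₁ * 2 ^ ic c2) ≤ 1 := by
          rw [div_le_one (by positivity)]
          exact hXa.trans hXi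
        have e3 := be_bd (by omega) hB he ht
        have e4 : |((Pc c2).2 : ℝ) - tc c2 * (Pc c2).1| ≤
            |((Pc c2).2 : ℝ) - tc c2 * (Pc c2).1 - be n e (tc c2)| + |be n e (tc c2)| := by
          have := abs_add_le (((Pc c2).2 : ℝ) - tc c2 * (Pc c2).1 - be n e (tc c2)) (be n e (tc c2))
          rwa [sub_add_cancel] at this
        have e5 : (1 : ℝ) ≤ (B : ℝ) ^ (a + 2 * n + 1) * H := by
          have e6 : (1 : ℝ) ≤ (B : ℝ) ^ (a + 2 * n + 1) := one_le_pow₀ hB1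
          nlinarith
        calc |((Pc c2).2 : ℝ) - tc c2 * (Pc c2).1| ≤ 1 + (B : ℝ) ^ (a + 2 * n + 1) * H := by linarith
          _ ≤ 2 * ((B : ℝ) ^ (a + 2 * n + 1) * H) := by linarith
          _ ≤ B * ((B : ℝ) ^ (a + 2 * n + 1) * H) := mul_le_mul_of_nonneg_right hB2 (by positivity)
          _ = ((B ^ b : ℕ) : ℝ) * H := by
              rw [hb]
              push_cast
              ring
      have hbig : ((B ^ b : ℕ) : ℝ) ^ κ₂ * h ^ (n - 1) * (H : ℝ) ^ 2 ≤ |((Pc c2).1 : ℝ)| := by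
        refine le_trans ?_ (hX2.trans hxX)
        have e1 : ((B ^ b : ℕ) : ℝ) ^ κ₂ ≤ (B : ℝ) ^ (n + 2 + a * κ₃ + b * κ₂ + a) := by
          push_cast
          rw [← pow_mul]
          exact hpow (by omega)
        gcongr
      have e1 := h₂ (B ^ b) hBb (fm e n) he.deg hfc he.irr (tc c2) ht.rt ht.t2 H h hH h1h hhH (Pc c2).1 (Pc c2).2
        (- ev n e (Pc c2).1 (Pc c2).2) hnear hbig
        ((T.filter (fun c => (tc c, ic c) = (tc c2, ic c2))).filter (fun c => Pc c = Pc c2)) (by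
          intro c hc
          obtain ⟨hc3, hc4⟩ := Finset.mem_filter.1 hc
          obtain ⟨hc5, -⟩ := Finset.mem_filter.1 hc3
          refine ⟨(hT c hc5).1, ?_⟩
          rw [← hc4]
          exact q7 c hc5)
      refine e1.trans (le_of_eq ?_)
      rw [hM]
      push_cast
      rw [← pow_mul]
  have hI : ((T.image (fun c => (tc c, ic c))).card : ℝ) ≤ n * (2 * (1 + Real.log X₂)) := by
    have e1 : T.image (fun c => (tc c, ic c)) ⊆
        ((fm e n).aroots ℝ).toFinset ×ˢ range (⌊2 * Real.log X₂⌋₊ + 1) := by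
      intro p hp
      obtain ⟨c, hc, rfl⟩ := Finset.mem_image.1 hp
      rw [Finset.mem_product]
      refine ⟨?_, Finset.mem_range.2 (q1 c hc)⟩
      rw [Multiset.mem_toFinset, Polynomial.mem_aroots]
      exact ⟨hf0, (q2 c hc).rt⟩
    have e2 := Finset.card_le_card e1
    rw [Finset.card_product, Finset.card_range] at e2
    calc ((T.image (fun c => (tc c, ic c))).card : ℝ)
        ≤ ((((fm e n).aroots ℝ).toFinset.card * (⌊2 * Real.log X₂⌋₊ + 1) : ℕ) : ℝ) := by exact_mod_cast e2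
      _ = (((fm e n).aroots ℝ).toFinset.card : ℝ) * ((⌊2 * Real.log X₂⌋₊ + 1 : ℕ) : ℝ) := by push_cast; ring
      _ ≤ n * (2 * (1 + Real.log X₂)) := by
          refine mul_le_mul ?_ hN (by positivity) (by positivity)
          exact_mod_cast hR
  have hfin := card_bd T (fun c => (tc c, ic c)) _ _ (by positivity) hI hF
  refine hfin.trans ?_
  have h4 : (n : ℝ) ≤ (B : ℝ) ^ n := by
    have e1 : (n : ℝ) ≤ (2 : ℝ) ^ n := by exact_mod_cast Nat.lt_two_pow_self.le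
    exact e1.trans (pow_le_pow_left₀ (by norm_num) hB2 n)
  have h5 : (4 : ℝ) * n ≤ (B : ℝ) ^ (n + 2) := by
    calc (4 : ℝ) * n ≤ (B : ℝ) ^ 2 * (B : ℝ) ^ n := by
          have : (4 : ℝ) ≤ (B : ℝ) ^ 2 := by nlinarith
          gcongr
      _ = _ := by ring
  have hU : 0 ≤ (1 + Real.log X₂) * (H * s) * (2 * (H : ℝ) + 1) ^ (Fintype.card (Ix k) - (k + 1)) / h ^ k := by
    have : 0 ≤ 1 + Real.log X₂ := by linarith
    positivity
  calc n * (2 * (1 + Real.log X₂)) * ((B : ℝ) ^ (a * κ₃) * H * (2 * s) * M)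
      = ((4 * n) * (B : ℝ) ^ (a * κ₃) * (B : ℝ) ^ (b * κ₂)) *
        ((1 + Real.log X₂) * (H * s) * (2 * (H : ℝ) + 1) ^ (Fintype.card (Ix k) - (k + 1)) / h ^ k) := by
        rw [hM]
        ring
    _ ≤ (B : ℝ) ^ (n + 2 + a * κ₃ + b * κ₂ + a) *
        ((1 + Real.log X₂) * (H * s) * (2 * (H : ℝ) + 1) ^ (Fintype.card (Ix k) - (k + 1)) / h ^ k) := by
        refine mul_le_mul_of_nonneg_right ?_ hU
        calc (4 * n : ℝ) * (B : ℝ) ^ (a * κ₃) * (B : ℝ) ^ (b * κ₂)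
            ≤ (B : ℝ) ^ (n + 2) * (B : ℝ) ^ (a * κ₃) * (B : ℝ) ^ (b * κ₂) := by gcongr
          _ = (B : ℝ) ^ (n + 2 + a * κ₃ + b * κ₂) := by rw [← pow_add, ← pow_add]
          _ ≤ _ := hpow (by omega)
    _ = _ := by
        rw [hs]
        ring

theorem fik (n k : ℕ) (hn : 5 ≤ n) (hk1 : 1 ≤ k) (hk : k + 4 ≤ n) : ∃ κ : ℕ, ∀ B H : ℕ, 2 ≤ B → 1 ≤ H → ∀ e : ℕ → ℕ → ℤ, Fb n B H e →
    ∀ g h X₁ X₂ : ℝ, 0 < g → g ≤ H → 1 ≤ h → h ≤ H → (∀ t : ℝ, |t| ≤ 2 → aeval t (fm e n) = 0 → g ≤ |gm n e t|) →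
    (B : ℝ) ^ κ * (H : ℝ) ^ 3 ≤ g * X₁ → (B : ℝ) ^ κ * h ^ (n - 1) * (H : ℝ) ^ 2 ≤ X₁ → X₁ ≤ X₂ → ∀ T : Finset (Ix k → ℤ),
    (∀ c ∈ T, (∀ p, |c p| ≤ (H : ℤ)) ∧ ∃ x y : ℤ, |y| ≤ |x| ∧ X₁ ≤ |(x : ℝ)| ∧ |(x : ℝ)| ≤ X₂ ∧ ev n e x y + ev k (co c) x y = 0) →
    (T.card : ℝ) ≤ (B : ℝ) ^ κ * (1 + Real.log X₂) * (H * Real.sqrt (H / g)) *
      (2 * (H : ℝ) + 1) ^ (Fintype.card (Ix k) - (k + 1)) / h ^ k := by
  obtain ⟨κ₁, h₁⟩ := nex n (by omega)
  obtain ⟨κ₂, h₂⟩ := dgh n k hk1 (by omega)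
  obtain ⟨κ₃, h₃⟩ := cu3 n k hk
  exact ⟨_, fik_ex n k κ₁ κ₂ κ₃ hn hk1 hk h₁ h₂ h₃⟩

end Pool.Agent.H88.TU
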