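import Pool.Agent.H88.TU.Fi3
import Pool.Agent.H88.TU.Sta

/-! # [H88 TU RGA] First range, points up to `H^(al n)`

PROOF. `fib` over `J = {p : Ix j | p.1 + p.2 ≤ 3}`, `|J| = 10` (`j ≥ 3`): in a fibre `e' = ad e d`, `d` = (`c` off `J`, `0` on `J`) is an `Fb n B H`, `c = d + (vector of Ix 3)`: `fi3` with
`X₁ = H^(al n)` (`2 ≤ al n ≤ n + 1`): `≤ B^κ (1 + al n log H)(2H+1)^6 H^E`, `E = a - (a - 2) 3/(n-1)`, `a = al n`: `n = 5`: `23/8`; `n ≥ 6`: `3 - 1/(n-1) - 6/(n-1)²`. So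
`E + dl n + 1/(4n) ≤ 3`, `1 + a log H ≤ 4n(n+1) H^(1/(4n))`; total `(2H+1)^(M-10+6) H^(3 - dl n)`. The exponent is `κ(fi3) + 2n + 2`. -/

namespace Pool.Agent.H88.TU

open Finset Polynomial Pool.Agent.H8.AA Pool.Agent.H88.A2

/-- the indices of degree `≤ 3` -/
private def i3 (j : ℕ) (hj : 3 ≤ j) (p : Ix 3) : Ix j := ix p.1.1.val p.1.2.val (p.2.trans hj)

private theorem i3_inj (j : ℕ) (hj : 3 ≤ j) : Function.Injective (i3 j hj) := by
  intro p q h
  have h1 : (i3 j hj p).1.1.val = (i3 j hj q).1.1.val := by rw [h]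
  have h2 : (i3 j hj p).1.2.val = (i3 j hj q).1.2.val := by rw [h]
  exact Subtype.ext (Prod.ext (Fin.ext h1) (Fin.ext h2))

private theorem i3_mem (j : ℕ) (hj : 3 ≤ j) (p : Ix j) :
    p ∈ univ.image (i3 j hj) ↔ p.1.1.val + p.1.2.val ≤ 3 := by
  constructor
  · intro h
    obtain ⟨q, _, rfl⟩ := mem_image.1 h
    exact q.2
  · intro h
    exact mem_image.2 ⟨ix p.1.1.val p.1.2.val h, mem_univ _, Subtype.ext (Prod.ext (Fin.ext rfl) (Fin.ext rfl))⟩

/-- `c` with the terms of degree `≤ 3` removed -/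
private def up3 {j : ℕ} (c : Ix j → ℤ) : Ix j → ℤ := fun p => if p.1.1.val + p.1.2.val ≤ 3 then 0 else c p

/-- the terms of degree `≤ 3` -/
private def lo3 {j : ℕ} (hj : 3 ≤ j) (c : Ix j → ℤ) : Ix 3 → ℤ := fun p => c (i3 j hj p)

private theorem co_up {j : ℕ} (c : Ix j → ℤ) (a b : ℕ) : co (up3 c) a b = if a + b ≤ 3 then 0 else co c a b := by
  unfold co
  by_cases h : a + b ≤ j
  · rw [dif_pos h, dif_pos h]
    rfl
  · rw [dif_neg h, dif_neg h]
    split_ifs <;> rfl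

private theorem co_lo {j : ℕ} (hj : 3 ≤ j) (c : Ix j → ℤ) (a b : ℕ) :
    co (lo3 hj c) a b = if a + b ≤ 3 then co c a b else 0 := by
  unfold co
  by_cases h : a + b ≤ 3
  · rw [dif_pos h, if_pos h, dif_pos (h.trans hj)]
    rfl
  · rw [dif_neg h, if_neg h]

private theorem co_split {j : ℕ} (hj : 3 ≤ j) (c c' : Ix j → ℤ) (h : ∀ p, p ∉ univ.image (i3 j hj) → c' p = c p) (a b : ℕ) :
    co c' a b = co (up3 c) a b + co (lo3 hj c') a b := by
  rw [co_up, co_lo]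
  by_cases h3 : a + b ≤ 3
  · rw [if_pos h3, if_pos h3, zero_add]
  · rw [if_neg h3, if_neg h3, add_zero]
    unfold co
    by_cases hab : a + b ≤ j
    · rw [dif_pos hab, dif_pos hab]
      apply h
      rw [i3_mem]
      exact h3
    · rw [dif_neg hab, dif_neg hab]

private theorem ev_add2 (n : ℕ) (f g : ℕ → ℕ → ℤ) (x y : ℤ) :
    ev n (fun a b => f a b + g a b) x y = ev n f x y + ev n g x y := by
  unfold ev
  rw [← Finset.sum_add_distrib]
  refine Finset.sum_congr rfl fun m _ => ?_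
  rw [← Finset.sum_add_distrib]
  refine Finset.sum_congr rfl fun i _ => ?_
  ring

private theorem ev_cut {m n : ℕ} (h : m ≤ n) (f : ℕ → ℕ → ℤ) (hf : ∀ a b, m < a + b → f a b = 0) (x y : ℤ) :
    ev n f x y = ev m f x y := by
  unfold ev
  symm
  refine Finset.sum_subset (Finset.range_subset_range.2 (by omega)) fun k _ hk => ?_
  have h1 : m < k := by
    have := mt Finset.mem_range.2 hk
    omega
  refine Finset.sum_eq_zero fun i hi => ?_
  have := Finset.mem_range.1 hi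
  rw [hf _ _ (by omega), zero_mul]

private theorem co_out {j : ℕ} (c : Ix j → ℤ) {a b : ℕ} (h : j < a + b) : co c a b = 0 := by
  unfold co
  rw [dif_neg (by omega)]

private theorem co_abs {j H : ℕ} (c : Ix j → ℤ) (hc : ∀ p, |c p| ≤ (H : ℤ)) (a b : ℕ) : |co c a b| ≤ (H : ℤ) := by
  unfold co
  split_ifs with h
  · exact hc _
  · simp

private theorem ev_tot {n j : ℕ} (hj : 3 ≤ j) (hjn : j < n) (e : ℕ → ℕ → ℤ) (c c' : Ix j → ℤ)
    (h : ∀ p, p ∉ univ.image (i3 j hj) → c' p = c p) (x y : ℤ) :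
    ev n (ad e (up3 c)) x y + ev 3 (co (lo3 hj c')) x y = ev n e x y + ev j (co c') x y := by
  have h1 : ev n (ad e (up3 c)) x y = ev n e x y + ev j (co (up3 c)) x y := by
    rw [← ev_cut hjn.le (co (up3 c)) (fun a b hab => co_out _ hab)]
    exact ev_add2 n e (co (up3 c)) x y
  have h2 : ev j (co c') x y = ev j (co (up3 c)) x y + ev 3 (co (lo3 hj c')) x y := by
    rw [← ev_cut hj (co (lo3 hj c')) (fun a b hab => co_out _ hab), ← ev_add2]
    congr 1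
    funext a b
    exact co_split hj c c' h a b
  rw [h1, h2]
  ring

private theorem fm_up {n j : ℕ} (hjn : j < n) (e : ℕ → ℕ → ℤ) (c : Ix j → ℤ) : fm (ad e c) n = fm e n := by
  unfold fm
  refine Finset.sum_congr rfl fun i hi => ?_
  have := Finset.mem_range.1 hi
  have e1 : ad e c (n - i) i = e (n - i) i := by
    unfold ad
    rw [co_out c (by omega), add_zero]
  rw [e1]

private theorem fb_up {n j B H : ℕ} (hjn : j < n) (hB : 2 ≤ B) (hH : 1 ≤ H) {e : ℕ → ℕ → ℤ} (he : Bas n B e)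
    (c : Ix j → ℤ) (hc : ∀ p, |c p| ≤ (H : ℤ)) : Fb n B H (ad e c) where
  bd := by
    intro a b hab
    have h1 : |ad e c a b| ≤ |e a b| + |co c a b| := abs_add_le _ _
    have h2 := he.bd a b hab.le
    have h3 := co_abs c hc a b
    have hB1 : (2 : ℤ) ≤ B := by exact_mod_cast hB
    have hH0 : (1 : ℤ) ≤ H := by exact_mod_cast hH
    nlinarith
  tp := by
    intro a b hab
    have h7 : ad e c a b = e a b := by
      unfold ad
      rw [co_out c (by omega), add_zero]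
    rw [h7]
    have h2 := he.bd a b hab.le
    linarith
  irr := by
    rw [fm_up hjn e c]
    exact he.irr
  deg := by
    rw [fm_up hjn e c]
    exact he.deg
  gd := by
    have h := he.gd
    unfold Gd at h ⊢
    rw [fm_up hjn e c]
    exact h

private theorem al_le (n : ℕ) (hn : 5 ≤ n) : al n ≤ (n : ℝ) + 1 := by
  unfold al
  split_ifs with h
  · rw [h]
    norm_num
  · have h6 : (6 : ℝ) ≤ n := by exact_mod_cast (by omega : 6 ≤ n)
    have : 2 / ((n : ℝ) - 1) ≤ 1 := by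
      rw [div_le_one (by linarith)]
      linarith
    linarith

private theorem le_al (n : ℕ) (hn : 5 ≤ n) : 2 ≤ al n := by
  unfold al
  split_ifs with h
  · norm_num
  · have h6 : (6 : ℝ) ≤ n := by exact_mod_cast (by omega : 6 ≤ n)
    have : 0 ≤ 2 / ((n : ℝ) - 1) := div_nonneg (by norm_num) (by linarith)
    linarith

private theorem exq (n : ℕ) (hn : 5 ≤ n) :
    1 / (4 * (n : ℝ)) + (al n + (2 - al n) * (3 / ((n : ℝ) - 1))) ≤ 3 + -dl n := by
  unfold al dl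
  split_ifs with h
  · rw [h]
    norm_num
  · have h6 : (6 : ℝ) ≤ n := by exact_mod_cast (by omega : 6 ≤ n)
    obtain ⟨m, hm⟩ : ∃ m : ℝ, m = (n : ℝ) - 1 := ⟨_, rfl⟩
    have hn' : (n : ℝ) = m + 1 := by linarith
    rw [← hm, hn']
    have hm5 : 5 ≤ m := by linarith
    have hm0 : 0 < m := by linarith
    have e1 : 3 + 2 / m + (2 - (3 + 2 / m)) * (3 / m) = 3 - 1 / m - 6 / m ^ 2 := by
      field_simp
      ring
    rw [e1]
    have h1 : 1 / (4 * (m + 1)) ≤ 1 / (4 * m) := by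
      apply one_div_le_one_div_of_le <;> linarith
    have h2 : 1 / (2 * (m + 1) + 4) ≤ 1 / (2 * m) := by
      apply one_div_le_one_div_of_le <;> linarith
    have h3 : 0 ≤ 6 / m ^ 2 := by positivity
    have h4 : 1 / (4 * m) + 1 / (2 * m) ≤ 1 / m := by
      rw [div_add_div _ _ (by positivity) (by positivity), div_le_div_iff₀ (by positivity) (by positivity)]
      nlinarith
    linarith

private theorem arq (n : ℕ) (hn : 5 ≤ n) (H : ℝ) (hH : 1 ≤ H) :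
    (1 + Real.log (H ^ al n)) * (H ^ al n * (H ^ 2 / H ^ al n) ^ (3 / ((n : ℝ) - 1))) ≤
      4 * n * (n + 1) * ((2 * H + 1) ^ 3 * H ^ (-dl n)) := by
  have hH0 : 0 < H := by linarith
  have hn5 : (5 : ℝ) ≤ n := by exact_mod_cast hn
  have e1 : H ^ al n * (H ^ 2 / H ^ al n) ^ (3 / ((n : ℝ) - 1)) = H ^ (al n + (2 - al n) * (3 / ((n : ℝ) - 1))) := by
    rw [Real.rpow_add hH0, Real.rpow_mul hH0.le, Real.rpow_sub hH0, Real.rpow_two]
  obtain ⟨h, hh⟩ : ∃ h : ℝ, h = H ^ (1 / (4 * (n : ℝ))) := ⟨_, rfl⟩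
  have h1 : 1 ≤ h := by
    rw [hh]
    exact Real.one_le_rpow hH (by positivity)
  have h2 : Real.log H ≤ 4 * n * (h - 1) := by
    have h3 := Real.log_le_sub_one_of_pos (by linarith : 0 < h)
    rw [hh, Real.log_rpow hH0, ← hh] at h3
    have h4 : Real.log H = 4 * n * (1 / (4 * (n : ℝ)) * Real.log H) := by
      field_simp
    rw [h4]
    exact mul_le_mul_of_nonneg_left h3 (by positivity)
  have h0 : 0 ≤ Real.log H := Real.log_nonneg hH
  have h3 : 1 + Real.log (H ^ al n) ≤ 4 * n * (n + 1) * h := by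
    rw [Real.log_rpow hH0]
    have h4 : al n * Real.log H ≤ (n + 1) * (4 * n * (h - 1)) :=
      mul_le_mul (al_le n hn) h2 h0 (by positivity)
    nlinarith
  rw [e1]
  calc (1 + Real.log (H ^ al n)) * H ^ (al n + (2 - al n) * (3 / ((n : ℝ) - 1)))
      ≤ 4 * n * (n + 1) * h * H ^ (al n + (2 - al n) * (3 / ((n : ℝ) - 1))) :=
        mul_le_mul_of_nonneg_right h3 (Real.rpow_nonneg hH0.le _)
    _ = 4 * n * (n + 1) * H ^ (1 / (4 * (n : ℝ)) + (al n + (2 - al n) * (3 / ((n : ℝ) - 1)))) := by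
        rw [Real.rpow_add hH0 (1 / (4 * (n : ℝ))), ← hh]
        ring
    _ ≤ 4 * n * (n + 1) * H ^ (3 + -dl n) := by
        refine mul_le_mul_of_nonneg_left ?_ (by positivity)
        exact Real.rpow_le_rpow_of_exponent_le hH (exq n hn)
    _ = 4 * n * (n + 1) * (H ^ 3 * H ^ (-dl n)) := by
        rw [Real.rpow_add hH0]
        norm_cast
    _ ≤ 4 * n * (n + 1) * ((2 * H + 1) ^ 3 * H ^ (-dl n)) := by
        refine mul_le_mul_of_nonneg_left ?_ (by positivity)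
        refine mul_le_mul_of_nonneg_right ?_ (Real.rpow_nonneg hH0.le _)
        exact pow_le_pow_left₀ hH0.le (by linarith) 3

private theorem cn (n B : ℕ) (hn : 1 ≤ n) (hB : 2 ≤ B) : 4 * (n : ℝ) * (n + 1) ≤ (B : ℝ) ^ (2 * n + 2) := by
  have h1 : n < 2 ^ n := Nat.lt_two_pow_self
  have h2 : 4 * n * (n + 1) ≤ 2 ^ (2 * n + 2) := by
    calc 4 * n * (n + 1) ≤ 4 * 2 ^ n * 2 ^ n := Nat.mul_le_mul (by omega) h1
      _ = 2 ^ (2 * n + 2) := by
        rw [pow_add, two_mul, pow_add]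
        ring
  have h3 : 4 * n * (n + 1) ≤ B ^ (2 * n + 2) := h2.trans (Nat.pow_le_pow_left hB _)
  exact_mod_cast h3

/-- explicit form -/
theorem rga_ex (n j κ₀ : ℕ) (hn : 5 ≤ n) (hj : 3 ≤ j) (hjn : j < n) (hκ : Fi3S n κ₀) : RgaS n j (κ₀ + (2 * n + 2)) := by
  classical
  intro B hB e he H hH T hT
  have hB2 : (2 : ℝ) ≤ B := by exact_mod_cast hB
  have hB1 : (1 : ℝ) ≤ B := by linarith
  have hH1 : (1 : ℝ) ≤ H := by exact_mod_cast hH
  have hH0 : (0 : ℝ) < H := by linarith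
  obtain ⟨X, hX⟩ : ∃ X : ℝ, X = (H : ℝ) ^ al n := ⟨_, rfl⟩
  have hX1 : (H : ℝ) ^ 2 ≤ X := by
    rw [hX, ← Real.rpow_two]
    exact Real.rpow_le_rpow_of_exponent_le hH1 (le_al n hn)
  have hX2 : X ≤ (H : ℝ) ^ (n + 1) := by
    rw [hX, ← Real.rpow_natCast]
    refine Real.rpow_le_rpow_of_exponent_le hH1 ?_
    push_cast
    exact al_le n hn
  have hX0 : 0 < X := lt_of_lt_of_le (by positivity) hX1
  have hX11 : 1 ≤ X := (one_le_pow₀ hH1).trans hX1
  obtain ⟨Y, hY⟩ : ∃ Y : ℝ, Y = X * ((H : ℝ) ^ 2 / X) ^ (3 / ((n : ℝ) - 1)) := ⟨_, rfl⟩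
  have hY0 : 0 ≤ Y := by
    rw [hY]
    exact mul_nonneg hX0.le (Real.rpow_nonneg (by positivity) _)
  have hL : 0 ≤ 1 + Real.log X := by
    have := Real.log_nonneg hX11
    linarith
  obtain ⟨F, hF⟩ : ∃ F : ℝ, F = (B : ℝ) ^ κ₀ * (1 + Real.log X) * (2 * (H : ℝ) + 1) ^ 6 * Y := ⟨_, rfl⟩
  have hF0 : 0 ≤ F := by
    rw [hF]
    exact mul_nonneg (mul_nonneg (mul_nonneg (by positivity) hL) (by positivity)) hY0
  have hJ : (univ.image (i3 j hj)).card = 10 := by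
    rw [Finset.card_image_of_injective _ (i3_inj j hj), Finset.card_univ, card_ix]
  have hM : 10 ≤ Fintype.card (Ix j) := by
    rw [← hJ]
    exact Finset.card_le_univ _
  have hfib : T.card ≤ ⌊F⌋₊ * (2 * H + 1) ^ (Fintype.card (Ix j) - (univ.image (i3 j hj)).card) := by
    refine fib (univ.image (i3 j hj)) H ⌊F⌋₊ T (fun c hc => (hT c hc).1) ?_
    intro c hcT T' hT'
    apply Nat.le_floor
    have hinj : Set.InjOn (lo3 hj) (T' : Set (Ix j → ℤ)) := by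
      intro a ha b hb hab
      funext p
      by_cases hp : p ∈ univ.image (i3 j hj)
      · obtain ⟨q, _, rfl⟩ := mem_image.1 hp
        exact congrFun hab q
      · rw [(hT' a ha).2 p hp, (hT' b hb).2 p hp]
    have hup : ∀ p, |up3 c p| ≤ (H : ℤ) := by
      intro p
      unfold up3
      split_ifs
      · simp
      · exact (hT c hcT).1 p
    have h1 := hκ B H hB hH (ad e (up3 c)) (fb_up hjn hB hH he _ hup) X hX1 hX2 (T'.image (lo3 hj)) (by
      intro u hu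
      obtain ⟨c', hc', rfl⟩ := mem_image.1 hu
      obtain ⟨h2, x, y, hxy, hx1, hx2, hx3⟩ := hT c' (hT' c' hc').1
      refine ⟨fun p => h2 _, x, y, hxy, ?_, ?_, ?_⟩
      · refine le_trans ?_ hx1
        exact mul_le_mul_of_nonneg_right (pow_le_pow_right₀ hB1 (by omega)) hH0.le
      · rw [hX]
        exact hx2
      · rw [ev_tot hj hjn e c c' (hT' c' hc').2]
        exact hx3)
    rw [Finset.card_image_of_injOn hinj, ← hY, ← hF] at h1
    exact h1
  rw [hJ] at hfib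
  have h1 : (T.card : ℝ) ≤ F * (2 * (H : ℝ) + 1) ^ (Fintype.card (Ix j) - 10) := by
    have h2 : (T.card : ℝ) ≤ (⌊F⌋₊ : ℝ) * (2 * (H : ℝ) + 1) ^ (Fintype.card (Ix j) - 10) := by
      exact_mod_cast hfib
    exact h2.trans (mul_le_mul_of_nonneg_right (Nat.floor_le hF0) (by positivity))
  refine h1.trans ?_
  have h3 := arq n hn H hH1
  rw [← hX, ← hY] at h3
  have h4 := cn n B (by omega) hB
  have hd : 0 ≤ (H : ℝ) ^ (-dl n) := Real.rpow_nonneg hH0.le _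
  have h5 : (1 + Real.log X) * Y ≤ (B : ℝ) ^ (2 * n + 2) * ((2 * (H : ℝ) + 1) ^ 3 * (H : ℝ) ^ (-dl n)) :=
    h3.trans (mul_le_mul_of_nonneg_right h4 (by positivity))
  have e1 : (2 * (H : ℝ) + 1) ^ (Fintype.card (Ix j) - 1) =
      (2 * (H : ℝ) + 1) ^ (Fintype.card (Ix j) - 10) * (2 * (H : ℝ) + 1) ^ 6 * (2 * (H : ℝ) + 1) ^ 3 := by
    rw [← pow_add, ← pow_add]
    congr 1
    omega
  calc F * (2 * (H : ℝ) + 1) ^ (Fintype.card (Ix j) - 10)
      = ((B : ℝ) ^ κ₀ * (2 * (H : ℝ) + 1) ^ (Fintype.card (Ix j) - 10) * (2 * (H : ℝ) + 1) ^ 6) *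
          ((1 + Real.log X) * Y) := by
        rw [hF]
        ring
    _ ≤ ((B : ℝ) ^ κ₀ * (2 * (H : ℝ) + 1) ^ (Fintype.card (Ix j) - 10) * (2 * (H : ℝ) + 1) ^ 6) *
          ((B : ℝ) ^ (2 * n + 2) * ((2 * (H : ℝ) + 1) ^ 3 * (H : ℝ) ^ (-dl n))) :=
        mul_le_mul_of_nonneg_left h5 (by positivity)
    _ = (B : ℝ) ^ (κ₀ + (2 * n + 2)) * (2 * (H : ℝ) + 1) ^ (Fintype.card (Ix j) - 1) * (H : ℝ) ^ (-dl n) := by
        rw [e1, pow_add]
        ring


theorem rga (n j : ℕ) (hn : 5 ≤ n) (hj : 3 ≤ j) (hjn : j < n) : ∃ κ : ℕ, ∀ B : ℕ, 2 ≤ B → ∀ e : ℕ → ℕ → ℤ, Bas n B e →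
    ∀ H : ℕ, 1 ≤ H → ∀ T : Finset (Ix j → ℤ),
    (∀ c ∈ T, (∀ p, |c p| ≤ (H : ℤ)) ∧ ∃ x y : ℤ, |y| ≤ |x| ∧ (B : ℝ) ^ κ * H ≤ |(x : ℝ)| ∧ |(x : ℝ)| ≤ (H : ℝ) ^ al n ∧
      ev n e x y + ev j (co c) x y = 0) →
    (T.card : ℝ) ≤ (B : ℝ) ^ κ * (2 * (H : ℝ) + 1) ^ (Fintype.card (Ix j) - 1) * (H : ℝ) ^ (-dl n) := by
  obtain ⟨κ, hκ⟩ := fi3 n hn
  exact ⟨κ + (2 * n + 2), rga_ex n j κ hn hj hjn hκ⟩

end Pool.Agent.H88.TU
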